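import Mathlib
import Pool.Agent.P.MP_ef7593_lc.Jump

/-! Relativised Friedberg jump inversion, and its iteration. -/

set_option autoImplicit false
set_option backward.isDefEq.respectTransparency false
open Encodable Denumerable
open Nat.Partrec (Code)
open Nat.Partrec.Code

namespace Pool.Agent.P.MP_9f8894_lc.Inv

open Pool.Agent.P.MP_ef7593_lc

theorem ci_trans {α σ : Type} [Primcodable α] [Primcodable σ] {X : ℕ → Bool}
    {O : Set (ℕ →. ℕ)} {f : α → σ} (hf : ComputableIn {chi X} f) (hX : ComputableIn O X) :
    ComputableIn O f :=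
  RecursiveIn.subst hf (by simpa using tr_of_ci hX)

theorem ci_of_ce {X W : ℕ → Bool} (h : CEIn X W) : ComputableIn {chi (J X)} W :=
  ci_of_tr ((isJump_J X).2 W h)

theorem le_J (X : ℕ → Bool) : ComputableIn {chi (J X)} X :=
  ci_of_ce (ceIn_of_exists (p := fun n _ => X n) (ci_comp (ci_self X) ComputableIn.fst)
    fun n => by simp)

theorem J_mono {X Y : ℕ → Bool} (h : ComputableIn {chi Y} X) : ComputableIn {chi (J Y)} (J X) :=
  ci_of_ce ((isJump_J X).1.mono (tr_of_ci h))

theorem iter_mono {X Y : ℕ → Bool} (h : ComputableIn {chi Y} X) (n : ℕ) :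
    ComputableIn {chi (J^[n] Y)} (J^[n] X) := by
  induction n with
  | zero => exact h
  | succ n ih => rw [Function.iterate_succ_apply', Function.iterate_succ_apply']; exact J_mono ih

/-- The join of two sets. -/
def join (X G : ℕ → Bool) (n : ℕ) : Bool := if n % 2 = 0 then X (n / 2) else G (n / 2)

theorem join_left (X G : ℕ → Bool) : ComputableIn {chi (join X G)} X := by
  refine ci_of_eq (ci_comp (ci_self (join X G)) Primrec.nat_double.computableIn) fun n => ?_
  simp [join]

theorem join_right (X G : ℕ → Bool) : ComputableIn {chi (join X G)} G := by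
  refine ci_of_eq (ci_comp (ci_self (join X G)) Primrec.nat_double_succ.computableIn) fun n => ?_
  have h1 : (2 * n + 1) % 2 = 1 := by omega
  have h2 : (2 * n + 1) / 2 = n := by omega
  simp [join, h1, h2]

/-- Interleaving of two finite strings, cut at length `l`. -/
def mixL (a b : List Bool) (l : ℕ) : List Bool :=
  (List.range l).map fun n => if n % 2 = 0 then a.getD (n / 2) false else b.getD (n / 2) false

theorem prim_mixL : Primrec fun q : List Bool × List Bool × ℕ => mixL q.1 q.2.1 q.2.2 := by
  refine Primrec.list_map (Primrec.list_range.comp (Primrec.snd.comp Primrec.snd)) ?_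
  have hd : Primrec fun r : (List Bool × List Bool × ℕ) × ℕ => r.2 / 2 :=
    Primrec.nat_div.comp Primrec.snd (Primrec.const 2)
  exact Primrec.ite (Primrec.eq.comp (Primrec.nat_mod.comp Primrec.snd (Primrec.const 2))
      (Primrec.const 0))
    ((Primrec.list_getD false).comp (Primrec.fst.comp Primrec.fst) hd)
    ((Primrec.list_getD false).comp (Primrec.fst.comp (Primrec.snd.comp Primrec.fst)) hd)

theorem seg_getD (X : ℕ → Bool) {n s : ℕ} (h : n < s) : (seg X s).getD n false = X n := by
  rw [List.getD_eq_getElem?_getD, seg_getElem? X h]; rfl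

theorem mixL_seg (X G : ℕ → Bool) {l m : ℕ} (h : l ≤ 2 * m) :
    mixL (seg X l) (seg G m) l = seg (join X G) l := by
  unfold mixL
  conv_rhs => unfold seg
  refine List.map_congr_left fun n hn => ?_
  have hn' : n < l := List.mem_range.1 hn
  rw [seg_getD X (show n / 2 < l by omega), seg_getD G (show n / 2 < m by omega), join]

/-- Reading a string off a number. -/
def dec (n : ℕ) : List Bool := (decode (α := List Bool) n).getD []

theorem prim_dec : Primrec dec := Primrec.option_getD.comp Primrec.decode (Primrec.const [])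

@[simp] theorem dec_encode (a : List Bool) : dec (encode a) = a := by simp [dec]

/-- The test on a string `a` standing for an initial segment of `X`. -/
def tst (q : ℕ × List Bool) (t : ℕ) (a : List Bool) : Bool :=
  decide (t.unpair.2.unpair.1 ≤ 2 * (q.2 ++ dec t.unpair.1).length) &&
    (evaln t.unpair.2.unpair.2 (ofNat Code q.1)
      (encode (mixL a (q.2 ++ dec t.unpair.1) t.unpair.2.unpair.1))).isSome

theorem prim_tst : Primrec fun r : ((ℕ × List Bool) × ℕ) × List Bool => tst r.1.1 r.1.2 r.2 := by
  have ht : Primrec fun r : ((ℕ × List Bool) × ℕ) × List Bool => r.1.2.unpair :=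
    Primrec.unpair.comp (Primrec.snd.comp Primrec.fst)
  have hu : Primrec fun r : ((ℕ × List Bool) × ℕ) × List Bool => r.1.2.unpair.2.unpair :=
    Primrec.unpair.comp (Primrec.snd.comp ht)
  have ha : Primrec fun r : ((ℕ × List Bool) × ℕ) × List Bool =>
      r.1.1.2 ++ dec r.1.2.unpair.1 :=
    Primrec.list_append.comp (Primrec.snd.comp (Primrec.fst.comp Primrec.fst))
      (prim_dec.comp (Primrec.fst.comp ht))
  refine Primrec.and.comp (Primrec.nat_le.decide.comp (Primrec.fst.comp hu)
    (Primrec.nat_double.comp (Primrec.list_length.comp ha))) ?_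
  exact Primrec.option_isSome.comp (primrec_evaln.comp
    (((Primrec.snd.comp hu).pair ((Primrec.ofNat Code).comp
      (Primrec.fst.comp (Primrec.fst.comp Primrec.fst)))).pair
      (Primrec.encode.comp (prim_mixL.comp (Primrec.snd.pair (ha.pair (Primrec.fst.comp hu)))))))

/-- `t` codes an extension of the string forcing the machine to halt. -/
def hit (X : ℕ → Bool) (q : ℕ × List Bool) (t : ℕ) : Bool := tst q t (seg X t.unpair.2.unpair.1)

theorem ci_hit (X : ℕ → Bool) : ComputableIn₂ {chi X} (hit X) := by
  have h0 : Primrec fun r : (ℕ × List Bool) × ℕ => r.2.unpair.2.unpair.1 :=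
    Primrec.fst.comp (Primrec.unpair.comp (Primrec.snd.comp (Primrec.unpair.comp Primrec.snd)))
  have h1 := ci_comp prim_tst.computableIn
    (ci_pair ComputableIn.id (ci_comp (ci_seg (ci_self X)) h0.computableIn))
  exact ci_of_eq h1 fun r => rfl

open Classical in
/-- Some extension forces halting. -/
noncomputable def QB (X : ℕ → Bool) (q : ℕ × List Bool) : Bool := decide (∃ t, hit X q t = true)

theorem ci_QB (X : ℕ → Bool) : ComputableIn {chi (J X)} (QB X) := by
  have hp : Primrec fun n : ℕ => (n.unpair.1, dec n.unpair.2) :=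
    (Primrec.fst.comp Primrec.unpair).pair (prim_dec.comp (Primrec.snd.comp Primrec.unpair))
  have h0 := ci_comp (ci_hit X)
    (ci_pair (hp.comp (Primrec.fst (β := ℕ))).computableIn ComputableIn.snd)
  have h1 : CEIn X fun n => QB X (n.unpair.1, dec n.unpair.2) :=
    ceIn_of_exists (p := fun n t => hit X (n.unpair.1, dec n.unpair.2) t)
      (ci_of_eq h0 fun r => rfl) fun n => by simp [QB]
  have h2 : Primrec fun q : ℕ × List Bool => Nat.pair q.1 (encode q.2) :=
    Primrec₂.natPair.comp Primrec.fst (Primrec.encode.comp Primrec.snd)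
  exact ci_of_eq (ci_comp (ci_of_ce h1) h2.computableIn) fun q => by simp

theorem ex_t (X : ℕ → Bool) (q : ℕ × List Bool) : ∃ t, (hit X q t || !QB X q) = true := by
  by_cases h : ∃ t, hit X q t = true
  · obtain ⟨t, ht⟩ := h
    exact ⟨t, by simp [ht]⟩
  · exact ⟨0, by simp [QB, h]⟩

/-- The chosen extension. -/
noncomputable def ext (X : ℕ → Bool) (q : ℕ × List Bool) : List Bool :=
  q.2 ++ dec (Nat.find (ex_t X q)).unpair.1

theorem ci_ext (X : ℕ → Bool) : ComputableIn {chi (J X)} (ext X) := by
  have h0 := ci_comp (Primrec.dom_finite fun b : Bool × Bool => (b.1 || !b.2)).computableIn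
      (ci_pair (ci_trans (ci_hit X) (le_J X)) (ci_comp (ci_QB X) ComputableIn.fst))
  have h1 : ComputableIn₂ {chi (J X)} fun q t => (hit X q t || !QB X q) :=
    ci_of_eq h0 fun r => rfl
  have h2 := ci_find h1 (ex_t X)
  have h3 : Primrec fun r : (ℕ × List Bool) × ℕ => r.1.2 ++ dec r.2.unpair.1 :=
    Primrec.list_append.comp (Primrec.snd.comp Primrec.fst)
      (prim_dec.comp (Primrec.fst.comp (Primrec.unpair.comp Primrec.snd)))
  have h4 := ci_comp h3.computableIn (ci_pair ComputableIn.id h2)
  exact ci_of_eq h4 fun r => rfl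

/-- The stages of the construction. -/
noncomputable def stg (X A : ℕ → Bool) (e : ℕ) : List Bool :=
  Nat.rec (motive := fun _ => List Bool) [] (fun e s => ext X (e, s) ++ [A e]) e

theorem stg_succ (X A : ℕ → Bool) (e : ℕ) :
    stg X A (e + 1) = ext X (e, stg X A e) ++ [A e] := rfl

theorem stg_prefix (X A : ℕ → Bool) {e m : ℕ} (h : e ≤ m) : stg X A e <+: stg X A m := by
  induction m, h using Nat.le_induction with
  | base => exact List.prefix_refl _
  | succ m _ ih =>
    refine ih.trans ?_
    rw [stg_succ, ext, List.append_assoc]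
    exact List.prefix_append _ _

theorem le_length_stg (X A : ℕ → Bool) (e : ℕ) : e ≤ (stg X A e).length := by
  induction e with
  | zero => exact Nat.zero_le _
  | succ e ih => rw [stg_succ, ext]; simp; omega

/-- The generic set. -/
noncomputable def gen (X A : ℕ → Bool) (n : ℕ) : Bool := (stg X A (n + 1)).getD n false

theorem getD_of_prefix {a b : List Bool} (h : a <+: b) {i : ℕ} (hi : i < a.length) :
    b.getD i false = a.getD i false := by
  obtain ⟨c, rfl⟩ := h
  simp [List.getD_eq_getElem?_getD, List.getElem?_append_left hi]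

theorem gen_eq (X A : ℕ → Bool) {a : List Bool} {m : ℕ} (h : a <+: stg X A m) {i : ℕ}
    (hi : i < a.length) : gen X A i = a.getD i false := by
  have h1 := getD_of_prefix (h.trans (stg_prefix X A (le_max_left m (i + 1)))) hi
  have h2 := getD_of_prefix (stg_prefix X A (le_max_right m (i + 1)))
    (show i < (stg X A (i + 1)).length from le_length_stg X A (i + 1))
  rw [gen, ← h2, h1]

theorem eq_seg (X A : ℕ → Bool) {a : List Bool} {m : ℕ} (h : a <+: stg X A m) :
    a = seg (gen X A) a.length := by
  refine List.ext_getElem? fun i => ?_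
  by_cases hi : i < a.length
  · rw [seg_getElem? _ hi, gen_eq X A h hi, List.getD_eq_getElem?_getD,
      List.getElem?_eq_getElem hi]
    rfl
  · rw [List.getElem?_eq_none (by omega), List.getElem?_eq_none (by simp; omega)]

theorem ext_prefix (X A : ℕ → Bool) (e : ℕ) : ext X (e, stg X A e) <+: stg X A (e + 1) :=
  List.prefix_append _ _

theorem J_gen (X A : ℕ → Bool) (e : ℕ) : J (join X (gen X A)) e = QB X (e, stg X A e) := by
  rw [Bool.eq_iff_iff, J_iff]
  constructor
  · rintro ⟨l, hl⟩
    obtain ⟨k, hk⟩ := (dom_iff_evaln _ _).1 hl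
    obtain ⟨c, hc⟩ := stg_prefix X A (le_max_left e l)
    have hlen : l ≤ 2 * (stg X A (max e l)).length := by
      have := le_length_stg X A (max e l)
      have := le_max_right e l
      omega
    simp only [QB, decide_eq_true_eq]
    refine ⟨Nat.pair (encode c) (Nat.pair l k), ?_⟩
    simp only [hit, tst, Nat.unpair_pair, dec_encode, hc, Bool.and_eq_true, decide_eq_true_eq]
    refine ⟨hlen, ?_⟩
    rw [eq_seg X A (List.prefix_refl (stg X A (max e l))), mixL_seg X _ hlen]
    exact hk
  · intro h
    have h1 := Nat.find_spec (ex_t X (e, stg X A e))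
    have h4 := eq_seg X A (ext_prefix X A e)
    unfold ext at h4
    generalize Nat.find (ex_t X (e, stg X A e)) = t at h1 h4
    rw [h] at h1
    simp only [Bool.not_true, Bool.or_false, hit, tst, Bool.and_eq_true, decide_eq_true_eq] at h1
    obtain ⟨h2, h3⟩ := h1
    rw [h4, mixL_seg X _ h2] at h3
    exact ⟨_, (dom_iff_evaln _ _).2 ⟨_, h3⟩⟩

theorem A_eq (X A : ℕ → Bool) (e : ℕ) : A e = gen X A (ext X (e, stg X A e)).length := by
  rw [gen_eq X A (List.prefix_refl (stg X A (e + 1))) (by rw [stg_succ]; simp), stg_succ]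
  simp

/-- Relativised Friedberg jump inversion. -/
theorem inversion {X A : ℕ → Bool} (h : ComputableIn {chi A} (J X)) :
    ∃ Y : ℕ → Bool, ComputableIn {chi Y} X ∧ ComputableIn {chi A} (J Y) ∧
      ComputableIn {chi (J Y)} A := by
  refine ⟨join X (gen X A), join_left _ _, ?_, ?_⟩
  · have h00 := ci_comp Primrec.list_concat.computableIn
      (ci_pair (ci_comp (ci_trans (ci_ext X) h) (ComputableIn.snd (α := ℕ)))
        (ci_comp (ci_self A) (Primrec.fst.comp Primrec.snd).computableIn))
    have h0 := ci_nat_rec (O := {chi A}) (f := fun e : ℕ => e) (g := fun _ => ([] : List Bool))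
        (h := fun _ p => ext X p ++ [A p.1]) ComputableIn.id (ComputableIn.const _)
        (ci_of_eq h00 fun r => rfl)
    have h1 : ComputableIn {chi A} (stg X A) := ci_of_eq h0 fun r => rfl
    exact ci_of_eq (ci_comp (ci_trans (ci_QB X) h) (ci_pair ComputableIn.id h1))
      fun e => (J_gen X A e).symm
  · have hX := J_mono (join_left X (gen X A))
    have hG := ci_trans (join_right X (gen X A)) (le_J _)
    have hE := ci_trans (ci_ext X) hX
    have hb : ComputableIn {chi (J (join X (gen X A)))}
        fun p : ℕ × List Bool => gen X A (ext X p).length :=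
      ci_comp hG (ci_comp Primrec.list_length.computableIn hE)
    have h0 := ci_comp Primrec.list_concat.computableIn
        (ci_pair (ci_comp hE (ComputableIn.snd (α := ℕ))) (ci_comp hb ComputableIn.snd))
    have h1 := ci_nat_rec (f := fun e : ℕ => e) (g := fun _ => ([] : List Bool))
      (h := fun _ p => ext X p ++ [gen X A (ext X p).length]) ComputableIn.id
      (ComputableIn.const _) (ci_of_eq h0 fun r => rfl)
    have h2 : ComputableIn {chi (J (join X (gen X A)))} (stg X A) := by
      refine ci_of_eq h1 fun e => ?_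
      induction e with
      | zero => rfl
      | succ e ih =>
        simp only at ih ⊢
        rw [ih, stg_succ, ← A_eq]
    exact ci_of_eq (ci_comp hb (ci_pair ComputableIn.id h2)) fun e => (A_eq X A e).symm

/-- Iterated relativised jump inversion. -/
theorem inversion_iter (X : ℕ → Bool) (n : ℕ) {A : ℕ → Bool}
    (h : ComputableIn {chi A} (J^[n] X)) :
    ∃ Y : ℕ → Bool, ComputableIn {chi Y} X ∧ ComputableIn {chi A} (J^[n] Y) ∧
      ComputableIn {chi (J^[n] Y)} A := by
  induction n generalizing A with
  | zero => exact ⟨A, h, ci_self A, ci_self A⟩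
  | succ n ih =>
    rw [Function.iterate_succ_apply'] at h
    obtain ⟨W, h1, h2, h3⟩ := inversion h
    obtain ⟨Y, h4, h5, h6⟩ := ih h1
    refine ⟨Y, h4, ?_, ?_⟩ <;> rw [Function.iterate_succ_apply']
    · exact ci_trans (J_mono h5) h2
    · exact ci_trans h3 (J_mono h6)

end Pool.Agent.P.MP_9f8894_lc.Inv
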