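import Mathlib
import Pool.Agent.P.MP_9f8894_lc.Inv

/-! From iterated jumps of sets to the formulation with many-one complete sets. -/

set_option autoImplicit false
set_option backward.isDefEq.respectTransparency false
open Encodable Denumerable
open Nat.Partrec (Code)
open Nat.Partrec.Code

namespace Pool.Agent.P.MP_9f8894_lc.Inv

open Pool.Agent.P.MP_ef7593_lc

/-- `A` is enumerable in `O` and many-one complete among such sets. -/
def IsJD (O : Set (ℕ →. ℕ)) (A : Set ℕ) : Prop :=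
  (∃ f : ℕ →. ℕ, RecursiveIn O f ∧ ∀ x, x ∈ A ↔ (f x).Dom) ∧
    (∀ S : Set ℕ, (∃ f : ℕ →. ℕ, RecursiveIn O f ∧ ∀ x, x ∈ S ↔ (f x).Dom) →
      ∃ g : ℕ → ℕ, Computable g ∧ ∀ x, x ∈ S ↔ g x ∈ A)

theorem isJD_J {O : Set (ℕ →. ℕ)} {D : ℕ → Bool} (h1 : ComputableIn O D)
    (h2 : ∀ g ∈ O, RecursiveIn {chi D} g) : IsJD O {e | J D e = true} := by
  constructor
  · obtain ⟨f, hf, h⟩ := (isJump_J D).1
    exact ⟨f, RecursiveIn.subst (O := {chi D}) hf (by simpa using tr_of_ci h1), h⟩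
  · rintro S ⟨f, hf, hS⟩
    obtain ⟨F, hF⟩ := exists_use (RecursiveIn.subst hf h2)
    obtain ⟨c, hc⟩ := hF.exists_code
    have h3 : Primrec fun x : ℕ => encode (curry c x) :=
      Primrec.encode.comp (primrec₂_curry.comp (Primrec.const c) Primrec.id)
    refine ⟨_, h3.to_comp, fun x => ?_⟩
    rw [Set.mem_ofPred_eq, J_iff, hS, ofNat_encode]
    simp only [eval_curry, hc, Part.dom_iff_mem]
    constructor
    · rintro ⟨v, hv⟩
      obtain ⟨s, hs⟩ := (hF.complete _ _ hv).exists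
      exact ⟨s, v, hs⟩
    · rintro ⟨l, v, hv⟩
      exact ⟨v, hF.sound _ _ _ hv⟩

open Classical in
theorem chi_set {A : Set ℕ} {X : ℕ → Bool} (h : ∀ x, x ∈ A ↔ X x = true) :
    (fun x => Part.some (if x ∈ A then 1 else 0) : ℕ →. ℕ) = chi X := by
  funext x
  simp [chi, h]

theorem isJD_chi (X : ℕ → Bool) : IsJD {chi X} {e | J X e = true} :=
  isJD_J (ci_self X) fun g hg => RecursiveIn.oracle g hg

theorem isJD_empty : IsJD ∅ {e | J (fun _ => false) e = true} :=
  isJD_J (ComputableIn.const false) fun _ hg => hg.elim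

/-- The graphs of three functions, as one set. -/
def gr (u v w : ℕ → ℕ) (n : ℕ) : Bool :=
  decide ((if n.unpair.1 = 0 then u n.unpair.2.unpair.1 else
    if n.unpair.1 = 1 then v n.unpair.2.unpair.1 else w n.unpair.2.unpair.1) = n.unpair.2.unpair.2)

theorem ci_gr {O : Set (ℕ →. ℕ)} {u v w : ℕ → ℕ} (hu : ComputableIn O u) (hv : ComputableIn O v)
    (hw : ComputableIn O w) : ComputableIn O (gr u v w) := by
  have hk : Primrec fun n : ℕ => n.unpair.2.unpair.1 :=
    Primrec.fst.comp (Primrec.unpair.comp (Primrec.snd.comp Primrec.unpair))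
  have hi : Primrec fun r : ℕ × ℕ × ℕ × ℕ => r.1.unpair.1 :=
    Primrec.fst.comp (Primrec.unpair.comp Primrec.fst)
  have hp : Primrec fun r : ℕ × ℕ × ℕ × ℕ => decide ((if r.1.unpair.1 = 0 then r.2.1 else
      if r.1.unpair.1 = 1 then r.2.2.1 else r.2.2.2) = r.1.unpair.2.unpair.2) :=
    Primrec.eq.decide.comp
      (Primrec.ite (Primrec.eq.comp hi (Primrec.const 0)) (Primrec.fst.comp Primrec.snd)
        (Primrec.ite (Primrec.eq.comp hi (Primrec.const 1))
          (Primrec.fst.comp (Primrec.snd.comp Primrec.snd))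
          (Primrec.snd.comp (Primrec.snd.comp Primrec.snd))))
      (Primrec.snd.comp (Primrec.unpair.comp (Primrec.snd.comp (Primrec.unpair.comp Primrec.fst))))
  have h := ci_comp hp.computableIn (ci_pair ComputableIn.id
    (ci_pair (ci_comp hu hk.computableIn)
      (ci_pair (ci_comp hv hk.computableIn) (ci_comp hw hk.computableIn))))
  exact ci_of_eq h fun n => rfl

theorem ci_of_graph {D : ℕ → Bool} {u : ℕ → ℕ} (i : ℕ)
    (h : ∀ k y, D (Nat.pair i (Nat.pair k y)) = decide (u k = y)) : ComputableIn {chi D} u := by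
  have h1 : Primrec fun r : ℕ × ℕ => Nat.pair i (Nat.pair r.1 r.2) :=
    Primrec₂.natPair.comp (Primrec.const i) (Primrec₂.natPair.comp Primrec.fst Primrec.snd)
  have h2 := ci_comp (ci_self D) h1.computableIn
  have h3 : ComputableIn₂ {chi D} fun k y => D (Nat.pair i (Nat.pair k y)) :=
    ci_of_eq h2 fun r => rfl
  have h4 : ∀ k, ∃ y, D (Nat.pair i (Nat.pair k y)) = true := fun k => ⟨u k, by simp [h]⟩
  refine ci_of_eq (ci_find h3 h4) fun k => ?_
  have h5 := Nat.find_spec (h4 k)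
  rw [h] at h5
  exact (of_decide_eq_true h5).symm

theorem isJD_three (u v w : ℕ → ℕ) :
    IsJD ({fun k => Part.some (u k), fun k => Part.some (v k), fun k => Part.some (w k)} :
      Set (ℕ →. ℕ)) {e | J (gr u v w) e = true} := by
  refine isJD_J (ci_gr (RecursiveIn.oracle _ (by simp)) (RecursiveIn.oracle _ (by simp))
    (RecursiveIn.oracle _ (by simp))) ?_
  rintro g (rfl | rfl | rfl)
  · exact ci_of_graph (u := u) 0 fun k y => by simp [gr]
  · exact ci_of_graph (u := v) 1 fun k y => by simp [gr]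
  · exact ci_of_graph (u := w) 2 fun k y => by simp [gr]

open Classical in
/-- A Boolean algebra computable in a low set and without computable copy refutes the
conjecture in the formulation with many-one complete sets. -/
theorem bridge (n : ℕ) (hn : 5 ≤ n) (Y : ℕ → Bool)
    (hY : ComputableIn {chi (J^[n] fun _ => false)} (J^[n] Y))
    (B : Type) [BooleanAlgebra B] (e : ℕ ≃ B)
    (h1 : ComputableIn₂ {chi Y} fun a b : ℕ => e.symm (e a ⊔ e b))
    (h2 : ComputableIn₂ {chi Y} fun a b : ℕ => e.symm (e a ⊓ e b))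
    (h3 : ComputableIn {chi Y} fun a : ℕ => e.symm (e a)ᶜ)
    (hno : ∀ f : ℕ ≃ B, ¬ Computable₂ fun a b : ℕ => f.symm (f a ⊓ f b)) :
    ¬ (∀ IsJ : Set (ℕ →. ℕ) → Set ℕ → Prop,
    (∀ (O : Set (ℕ →. ℕ)) (A : Set ℕ), IsJ O A ↔
      ((∃ f : ℕ →. ℕ, RecursiveIn O f ∧ ∀ x, x ∈ A ↔ (f x).Dom) ∧
       (∀ S : Set ℕ, (∃ f : ℕ →. ℕ, RecursiveIn O f ∧ ∀ x, x ∈ S ↔ (f x).Dom) →
          ∃ g : ℕ → ℕ, Computable g ∧ ∀ x, x ∈ S ↔ g x ∈ A))) →
  ∀ n : ℕ, 5 ≤ n →
  ∀ (B : Type) [BooleanAlgebra B] (e : ℕ ≃ B),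
    (∃ J K : ℕ → Set ℕ,
      IsJ ({fun k => Part.some (e.symm (e k.unpair.1 ⊔ e k.unpair.2)),
            fun k => Part.some (e.symm (e k.unpair.1 ⊓ e k.unpair.2)),
            fun k => Part.some (e.symm (e k)ᶜ)} : Set (ℕ →. ℕ)) (J 0) ∧
      (∀ k, IsJ ({fun x => Part.some (if x ∈ J k then 1 else 0)} : Set (ℕ →. ℕ)) (J (k + 1))) ∧
      IsJ (∅ : Set (ℕ →. ℕ)) (K 0) ∧
      (∀ k, IsJ ({fun x => Part.some (if x ∈ K k then 1 else 0)} : Set (ℕ →. ℕ)) (K (k + 1))) ∧
      RecursiveIn ({fun x => Part.some (if x ∈ K (n - 1) then 1 else 0)} : Set (ℕ →. ℕ))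
        (fun x => Part.some (if x ∈ J (n - 1) then 1 else 0))) →
    ∃ f : ℕ ≃ B,
      Computable₂ (fun a b : ℕ => f.symm (f a ⊔ f b)) ∧
      Computable₂ (fun a b : ℕ => f.symm (f a ⊓ f b)) ∧
      Computable (fun a : ℕ => f.symm (f a)ᶜ)) := by
  intro H
  obtain ⟨m, rfl⟩ : ∃ m, n = m + 1 := ⟨n - 1, by omega⟩
  let D : ℕ → Bool := gr (fun k => e.symm (e k.unpair.1 ⊔ e k.unpair.2))
    (fun k => e.symm (e k.unpair.1 ⊓ e k.unpair.2)) (fun k => e.symm (e k)ᶜ)
  have hD : ComputableIn {chi Y} D :=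
    ci_gr (ci_of_eq (ci_comp h1 ComputableIn.unpair) fun _ => rfl)
      (ci_of_eq (ci_comp h2 ComputableIn.unpair) fun _ => rfl) h3
  have hstep : ∀ (X : ℕ → Bool) (A : ℕ → Set ℕ), (∀ k, A k = {x | J^[k + 1] X x = true}) → ∀ k,
      IsJD ({fun x => Part.some (if x ∈ A k then 1 else 0)} : Set (ℕ →. ℕ)) (A (k + 1)) :=
    fun X A hA k => by
    have h := isJD_chi (J^[k + 1] X)
    rw [← chi_set (A := A k) (fun x => by rw [hA]; rfl), ← Function.iterate_succ_apply' J (k + 1),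
      ← hA] at h
    exact h
  have hlast : ∀ A A' : Set ℕ, (∀ x, x ∈ A ↔ J^[m + 1] D x = true) →
      (∀ x, x ∈ A' ↔ J^[m + 1] (fun _ => false) x = true) →
      RecursiveIn ({fun x => Part.some (if x ∈ A' then 1 else 0)} : Set (ℕ →. ℕ))
        (fun x => Part.some (if x ∈ A then 1 else 0)) := fun A A' hA hA' => by
    have h := tr_of_ci (ci_trans (iter_mono hD (m + 1)) hY)
    rw [← chi_set hA, ← chi_set hA'] at h
    exact h
  obtain ⟨f, -, hf, -⟩ := H IsJD (fun _ _ => Iff.rfl) (m + 1) hn B e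
    ⟨fun k => {x | J^[k + 1] D x = true}, fun k => {x | J^[k + 1] (fun _ => false) x = true},
      isJD_three _ _ _, hstep D _ fun _ => rfl, isJD_empty, hstep _ _ fun _ => rfl,
      hlast _ _ (fun _ => Iff.rfl) fun _ => Iff.rfl⟩
  exact hno f hf

end Pool.Agent.P.MP_9f8894_lc.Inv
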