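import Mathlib
import Pool.Agent.P.MP_9f8894_lc.Inv

/-! A numbering with decidable equality can be made bijective. -/

set_option autoImplicit false
set_option backward.isDefEq.respectTransparency false

namespace Pool.Agent.P.MP_9f8894_lc.Inv

open Pool.Agent.P.MP_ef7593_lc

variable {O : Set (ℕ →. ℕ)}

theorem ci_ball {α : Type} [Primcodable α] {p : α → ℕ → Bool} (hp : ComputableIn₂ O p)
    {f : α → ℕ} (hf : ComputableIn O f) :
    ComputableIn O fun a => decide (∀ b < f a, p a b = true) := by
  have h0 := ci_comp (Primrec.dom_finite fun b : Bool × Bool => (b.1 && b.2)).computableIn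
    (ci_pair (Primrec.snd.comp (Primrec.snd (α := α) (β := ℕ × Bool))).computableIn
      (ci_comp hp (ci_pair ComputableIn.fst (Primrec.fst.comp Primrec.snd).computableIn)))
  have h1 := ci_nat_rec (O := O) (g := fun _ : α => true)
    (h := fun a q => (q.2 && p a q.1)) hf (ComputableIn.const _) (ci_of_eq h0 fun _ => rfl)
  refine ci_of_eq h1 fun a => ?_
  induction f a with
  | zero => simp
  | succ n ih => simp only [ih, Nat.forall_lt_succ_right, Bool.decide_and, Bool.decide_eq_true]

theorem ci_nth {p : ℕ → Bool} (hp : ComputableIn O p) (hi : {n | p n = true}.Infinite) :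
    ComputableIn O (Nat.nth fun n => p n = true) := by
  have hex : ∀ k : ℕ, ∃ n, (decide (k ≤ n) && p n) = true := fun k => by
    obtain ⟨n, hn, hk⟩ := hi.exists_gt k
    exact ⟨n, by simpa using ⟨hk.le, hn⟩⟩
  have h0 := ci_comp (Primrec.dom_finite fun b : Bool × Bool => (b.1 && b.2)).computableIn
    (ci_pair (Primrec.nat_le.decide.comp (Primrec.fst (α := ℕ)) Primrec.snd).computableIn
      (ci_comp hp ComputableIn.snd))
  have h1 : ComputableIn₂ O fun k n : ℕ => (decide (k ≤ n) && p n) := ci_of_eq h0 fun _ => rfl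
  have h2 := ci_find h1 hex
  have h3 := ci_comp h2 (Primrec.succ.comp (Primrec.snd.comp
    (Primrec.snd (α := ℕ) (β := ℕ × ℕ)))).computableIn
  have h4 := ci_nat_rec (O := O) (f := fun n : ℕ => n) (g := fun _ : ℕ => Nat.find (hex 0))
    (h := fun _ q => Nat.find (hex (q.2 + 1))) ComputableIn.id (ComputableIn.const _)
    (ci_of_eq h3 fun _ => rfl)
  refine ci_of_eq h4 fun n => ?_
  induction n with
  | zero =>
    refine (Nat.find_eq_iff _).2 ⟨by simpa using Nat.nth_mem_of_infinite hi 0, fun m hm h => ?_⟩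
    simp only [Nat.zero_le, decide_true, Bool.true_and] at h
    obtain ⟨k, hk⟩ := Nat.subset_range_nth (p := fun n => p n = true) h
    rw [← hk] at hm
    exact absurd ((Nat.nth_lt_nth hi).1 hm) (Nat.not_lt_zero k)
  | succ n ih =>
    simp only at ih ⊢
    rw [ih]
    refine (Nat.find_eq_iff _).2 ⟨?_, fun m hm h => ?_⟩
    · simp only [Bool.and_eq_true, decide_eq_true_eq]
      exact ⟨(Nat.nth_lt_nth hi).2 (Nat.lt_succ_self n), Nat.nth_mem_of_infinite hi _⟩
    · simp only [Bool.and_eq_true, decide_eq_true_eq] at h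
      obtain ⟨k, hk⟩ := Nat.subset_range_nth (p := fun n => p n = true) h.2
      rw [← hk] at hm h
      have h5 := (Nat.nth_lt_nth hi).1 hm
      have h6 := (Nat.nth_lt_nth hi).1 (Nat.lt_of_succ_le h.1)
      omega

theorem exists_equiv {B : Type} [Infinite B] (φ : ℕ → B) (hs : Function.Surjective φ)
    {q : ℕ → ℕ → Bool} (hq : ComputableIn₂ O q) (h : ∀ a b, q a b = true ↔ φ a = φ b) :
    ∃ (e : ℕ ≃ B) (r : ℕ → ℕ), ComputableIn O r ∧ (∀ n, e n = φ (r n)) ∧
      ComputableIn O fun a => e.symm (φ a) := by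
  classical
  let p : ℕ → Bool := fun a => decide (∀ b < a, (!q a b) = true)
  have hp : ComputableIn O p :=
    ci_ball (ci_of_eq (ci_comp Primrec.not.computableIn hq) fun _ => rfl) ComputableIn.id
  have hp' : ∀ a, p a = true ↔ ∀ b < a, φ a ≠ φ b := fun a => by
    simp only [p, decide_eq_true_eq, Bool.not_eq_true', ← Bool.not_eq_true, h, ne_eq]
  have hmin : ∀ x : B, ∃ a, p a = true ∧ φ a = x := fun x => by
    refine ⟨Nat.find (hs x), (hp' _).2 fun b hb he => ?_, Nat.find_spec (hs x)⟩
    exact Nat.find_min (hs x) hb (he ▸ Nat.find_spec (hs x))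
  have hi : {n | p n = true}.Infinite := fun hf => by
    refine Set.infinite_univ (α := B) ((hf.image φ).subset fun x _ => ?_)
    obtain ⟨a, ha, rfl⟩ := hmin x
    exact ⟨a, ha, rfl⟩
  have hr := ci_nth hp hi
  set r := Nat.nth fun n => p n = true with hrd
  have hb : Function.Bijective fun n => φ (r n) := by
    constructor
    · intro m n hmn
      by_contra hne
      rcases lt_or_gt_of_ne hne with hl | hl
      · exact (hp' _).1 (Nat.nth_mem_of_infinite hi n) _ ((Nat.nth_lt_nth hi).2 hl) hmn.symm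
      · exact (hp' _).1 (Nat.nth_mem_of_infinite hi m) _ ((Nat.nth_lt_nth hi).2 hl) hmn
    · intro x
      obtain ⟨a, ha, rfl⟩ := hmin x
      obtain ⟨k, hk⟩ := Nat.subset_range_nth (p := fun n => p n = true) ha
      exact ⟨k, congrArg φ hk⟩
  refine ⟨Equiv.ofBijective _ hb, r, hr, fun _ => rfl, ?_⟩
  have h0 := ci_comp hq (ci_pair (ci_comp hr (ComputableIn.snd (α := ℕ))) ComputableIn.fst)
  have h1 : ComputableIn₂ O fun a n : ℕ => q (r n) a := ci_of_eq h0 fun _ => rfl
  have hex : ∀ a, ∃ n, q (r n) a = true := fun a => by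
    obtain ⟨n, hn⟩ := hb.2 (φ a)
    exact ⟨n, (h _ _).2 hn⟩
  refine ci_of_eq (ci_find h1 hex) fun a => ?_
  rw [Equiv.eq_symm_apply]
  exact (h _ _).1 (Nat.find_spec (hex a))

/-- A Boolean algebra numbered by a coded type with decidable equality and computable operations
has a bijective numbering with computable operations. -/
theorem exists_presentation {B α : Type} [BooleanAlgebra B] [Infinite B] [Primcodable α]
    [Inhabited α] (φ : α → B) (hs : Function.Surjective φ)
    {q : α → α → Bool} (hq : ComputableIn₂ O q) (h : ∀ a b, q a b = true ↔ φ a = φ b)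
    {u v : α → α → α} {w : α → α} (hu : ComputableIn₂ O u) (hv : ComputableIn₂ O v)
    (hw : ComputableIn O w) (eu : ∀ a b, φ (u a b) = φ a ⊔ φ b)
    (ev : ∀ a b, φ (v a b) = φ a ⊓ φ b) (ew : ∀ a, φ (w a) = (φ a)ᶜ) :
    ∃ e : ℕ ≃ B, (ComputableIn₂ O fun a b : ℕ => e.symm (e a ⊔ e b)) ∧
      (ComputableIn₂ O fun a b : ℕ => e.symm (e a ⊓ e b)) ∧
      ComputableIn O fun a : ℕ => e.symm (e a)ᶜ := by
  let d : ℕ → α := fun n => (Encodable.decode n).getD default
  have hd : ComputableIn O d :=
    (Primrec.option_getD.comp Primrec.decode (Primrec.const default)).computableIn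
  have hde : ∀ a, d (Encodable.encode a) = a := fun a => by simp [d]
  have hq0 := ci_comp hq (ci_pair (ci_comp hd (ComputableIn.fst (β := ℕ)))
    (ci_comp hd ComputableIn.snd))
  obtain ⟨e, r, hr, he, hi⟩ := exists_equiv (O := O) (fun n => φ (d n))
    (fun x => by
      obtain ⟨a, rfl⟩ := hs x
      exact ⟨Encodable.encode a, by simp only [hde]⟩)
    (q := fun m n => q (d m) (d n)) (ci_of_eq hq0 fun _ => rfl) (fun _ _ => h _ _)
  have hi' : ComputableIn O fun a : α => e.symm (φ a) :=
    ci_of_eq (ci_comp hi Primrec.encode.computableIn) fun a => by simp only [hde]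
  have hdr := ci_comp hd hr
  have hpr := ci_pair (ci_comp hdr (ComputableIn.fst (β := ℕ))) (ci_comp hdr ComputableIn.snd)
  refine ⟨e, ?_, ?_, ?_⟩
  · exact ci_of_eq (ci_comp hi' (ci_comp hu hpr)) fun a => by simp only [eu, he]
  · exact ci_of_eq (ci_comp hi' (ci_comp hv hpr)) fun a => by simp only [ev, he]
  · exact ci_of_eq (ci_comp hi' (ci_comp hw hdr)) fun a => by simp only [ew, he]

end Pool.Agent.P.MP_9f8894_lc.Inv
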