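import Mathlib
import Pool.Agent.P.MP_9f8894_lc.Num
import Pool.Agent.P.MP_9f8894_lc.Bridge

/-! Closure properties of oracle computability: names used in this folder. -/

set_option autoImplicit false
open Encodable Filter

namespace Pool.Agent.P.MP_9f8894_lc

export Pool.Agent.P.MP_ef7593_lc (chi nat_some ri_bind ri_map ri_comp ci_comp ci_pair ci_of_eq
  ri_rfind ri_nat_rec ci_nat_rec ci_find seg seg_length seg_take seg_isPrefix seg_getElem?
  seg_eq_iff ci_self tr_of_ci ci_of_tr ci_seg IsUse exists_use J J_iff dom_iff_evaln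
  isSome_evaln_mono isJump_J CEIn ceIn_of_exists exists_unpair_ge)

export Inv (join)

/-- Oracles. -/
abbrev Orc := ℕ → Bool

/-- `f` is computable in the oracle `X`. -/
abbrev CI (X : Orc) {α σ : Type} [Primcodable α] [Primcodable σ] (f : α → σ) : Prop :=
  ComputableIn {chi X} f

theorem ci_trans {X Y : Orc} {α σ : Type} [Primcodable α] [Primcodable σ] {f : α → σ}
    (hf : CI X f) (h : CI Y X) : CI Y f :=
  Inv.ci_trans hf h

theorem ci_cond {O : Set (ℕ →. ℕ)} {α σ : Type} [Primcodable α] [Primcodable σ]
    {c : α → Bool} {f g : α → σ} (hc : ComputableIn O c) (hf : ComputableIn O f)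
    (hg : ComputableIn O g) : ComputableIn O fun a => cond (c a) (f a) (g a) :=
  ci_comp (f := fun p : Bool × σ × σ => cond p.1 p.2.1 p.2.2)
    (Primrec.cond Primrec.fst (Primrec.fst.comp Primrec.snd)
      (Primrec.snd.comp Primrec.snd)).computableIn (ci_pair hc (ci_pair hf hg))

end Pool.Agent.P.MP_9f8894_lc
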