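import Mathlib
import Pool.Agent.P.MP_9f8894_lc.Oracle

/-! Definitions for the construction of a low Boolean algebra without computable copy. -/

set_option autoImplicit false
open Encodable Denumerable Filter TopologicalSpace
open scoped Classical

namespace Pool.Agent.P.MP_9f8894_lc

/-! ### Jumps -/

/-- The iterated jump. -/
noncomputable def Jn (X : Orc) : ℕ → Orc
  | 0 => X
  | n + 1 => J (Jn X n)

/-- The empty oracle. -/
def zero : Orc := fun _ => false

/-! ### Formulas of the arithmetical hierarchy, uniformly in the level -/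

/-- Truth of the `Π_n` formula with matrix `M`. -/
def Tr : ℕ → (List ℕ → Bool) → Prop
  | 0, M => M [] = true
  | n + 1, M => ∀ k, ¬ Tr n (fun l => M (k :: l))

/-- `P b` is `Π_(ℓ b)` in `X`, uniformly in `b`. -/
def UPi (X : Orc) {β : Type} [Primcodable β] (ℓ : β → ℕ) (P : β → Prop) : Prop :=
  ∃ M : β → List ℕ → Bool, CI X (fun p : β × List ℕ => M p.1 p.2) ∧
    ∀ b, P b ↔ Tr (ℓ b) (M b)

/-- Value of a leaf which is a constant or a signed call. -/
def ev {α : Type} (ψ : α → List ℕ → Bool) (q : Bool × Option (α × List ℕ)) : Bool :=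
  match q.2 with
  | none => q.1
  | some r => xor q.1 (ψ r.1 r.2)

/-- A family of predicates that may be called, with levels and ranks. -/
structure Env (α : Type) where
  pr : α → Prop
  lv : α → ℕ
  rk : α → ℕ

/-- `D b` is `Π_(ℓ b)` in `X`, uniformly, provided the members of `E` of rank below `ρ b` have
formulas of their levels. -/
def URel (X : Orc) {α β : Type} [Primcodable α] [Primcodable β] (E : Env α) (ρ ℓ : β → ℕ)
    (D : β → Prop) : Prop :=
  ∃ φ : β → List ℕ → Bool × Option (α × List ℕ), CI X (fun p : β × List ℕ => φ p.1 p.2) ∧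
    (∀ b l r, (φ b l).2 = some r → E.rk r.1 < ρ b) ∧
    ∀ (ψ : α → List ℕ → Bool) (b : β),
      (∀ a, E.rk a < ρ b → (E.pr a ↔ Tr (E.lv a) (ψ a))) →
      (D b ↔ Tr (ℓ b) (fun l => ev ψ (φ b l)))

/-! ### Point classes -/

/-- Codes of point classes. -/
abbrev Cl := ℕ × ℕ × ℕ

def cAll : Cl := (0, 0, 0)
def cAt : Cl := (1, 0, 0)
def cPerf : Cl := (2, 0, 0)
def cNI (a : ℕ) : Cl := if a = 0 then cAll else (3, a - 1, 0)
def cR (a : ℕ) : Cl := (4, a, 0)
def cT (m : ℕ) : Cl := if m = 0 then cAt else if m = 1 then cPerf else (5, m - 2, 0)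
def cTag (i : ℕ) : Cl := (6, i, 0)
def cTop (c L : ℕ) : Cl := (7, c, L)
def cAcc (c L : ℕ) : Cl := (8, c, L)

/-- Classes which must accumulate at the point. -/
def posC (A : Cl) : List Cl :=
  if A.1 = 3 then [cNI A.2.1]
  else if A.1 = 4 then [cNI (A.2.1 - 1)]
  else if A.1 = 5 then [cT A.2.1, cAt]
  else if A.1 = 6 then [cR 2, cT A.2.1]
  else if A.1 = 7 then
    [cTag (A.2.1 + 3), cT (A.2.2 - 6)] ++ (if A.2.2 % 2 = 1 then [cR (A.2.2 / 2 - 1)] else [])
  else if A.1 = 8 then [cTop A.2.1 A.2.2]
  else []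

/-- Classes which must miss a neighbourhood of the point. -/
def negC (A : Cl) : List Cl :=
  if A.1 = 2 then [cAt]
  else if A.1 = 4 then [cPerf]
  else if A.1 = 5 then [cT (A.2.1 + 1), cR 2]
  else if A.1 = 6 then [cT (A.2.1 + 1)]
  else if A.1 = 7 then
    [cT (A.2.2 - 5)] ++ (if A.2.2 % 2 = 1 then [] else [cR (A.2.2 / 2 - 1)])
  else []

/-- The level of a class. -/
def lev (A : Cl) : ℕ :=
  if A.1 = 0 then 1
  else if A.1 = 1 then 2
  else if A.1 = 3 then 2 * A.2.1 + 3
  else if A.1 = 4 then max (2 * A.2.1 + 1) 5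
  else if A.1 = 5 then A.2.1 + 6
  else if A.1 = 6 then A.2.1 + 7
  else if A.1 = 7 then max A.2.2 (A.2.1 + 12)
  else if A.1 = 8 then max A.2.2 (A.2.1 + 12) + 2
  else 4

theorem lev_cNI (a : ℕ) : lev (cNI a) = 2 * a + 1 := by
  unfold cNI; split_ifs with h
  · subst h; rfl
  · simp only [lev]; simp; omega

theorem lev_cT (m : ℕ) : lev (cT m) ≤ m + 4 := by
  unfold cT; split_ifs with h h'
  · subst h; decide
  · subst h'; decide
  · simp only [lev]; simp; omega

theorem lev_cT' (m : ℕ) (h : m ≤ 1) : lev (cT m) ≤ 4 := by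
  interval_cases m <;> decide

theorem lev_cR (a : ℕ) : lev (cR a) = max (2 * a + 1) 5 := by simp [lev, cR]
theorem lev_cTag (i : ℕ) : lev (cTag i) = i + 7 := by simp [lev, cTag]
theorem lev_cTop (c L : ℕ) : lev (cTop c L) = max L (c + 12) := by simp [lev, cTop]
theorem lev_cAcc (c L : ℕ) : lev (cAcc c L) = max L (c + 12) + 2 := by simp [lev, cAcc]
theorem lev_cAt : lev cAt = 2 := by decide
theorem lev_cPerf : lev cPerf = 4 := by decide

theorem lev_pos {A B : Cl} (h : B ∈ posC A) : lev B + 2 ≤ lev A := by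
  obtain ⟨k, a, b⟩ := A
  unfold posC at h
  dsimp only at h
  split_ifs at h with h3 h4 h5 h6 h7 h7' h8
  all_goals subst_vars
  all_goals simp only [List.mem_cons, List.not_mem_nil, or_false, List.cons_append,
    List.nil_append, List.append_nil] at h
  · subst h; rw [lev_cNI]; simp [lev]
  · subst h; rw [lev_cNI]; simp only [lev]; simp; omega
  · rcases h with rfl | rfl
    · have := lev_cT a; simp only [lev] at this ⊢; simp at this ⊢; omega
    · rw [lev_cAt]; simp [lev]
  · rcases h with rfl | rfl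
    · rw [lev_cR]; simp [lev]
    · have := lev_cT a; simp only [lev] at this ⊢; simp at this ⊢; omega
  · have e : lev (7, a, b) = max b (a + 12) := by simp [lev]
    rw [e]
    rcases h with rfl | rfl | rfl
    · rw [lev_cTag]; omega
    · have := lev_cT (b - 6); omega
    · rw [lev_cR]; omega
  · have e : lev (7, a, b) = max b (a + 12) := by simp [lev]
    rw [e]
    rcases h with rfl | rfl
    · rw [lev_cTag]; omega
    · have := lev_cT (b - 6); omega
  · subst h; rw [lev_cTop]; simp [lev]

theorem lev_neg {A B : Cl} (h : B ∈ negC A) : lev B + 1 ≤ lev A := by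
  obtain ⟨k, a, b⟩ := A
  unfold negC at h
  dsimp only at h
  split_ifs at h with h2 h4 h5 h6 h7 h7'
  all_goals subst_vars
  all_goals simp only [List.mem_cons, List.not_mem_nil, or_false, List.cons_append,
    List.nil_append, List.append_nil] at h
  · subst h; rw [lev_cAt]; simp [lev]
  · subst h; rw [lev_cPerf]; simp [lev]
  · have e : lev (5, a, b) = a + 6 := by simp [lev]
    rw [e]
    rcases h with rfl | rfl
    · have := lev_cT (a + 1); omega
    · rw [lev_cR]; omega
  · have e : lev (6, a, b) = a + 7 := by simp [lev]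
    subst h; rw [e]; have := lev_cT (a + 1); omega
  · have e : lev (7, a, b) = max b (a + 12) := by simp [lev]
    subst h; rw [e]; have := lev_cT (b - 5); omega
  · have e : lev (7, a, b) = max b (a + 12) := by simp [lev]
    rw [e]
    rcases h with rfl | rfl
    · have := lev_cT (b - 5); omega
    · rw [lev_cR]; omega

/-- The point `x` belongs to the class `A`. -/
def In {Ω : Type} [TopologicalSpace Ω] (A : Cl) (x : Ω) : Prop :=
  if A.1 = 0 then True
  else if A.1 = 1 then IsOpen ({x} : Set Ω)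
  else (∀ B (_ : B ∈ posC A), AccPt x (𝓟 {y | In B y})) ∧
    ∀ B (_ : B ∈ negC A), x ∉ closure {y | In B y}
termination_by lev A
decreasing_by
  · have := lev_pos ‹_›; omega
  · have := lev_neg ‹_›; omega

/-! ### Candidates for computable copies -/

/-- Step-bounded value of the meet function with index `e`. -/
def mev (e x y s : ℕ) : Option ℕ :=
  (ofNat Nat.Partrec.Code e.unpair.1).evaln s (Nat.pair x y)

def leS (e x y : ℕ) : Prop := ∃ s, mev e x y s = some x
def leP (e x y : ℕ) : Prop := ∀ s v, mev e x y s = some v → v = x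
def djS (e x y : ℕ) : Prop := ∃ s, mev e x y s = some e.unpair.2
def djP (e x y : ℕ) : Prop := ∀ s v, mev e x y s = some v → v = e.unpair.2

/-- The list `l` covers `z` by elements below `z`. -/
def covP (e z : ℕ) (l : List ℕ) : Prop :=
  (∀ w ∈ l, leP e w z) ∧ ∀ v, leS e v z → (∀ w ∈ l, djS e v w) → v = e.unpair.2

/-- The element `y` of the `e`-th candidate contains no point of class `A`. -/
def nH (e : ℕ) (A : Cl) (y : ℕ) : Prop :=
  if A.1 = 0 then y = e.unpair.2
  else if A.1 = 1 then
    ∀ z, leS e z y → z = e.unpair.2 ∨ ∃ w, leS e w z ∧ w ≠ e.unpair.2 ∧ w ≠ z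
  else ∀ z, leS e z y → (∀ B (_ : B ∈ negC A), nH e B z) →
    ∃ l : List ℕ, covP e z l ∧ ∀ w ∈ l, ∃ B, ∃ (_ : B ∈ posC A),
      ∀ w₁ w₂, leS e w₁ w → leS e w₂ w → djS e w₁ w₂ → nH e B w₁ ∨ nH e B w₂
termination_by lev A
decreasing_by
  · have := lev_neg ‹_›; omega
  · have := lev_pos ‹_›; omega
  · have := lev_pos ‹_›; omega

/-- `e` is an index of the copy `f` of the clopen algebra. -/
def GoodIdx {Ω : Type} [TopologicalSpace Ω] (f : ℕ ≃ Clopens Ω) (e : ℕ) : Prop :=
  (∀ x y, (ofNat Nat.Partrec.Code e.unpair.1).eval (Nat.pair x y) =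
    Part.some (f.symm (f x ⊓ f y))) ∧ f e.unpair.2 = ⊥

/-! ### Trees and their spaces -/

abbrev Tree := List ℕ → Prop

/-- A root with the given subtrees. -/
def lim (f : ℕ → Tree) : Tree
  | [] => True
  | k :: τ => f k τ

def emp : Tree := fun _ => False
def perf : Tree := fun _ => True
def atom : Tree := lim fun _ => emp

/-- Closed under initial segments. -/
def PC (T : Tree) : Prop := ∀ σ τ, σ <+: τ → T τ → T σ

/-- The subtree of `T` at `σ` is `S`. -/
def Sub (T : Tree) (σ : List ℕ) (S : Tree) : Prop := ∀ τ, T (σ ++ τ) ↔ S τ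

/-- The space of chains through `T`. -/
def XT (T : Tree) : Type :=
  {c : List ℕ → Bool // c [] = true ∧ (∀ σ, c σ = true → T σ) ∧
    (∀ σ τ, σ <+: τ → c τ = true → c σ = true) ∧
    ∀ σ τ, c σ = true → c τ = true → σ <+: τ ∨ τ <+: σ}

instance (T : Tree) : TopologicalSpace (XT T) := instTopologicalSpaceSubtype
instance (T : Tree) : T2Space (XT T) := inferInstanceAs (T2Space (Subtype _))
instance (T : Tree) : TotallyDisconnectedSpace (XT T) :=
  inferInstanceAs (TotallyDisconnectedSpace (Subtype _))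

theorem isClosed_bit (σ : List ℕ) (b : Bool) : IsClosed {c : List ℕ → Bool | c σ = b} :=
  isClosed_eq (continuous_apply σ) continuous_const

theorem isClosed_imp (σ : List ℕ) {S : Set (List ℕ → Bool)} (hS : IsClosed S) :
    IsClosed {c : List ℕ → Bool | c σ = true → c ∈ S} := by
  have : {c : List ℕ → Bool | c σ = true → c ∈ S} = {c | c σ = false} ∪ S := by
    ext c; cases h : c σ <;> simp [h]
  rw [this]; exact (isClosed_bit σ false).union hS

instance (T : Tree) : CompactSpace (XT T) := by
  have h : IsClosed ({c : List ℕ → Bool | c [] = true} ∩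
      ((⋂ σ, {c | c σ = true → c ∈ {_c : List ℕ → Bool | T σ}}) ∩
      ((⋂ σ, ⋂ τ, ⋂ (_ : σ <+: τ), {c | c τ = true → c ∈ {c : List ℕ → Bool | c σ = true}}) ∩
      ⋂ σ, ⋂ τ, {c | c σ = true → c ∈ {c : List ℕ → Bool | c τ = true →
        c ∈ {_c : List ℕ → Bool | σ <+: τ ∨ τ <+: σ}}}))) :=
    (isClosed_bit _ _).inter (IsClosed.inter
      (isClosed_iInter fun σ => isClosed_imp σ isClosed_const) (IsClosed.inter
      (isClosed_iInter fun σ => isClosed_iInter fun τ => isClosed_iInter fun _ =>
        isClosed_imp τ (isClosed_bit σ true))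
      (isClosed_iInter fun σ => isClosed_iInter fun τ =>
        isClosed_imp σ (isClosed_imp τ isClosed_const))))
  have h' : IsCompact {c : List ℕ → Bool | c [] = true ∧ (∀ σ, c σ = true → T σ) ∧
      (∀ σ τ, σ <+: τ → c τ = true → c σ = true) ∧
      ∀ σ τ, c σ = true → c τ = true → σ <+: τ ∨ τ <+: σ} := by
    refine IsClosed.isCompact ?_
    convert h using 1
    ext c
    simp only [Set.mem_inter_iff, Set.mem_iInter, Set.mem_ofPred_eq]
  exact isCompact_iff_compactSpace.1 h'

/-- `x` is the finite chain of the initial segments of `σ`. -/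
def IsPt {T : Tree} (σ : List ℕ) (x : XT T) : Prop := ∀ τ, x.1 τ = true ↔ τ <+: σ

/-- The cylinder of `σ`. -/
def cylC (T : Tree) (σ : List ℕ) : Clopens (XT T) :=
  ⟨{x | x.1 σ = true},
    (isClopen_discrete ({true} : Set Bool)).preimage
      ((continuous_apply σ).comp continuous_subtype_val)⟩

/-- The cylinder of `σ` contains a point of class `A`. -/
def Hs (T : Tree) (A : Cl) (σ : List ℕ) : Prop := ∃ x : XT T, x.1 σ = true ∧ In A x

/-! ### Gadgets -/

/-- Tokens. -/
def tok (m : ℕ) : Tree :=
  if m = 0 then atom else if m = 1 then perf else lim fun n => tok (n % (m - 1))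
termination_by m
decreasing_by have := Nat.mod_lt n (show 0 < m - 1 by omega); omega

def alpha2 : Tree := lim fun _ => lim fun _ => atom

/-- Tags. -/
def tag (i : ℕ) : Tree := lim fun n => if n % 2 = 0 then alpha2 else tok (n / 2 % (i + 1))

/-- Tops of channel `c` and level `L` with switch pieces `f`. -/
def top (c L : ℕ) (f : ℕ → Tree) : Tree :=
  lim fun n => if n % 3 = 0 then tag (c + 3) else if n % 3 = 1 then tok (n / 3 % (L - 5))
    else f (n / 3)

/-- `S` is a scattered tree of rank at most `a`, with a point of rank `a` iff `P`. -/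
def Spec : ℕ → Tree → Prop → Prop
  | 0, S, P => (P → S = atom) ∧ (¬ P → S = emp)
  | a + 1, S, P => ∃ (f : ℕ → Tree) (Q : ℕ → Prop), S = lim f ∧ (∀ n, Spec a (f n) (Q n)) ∧
      (P ↔ {n | Q n}.Infinite)

/-- `P` for odd `L`, its negation for even `L`. -/
def par (L : ℕ) (P : Prop) : Prop := if L % 2 = 1 then P else ¬ P

end Pool.Agent.P.MP_9f8894_lc
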