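import Mathlib
import Pool.Agent.P.MP_9f8894_lc.Defs

/-! The static definitions of the construction: procedures, skeleton, interfaces.
The procedure number `j` works at level `t = j + 2`; the base level is `N = 20`.
Channels: `0` eta, `1` F, `2` X, `3` M, `4` T. -/

set_option autoImplicit false
open Encodable Denumerable Filter TopologicalSpace
open scoped Classical

namespace Pool.Agent.P.MP_9f8894_lc

/-- Histories of attempts (newest first): leaving witness and bound. -/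
abbrev Hist := List (ℕ × ℕ)
/-- Session paths (newest first). -/
abbrev Path := List Hist
/-- Steps from a node to a child. -/
abbrev Step := Hist × ℕ × ℕ
/-- Nodes of a region (newest step first). -/
abbrev Node := List Step
/-- Reduced relative addresses (oldest step first). -/
abbrev RAdr := List (Hist × ℕ)

/-- The session path of a node. -/
def path (s : Node) : Path := s.map (·.1)

/-- The pair of candidate numbers of an attempt. -/
def idx : Hist → ℕ × ℕ
  | [] => (0, 0)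
  | q :: L => if q.1 % 2 = 0 then ((idx L).1 + 1, 0) else ((idx L).1, (idx L).2 + 1)

def sumL : Hist → ℕ
  | [] => 0
  | q :: L => (q.1 + 1) * (1 + q.2) + sumL L

/-- Bound for the size of the groups. -/
def gP : Path → ℕ
  | [] => 1
  | L :: π => gP π * ((idx L).1 + 1)

/-- Bound for the number of absorbers. -/
def aP : Path → ℕ
  | [] => 0
  | L :: π => aP π + gP (L :: π) * sumL L

/-- A candidate: a node and a list of nodes. -/
def cand (i : ℕ) : ℕ × List ℕ := ofNat (ℕ × List ℕ) i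

/-- No special top of channel `c` and level `L` in `y`. -/
def nT (e c L y : ℕ) : Prop := nH e (cTop c L) y
/-- Some limit of special tops of channel `c` and level `L` in `y`. -/
def hA (e c L y : ℕ) : Prop := ¬ nH e (cAcc c L) y

/-- `l` is a list of `n` pairwise disjoint nodes below `U`, each with a limit of `(c, L)` tops. -/
def Many (e c L U n : ℕ) (l : List ℕ) : Prop :=
  l.length = n ∧ l.Pairwise (djP e) ∧ ∀ y ∈ l, leP e y U ∧ hA e c L y

def Kval (e j : ℕ) (π : Path) (i : ℕ) : Prop :=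
  (∀ L π', π = L :: π' → leP e (cand i).1 (cand (idx L).2).1) ∧
    Many e 4 (17 + j) (cand i).1 (2 * aP π + 1) (cand i).2

def Kpure (e j : ℕ) (π : Path) (i : ℕ) : Prop :=
  nT e 1 (21 + j) (cand i).1 ∧ (π = [] → nT e 3 (21 + j) (cand i).1)

/-- The `i`-th K-candidate is refuted. -/
def Kref (e j : ℕ) (π : Path) (i : ℕ) : Prop := ¬ (Kval e j π i ∧ Kpure e j π i)

def Wval (e j : ℕ) (π : Path) (L : Hist) : Prop :=
  leP e (cand (idx L).2).1 (cand (idx L).1).1 ∧
    Many e 4 (17 + j) (cand (idx L).2).1 (aP π + 1) (cand (idx L).2).2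

def XP (e j : ℕ) (L : Hist) : Prop := nT e 2 (21 + j) (cand (idx L).2).1

/-- The node `y` wins at the bottom for the session `(e, π, L)` and the count `n`. -/
def Win (e : ℕ) (π : Path) (L : Hist) (y n : ℕ) : Prop :=
  leP e y (cand (idx L).2).1 ∧ nT e 1 20 y ∧
    ∃ l, Many e 0 18 y (aP π + gP (L :: π) * n + 1) l

/-- Witness predicates for the refutation of candidates. -/
structure Wit where
  KW : ℕ → ℕ → Path → ℕ → ℕ → Prop
  NV : ℕ → ℕ → Path → Hist → ℕ → Prop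
  NX : ℕ → ℕ → Hist → ℕ → Prop

structure WitSem (W : Wit) : Prop where
  kw : ∀ e j π i, Kref e j π i ↔ ∃ w, W.KW e j π i w
  nv : ∀ e j π L, ¬ Wval e j π L ↔ ∃ x, W.NV e j π L x
  nx : ∀ e j L, ¬ XP e j L ↔ ∃ x, W.NX e j L x

structure WitCx (W : Wit) : Prop where
  kw : UPi zero (fun p : (ℕ × ℕ × Path) × ℕ × ℕ => 20 + p.1.2.1)
    fun p => W.KW p.1.1 p.1.2.1 p.1.2.2 p.2.1 p.2.2
  nv : UPi zero (fun p : (ℕ × ℕ × Path) × Hist × ℕ => 20 + p.1.2.1)
    fun p => W.NV p.1.1 p.1.2.1 p.1.2.2 p.2.1 p.2.2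
  nx : UPi zero (fun p : (ℕ × ℕ) × Hist × ℕ => 20 + p.1.2)
    fun p => W.NX p.1.1 p.1.2 p.2.1 p.2.2

/-- The outcome of the bottom construction. -/
structure Bot where
  /-- the position `(e, π, L, k)` is real -/
  Re : ℕ → Path → Hist → ℕ → Prop
  /-- the session with path `p` is done at stage `z` -/
  Dn : ℕ → Path → ℕ → Prop
  /-- site `n` of the position `(e, π, L, k)` is active -/
  Act : ℕ → Path → Hist → ℕ → ℕ → Prop

/-- Leaving witnesses. -/
def lwOf (W : Wit) (e j : ℕ) (fw : Path → ℕ → Prop) (π : Path) (L : Hist) (w : ℕ) : Prop :=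
  if w % 2 = 0 then W.KW e j π (idx L).1 (w / 2)
  else (idx L).2 ≤ w ∧ (W.NV e j π L (w / 2).unpair.1.unpair.1 ∨
    (W.NX e j L (w / 2).unpair.1.unpair.1 ∧ fw (L :: π) (w / 2).unpair.1.unpair.2))

/-- Certified histories. -/
def certOf (lw bd : Hist → ℕ → Prop) : Hist → Prop
  | [] => True
  | q :: L => certOf lw bd L ∧ (lw L q.1 ∧ ∀ w < q.1, ¬ lw L w) ∧ (bd L q.2 ∧ ∀ b < q.2, ¬ bd L b)

/-- Leaving witnesses of procedure `0`. -/
def LW0 (W : Wit) (e : ℕ) : Path → Hist → ℕ → Prop := lwOf W e 0 fun _ _ => True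
/-- Certified histories of procedure `0`. -/
def Cert0 (W : Wit) (e : ℕ) (π : Path) : Hist → Prop := certOf (LW0 W e π) fun _ _ => True

/-- The K-phase below procedure `j` terminates. -/
def KT (B : Bot) (e : ℕ) : ℕ → Path → Prop
  | 0, p => ∃ z, B.Dn e p z
  | j + 1, p => ∃ i, ¬ Kref e j p i

/-- The gate coming from the attempt above procedure `j`. -/
def Up (W : Wit) (e j : ℕ) (π : Path) (n : ℕ) : Prop :=
  ∀ L π', π = L :: π' → ∀ w < n, ¬ W.KW e (j + 1) π' (idx L).1 w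

/-- The data of one procedure level. -/
structure Lv where
  lw : Path → Hist → ℕ → Prop
  cert : Path → Hist → Prop
  f1w : Path → ℕ → Prop
  good : Path → RAdr → Prop

def fwS (R : Lv) (p : Path) (y : ℕ) : Prop :=
  R.cert p (ofNat (Hist × ℕ) y).1 ∧ (¬ ∃ w, R.lw p (ofNat (Hist × ℕ) y).1 w) ∧
    R.f1w ((ofNat (Hist × ℕ) y).1 :: p) (ofNat (Hist × ℕ) y).2

def bdS (e j : ℕ) (R : Lv) (π : Path) (L : Hist) (b : ℕ) : Prop :=
  Wval e (j + 1) π L → ∀ l : List RAdr, l.Nodup → l.length = b + 1 →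
    ∃ ρ ∈ l, ¬ R.good (L :: π) ρ

def f1wS (B : Bot) (e j : ℕ) (R : Lv) (p : Path) (z : ℕ) : Prop :=
  R.cert p (ofNat Hist z) ∧ (¬ ∃ w, R.lw p (ofNat Hist z) w) ∧ KT B e j (ofNat Hist z :: p)

def prodS (W : Wit) (e j : ℕ) (R : Lv) (π : Path) (L : Hist) (k : ℕ) : Prop :=
  certOf (lwOf W e (j + 1) (fwS R) π) (bdS e j R π) L ∧ Wval e (j + 1) π L ∧
    (∀ w < k, ¬ lwOf W e (j + 1) (fwS R) π L w) ∧ Up W e (j + 1) π (L.length + k) ∧
    ∀ i < k, Kref e j (L :: π) i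

/-- The levels, by recursion. -/
def lvl (W : Wit) (B : Bot) (e : ℕ) : ℕ → Lv
  | 0 =>
    { lw := LW0 W e
      cert := Cert0 W e
      f1w := B.Dn e
      good := fun π ρ => ∃ L k, B.Re e π L k ∧ (ρ = [(L, k)] ∨ ∃ n, ρ = [(L, k), ([], n)] ∧
        ((∃ w, LW0 W e π L w) ∨ ∃ z, B.Dn e (L :: π) z) ∧ B.Act e π L k n) }
  | j + 1 =>
    { lw := lwOf W e (j + 1) (fwS (lvl W B e j))
      cert := fun π => certOf (lwOf W e (j + 1) (fwS (lvl W B e j)) π) (bdS e j (lvl W B e j) π)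
      f1w := f1wS B e j (lvl W B e j)
      good := fun π ρ => ∃ L k ρ', ρ = (L, k) :: ρ' ∧ prodS W e j (lvl W B e j) π L k ∧
        (ρ' = [] ∨ (((∃ w, lwOf W e (j + 1) (fwS (lvl W B e j)) π L w) ∨
          ∃ z, f1wS B e j (lvl W B e j) (L :: π) z) ∧ (lvl W B e j).good (L :: π) ρ')) }

section named
variable (W : Wit) (B : Bot) (e : ℕ)

def LW (j : ℕ) : Path → Hist → ℕ → Prop := (lvl W B e j).lw
def Cert (j : ℕ) : Path → Hist → Prop := (lvl W B e j).cert
def F1W (j : ℕ) : Path → ℕ → Prop := (lvl W B e j).f1w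
def Good (j : ℕ) : Path → RAdr → Prop := (lvl W B e j).good
def Leave (j : ℕ) (π : Path) (L : Hist) : Prop := ∃ w, LW W B e j π L w
def Fin1 (j : ℕ) (p : Path) : Prop := ∃ z, F1W W B e j p z
def FW : ℕ → Path → ℕ → Prop
  | 0 => fun _ _ => True
  | j + 1 => fwS (lvl W B e j)
def Fin2 (j : ℕ) (p : Path) : Prop := ∃ y, FW W B e j p y
def Bnd : ℕ → Path → Hist → ℕ → Prop
  | 0 => fun _ _ _ => True
  | j + 1 => bdS e j (lvl W B e j)
/-- Not covered. -/
def NCov (j : ℕ) (π : Path) (L : Hist) : Prop := Leave W B e j π L ∨ Fin1 W B e j (L :: π)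
/-- The child `(L, k)` is produced by procedure `j`. -/
def Prd : ℕ → Path → Hist → ℕ → Prop
  | 0 => B.Re e
  | j + 1 => prodS W e j (lvl W B e j)

theorem LW_zero : LW W B e 0 = LW0 W e := rfl
theorem Cert_zero : Cert W B e 0 = Cert0 W e := rfl

theorem LW_iff (j : ℕ) (π : Path) (L : Hist) (w : ℕ) : LW W B e j π L w ↔
    if w % 2 = 0 then W.KW e j π (idx L).1 (w / 2)
    else (idx L).2 ≤ w ∧ (W.NV e j π L (w / 2).unpair.1.unpair.1 ∨
      (W.NX e j L (w / 2).unpair.1.unpair.1 ∧ FW W B e j (L :: π) (w / 2).unpair.1.unpair.2)) := by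
  cases j <;> rfl

theorem Cert_eq (j : ℕ) (π : Path) :
    Cert W B e j π = certOf (LW W B e j π) (Bnd W B e j π) := by
  cases j <;> rfl

theorem Cert_nil (j : ℕ) (π : Path) : Cert W B e j π [] := by
  rw [Cert_eq]; trivial

theorem Cert_cons (j : ℕ) (π : Path) (q : ℕ × ℕ) (L : Hist) : Cert W B e j π (q :: L) ↔
    Cert W B e j π L ∧ (LW W B e j π L q.1 ∧ ∀ w < q.1, ¬ LW W B e j π L w) ∧
      (Bnd W B e j π L q.2 ∧ ∀ b < q.2, ¬ Bnd W B e j π L b) := by
  rw [Cert_eq]; rfl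

theorem FW_zero (p : Path) (y : ℕ) : FW W B e 0 p y := trivial

theorem FW_succ (j : ℕ) (p : Path) (y : ℕ) : FW W B e (j + 1) p y ↔
    Cert W B e j p (ofNat (Hist × ℕ) y).1 ∧ ¬ Leave W B e j p (ofNat (Hist × ℕ) y).1 ∧
      F1W W B e j ((ofNat (Hist × ℕ) y).1 :: p) (ofNat (Hist × ℕ) y).2 := Iff.rfl

theorem F1W_zero (p : Path) (z : ℕ) : F1W W B e 0 p z ↔ B.Dn e p z := Iff.rfl

theorem F1W_succ (j : ℕ) (p : Path) (z : ℕ) : F1W W B e (j + 1) p z ↔
    Cert W B e j p (ofNat Hist z) ∧ ¬ Leave W B e j p (ofNat Hist z) ∧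
      KT B e j (ofNat Hist z :: p) := Iff.rfl

theorem Bnd_zero (π : Path) (L : Hist) (b : ℕ) : Bnd W B e 0 π L b := trivial

theorem Bnd_succ (j : ℕ) (π : Path) (L : Hist) (b : ℕ) : Bnd W B e (j + 1) π L b ↔
    (Wval e (j + 1) π L → ∀ l : List RAdr, l.Nodup → l.length = b + 1 →
      ∃ ρ ∈ l, ¬ Good W B e j (L :: π) ρ) := Iff.rfl

theorem Prd_zero (π : Path) (L : Hist) (k : ℕ) : Prd W B e 0 π L k ↔ B.Re e π L k := Iff.rfl

theorem Prd_succ (j : ℕ) (π : Path) (L : Hist) (k : ℕ) : Prd W B e (j + 1) π L k ↔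
    Cert W B e (j + 1) π L ∧ Wval e (j + 1) π L ∧ (∀ w < k, ¬ LW W B e (j + 1) π L w) ∧
      Up W e (j + 1) π (L.length + k) ∧ ∀ i < k, Kref e j (L :: π) i := Iff.rfl

theorem Good_zero (π : Path) (ρ : RAdr) : Good W B e 0 π ρ ↔
    ∃ L k, B.Re e π L k ∧ (ρ = [(L, k)] ∨ ∃ n, ρ = [(L, k), ([], n)] ∧
      NCov W B e 0 π L ∧ B.Act e π L k n) := Iff.rfl

theorem Good_succ (j : ℕ) (π : Path) (ρ : RAdr) : Good W B e (j + 1) π ρ ↔
    ∃ L k ρ', ρ = (L, k) :: ρ' ∧ Prd W B e (j + 1) π L k ∧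
      (ρ' = [] ∨ (NCov W B e (j + 1) π L ∧ Good W B e j (L :: π) ρ')) := Iff.rfl

end named

/-- What the verification needs from the bottom construction. -/
structure BotSem (W : Wit) (B : Bot) : Prop where
  re_ok : ∀ e π L k, B.Re e π L k → Cert0 W e π L ∧ Wval e 0 π L
  act_fin : ∀ e π L k, B.Re e π L k → ((∃ w, LW0 W e π L w) ∨ ∃ z, B.Dn e (L :: π) z) →
    {n | B.Act e π L k n}.Finite
  re_fin : ∀ e π L, ((∃ w, LW0 W e π L w) ∨ ∃ z, B.Dn e (L :: π) z) → {k | B.Re e π L k}.Finite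
  fam_fin : ∀ e L₀ π₀, Kref e 1 π₀ (idx L₀).1 →
    {q : Hist × ℕ | B.Re e (L₀ :: π₀) q.1 q.2}.Finite
  forever : ∀ e π L, Cert0 W e π L → Wval e 0 π L → (¬ ∃ w, LW0 W e π L w) →
    (¬ ∃ z, B.Dn e (L :: π) z) → (∀ L₀ π₀, π = L₀ :: π₀ → ¬ Kref e 1 π₀ (idx L₀).1) →
    {k | B.Re e π L k}.Infinite ∧ (∀ k, B.Re e π L k → {n | B.Act e π L k n}.Infinite) ∧
      ¬ ∃ y, ∀ n, Win e π L y n
  done : ∀ e π L, Cert0 W e π L → (¬ ∃ w, LW0 W e π L w) → (∃ z, B.Dn e (L :: π) z) →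
    ∃ y n, Win e π L y n ∧
      {q : Hist × ℕ × Option ℕ | B.Re e π q.1 q.2.1 ∧
        ∀ m ∈ q.2.2, B.Act e π q.1 q.2.1 m}.encard ≤ (n : ℕ∞)

/-- The complexity of the bottom construction. -/
structure BotCx (B : Bot) : Prop where
  re : CI (Jn zero 20) fun p : (ℕ × Path) × Hist × ℕ => decide (B.Re p.1.1 p.1.2 p.2.1 p.2.2)
  dn : CI (Jn zero 20) fun p : (ℕ × Path) × ℕ => decide (B.Dn p.1.1 p.1.2 p.2)
  act : CI (Jn zero 20) fun p : ((ℕ × Path) × Hist × ℕ) × ℕ =>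
    decide (B.Act p.1.1.1 p.1.1.2 p.1.2.1 p.1.2.2 p.2)

/-- The bit number `n` of the fake class of a position. -/
def bitF {P : Type} [Encodable P] (p : P) (n : ℕ) : ℕ := Nat.pair (2 * encode p) n
/-- The bit number `n` of the activity class of a position. -/
def bitA {P : Type} [Encodable P] (p : P) (n : ℕ) : ℕ := Nat.pair (2 * encode p + 1) n

/-- How the bottom construction is read off from the set `G`. -/
structure BotG (B : Bot) (G : Orc) : Prop where
  fake : ∀ e π L k, ¬ B.Re e π L k ↔ ∃ n, G (bitF (((e, π), L), k) n) = true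
  act : ∀ e π L k n, B.Act e π L k n ↔ G (bitA (((e, π), L), k) n) = true

/-- Real steps and active sites, with unique witnesses. -/
structure Rl where
  RS : ℕ → ℕ → Path → Step → Prop
  AW : ℕ → Path → Hist → ℕ → ℕ → ℕ → Prop

structure RlSem (W : Wit) (B : Bot) (R : Rl) : Prop where
  rs : ∀ e j π L k, Prd W B e j π L k ↔ ∃ v, R.RS e j π (L, k, v)
  rs_uniq : ∀ e j π L k v v', R.RS e j π (L, k, v) → R.RS e j π (L, k, v') → v = v'
  aw : ∀ e π L k n, B.Act e π L k n ↔ ∃ w, R.AW e π L k n w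
  aw_uniq : ∀ e π L k n w w', R.AW e π L k n w → R.AW e π L k n w' → w = w'

/-- The step of `s` made by procedure `j` is not real. -/
def HasFake (R : Rl) (e : ℕ) (s : Node) (j : ℕ) : Prop :=
  ∃ s₁ st s₀, s = s₁ ++ st :: s₀ ∧ s₀.length + j = e ∧ ¬ R.RS e j (path s₀) st

/-- The step of `s` made by procedure `j` leads to a covered potential. -/
def HasCov (W : Wit) (B : Bot) (R : Rl) (e : ℕ) (s : Node) (j : ℕ) : Prop :=
  ∃ s₁ st st' s₀, s = s₁ ++ st :: st' :: s₀ ∧ s₀.length + j + 1 = e ∧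
    R.RS e j (path (st' :: s₀)) st ∧ R.RS e (j + 1) (path s₀) st' ∧
    ¬ NCov W B e j (path (st' :: s₀)) st.1

/-- The node `s` is an active site. -/
def ActNode (R : Rl) (e : ℕ) (s : Node) : Prop :=
  ∃ n w L k v s₀, s = ([], n, w) :: (L, k, v) :: s₀ ∧ s₀.length = e ∧ R.AW e (path s₀) L k n w

/-! ### The skeleton -/

/-- Indices of tops: region, node, channel, level, number. -/
abbrev TI := ℕ × Node × ℕ × ℕ × ℕ

def SomeAt (Sw : TI → Prop) (e : ℕ) (s : Node) (c L : ℕ) : Prop := ∃ x, Sw (e, s, c, L, x)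
def DeclAt (Sw : TI → Prop) (e : ℕ) (s : Node) (c L : ℕ) : Prop :=
  {x | Sw (e, s, c, L, x)}.Infinite

/-- What the switches do. -/
structure SwSem (W : Wit) (B : Bot) (R : Rl) (Sw : TI → Prop) : Prop where
  f_some : ∀ e s j, SomeAt Sw e s 1 (20 + j) → HasFake R e s j
  f_decl : ∀ e s j, HasFake R e s j → DeclAt Sw e s 1 (20 + j)
  x_some : ∀ e s j, SomeAt Sw e s 2 (21 + j) → ∃ j', j = j' + 1 ∧ HasCov W B R e s j'
  x_decl : ∀ e s j, HasCov W B R e s j → DeclAt Sw e s 2 (22 + j)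
  m_some : ∀ e s j, SomeAt Sw e s 3 (21 + j) → j ≠ e
  m_decl : ∀ e s j, j ≠ e → DeclAt Sw e s 3 (21 + j)
  t_some : ∀ e s j, SomeAt Sw e s 4 (17 + j) → s.length + j = e
  t_decl : ∀ e s j, s.length + j = e → DeclAt Sw e s 4 (17 + j)
  eta : ∀ e s, DeclAt Sw e s 0 18 ↔ ActNode R e s

/-- The `n`-th top at a node. -/
def topAt (S : TI → Tree) (e : ℕ) (s : Node) (n : ℕ) : Tree :=
  if (ofNat (ℕ × ℕ × ℕ) n).1 ≤ 4 ∧ 16 ≤ (ofNat (ℕ × ℕ × ℕ) n).2.1 then
    top (ofNat (ℕ × ℕ × ℕ) n).1 (ofNat (ℕ × ℕ × ℕ) n).2.1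
      fun k τ => S (e, s, ofNat (ℕ × ℕ × ℕ) n) (k :: τ)
  else emp

/-- The tree at a node of the given level. -/
def sk (S : TI → Tree) (e : ℕ) : ℕ → Node → Tree
  | 0, s => lim fun n =>
      if n % 3 = 0 then emp else if n % 3 = 1 then topAt S e s (n / 3) else tok (n / 3)
  | t + 1, s => lim fun n =>
      if n % 3 = 0 then sk S e t (ofNat Step (n / 3) :: s)
      else if n % 3 = 1 then topAt S e s (n / 3) else tok (n / 3)

/-- The whole tree. -/
def bigT (S : TI → Tree) : Tree :=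
  lim fun n => if n % 2 = 0 then sk S (n / 2) (n / 2 + 2) [] else tok (n / 2)

/-- The switch trees follow the switches. -/
def SwTree (Sw : TI → Prop) (S : TI → Tree) : Prop :=
  ∀ q : TI, q.2.2.1 ≤ 4 → 16 ≤ q.2.2.2.1 → Spec (q.2.2.2.1 / 2) (S q) (par q.2.2.2.1 (Sw q))

/-- Skeleton points: the top point, or a node of a region. -/
abbrev Pt := Option (ℕ × Node)

/-- The skeleton point is a limit of special tops of channel `c` and level `L`. -/
def AccP (Sw : TI → Prop) (c L : ℕ) : Pt → Prop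
  | none => {e | ∃ s : Node, s.length ≤ e + 2 ∧ SomeAt Sw e s c L}.Infinite
  | some (e, s) => DeclAt Sw e s c L ∨
      {st : Step | ∃ s', st :: s <:+ s' ∧ s'.length ≤ e + 2 ∧ SomeAt Sw e s' c L}.Infinite

/-- What the verification needs from an isomorphism of the `e`-th candidate with the algebra. -/
structure Model (Sw : TI → Prop) (e : ℕ) where
  pts : ℕ → Set Pt
  cyl : Node → ℕ
  valid : ∀ y e' s, some (e', s) ∈ pts y → s.length ≤ e' + 2
  le_refl : ∀ y, leP e y y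
  le_trans : ∀ x y z, leP e x y → leP e y z → leP e x z
  pts_mono : ∀ y z, leP e y z → pts y ⊆ pts z
  nT_mono : ∀ c L y z, leP e y z → nT e c L z → nT e c L y
  dj_pts : ∀ y z, djP e y z → Disjoint (pts y) (pts z)
  dj_mono : ∀ y y' z z', leP e y' y → leP e z' z → djP e y z → djP e y' z'
  hA_iff : ∀ c L y, c ≤ 4 → 16 ≤ L → (hA e c L y ↔ ∃ P ∈ pts y, AccP Sw c L P)
  nT_acc : ∀ c L y P, c ≤ 4 → 16 ≤ L → nT e c L y → P ∈ pts y → ¬ AccP Sw c L P
  cyl_fin : ∀ y s, some (e, s) ∈ pts y → s.length < e + 2 →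
    {st : Step | ¬ leP e (cyl (st :: s)) y}.Finite
  cyl_mem : ∀ s, s.length ≤ e + 2 → some (e, s) ∈ pts (cyl s)
  cyl_le : ∀ st s, leP e (cyl (st :: s)) (cyl s)
  cyl_dj : ∀ s s', s.length = s'.length → s ≠ s' → djP e (cyl s) (cyl s')
  cyl_nT : ∀ c L s, c ≤ 4 → 16 ≤ L → s.length ≤ e + 2 →
    (∀ s', s <:+ s' → s'.length ≤ e + 2 → ¬ SomeAt Sw e s' c L) → nT e c L (cyl s)
  union : ∀ l : List ℕ, ∃ U, (∀ y ∈ l, leP e y U) ∧ (∀ z, (∀ y ∈ l, leP e y z) → leP e U z) ∧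
    ∀ c L, (∀ y ∈ l, nT e c L y) → nT e c L U
  shrink : ∀ c L y P, c ≤ 4 → 16 ≤ L → P ∈ pts y → ¬ AccP Sw c L P →
    ∃ y', leP e y' y ∧ P ∈ pts y' ∧ nT e c L y'

/-! ### Notions of the verification -/

section ver
variable (W : Wit) (B : Bot) (R : Rl) (e : ℕ)

/-- Good session paths for procedure `j`: all attempts above are certified and never left. -/
def Gd : ℕ → Path → Prop
  | j, [] => j = e
  | j, L :: π => Gd (j + 1) π ∧ Cert W B e (j + 1) π L ∧ ¬ Leave W B e (j + 1) π L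

/-- All steps of the node are real, and a last step into level `0` is active. -/
def AllReal (s : Node) : Prop :=
  s.length ≤ e + 2 ∧ (∀ j, ¬ HasFake R e s j) ∧ (s.length = e + 2 → ActNode R e s)

/-- No potential strictly above the node is covered. -/
def Unc (s : Node) : Prop := ∀ j, e + 2 ≤ s.length + j → ¬ HasCov W B R e s j

/-- The members of the group with session path `π`. -/
def Mem (π : Path) : Set Node := {s | path s = π ∧ AllReal R e s}

/-- The absorbers. -/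
def Abs (π : Path) : Set Node :=
  {s | π.length ≤ s.length ∧ AllReal R e s ∧ Unc W B R e s ∧ ¬ π <:+ path s}

/-- The X-candidates of the attempts in `π` made by procedures `≥ m` are true. -/
def XPs (m : ℕ) (π : Path) : Prop :=
  ∀ L π' j, L :: π' <:+ π → π'.length + j = e → m ≤ j → XP e j L

end ver

end Pool.Agent.P.MP_9f8894_lc
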