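import Mathlib
import Pool.Agent.P.MP_9f8894_lc.Defs

/-! More closure properties of oracle computability. -/

set_option autoImplicit false
open Encodable Denumerable Filter TopologicalSpace
open scoped Classical

namespace Pool.Agent.P.MP_9f8894_lc

theorem ci_zero (X : Orc) : CI X zero := ComputableIn.const false

theorem ci_join_left (X Y : Orc) : CI (join X Y) X := Inv.join_left X Y

theorem ci_join_right (X Y : Orc) : CI (join X Y) Y := Inv.join_right X Y

/-- Bounded universal quantifier. -/
theorem ci_ball {X : Orc} {β : Type} [Primcodable β] {p : β × ℕ → Bool} {n : β → ℕ}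
    (hp : CI X p) (hn : CI X n) : CI X fun b => decide (∀ k < n b, p (b, k) = true) :=
  ci_of_eq (Inv.ci_ball (p := fun b k => p (b, k)) hp hn) fun _ => by congr

theorem ci_not {X : Orc} {β : Type} [Primcodable β] {p : β → Bool} (hp : CI X p) :
    CI X fun b => !p b := ci_comp Primrec.not.computableIn hp

theorem ci_and {X : Orc} {β : Type} [Primcodable β] {p q : β → Bool} (hp : CI X p)
    (hq : CI X q) : CI X fun b => p b && q b :=
  ci_comp (f := fun r : Bool × Bool => r.1 && r.2) Primrec.and.computableIn (ci_pair hp hq)

theorem ci_or {X : Orc} {β : Type} [Primcodable β] {p q : β → Bool} (hp : CI X p)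
    (hq : CI X q) : CI X fun b => p b || q b :=
  ci_comp (f := fun r : Bool × Bool => r.1 || r.2) Primrec.or.computableIn (ci_pair hp hq)

theorem ci_pred {X : Orc} {β : Type} [Primcodable β] {p : β → Prop} (hp : PrimrecPred p) :
    CI X fun b => decide (p b) := by
  obtain ⟨_, hp⟩ := hp
  exact ci_of_eq hp.computableIn fun _ => by congr

/-- Definition by cases on a proposition decided by the oracle. -/
theorem ci_ite {X : Orc} {β σ : Type} [Primcodable β] [Primcodable σ] {p : β → Prop}
    {f g : β → σ} (hp : CI X fun b => decide (p b)) (hf : CI X f) (hg : CI X g) :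
    CI X fun b => if p b then f b else g b :=
  ci_of_eq (ci_cond hp hf hg) fun b => by by_cases h : p b <;> simp [h]

/-- Bounded existential quantifier. -/
theorem ci_bex {X : Orc} {β : Type} [Primcodable β] {p : β × ℕ → Bool} {n : β → ℕ}
    (hp : CI X p) (hn : CI X n) : CI X fun b => decide (∃ k < n b, p (b, k) = true) := by
  refine ci_of_eq (ci_not (ci_ball (ci_not hp) hn)) fun b => ?_
  rw [Bool.eq_iff_iff]
  simp

/-- Mapping a list. -/
theorem ci_map {X : Orc} {β γ σ : Type} [Primcodable β] [Primcodable γ] [Primcodable σ]
    {g : β × γ → σ} {l : β → List γ} (hg : CI X g) (hl : CI X l) :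
    CI X fun b => (l b).map fun c => g (b, c) := by
  have h1 : CI X fun r : β × ℕ × List σ =>
      ((l r.1)[r.2.1]?).elim r.2.2 fun c => r.2.2 ++ [g (r.1, c)] := by
    have ho : CI X fun r : β × ℕ × List σ => (l r.1)[r.2.1]? :=
      ci_comp (f := fun q : List γ × ℕ => q.1[q.2]?) Primrec.list_getElem?.computableIn
        (ci_pair (ci_comp hl ComputableIn.fst) (Primrec.fst.comp Primrec.snd).computableIn)
    by_cases hne : Nonempty γ
    · obtain ⟨c0⟩ := hne
      have hc : CI X fun r : β × ℕ × List σ => ((l r.1)[r.2.1]?).getD c0 :=
        ci_comp (Primrec.option_getD.comp Primrec.id (Primrec.const c0)).computableIn ho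
      have ha := ci_comp Primrec.list_concat.computableIn
        (ci_pair (Primrec.snd.comp (Primrec.snd (α := β) (β := ℕ × List σ))).computableIn
          (ci_comp hg (ci_pair ComputableIn.fst hc)))
      refine ci_of_eq (ci_cond (ci_comp Primrec.option_isSome.computableIn ho) ha
        (Primrec.snd.comp Primrec.snd).computableIn) fun r => ?_
      cases (l r.1)[r.2.1]? <;> simp
    · refine ci_of_eq (Primrec.snd.comp Primrec.snd).computableIn fun r => ?_
      cases (l r.1)[r.2.1]? with
      | none => rfl
      | some c => exact (hne ⟨c⟩).elim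
  have h2 := ci_nat_rec (f := fun b => (l b).length) (g := fun _ => ([] : List σ))
    (h := fun b q => ((l b)[q.1]?).elim q.2 fun c => q.2 ++ [g (b, c)])
    (ci_comp Primrec.list_length.computableIn hl) (ComputableIn.const _) h1
  refine ci_of_eq h2 fun b => ?_
  have key : ∀ n, n ≤ (l b).length → Nat.rec (motive := fun _ => List σ) []
      (fun y IH => ((l b)[y]?).elim IH fun c => IH ++ [g (b, c)]) n =
      ((l b).take n).map fun c => g (b, c) := by
    intro n hn
    induction n with
    | zero => simp
    | succ n ih =>
      have hlt : n < (l b).length := hn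
      simp only [List.getElem?_eq_getElem hlt, Option.elim_some]
      rw [ih hlt.le, List.take_succ_eq_append_getElem hlt, List.map_append]
      rfl
  simpa using key _ le_rfl

/-- Filtering a list. -/
theorem ci_filter {X : Orc} {β γ : Type} [Primcodable β] [Primcodable γ] {p : β × γ → Bool}
    {l : β → List γ} (hp : CI X p) (hl : CI X l) :
    CI X fun b => (l b).filter fun c => p (b, c) := by
  have h1 : CI X fun r : β × γ => cond (p r) [r.2] [] :=
    ci_cond hp (Primrec.list_cons.comp Primrec.snd (Primrec.const [])).computableIn
      (ComputableIn.const _)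
  refine ci_of_eq (ci_comp Primrec.list_flatten.computableIn (ci_map h1 hl)) fun b => ?_
  induction l b with
  | nil => rfl
  | cons c t ih =>
    simp only [List.map_cons, List.flatten_cons, List.filter_cons] at ih ⊢
    rw [ih]
    cases p (b, c) <;> simp

end Pool.Agent.P.MP_9f8894_lc
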