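import Mathlib
import Pool.Agent.P.MP_9f8894_lc.JumpA

/-! Package FmA: closure properties of relative formulas, part 1. -/

set_option autoImplicit false
open Encodable Denumerable Filter TopologicalSpace
open scoped Classical

namespace Pool.Agent.P.MP_9f8894_lc

theorem fa_congr (n : ℕ) {M M' : List ℕ → Bool} (h : ∀ l, l.length = n → M l = M' l) :
    Tr n M ↔ Tr n M' := by
  induction n generalizing M M' with
  | zero => simp only [Tr, h [] rfl]
  | succ n ih =>
    exact forall_congr' fun k => not_congr (ih fun l hl => h (k :: l) (by simp [hl]))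

theorem tr_const (n : ℕ) (b : Bool) :
    Tr n (fun l => xor b (decide (l.length % 2 = 1))) ↔ b = true := by
  induction n generalizing b with
  | zero => simp [Tr]
  | succ n ih =>
    have h : ∀ k : ℕ, Tr n (fun l => xor b (decide ((k :: l).length % 2 = 1))) ↔ (!b) = true :=
      fun k => (fa_congr n fun l _ => by
        rcases Nat.mod_two_eq_zero_or_one l.length with h | h <;>
          simp [Nat.add_mod, h]).trans (ih (!b))
    simp only [Tr, h]
    cases b <;> simp

theorem tr_pad (n d : ℕ) (M : List ℕ → Bool) :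
    Tr (n + d) (fun l => xor (decide (d % 2 = 1)) (M (l.take n))) ↔ Tr n M := by
  induction n generalizing M with
  | zero =>
    rw [Nat.zero_add]
    refine (fa_congr d fun l hl => ?_).trans (tr_const d (M []))
    rw [hl, List.take_zero, Bool.xor_comm]
  | succ n ih =>
    rw [Nat.add_right_comm]
    exact forall_congr' fun k => not_congr (ih fun l => M (k :: l))

/-- Only the values on lists of the right length matter. -/
theorem tr_congr (n : ℕ) {M M' : List ℕ → Bool} (h : ∀ l, l.length = n → M l = M' l) :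
    Tr n M ↔ Tr n M' := by
  exact fa_congr n h

variable {X : Orc} {α β γ : Type} [Primcodable α] [Primcodable β] [Primcodable γ] {E : Env α}

omit [Primcodable α] in
theorem fa_ev_xor (ψ : α → List ℕ → Bool) (s : Bool) (q : Bool × Option (α × List ℕ)) :
    ev ψ (xor s q.1, q.2) = xor s (ev ψ q) := by
  obtain ⟨t, _ | r⟩ := q <;> simp [ev]

theorem ci_elim {σ : Type} [Primcodable σ] {o : β → Option γ} {d : β → σ} {g : β × γ → σ}
    (ho : CI X o) (hd : CI X d) (hg : CI X g) :
    CI X fun b => (o b).elim (d b) fun c => g (b, c) := by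
  have h1 := ci_map hg (ci_comp Primrec.optionToList.computableIn ho)
  have h2 := ci_comp (Primrec.option_getD (α := σ)).computableIn
    (ci_pair (ci_comp Primrec.list_head?.computableIn h1) hd)
  refine ci_of_eq h2 fun b => ?_
  cases o b <;> rfl

theorem fa_ci_xor {p q : β → Bool} (hp : CI X p) (hq : CI X q) : CI X fun b => xor (p b) (q b) :=
  ci_comp (f := fun r : Bool × Bool => xor r.1 r.2) (Primrec.dom_finite _).computableIn
    (ci_pair hp hq)

theorem fa_ci_ev {ψ : α → List ℕ → Bool} (h : CI X fun p : α × List ℕ => ψ p.1 p.2) :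
    CI X (ev ψ) := by
  have h1 := fa_ci_xor (X := X)
    (Primrec.fst.comp (Primrec.fst (α := Bool × Option (α × List ℕ))
      (β := α × List ℕ))).computableIn (ci_comp h ComputableIn.snd)
  refine ci_of_eq (ci_elim ComputableIn.snd ComputableIn.fst h1) fun q => ?_
  obtain ⟨t, _ | r⟩ := q <;> rfl

theorem fa_odd : Primrec fun n : ℕ => decide (n % 2 = 1) :=
  Primrec.eq.decide.comp (Primrec.nat_mod.comp Primrec.id (Primrec.const 2)) (Primrec.const 1)

/-- One step of the evaluation of a chain of calls. -/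
def faStep (φ : α → List ℕ → Bool × Option (α × List ℕ)) (q : Bool × Option (α × List ℕ)) :
    Bool × Option (α × List ℕ) :=
  q.2.elim q fun r => (xor q.1 (φ r.1 r.2).1, (φ r.1 r.2).2)

omit [Primcodable α] in
theorem fa_iter {φ : α → List ℕ → Bool × Option (α × List ℕ)} {rk : α → ℕ}
    (h : ∀ b l r, (φ b l).2 = some r → rk r.1 < rk b) (n : ℕ) :
    ∀ q : Bool × Option (α × List ℕ), (∀ r, q.2 = some r → rk r.1 < n) →
      ((faStep φ)^[n] q).1 =
        ev (fun a l => ((faStep φ)^[rk a + 1] (false, some (a, l))).1) q := by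
  induction n using Nat.strong_induction_on with
  | _ n ih =>
    rintro ⟨s, _ | ⟨a, l⟩⟩ hq
    · rw [Function.iterate_fixed (f := faStep φ) (x := (s, none)) rfl]
      rfl
    · have h1 : rk a < n := hq _ rfl
      obtain ⟨m, rfl⟩ : ∃ m, n = m + 1 := ⟨n - 1, by omega⟩
      have e1 : ∀ t, faStep φ (t, some (a, l)) = (xor t (φ a l).1, (φ a l).2) := fun _ => rfl
      rw [Function.iterate_succ_apply, e1,
        ih m (by omega) _ fun r hr => by have := h a l r hr; omega, fa_ev_xor]
      change _ = xor s ((faStep φ)^[rk a + 1] (false, some (a, l))).1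
      rw [Function.iterate_succ_apply, e1, Bool.false_xor,
        ih (rk a) h1 (φ a l) fun r hr => h a l r hr]

theorem URel.congr {ρ ℓ ρ' ℓ' : β → ℕ} {D D' : β → Prop} (h : URel X E ρ ℓ D)
    (hρ : ∀ b, ρ b ≤ ρ' b) (hℓ : ∀ b, ℓ b = ℓ' b) (hD : ∀ b, D b ↔ D' b) :
    URel X E ρ' ℓ' D' := by
  obtain ⟨φ, h1, h2, h3⟩ := h
  refine ⟨φ, h1, fun b l r hr => (h2 b l r hr).trans_le (hρ b), fun ψ b H => ?_⟩
  rw [← hD, ← hℓ]
  exact h3 ψ b fun a ha => H a (ha.trans_le (hρ b))

theorem URel.comp {ρ ℓ : β → ℕ} {D : β → Prop} (h : URel X E ρ ℓ D) {f : γ → β}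
    (hf : CI X f) : URel X E (fun c => ρ (f c)) (fun c => ℓ (f c)) fun c => D (f c) := by
  obtain ⟨φ, h1, h2, h3⟩ := h
  have h4 := ci_comp h1 (ci_pair (ci_comp hf (ComputableIn.fst (β := List ℕ))) ComputableIn.snd)
  exact ⟨fun c l => φ (f c) l, ci_of_eq h4 fun _ => rfl, fun c => h2 (f c),
    fun ψ c => h3 ψ (f c)⟩

theorem URel.call (X : Orc) (E : Env α) : URel X E (fun a => E.rk a + 1) E.lv E.pr := by
  refine ⟨fun a l => (false, some (a, l)),
    ((Primrec.const false).pair Primrec.option_some).computableIn, fun a l r hr => ?_,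
    fun ψ a H => ?_⟩
  · obtain rfl : (a, l) = r := Option.some.inj hr
    exact Nat.lt_succ_self _
  · simpa [ev] using H a (Nat.lt_succ_self _)

theorem UPi.urel {ℓ : β → ℕ} {P : β → Prop} (h : UPi X ℓ P) (E : Env α) (ρ : β → ℕ) :
    URel X E ρ ℓ P := by
  obtain ⟨M, h1, h2⟩ := h
  exact ⟨fun b l => (M b l, none), ci_pair h1 (ComputableIn.const none),
    fun _ _ _ hr => (by cases hr), fun _ b _ => h2 b⟩

theorem URel.upi {ℓ : β → ℕ} {D : β → Prop} (h : URel X E (fun _ => 0) ℓ D) : UPi X ℓ D := by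
  obtain ⟨φ, h1, -, h3⟩ := h
  refine ⟨fun b l => (φ b l).1, ci_comp ComputableIn.fst h1, fun b => ?_⟩
  refine (h3 (fun _ _ => false) b fun a ha => absurd ha (Nat.not_lt_zero _)).trans
    (tr_congr _ fun l _ => ?_)
  change ev _ (φ b l) = (φ b l).1
  rcases φ b l with ⟨t, _ | r⟩ <;> simp [ev]

/-- The recursion principle. -/
theorem URel.fix (hrk : CI X E.rk) (h : URel X E E.rk E.lv E.pr) : UPi X E.lv E.pr := by
  obtain ⟨φ, h1, h2, h3⟩ := h
  have c0 := ci_comp h1 (ComputableIn.snd (α := Bool × Option (α × List ℕ)))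
  have c1 := ci_pair (fa_ci_xor (Primrec.fst.comp Primrec.fst).computableIn
    (ci_comp ComputableIn.fst c0)) (ci_comp ComputableIn.snd c0)
  have c2 : CI X (faStep φ) :=
    ci_of_eq (ci_elim ComputableIn.snd ComputableIn.id c1) fun _ => rfl
  have c3 := ci_comp c2
    (Primrec.snd.comp (Primrec.snd (α := α × List ℕ)
      (β := ℕ × Bool × Option (α × List ℕ)))).computableIn
  have c4 := ci_nat_rec (f := fun p : α × List ℕ => E.rk p.1 + 1)
    (g := fun p => (false, some p)) (h := fun _ r => faStep φ r.2)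
    (ci_comp ComputableIn.succ (ci_comp hrk ComputableIn.fst))
    ((Primrec.const false).pair Primrec.option_some).computableIn (ci_of_eq c3 fun _ => rfl)
  refine ⟨fun a l => ((faStep φ)^[E.rk a + 1] (false, some (a, l))).1,
    ci_of_eq (ci_comp ComputableIn.fst c4) fun p => ?_, fun a => ?_⟩
  · congr 1
    induction E.rk p.1 + 1 with
    | zero => rfl
    | succ n ih => rw [Function.iterate_succ_apply', ← ih]
  · induction hn : E.rk a using Nat.strong_induction_on generalizing a with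
    | _ n ih =>
      subst hn
      refine (h3 _ a fun a' ha' => ih _ ha' a' rfl).trans (tr_congr _ fun l _ => ?_)
      rw [← fa_iter h2 (E.rk a) (φ a l) (h2 a l)]
      simp [faStep]

/-- Once the called families have formulas, relative formulas are absolute. -/
theorem URel.close {ρ ℓ : β → ℕ} {D : β → Prop} (h : URel X E ρ ℓ D) (hE : UPi X E.lv E.pr) :
    UPi X ℓ D := by
  obtain ⟨φ, h1, -, h3⟩ := h
  obtain ⟨ψ, h4, h5⟩ := hE
  exact ⟨fun b l => ev ψ (φ b l), ci_comp (fa_ci_ev h4) h1, fun b => h3 ψ b fun a _ => h5 a⟩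

theorem URel.dec {p : β → Bool} (hp : CI X p) (ρ ℓ : β → ℕ) :
    URel X E ρ ℓ fun b => p b = true := by
  refine UPi.urel ⟨fun b l => xor (p b) (decide (l.length % 2 = 1)), ?_,
    fun b => (tr_const _ _).symm⟩ E ρ
  exact fa_ci_xor (ci_comp hp ComputableIn.fst)
    (fa_odd.comp (Primrec.list_length.comp Primrec.snd)).computableIn

theorem URel.prim {p : β → Prop} (hp : PrimrecPred p) (ρ ℓ : β → ℕ) : URel X E ρ ℓ p := by
  exact (URel.dec (ci_pred hp) ρ ℓ).congr (fun _ => le_rfl) (fun _ => rfl) fun _ => by simp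

/-- Definition by cases. -/
theorem URel.cases {p : β → Bool} (hp : CI X p) {ρ₁ ℓ₁ ρ₂ ℓ₂ ρ ℓ : β → ℕ} {D₁ D₂ D : β → Prop}
    (h₁ : URel X E ρ₁ ℓ₁ D₁) (h₂ : URel X E ρ₂ ℓ₂ D₂)
    (e₁ : ∀ b, p b = true → ρ₁ b ≤ ρ b ∧ ℓ₁ b = ℓ b ∧ (D₁ b ↔ D b))
    (e₂ : ∀ b, p b = false → ρ₂ b ≤ ρ b ∧ ℓ₂ b = ℓ b ∧ (D₂ b ↔ D b)) : URel X E ρ ℓ D := by
  obtain ⟨φ, h1, h2, h3⟩ := h₁
  obtain ⟨φ', h1', h2', h3'⟩ := h₂
  refine ⟨fun b l => cond (p b) (φ b l) (φ' b l),
    ci_cond (ci_comp hp ComputableIn.fst) h1 h1', fun b l r hr => ?_, fun ψ b H => ?_⟩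
  · cases hb : p b
    · exact (h2' b l r (by simpa [hb] using hr)).trans_le (e₂ b hb).1
    · exact (h2 b l r (by simpa [hb] using hr)).trans_le (e₁ b hb).1
  · cases hb : p b
    · obtain ⟨a1, a2, a3⟩ := e₂ b hb
      rw [← a3, ← a2]
      simpa only [hb, cond_false] using h3' ψ b fun a ha => H a (ha.trans_le a1)
    · obtain ⟨a1, a2, a3⟩ := e₁ b hb
      rw [← a3, ← a2]
      simpa only [hb, cond_true] using h3 ψ b fun a ha => H a (ha.trans_le a1)

theorem URel.pad {ρ ℓ ℓ' : β → ℕ} {D : β → Prop} (h : URel X E ρ ℓ D) (hℓ : CI X ℓ)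
    (hle : ∀ b, ℓ b ≤ ℓ' b) : URel X E ρ ℓ' D := by
  obtain ⟨φ, h1, h2, h3⟩ := h
  have c0 := ci_comp hℓ (ComputableIn.fst (β := List ℕ))
  have c1 := ci_comp h1 (ci_pair ComputableIn.fst
    (ci_comp (Primrec.list_take (α := ℕ)).computableIn (ci_pair c0 ComputableIn.snd)))
  have c2 := ci_comp fa_odd.computableIn (ci_comp Primrec.nat_sub.computableIn
    (ci_pair (Primrec.list_length.comp Primrec.snd).computableIn c0))
  have c3 := ci_pair (fa_ci_xor c2 (ci_comp ComputableIn.fst c1)) (ci_comp ComputableIn.snd c1)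
  refine ⟨fun b l => (xor (decide ((l.length - ℓ b) % 2 = 1)) (φ b (l.take (ℓ b))).1,
    (φ b (l.take (ℓ b))).2), ci_of_eq c3 fun _ => rfl, fun b l r hr => h2 b _ r hr,
    fun ψ b H => ?_⟩
  obtain ⟨d, hd⟩ := Nat.exists_eq_add_of_le (hle b)
  rw [h3 ψ b H, hd, ← tr_pad (ℓ b) d]
  refine tr_congr _ fun l hl => ?_
  rw [fa_ev_xor, hl, Nat.add_sub_cancel_left]

theorem URel.neg {ρ ℓ : β → ℕ} {D : β → Prop} (h : URel X E ρ ℓ D) :
    URel X E ρ (fun b => ℓ b + 1) fun b => ¬ D b := by
  obtain ⟨φ, h1, h2, h3⟩ := h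
  have c1 := ci_comp h1 (ci_pair ComputableIn.fst
    (Primrec.list_tail.comp (Primrec.snd (α := β) (β := List ℕ))).computableIn)
  refine ⟨fun b l => φ b l.tail, ci_of_eq c1 fun _ => rfl, fun b l r hr => h2 b _ r hr,
    fun ψ b H => ?_⟩
  exact (not_congr (h3 ψ b H)).trans ⟨fun h _ => h, fun h => h 0⟩

theorem URel.nex {ρ ℓ : β → ℕ} {D : β × γ → Prop}
    (h : URel X E (fun p => ρ p.1) (fun p => ℓ p.1) D) :
    URel X E ρ (fun b => ℓ b + 1) fun b => ∀ c, ¬ D (b, c) := by
  obtain ⟨φ, h1, h2, h3⟩ := h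
  have p1 : Primrec fun r : (β × List ℕ) × γ => ((r.1.1, r.2), r.1.2.tail) :=
    ((Primrec.fst.comp Primrec.fst).pair Primrec.snd).pair
      (Primrec.list_tail.comp (Primrec.snd.comp Primrec.fst))
  have p2 : Primrec fun p : β × List ℕ => decode (α := γ) p.2.headI :=
    Primrec.decode.comp (Primrec.list_headI.comp Primrec.snd)
  have p3 : Primrec fun p : β × List ℕ =>
      (decide (p.2.tail.length % 2 = 1), (none : Option (α × List ℕ))) :=
    (fa_odd.comp (Primrec.list_length.comp (Primrec.list_tail.comp Primrec.snd))).pair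
      (Primrec.const none)
  have c1 := ci_elim p2.computableIn p3.computableIn (ci_comp h1 p1.computableIn)
  refine ⟨fun b l => (decode (α := γ) l.headI).elim (decide (l.tail.length % 2 = 1), none)
    fun c => φ (b, c) l.tail, ci_of_eq c1 fun _ => rfl, fun b l r hr => ?_, fun ψ b H => ?_⟩
  · cases hd : decode (α := γ) l.headI with
    | none => simp [hd] at hr
    | some c => exact h2 (b, c) l.tail r (by simpa [hd] using hr)
  · constructor
    · intro h k
      cases hd : decode (α := γ) k with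
      | none =>
        intro h'
        refine Bool.false_ne_true ((tr_const (ℓ b) false).1 ((tr_congr _ fun l _ => ?_).1 h'))
        simp only [List.headI_cons, hd, Option.elim_none, ev, List.tail_cons, Bool.false_xor]
        rfl
      | some c => simpa [hd] using fun h' => h c ((h3 ψ (b, c) H).2 h')
    · intro h c hc
      have := h (encode c)
      simp only [List.headI_cons, encodek, Option.elim_some, List.tail_cons] at this
      exact this ((h3 ψ (b, c) H).1 hc)

end Pool.Agent.P.MP_9f8894_lc
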