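import Mathlib
import Pool.Agent.P.MP_9f8894_lc.FmA

/-! Package FmB: closure properties of relative formulas, part 2. -/

set_option autoImplicit false
open Encodable Denumerable Filter TopologicalSpace
open scoped Classical

namespace Pool.Agent.P.MP_9f8894_lc

variable {X : Orc} {α β γ : Type} [Primcodable α] [Primcodable β] [Primcodable γ] {E : Env α}

theorem fb_all {ρ ℓ : β → ℕ} {D : β × ℕ → Prop}
    (h : URel X E (fun p => ρ p.1) (fun p => ℓ p.1) D) (h1 : ∀ b, 1 ≤ ℓ b) :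
    URel X E ρ ℓ fun b => ∀ c, D (b, c) := by
  obtain ⟨φ, c1, c2, c3⟩ := h
  have hu : Primrec fun p : β × List ℕ => p.2.headI.unpair :=
    Primrec.unpair.comp (Primrec.list_headI.comp Primrec.snd)
  have p1 : Primrec fun p : β × List ℕ =>
      ((p.1, p.2.headI.unpair.1), p.2.headI.unpair.2 :: p.2.tail) :=
    (Primrec.fst.pair (Primrec.fst.comp hu)).pair
      (Primrec.list_cons.comp (Primrec.snd.comp hu) (Primrec.list_tail.comp Primrec.snd))
  have c4 := ci_comp c1 p1.computableIn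
  refine ⟨fun b l => φ (b, l.headI.unpair.1) (l.headI.unpair.2 :: l.tail),
    ci_of_eq c4 fun _ => rfl, fun b l r hr => c2 _ _ r hr, fun ψ b H => ?_⟩
  obtain ⟨n, hn⟩ : ∃ n, ℓ b = n + 1 := ⟨ℓ b - 1, by have := h1 b; omega⟩
  have c5 : ∀ c, D (b, c) ↔ Tr (n + 1) fun l => ev ψ (φ (b, c) l) := fun c => hn ▸ c3 ψ (b, c) H
  rw [hn]
  simp only [c5, Tr, List.headI_cons, List.tail_cons]
  exact ⟨fun h k => h _ _, fun h c k => by simpa using h (Nat.pair c k)⟩

theorem fb_bex {ρ ℓ : β → ℕ} {D : β × ℕ → Prop} {n : β → ℕ} (hn : CI X n)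
    (h : URel X E (fun p => ρ p.1) (fun p => ℓ p.1) D) (h2 : ∀ b, 2 ≤ ℓ b) :
    URel X E ρ ℓ fun b => ∃ k < n b, D (b, k) := by
  obtain ⟨φ, c1, c2, c3⟩ := h
  have ht : Primrec fun p : β × List ℕ => p.2.tail := Primrec.list_tail.comp Primrec.snd
  have hu : Primrec fun p : β × List ℕ => p.2.tail.headI.unpair :=
    Primrec.unpair.comp (Primrec.list_headI.comp ht)
  have hk : Primrec fun p : β × List ℕ =>
      (ofNat (List ℕ) p.2.headI).getD p.2.tail.headI.unpair.1 0 :=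
    (Primrec.list_getD 0).comp ((Primrec.ofNat (List ℕ)).comp
      (Primrec.list_headI.comp Primrec.snd)) (Primrec.fst.comp hu)
  have p1 : Primrec fun p : β × List ℕ => ((p.1, p.2.tail.headI.unpair.1),
      (ofNat (List ℕ) p.2.headI).getD p.2.tail.headI.unpair.1 0 ::
        p.2.tail.headI.unpair.2 :: p.2.tail.tail) :=
    (Primrec.fst.pair (Primrec.fst.comp hu)).pair (Primrec.list_cons.comp hk
      (Primrec.list_cons.comp (Primrec.snd.comp hu) (Primrec.list_tail.comp ht)))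
  have c4 := ci_comp c1 p1.computableIn
  have p2 : Primrec fun p : β × List ℕ =>
      ((decide (p.2.tail.tail.length % 2 = 1), none) : Bool × Option (α × List ℕ)) :=
    (fa_odd.comp (Primrec.list_length.comp (Primrec.list_tail.comp ht))).pair (Primrec.const _)
  have c6 : CI X fun p : β × List ℕ => decide (p.2.tail.headI.unpair.1 < n p.1) :=
    ci_comp (f := fun q : ℕ × ℕ => decide (q.1 < q.2)) Primrec.nat_lt.decide.computableIn
      (ci_pair (Primrec.fst.comp hu).computableIn (ci_comp hn ComputableIn.fst))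
  have c7 := ci_cond c6 c4 p2.computableIn
  refine ⟨fun b l => cond (decide (l.tail.headI.unpair.1 < n b))
      (φ (b, l.tail.headI.unpair.1) ((ofNat (List ℕ) l.headI).getD l.tail.headI.unpair.1 0 ::
        l.tail.headI.unpair.2 :: l.tail.tail))
      (decide (l.tail.tail.length % 2 = 1), none),
    ci_of_eq c7 fun _ => rfl, fun b l r hr => ?_, fun ψ b H => ?_⟩
  · by_cases hlt : l.tail.headI.unpair.1 < n b
    · simp only [hlt, decide_true, cond_true] at hr
      exact c2 _ _ r hr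
    · simp [hlt] at hr
  obtain ⟨m, hm⟩ : ∃ m, ℓ b = m + 2 := ⟨ℓ b - 2, by have := h2 b; omega⟩
  have c5 : ∀ c, D (b, c) ↔ Tr (m + 2) fun l => ev ψ (φ (b, c) l) := fun c => hm ▸ c3 ψ (b, c) H
  have hf : ¬ Tr m fun l => decide (l.length % 2 = 1) := by
    have := tr_const m false
    simpa using this
  have key : ∀ K z : ℕ, Tr m (fun l => ev ψ (cond (decide (z.unpair.1 < n b))
      (φ (b, z.unpair.1) ((ofNat (List ℕ) K).getD z.unpair.1 0 :: z.unpair.2 :: l))
      (decide (l.length % 2 = 1), none))) ↔ z.unpair.1 < n b ∧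
      Tr m fun l => ev ψ (φ (b, z.unpair.1)
        ((ofNat (List ℕ) K).getD z.unpair.1 0 :: z.unpair.2 :: l)) := by
    intro K z
    by_cases hz : z.unpair.1 < n b
    · simp [hz]
    · simpa [hz, ev] using hf
  rw [hm]
  have c8 : ∀ c, D (b, c) ↔ ∀ y, ¬ ∀ x, ¬ Tr m fun l => ev ψ (φ (b, c) (y :: x :: l)) := c5
  refine Iff.trans ?_ (forall_congr' fun K => not_congr (forall_congr' fun z =>
    not_congr (key K z).symm))
  constructor
  · rintro ⟨k, hk, h⟩ K hK
    refine (c8 k).1 h ((ofNat (List ℕ) K).getD k 0) fun x hx => hK (Nat.pair k x) ?_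
    rw [Nat.unpair_pair]
    exact ⟨hk, hx⟩
  · intro h
    by_contra hcon
    have : ∀ k, ∃ y, k < n b → ∀ x, ¬ Tr m fun l => ev ψ (φ (b, k) (y :: x :: l)) := by
      intro k
      by_cases hk : k < n b
      · by_contra hc
        exact hcon ⟨k, hk, (c8 k).2 fun y hy => hc ⟨y, fun _ => hy⟩⟩
      · exact ⟨0, fun h => (hk h).elim⟩
    choose g hg using this
    refine h (encode ((List.range (n b)).map g)) fun z hz => hg _ hz.1 z.unpair.2 ?_
    have h3 := hz.2
    have h4 : (ofNat (List ℕ) (encode ((List.range (n b)).map g))).getD z.unpair.1 0 =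
        g z.unpair.1 := by
      rw [Denumerable.ofNat_encode]
      simp [List.getD_eq_getElem?_getD, hz.1]
    rw [h4] at h3
    exact h3

theorem URel.all {ρ ℓ : β → ℕ} {D : β × γ → Prop}
    (h : URel X E (fun p => ρ p.1) (fun p => ℓ p.1) D) (h1 : ∀ b, 1 ≤ ℓ b) :
    URel X E ρ ℓ fun b => ∀ c, D (b, c) := by
  by_cases hne : Nonempty γ
  · obtain ⟨c0⟩ := hne
    have p1 : Primrec fun p : β × ℕ => (p.1, (decode (α := γ) p.2).getD c0) :=
      Primrec.fst.pair (Primrec.option_getD.comp (Primrec.decode.comp Primrec.snd)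
        (Primrec.const c0))
    refine (fb_all (ρ := ρ) (ℓ := ℓ) (h.comp p1.computableIn) h1).congr (fun _ => le_rfl)
      (fun _ => rfl) fun b => ⟨fun h c => by simpa using h (encode c), fun h c => h _⟩
  · exact (URel.dec (ComputableIn.const true) ρ ℓ).congr (fun _ => le_rfl) (fun _ => rfl)
      fun b => ⟨fun _ c => (hne ⟨c⟩).elim, fun _ => rfl⟩

theorem fb_two {ρ ℓ : β → ℕ} {D D' : β → Prop} (h : URel X E ρ ℓ D) (h' : URel X E ρ ℓ D') :
    URel X E (fun p : β × ℕ => ρ p.1) (fun p => ℓ p.1)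
      fun p => if p.2 = 0 then D p.1 else D' p.1 :=
  URel.cases (p := fun p : β × ℕ => decide (p.2 = 0))
    (Primrec.eq.decide.comp Primrec.snd (Primrec.const 0)).computableIn
    (h.comp ComputableIn.fst) (h'.comp ComputableIn.fst)
    (fun p hp => ⟨le_rfl, rfl, by rw [if_pos (by simpa using hp)]⟩)
    fun p hp => ⟨le_rfl, rfl, by rw [if_neg (by simpa using hp)]⟩

theorem URel.and {ρ ℓ : β → ℕ} {D D' : β → Prop} (h : URel X E ρ ℓ D) (h' : URel X E ρ ℓ D')
    (h1 : ∀ b, 1 ≤ ℓ b) : URel X E ρ ℓ fun b => D b ∧ D' b := by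
  refine (fb_all (fb_two h h') h1).congr (fun _ => le_rfl) (fun _ => rfl) fun b =>
    ⟨fun h => ⟨by simpa using h 0, by simpa using h 1⟩, fun h c => ?_⟩
  dsimp only
  split_ifs
  exacts [h.1, h.2]

theorem URel.or {ρ ℓ : β → ℕ} {D D' : β → Prop} (h : URel X E ρ ℓ D) (h' : URel X E ρ ℓ D')
    (h2 : ∀ b, 2 ≤ ℓ b) : URel X E ρ ℓ fun b => D b ∨ D' b := by
  refine (fb_bex (n := fun _ => 2) (ComputableIn.const 2) (fb_two h h') h2).congr
    (fun _ => le_rfl) (fun _ => rfl) fun b => ⟨?_, ?_⟩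
  · rintro ⟨k, -, hk⟩
    dsimp only at hk
    split_ifs at hk
    exacts [Or.inl hk, Or.inr hk]
  · rintro (h | h)
    · exact ⟨0, by omega, by simpa using h⟩
    · exact ⟨1, by omega, by simpa using h⟩

theorem fb_imp {p : β → Bool} (hp : CI X p) {ρ ℓ : β → ℕ} {D : β → Prop}
    (h : URel X E ρ ℓ D) : URel X E ρ ℓ fun b => p b = true → D b :=
  URel.cases hp h (URel.dec (ComputableIn.const true) ρ ℓ)
    (fun _ hb => ⟨le_rfl, rfl, by simp [hb]⟩) fun _ hb => ⟨le_rfl, rfl, by simp [hb]⟩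

theorem URel.imp {p : β → Prop} (hp : PrimrecPred p) {ρ ℓ : β → ℕ} {D : β → Prop}
    (h : URel X E ρ ℓ D) : URel X E ρ ℓ fun b => p b → D b :=
  (fb_imp (ci_pred hp) h).congr (fun _ => le_rfl) (fun _ => rfl) fun _ => by simp

theorem URel.andp {p : β → Prop} (hp : PrimrecPred p) {ρ ℓ : β → ℕ} {D : β → Prop}
    (h : URel X E ρ ℓ D) : URel X E ρ ℓ fun b => p b ∧ D b :=
  URel.cases (ci_pred hp) h (URel.dec (ComputableIn.const false) ρ ℓ)
    (fun _ hb => ⟨le_rfl, rfl, by simp [of_decide_eq_true hb]⟩)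
    fun _ hb => ⟨le_rfl, rfl, by simp [of_decide_eq_false hb]⟩

theorem fb_idx {ρ ℓ : β → ℕ} {D : β × γ → Prop} {l : β → List γ} (hl : CI X l) (c0 : γ)
    (h : URel X E (fun p => ρ p.1) (fun p => ℓ p.1) D) :
    URel X E (fun p : β × ℕ => ρ p.1) (fun p => ℓ p.1) fun p => D (p.1, (l p.1).getD p.2 c0) := by
  have c1 := ci_comp (f := fun q : List γ × ℕ => q.1.getD q.2 c0)
    (Primrec.list_getD c0).computableIn
    (ci_pair (ci_comp hl (ComputableIn.fst (β := ℕ))) ComputableIn.snd)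
  exact h.comp (ci_pair ComputableIn.fst c1)

theorem fb_mem {l : List γ} (c0 c : γ) : c ∈ l ↔ ∃ k < l.length, l.getD k c0 = c := by
  rw [List.mem_iff_getElem]
  constructor
  · rintro ⟨k, hk, rfl⟩
    exact ⟨k, hk, by simp [List.getD_eq_getElem?_getD, hk]⟩
  · rintro ⟨k, hk, rfl⟩
    exact ⟨k, hk, by simp [List.getD_eq_getElem?_getD, hk]⟩

theorem fb_ball {ρ ℓ : β → ℕ} {D : β × ℕ → Prop} {n : β → ℕ} (hn : CI X n)
    (h : URel X E (fun p => ρ p.1) (fun p => ℓ p.1) D) (h1 : ∀ b, 1 ≤ ℓ b) :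
    URel X E ρ ℓ fun b => ∀ k < n b, D (b, k) := by
  have c6 : CI X fun p : β × ℕ => decide (p.2 < n p.1) :=
    ci_comp (f := fun q : ℕ × ℕ => decide (q.1 < q.2)) Primrec.nat_lt.decide.computableIn
      (ci_pair ComputableIn.snd (ci_comp hn ComputableIn.fst))
  exact (fb_all (fb_imp c6 h) h1).congr (fun _ => le_rfl) (fun _ => rfl) fun _ => by simp

/-- Existential quantifier over a list. -/
theorem URel.bex {ρ ℓ : β → ℕ} {D : β × γ → Prop} {l : β → List γ} (hl : CI X l)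
    (h : URel X E (fun p => ρ p.1) (fun p => ℓ p.1) D) (h2 : ∀ b, 2 ≤ ℓ b) :
    URel X E ρ ℓ fun b => ∃ c ∈ l b, D (b, c) := by
  by_cases hne : Nonempty γ
  · obtain ⟨c0⟩ := hne
    refine (fb_bex (ci_comp Primrec.list_length.computableIn hl) (fb_idx hl c0 h) h2).congr
      (fun _ => le_rfl) (fun _ => rfl) fun b => ⟨?_, ?_⟩
    · rintro ⟨k, hk, hd⟩
      exact ⟨_, (fb_mem c0 _).2 ⟨k, hk, rfl⟩, hd⟩
    · rintro ⟨c, hc, hd⟩
      obtain ⟨k, hk, rfl⟩ := (fb_mem c0 _).1 hc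
      exact ⟨k, hk, hd⟩
  · exact (URel.dec (ComputableIn.const false) ρ ℓ).congr (fun _ => le_rfl) (fun _ => rfl)
      fun b => ⟨fun h => by simp at h, fun ⟨c, _⟩ => (hne ⟨c⟩).elim⟩

/-- Universal quantifier over a list. -/
theorem URel.ball {ρ ℓ : β → ℕ} {D : β × γ → Prop} {l : β → List γ} (hl : CI X l)
    (h : URel X E (fun p => ρ p.1) (fun p => ℓ p.1) D) (h1 : ∀ b, 1 ≤ ℓ b) :
    URel X E ρ ℓ fun b => ∀ c ∈ l b, D (b, c) := by
  by_cases hne : Nonempty γ
  · obtain ⟨c0⟩ := hne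
    refine (fb_ball (ci_comp Primrec.list_length.computableIn hl) (fb_idx hl c0 h) h1).congr
      (fun _ => le_rfl) (fun _ => rfl) fun b => ⟨?_, ?_⟩
    · intro hd c hc
      obtain ⟨k, hk, rfl⟩ := (fb_mem c0 _).1 hc
      exact hd k hk
    · intro hd k hk
      exact hd _ ((fb_mem c0 _).2 ⟨k, hk, rfl⟩)
  · exact (URel.dec (ComputableIn.const true) ρ ℓ).congr (fun _ => le_rfl) (fun _ => rfl)
      fun b => ⟨fun _ c => (hne ⟨c⟩).elim, fun _ => rfl⟩

theorem URel.bexlt {ρ ℓ : β → ℕ} {D : β × ℕ → Prop} {n : β → ℕ} (hn : CI X n)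
    (h : URel X E (fun p => ρ p.1) (fun p => ℓ p.1) D) (h2 : ∀ b, 2 ≤ ℓ b) :
    URel X E ρ ℓ fun b => ∃ k < n b, D (b, k) :=
  fb_bex hn h h2

theorem URel.balllt {ρ ℓ : β → ℕ} {D : β × ℕ → Prop} {n : β → ℕ} (hn : CI X n)
    (h : URel X E (fun p => ρ p.1) (fun p => ℓ p.1) D) (h1 : ∀ b, 1 ≤ ℓ b) :
    URel X E ρ ℓ fun b => ∀ k < n b, D (b, k) :=
  fb_ball hn h h1

end Pool.Agent.P.MP_9f8894_lc
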