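import Mathlib
import Pool.Agent.P.MP_9f8894_lc.FmB

/-! Package FmC: closure properties of absolute formulas, witnesses. -/

set_option autoImplicit false
open Encodable Denumerable Filter TopologicalSpace
open scoped Classical

namespace Pool.Agent.P.MP_9f8894_lc

variable {X : Orc} {β γ : Type} [Primcodable β] [Primcodable γ]

/-- The trivial environment. -/
def fcEnv : Env Unit := ⟨fun _ => True, fun _ => 0, fun _ => 0⟩

theorem UPi.mono {Y : Orc} {ℓ : β → ℕ} {P : β → Prop} (h : UPi X ℓ P) (hXY : CI Y X) :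
    UPi Y ℓ P := by
  obtain ⟨M, hM, h⟩ := h
  exact ⟨M, ci_trans hM hXY, h⟩

theorem UPi.congr {ℓ ℓ' : β → ℕ} {P P' : β → Prop} (h : UPi X ℓ P) (hℓ : ∀ b, ℓ b = ℓ' b)
    (hP : ∀ b, P b ↔ P' b) : UPi X ℓ' P' := by
  obtain ⟨M, hM, h⟩ := h
  exact ⟨M, hM, fun b => by rw [← hP b, ← hℓ b]; exact h b⟩

theorem UPi.comp {ℓ : β → ℕ} {P : β → Prop} (h : UPi X ℓ P) {f : γ → β} (hf : CI X f) :
    UPi X (fun c => ℓ (f c)) fun c => P (f c) := by
  obtain ⟨M, hM, h⟩ := h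
  refine ⟨fun c => M (f c), ?_, fun c => h (f c)⟩
  have h1 := ci_comp hM (ci_pair (ci_comp hf (ComputableIn.fst (α := γ) (β := List ℕ)))
    ComputableIn.snd)
  exact ci_of_eq h1 fun _ => rfl

theorem UPi.dec {p : β → Bool} (hp : CI X p) (ℓ : β → ℕ) : UPi X ℓ fun b => p b = true := by
  exact (URel.dec (E := fcEnv) hp (fun _ => 0) ℓ).upi

theorem UPi.prim {p : β → Prop} (hp : PrimrecPred p) (ℓ : β → ℕ) : UPi X ℓ p := by
  exact (URel.prim (E := fcEnv) hp (fun _ => 0) ℓ).upi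

theorem UPi.cases {p : β → Bool} (hp : CI X p) {ℓ₁ ℓ₂ ℓ : β → ℕ} {P₁ P₂ P : β → Prop}
    (h₁ : UPi X ℓ₁ P₁) (h₂ : UPi X ℓ₂ P₂)
    (e₁ : ∀ b, p b = true → ℓ₁ b = ℓ b ∧ (P₁ b ↔ P b))
    (e₂ : ∀ b, p b = false → ℓ₂ b = ℓ b ∧ (P₂ b ↔ P b)) : UPi X ℓ P := by
  exact (URel.cases hp (h₁.urel fcEnv fun _ => 0) (h₂.urel fcEnv fun _ => 0)
    (ρ := fun _ => 0) (fun b hb => ⟨le_rfl, e₁ b hb⟩) (fun b hb => ⟨le_rfl, e₂ b hb⟩)).upi

theorem UPi.pad {ℓ ℓ' : β → ℕ} {P : β → Prop} (h : UPi X ℓ P) (hℓ : CI X ℓ)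
    (hle : ∀ b, ℓ b ≤ ℓ' b) : UPi X ℓ' P := by
  exact ((h.urel fcEnv fun _ => 0).pad hℓ hle).upi

theorem UPi.neg {ℓ : β → ℕ} {P : β → Prop} (h : UPi X ℓ P) :
    UPi X (fun b => ℓ b + 1) fun b => ¬ P b := by
  exact (h.urel fcEnv fun _ => 0).neg.upi

theorem UPi.nex {ℓ : β → ℕ} {P : β × γ → Prop} (h : UPi X (fun p => ℓ p.1) P) :
    UPi X (fun b => ℓ b + 1) fun b => ∀ c, ¬ P (b, c) := by
  exact (URel.nex (ρ := fun _ => 0) (h.urel fcEnv fun _ => 0)).upi

theorem UPi.all {ℓ : β → ℕ} {P : β × γ → Prop} (h : UPi X (fun p => ℓ p.1) P)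
    (h1 : ∀ b, 1 ≤ ℓ b) : UPi X ℓ fun b => ∀ c, P (b, c) := by
  exact (URel.all (ρ := fun _ => 0) (h.urel fcEnv fun _ => 0) h1).upi

theorem UPi.and {ℓ : β → ℕ} {P P' : β → Prop} (h : UPi X ℓ P) (h' : UPi X ℓ P')
    (h1 : ∀ b, 1 ≤ ℓ b) : UPi X ℓ fun b => P b ∧ P' b := by
  exact ((h.urel fcEnv fun _ => 0).and (h'.urel fcEnv fun _ => 0) h1).upi

theorem UPi.or {ℓ : β → ℕ} {P P' : β → Prop} (h : UPi X ℓ P) (h' : UPi X ℓ P')
    (h2 : ∀ b, 2 ≤ ℓ b) : UPi X ℓ fun b => P b ∨ P' b := by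
  exact ((h.urel fcEnv fun _ => 0).or (h'.urel fcEnv fun _ => 0) h2).upi

theorem UPi.imp {p : β → Prop} (hp : PrimrecPred p) {ℓ : β → ℕ} {P : β → Prop}
    (h : UPi X ℓ P) : UPi X ℓ fun b => p b → P b := by
  exact (URel.imp hp (h.urel fcEnv fun _ => 0)).upi

theorem UPi.andp {p : β → Prop} (hp : PrimrecPred p) {ℓ : β → ℕ} {P : β → Prop}
    (h : UPi X ℓ P) : UPi X ℓ fun b => p b ∧ P b := by
  exact (URel.andp hp (h.urel fcEnv fun _ => 0)).upi

theorem UPi.bex {ℓ : β → ℕ} {P : β × γ → Prop} {l : β → List γ} (hl : CI X l)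
    (h : UPi X (fun p => ℓ p.1) P) (h2 : ∀ b, 2 ≤ ℓ b) :
    UPi X ℓ fun b => ∃ c ∈ l b, P (b, c) := by
  exact (URel.bex (ρ := fun _ => 0) hl (h.urel fcEnv fun _ => 0) h2).upi

theorem UPi.ball {ℓ : β → ℕ} {P : β × γ → Prop} {l : β → List γ} (hl : CI X l)
    (h : UPi X (fun p => ℓ p.1) P) (h1 : ∀ b, 1 ≤ ℓ b) :
    UPi X ℓ fun b => ∀ c ∈ l b, P (b, c) := by
  exact (URel.ball (ρ := fun _ => 0) hl (h.urel fcEnv fun _ => 0) h1).upi

theorem UPi.bexlt {ℓ : β → ℕ} {P : β × ℕ → Prop} {n : β → ℕ} (hn : CI X n)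
    (h : UPi X (fun p => ℓ p.1) P) (h2 : ∀ b, 2 ≤ ℓ b) :
    UPi X ℓ fun b => ∃ k < n b, P (b, k) := by
  exact (URel.bexlt (ρ := fun _ => 0) hn (h.urel fcEnv fun _ => 0) h2).upi

theorem UPi.balllt {ℓ : β → ℕ} {P : β × ℕ → Prop} {n : β → ℕ} (hn : CI X n)
    (h : UPi X (fun p => ℓ p.1) P) (h1 : ∀ b, 1 ≤ ℓ b) :
    UPi X ℓ fun b => ∀ k < n b, P (b, k) := by
  exact (URel.balllt (ρ := fun _ => 0) hn (h.urel fcEnv fun _ => 0) h1).upi

/-- Witnesses for the failure of a formula. -/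
theorem UPi.wit {ℓ : β → ℕ} {P : β → Prop} (h : UPi X (fun b => ℓ b + 1) P) :
    ∃ Q : β × ℕ → Prop, UPi X (fun p => ℓ p.1) Q ∧ ∀ b, ¬ P b ↔ ∃ k, Q (b, k) := by
  obtain ⟨M, hM, h⟩ := h
  refine ⟨fun p => Tr (ℓ p.1) fun x => M p.1 (p.2 :: x),
    ⟨fun p x => M p.1 (p.2 :: x), ?_, fun p => Iff.rfl⟩, fun b => ?_⟩
  · have h1 : CI X fun q : (β × ℕ) × List ℕ => (q.1.1, q.1.2 :: q.2) :=
      ((Primrec.fst.comp Primrec.fst).pair
        (Primrec.list_cons.comp (Primrec.snd.comp Primrec.fst) Primrec.snd)).computableIn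
    have h2 := ci_comp hM h1
    exact ci_of_eq h2 fun _ => rfl
  · rw [h b]
    simp only [Tr, not_forall, not_not]

/-- The list coded by a number. -/
def fcList (k : ℕ) : List ℕ := (decode (α := List ℕ) k).getD []

theorem fc_list_prim : Primrec fcList :=
  Primrec.option_getD.comp Primrec.decode (Primrec.const [])

theorem fc_list_encode (l : List ℕ) : fcList (encode l) = l := by
  simp [fcList]

theorem fc_canon : PrimrecPred fun k : ℕ => encode (fcList k) = k :=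
  Primrec.eq.comp (Primrec.encode.comp fc_list_prim) Primrec.id

theorem fc_getD_prim : Primrec fun q : ℕ × ℕ => (fcList q.1).getD q.2 0 :=
  (Primrec.list_getD 0).comp (fc_list_prim.comp Primrec.fst) Primrec.snd

theorem fc_getD_map (f : ℕ → ℕ) {m j : ℕ} (h : j < m) :
    ((List.range m).map f).getD j 0 = f j := by
  simp [List.getD_eq_getElem?_getD, h]

theorem fc_ext {l l' : List ℕ} (hl : l.length = l'.length)
    (h : ∀ j < l.length, l.getD j 0 = l'.getD j 0) : l = l' := by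
  refine List.ext_getElem hl fun j h1 h2 => ?_
  have := h j h1
  simpa [List.getD_eq_getElem?_getD, h1, h2] using this

/-- Unique witnesses. -/
theorem UPi.uniq {ℓ : β → ℕ} {Q : β × ℕ → Prop} (h : UPi X (fun p => ℓ p.1 + 1) Q)
    (hℓ : CI X ℓ) : ∃ Q' : β × ℕ → Prop, UPi X (fun p => ℓ p.1 + 1) Q' ∧
      (∀ b, (∃ k, Q (b, k)) ↔ ∃ k, Q' (b, k)) ∧
      ∀ b k k', Q' (b, k) → Q' (b, k') → k = k' := by
  obtain ⟨W, hW, hQW⟩ := UPi.wit (β := β × ℕ) (ℓ := fun p => ℓ p.1) h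
  have hℓW : CI X fun p : (β × ℕ) × ℕ => ℓ p.1.1 := by
    have h1 := ci_comp hℓ
      (Primrec.fst.comp (Primrec.fst (α := β × ℕ) (β := ℕ))).computableIn
    exact ci_of_eq h1 fun _ => rfl
  have hW1 : UPi X (fun p : (β × ℕ) × ℕ => ℓ p.1.1 + 1) W :=
    hW.pad hℓW fun _ => Nat.le_succ _
  have hN : UPi X (fun p : (β × ℕ) × ℕ => ℓ p.1.1 + 1) fun p => ¬ W p := hW.neg
  -- least witnesses
  have hL : UPi X (fun p : (β × ℕ) × ℕ => ℓ p.1.1 + 1)
      fun p => W p ∧ ∀ v < p.2, ¬ W (p.1, v) := by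
    refine hW1.and ?_ fun _ => Nat.le_add_left _ _
    have h1 : CI X fun q : ((β × ℕ) × ℕ) × ℕ => (q.1.1, q.2) :=
      ((Primrec.fst.comp Primrec.fst).pair Primrec.snd).computableIn
    exact UPi.balllt (ℓ := fun p : (β × ℕ) × ℕ => ℓ p.1.1 + 1)
      (P := fun q => ¬ W (q.1.1, q.2)) (n := fun p => p.2) ComputableIn.snd (hN.comp h1)
      fun _ => Nat.le_add_left _ _
  have hlen : CI X fun p : β × ℕ => (fcList p.2).length :=
    (Primrec.list_length.comp (fc_list_prim.comp Primrec.snd)).computableIn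
  have hB : UPi X (fun p : β × ℕ => ℓ p.1 + 1) fun p => ∀ j < (fcList p.2).length,
      W ((p.1, j), (fcList p.2).getD j 0) ∧
        ∀ v < (fcList p.2).getD j 0, ¬ W ((p.1, j), v) := by
    have h1 : CI X fun q : (β × ℕ) × ℕ => ((q.1.1, q.2), (fcList q.1.2).getD q.2 0) :=
      (((Primrec.fst.comp Primrec.fst).pair Primrec.snd).pair
        (fc_getD_prim.comp ((Primrec.snd.comp Primrec.fst).pair Primrec.snd))).computableIn
    exact UPi.balllt (ℓ := fun p : β × ℕ => ℓ p.1 + 1)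
      (P := fun q => W ((q.1.1, q.2), (fcList q.1.2).getD q.2 0) ∧
        ∀ v < (fcList q.1.2).getD q.2 0, ¬ W ((q.1.1, q.2), v))
      hlen (hL.comp h1) fun _ => Nat.le_add_left _ _
  have hA : UPi X (fun p : β × ℕ => ℓ p.1 + 1) fun p => Q (p.1, (fcList p.2).length) :=
    h.comp (f := fun p : β × ℕ => (p.1, (fcList p.2).length)) (ci_pair ComputableIn.fst hlen)
  have hC : PrimrecPred fun p : β × ℕ => encode (fcList p.2) = p.2 :=
    fc_canon.comp Primrec.snd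
  refine ⟨_, UPi.andp hC (hA.and hB fun _ => Nat.le_add_left _ _), fun b => ⟨?_, ?_⟩, ?_⟩
  · intro hex
    let f : ℕ → ℕ := fun j => if hj : ∃ v, W ((b, j), v) then Nat.find hj else 0
    refine ⟨encode ((List.range (Nat.find hex)).map f), ?_⟩
    simp only [fc_list_encode, List.length_map, List.length_range, true_and]
    refine ⟨Nat.find_spec hex, fun j hj => ?_⟩
    have hj' : ∃ v, W ((b, j), v) := (hQW (b, j)).1 (Nat.find_min hex hj)
    rw [fc_getD_map f hj]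
    simp only [f, dif_pos hj']
    exact ⟨Nat.find_spec hj', fun v hv => Nat.find_min hj' hv⟩
  · rintro ⟨k, -, hk, -⟩
    exact ⟨_, hk⟩
  · rintro b k k' ⟨e, hq, hw⟩ ⟨e', hq', hw'⟩
    dsimp only at e hq hw e' hq' hw'
    have hl : (fcList k).length = (fcList k').length := by
      rcases lt_trichotomy (fcList k).length (fcList k').length with hlt | heq | hlt
      · exact absurd hq ((hQW (b, _)).2 ⟨_, (hw' _ hlt).1⟩)
      · exact heq
      · exact absurd hq' ((hQW (b, _)).2 ⟨_, (hw _ hlt).1⟩)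
    have : fcList k = fcList k' := by
      refine fc_ext hl fun j hj => ?_
      have h1 := hw j hj
      have h2 := hw' j (hl ▸ hj)
      rcases lt_trichotomy ((fcList k).getD j 0) ((fcList k').getD j 0) with hlt | heq | hlt
      · exact absurd h1.1 (h2.2 _ hlt)
      · exact heq
      · exact absurd h2.1 (h1.2 _ hlt)
    rw [← e, ← e', this]

/-- Normal form by infinitely many events. -/
theorem UPi.inf {ℓ : β → ℕ} {P : β → Prop} (h : UPi X (fun b => ℓ b + 3) P) (hℓ : CI X ℓ) :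
    ∃ Q : β × ℕ → Prop, UPi X (fun p => ℓ p.1 + 1) Q ∧
      ∀ b, P b ↔ {k | Q (b, k)}.Infinite := by
  obtain ⟨Q₁, hQ₁, e₁⟩ := UPi.wit (ℓ := fun b => ℓ b + 2) h
  obtain ⟨R, hR, e₂⟩ := UPi.wit (β := β × ℕ) (ℓ := fun p => ℓ p.1 + 1) hQ₁
  have hℓ' : CI X fun p : β × ℕ => ℓ p.1 := by
    have h1 := ci_comp hℓ (ComputableIn.fst (α := β) (β := ℕ))
    exact ci_of_eq h1 fun _ => rfl
  obtain ⟨R', hR', e₃, hu⟩ := UPi.uniq (β := β × ℕ) (ℓ := fun p => ℓ p.1) hR hℓ'
  have hP : ∀ b, P b ↔ ∀ j, ∃ k, R' ((b, j), k) := by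
    intro b
    rw [← not_not (a := P b), e₁ b, not_exists]
    exact forall_congr' fun j => by rw [e₂ (b, j), e₃ (b, j)]
  have hlen : CI X fun p : β × ℕ => (fcList p.2).length :=
    (Primrec.list_length.comp (fc_list_prim.comp Primrec.snd)).computableIn
  have hB : UPi X (fun p : β × ℕ => ℓ p.1 + 1) fun p => ∀ j < (fcList p.2).length,
      R' ((p.1, j), (fcList p.2).getD j 0) := by
    have h1 : CI X fun q : (β × ℕ) × ℕ => ((q.1.1, q.2), (fcList q.1.2).getD q.2 0) :=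
      (((Primrec.fst.comp Primrec.fst).pair Primrec.snd).pair
        (fc_getD_prim.comp ((Primrec.snd.comp Primrec.fst).pair Primrec.snd))).computableIn
    exact UPi.balllt (ℓ := fun p : β × ℕ => ℓ p.1 + 1)
      (P := fun q => R' ((q.1.1, q.2), (fcList q.1.2).getD q.2 0))
      hlen (hR'.comp h1) fun _ => Nat.le_add_left _ _
  have hC : PrimrecPred fun p : β × ℕ => encode (fcList p.2) = p.2 :=
    fc_canon.comp Primrec.snd
  refine ⟨_, UPi.andp hC hB, fun b => ?_⟩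
  let g : ℕ → ℕ := fun j => if hj : ∃ k, R' ((b, j), k) then hj.choose else 0
  have hg : ∀ j k, R' ((b, j), k) → k = g j := by
    intro j k hk
    have hj : ∃ k, R' ((b, j), k) := ⟨k, hk⟩
    simp only [g, dif_pos hj]
    exact hu (b, j) _ _ hk hj.choose_spec
  rw [hP b]
  constructor
  · intro hall
    refine Set.infinite_of_injective_forall_mem
      (f := fun m : ℕ => encode ((List.range m).map g)) ?_ fun m => ?_
    · intro m m' hm
      have := congrArg List.length (encode_injective hm)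
      simpa using this
    · simp only [Set.mem_ofPred_eq, fc_list_encode, List.length_map, List.length_range, true_and]
      intro j hj
      rw [fc_getD_map g hj]
      obtain ⟨k, hk⟩ := hall j
      rw [← hg j k hk]
      exact hk
  · intro hinf j
    by_contra hj
    refine hinf (((Set.finite_le_nat j).image
      fun m : ℕ => encode ((List.range m).map g)).subset ?_)
    rintro n ⟨e, hn⟩
    dsimp only at e hn
    refine ⟨(fcList n).length, ?_, ?_⟩
    · by_contra hlt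
      exact hj ⟨_, hn j (not_le.1 hlt)⟩
    · dsimp only
      rw [← e]
      simp only [fc_list_encode]
      congr 1
      refine fc_ext (by simp) fun i hi => ?_
      have hi' : i < (fcList n).length := by simpa using hi
      rw [fc_getD_map g hi']
      exact (hg i _ (hn i hi')).symm

end Pool.Agent.P.MP_9f8894_lc
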