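import Mathlib
import Pool.Agent.P.MP_9f8894_lc.FmC

/-! Package HasCx: the complexity of the formulas for point classes. -/

set_option autoImplicit false
open Encodable Denumerable Filter TopologicalSpace
open scoped Classical

namespace Pool.Agent.P.MP_9f8894_lc

theorem primrec_mev : Primrec fun p : (ℕ × ℕ × ℕ) × ℕ => mev p.1.1 p.1.2.1 p.1.2.2 p.2 := by
  have h : Primrec fun p : (ℕ × ℕ × ℕ) × ℕ =>
      (ofNat Nat.Partrec.Code p.1.1.unpair.1).evaln p.2 (Nat.pair p.1.2.1 p.1.2.2) :=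
    Nat.Partrec.Code.primrec_evaln.comp
      ((Primrec.snd.pair ((Primrec.ofNat _).comp (Primrec.fst.comp (Primrec.unpair.comp
        (Primrec.fst.comp Primrec.fst))))).pair
        (Primrec₂.natPair.comp (Primrec.fst.comp (Primrec.snd.comp Primrec.fst))
          (Primrec.snd.comp (Primrec.snd.comp Primrec.fst))))
  exact h

namespace HC

section prim
variable {γ : Type} [Primcodable γ]

theorem mev_comp {fe fx fy fs : γ → ℕ} (he : Primrec fe) (hx : Primrec fx) (hy : Primrec fy)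
    (hs : Primrec fs) : Primrec fun c => mev (fe c) (fx c) (fy c) (fs c) := by
  have h := primrec_mev.comp ((he.pair (hx.pair hy)).pair hs)
  exact h

theorem mev_eq {fe fx fy fs fv : γ → ℕ} (he : Primrec fe) (hx : Primrec fx) (hy : Primrec fy)
    (hs : Primrec fs) (hv : Primrec fv) :
    PrimrecPred fun c => mev (fe c) (fx c) (fy c) (fs c) = some (fv c) :=
  Primrec.eq.comp (mev_comp he hx hy hs) (Primrec.option_some.comp hv)

theorem bot_comp {fe : γ → ℕ} (he : Primrec fe) : Primrec fun c => (fe c).unpair.2 :=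
  Primrec.snd.comp (Primrec.unpair.comp he)

theorem eq_const {f : γ → ℕ} (hf : Primrec f) (k : ℕ) : PrimrecPred fun c => f c = k :=
  Primrec.eq.comp hf (Primrec.const k)

theorem pp_imp {p q : γ → Prop} (hp : PrimrecPred p) (hq : PrimrecPred q) :
    PrimrecPred fun c => p c → q c :=
  (hp.not.or hq).of_eq fun c => by tauto

theorem add_c {f : γ → ℕ} (hf : Primrec f) (k : ℕ) : Primrec fun c => f c + k :=
  Primrec.nat_add.comp hf (Primrec.const k)

theorem sub_c {f : γ → ℕ} (hf : Primrec f) (k : ℕ) : Primrec fun c => f c - k :=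
  Primrec.nat_sub.comp hf (Primrec.const k)

theorem cl_mk {f g h : γ → ℕ} (hf : Primrec f) (hg : Primrec g) (hh : Primrec h) :
    Primrec fun c => ((f c, g c, h c) : Cl) := hf.pair (hg.pair hh)

theorem cNI_comp {f : γ → ℕ} (hf : Primrec f) : Primrec fun c => cNI (f c) :=
  Primrec.ite (eq_const hf 0) (Primrec.const cAll)
    (cl_mk (Primrec.const 3) (sub_c hf 1) (Primrec.const 0))

theorem cR_comp {f : γ → ℕ} (hf : Primrec f) : Primrec fun c => cR (f c) :=
  cl_mk (Primrec.const 4) hf (Primrec.const 0)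

theorem cT_comp {f : γ → ℕ} (hf : Primrec f) : Primrec fun c => cT (f c) :=
  Primrec.ite (eq_const hf 0) (Primrec.const cAt) (Primrec.ite (eq_const hf 1)
    (Primrec.const cPerf) (cl_mk (Primrec.const 5) (sub_c hf 2) (Primrec.const 0)))

theorem cTag_comp {f : γ → ℕ} (hf : Primrec f) : Primrec fun c => cTag (f c) :=
  cl_mk (Primrec.const 6) hf (Primrec.const 0)

theorem cTop_comp {f g : γ → ℕ} (hf : Primrec f) (hg : Primrec g) :
    Primrec fun c => cTop (f c) (g c) :=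
  cl_mk (Primrec.const 7) hf hg

theorem one {f : γ → Cl} (hf : Primrec f) : Primrec fun c => [f c] :=
  Primrec.list_cons.comp hf (Primrec.const [])

theorem two {f g : γ → Cl} (hf : Primrec f) (hg : Primrec g) : Primrec fun c => [f c, g c] :=
  Primrec.list_cons.comp hf (one hg)

end prim

theorem c1 : Primrec fun A : Cl => A.1 := Primrec.fst
theorem c2 : Primrec fun A : Cl => A.2.1 := Primrec.fst.comp Primrec.snd
theorem c3 : Primrec fun A : Cl => A.2.2 := Primrec.snd.comp Primrec.snd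

theorem odd3 : PrimrecPred fun A : Cl => A.2.2 % 2 = 1 :=
  eq_const (Primrec.nat_mod.comp c3 (Primrec.const 2)) 1

theorem half3 : Primrec fun A : Cl => cR (A.2.2 / 2 - 1) :=
  cR_comp (sub_c (Primrec.nat_div.comp c3 (Primrec.const 2)) 1)

theorem primrec_posC : Primrec posC :=
  Primrec.ite (eq_const c1 3) (one (cNI_comp c2))
    (Primrec.ite (eq_const c1 4) (one (cNI_comp (sub_c c2 1)))
    (Primrec.ite (eq_const c1 5) (two (cT_comp c2) (Primrec.const cAt))
    (Primrec.ite (eq_const c1 6) (two (Primrec.const (cR 2)) (cT_comp c2))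
    (Primrec.ite (eq_const c1 7)
      (Primrec.list_append.comp (two (cTag_comp (add_c c2 3)) (cT_comp (sub_c c3 6)))
        (Primrec.ite odd3 (one half3) (Primrec.const [])))
    (Primrec.ite (eq_const c1 8) (one (cTop_comp c2 c3)) (Primrec.const []))))))

theorem primrec_negC : Primrec negC :=
  Primrec.ite (eq_const c1 2) (Primrec.const [cAt])
    (Primrec.ite (eq_const c1 4) (Primrec.const [cPerf])
    (Primrec.ite (eq_const c1 5) (two (cT_comp (add_c c2 1)) (Primrec.const (cR 2)))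
    (Primrec.ite (eq_const c1 6) (one (cT_comp (add_c c2 1)))
    (Primrec.ite (eq_const c1 7)
      (Primrec.list_append.comp (one (cT_comp (sub_c c3 5)))
        (Primrec.ite odd3 (Primrec.const []) (one half3)))
    (Primrec.const [])))))

theorem primrec_lev' : Primrec lev :=
  Primrec.ite (eq_const c1 0) (Primrec.const 1)
    (Primrec.ite (eq_const c1 1) (Primrec.const 2)
    (Primrec.ite (eq_const c1 3) (add_c (Primrec.nat_mul.comp (Primrec.const 2) c2) 3)
    (Primrec.ite (eq_const c1 4)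
      (Primrec.nat_max.comp (add_c (Primrec.nat_mul.comp (Primrec.const 2) c2) 1)
        (Primrec.const 5))
    (Primrec.ite (eq_const c1 5) (add_c c2 6)
    (Primrec.ite (eq_const c1 6) (add_c c2 7)
    (Primrec.ite (eq_const c1 7) (Primrec.nat_max.comp c3 (add_c c2 12))
    (Primrec.ite (eq_const c1 8) (add_c (Primrec.nat_max.comp c3 (add_c c2 12)) 2)
      (Primrec.const 4))))))))

theorem mev_mono {e x y s t v : ℕ} (h : s ≤ t) (hv : mev e x y s = some v) :
    mev e x y t = some v :=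
  Nat.Partrec.Code.evaln_mono h hv

theorem dj_all (e v : ℕ) (l : List ℕ) :
    (∀ w ∈ l, djS e v w) ↔ ∃ s, ∀ w ∈ l, mev e v w s = some e.unpair.2 := by
  refine ⟨fun h => ?_, fun ⟨s, h⟩ w hw => ⟨s, h w hw⟩⟩
  induction l with
  | nil => exact ⟨0, by simp⟩
  | cons a l ih =>
    obtain ⟨s, hs⟩ := ih fun w hw => h w (List.mem_cons_of_mem _ hw)
    obtain ⟨t, ht⟩ := h a List.mem_cons_self
    refine ⟨max s t, fun w hw => ?_⟩
    rcases List.mem_cons.1 hw with rfl | hw
    · exact mev_mono (le_max_right _ _) ht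
    · exact mev_mono (le_max_left _ _) (hs w hw)

theorem lev_ge {A : Cl} (h0 : A.1 ≠ 0) (h1 : A.1 ≠ 1) : 3 ≤ lev A := by
  unfold lev
  split_ifs <;> omega

theorem pos_small {A : Cl} (h : lev A ≤ 3) :
    posC A = if A.1 = 3 then [cAll] else [] := by
  obtain ⟨k, a, b⟩ := A
  unfold lev at h
  unfold posC
  dsimp only at h ⊢
  split_ifs at h ⊢ <;> first | omega | rfl | skip
  have : a = 0 := by omega
  subst this; rfl

section rel
variable {X : Orc} {α γ : Type} [Primcodable α] [Primcodable γ] {E : Env α}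

theorem ex_imp {p : γ × ℕ → Prop} (hp : PrimrecPred p) {ρ ℓ : γ → ℕ} {D : γ → Prop}
    (h : URel X E ρ ℓ D) (h1 : ∀ c, 1 ≤ ℓ c) :
    URel X E ρ ℓ fun c => (∃ s, p (c, s)) → D c := by
  have h2 := URel.imp hp (h.comp (f := fun q : γ × ℕ => q.1) ComputableIn.fst)
  refine (URel.all h2 h1).congr (fun _ => le_rfl) (fun _ => rfl) fun c => ?_
  exact ⟨fun H ⟨s, hs⟩ => H s hs, fun H s hs => H ⟨s, hs⟩⟩

theorem leS_imp {fe fx fy : γ → ℕ} (he : Primrec fe) (hx : Primrec fx) (hy : Primrec fy)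
    {ρ ℓ : γ → ℕ} {D : γ → Prop} (h : URel X E ρ ℓ D) (h1 : ∀ c, 1 ≤ ℓ c) :
    URel X E ρ ℓ fun c => leS (fe c) (fx c) (fy c) → D c :=
  ex_imp (p := fun q : γ × ℕ => mev (fe q.1) (fx q.1) (fy q.1) q.2 = some (fx q.1))
    (mev_eq (he.comp Primrec.fst) (hx.comp Primrec.fst) (hy.comp Primrec.fst) Primrec.snd
      (hx.comp Primrec.fst)) h h1

theorem djS_imp {fe fx fy : γ → ℕ} (he : Primrec fe) (hx : Primrec fx) (hy : Primrec fy)
    {ρ ℓ : γ → ℕ} {D : γ → Prop} (h : URel X E ρ ℓ D) (h1 : ∀ c, 1 ≤ ℓ c) :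
    URel X E ρ ℓ fun c => djS (fe c) (fx c) (fy c) → D c :=
  ex_imp (p := fun q : γ × ℕ => mev (fe q.1) (fx q.1) (fy q.1) q.2 = some (fe q.1).unpair.2)
    (mev_eq (he.comp Primrec.fst) (hx.comp Primrec.fst) (hy.comp Primrec.fst) Primrec.snd
      (bot_comp (he.comp Primrec.fst))) h h1

/-- The value of the meet function, when it exists, is `fv`. -/
theorem val_all {fe fx fy fv : γ → ℕ} (he : Primrec fe) (hx : Primrec fx) (hy : Primrec fy)
    (hv : Primrec fv) (ρ : γ → ℕ) :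
    URel X E ρ (fun _ => 1) fun c => ∀ s v, mev (fe c) (fx c) (fy c) s = some v → v = fv c := by
  have f1 : Primrec fun q : (γ × ℕ) × ℕ => q.1.1 := Primrec.fst.comp Primrec.fst
  have hp : PrimrecPred fun q : (γ × ℕ) × ℕ =>
      mev (fe q.1.1) (fx q.1.1) (fy q.1.1) q.1.2 = some q.2 → q.2 = fv q.1.1 :=
    pp_imp (mev_eq (he.comp f1) (hx.comp f1) (hy.comp f1) (Primrec.snd.comp Primrec.fst)
      Primrec.snd) (Primrec.eq.comp Primrec.snd (hv.comp f1))
  have h1 : URel X E (fun q : (γ × ℕ) × ℕ => ρ q.1.1) (fun _ => 1) _ := URel.prim hp _ _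
  have h2 := URel.all (ρ := fun q : γ × ℕ => ρ q.1) (ℓ := fun _ => 1) h1 fun _ => le_rfl
  exact URel.all (ρ := ρ) (ℓ := fun _ => 1) h2 fun _ => le_rfl

/-- A formula used only under a side condition which bounds its rank and level. -/
theorem guard {p : γ → Prop} (hp : PrimrecPred p) {ρ₁ ℓ₁ ρ ℓ : γ → ℕ} {D : γ → Prop}
    (h : URel X E ρ₁ ℓ₁ D) (hℓ : Primrec ℓ₁) (hc : ∀ c, p c → ρ₁ c ≤ ρ c ∧ ℓ₁ c ≤ ℓ c) :
    URel X E ρ ℓ fun c => p c ∧ D c := by
  have hF : PrimrecPred fun _ : γ => False :=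
    (eq_const (Primrec.const (α := γ) 0) 1).of_eq fun _ => by simp
  refine URel.cases (ci_pred hp)
    (h.pad (ℓ' := fun c => max (ℓ₁ c) (ℓ c)) hℓ.computableIn fun _ => le_max_left _ _)
    (URel.prim hF ρ ℓ) (fun c hpc => ?_) fun c hpc => ?_
  · have hpc' : p c := by simpa using hpc
    exact ⟨(hc c hpc').1, max_eq_right (hc c hpc').2, by simp [hpc']⟩
  · have hpc' : ¬ p c := by simpa using hpc
    exact ⟨le_rfl, rfl, by simp [hpc']⟩

/-- Splitting of an element into two disjoint parts. -/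
theorem split_all {fe fw : γ → ℕ} (he : Primrec fe) (hw : Primrec fw) {ρ ℓ : γ → ℕ}
    {D : (γ × ℕ) × ℕ → Prop} (h : URel X E (fun q => ρ q.1.1) (fun q => ℓ q.1.1) D)
    (h1 : ∀ c, 1 ≤ ℓ c) :
    URel X E ρ ℓ fun c => ∀ w₁ w₂, leS (fe c) w₁ (fw c) → leS (fe c) w₂ (fw c) →
      djS (fe c) w₁ w₂ → D ((c, w₁), w₂) := by
  have f1 : Primrec fun q : (γ × ℕ) × ℕ => q.1.1 := Primrec.fst.comp Primrec.fst
  have f2 : Primrec fun q : (γ × ℕ) × ℕ => q.1.2 := Primrec.snd.comp Primrec.fst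
  have h2 := djS_imp (he.comp f1) f2 Primrec.snd h fun q => h1 _
  have h3 := leS_imp (he.comp f1) Primrec.snd (hw.comp f1) h2 fun q => h1 _
  have h4 := leS_imp (he.comp f1) f2 (hw.comp f1) h3 fun q => h1 _
  have h5 := URel.all (ρ := fun q : γ × ℕ => ρ q.1) (ℓ := fun q => ℓ q.1) h4 fun q => h1 _
  exact URel.all (ρ := ρ) (ℓ := ℓ) h5 h1

theorem cov_rel {fe fz : γ → ℕ} {fl : γ → List ℕ} (he : Primrec fe) (hz : Primrec fz)
    (hl : Primrec fl) (ρ : γ → ℕ) :
    URel X E ρ (fun _ => 1) fun c => covP (fe c) (fz c) (fl c) := by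
  have h1 : URel X E (fun q : γ × ℕ => ρ q.1) (fun _ => 1)
      fun q => leP (fe q.1) q.2 (fz q.1) :=
    val_all (he.comp Primrec.fst) Primrec.snd (hz.comp Primrec.fst) Primrec.snd _
  have h2 := URel.ball (ρ := ρ) (ℓ := fun _ => 1) hl.computableIn h1 fun _ => le_rfl
  have f1 : Primrec fun q : (γ × ℕ) × ℕ => q.1.1 := Primrec.fst.comp Primrec.fst
  have hR : PrimrecRel fun (w : ℕ) (q : (γ × ℕ) × ℕ) =>
      mev (fe q.1.1) q.1.2 w q.2 = some (fe q.1.1).unpair.2 :=
    mev_eq (γ := ℕ × (γ × ℕ) × ℕ) (he.comp (f1.comp Primrec.snd))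
      (Primrec.snd.comp (Primrec.fst.comp Primrec.snd)) Primrec.fst
      (Primrec.snd.comp Primrec.snd) (bot_comp (he.comp (f1.comp Primrec.snd)))
  have hp : PrimrecPred fun q : (γ × ℕ) × ℕ =>
      ∀ w ∈ fl q.1.1, mev (fe q.1.1) q.1.2 w q.2 = some (fe q.1.1).unpair.2 :=
    hR.forall_mem_list.comp (hl.comp f1) Primrec.id
  have h3 : URel X E (fun q : γ × ℕ => ρ q.1) (fun _ => 1)
      fun q => q.2 = (fe q.1).unpair.2 :=
    URel.prim (Primrec.eq.comp Primrec.snd (bot_comp (he.comp Primrec.fst))) _ _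
  have h4 := ex_imp hp h3 fun _ => le_rfl
  have h5 := leS_imp (he.comp Primrec.fst) Primrec.snd (hz.comp Primrec.fst) h4 fun _ => le_rfl
  have h6 := URel.all (ρ := ρ) (ℓ := fun _ => 1) h5 fun _ => le_rfl
  refine (URel.and h2 h6 fun _ => le_rfl).congr (fun _ => le_rfl) (fun _ => rfl) fun c => ?_
  simp only [covP, dj_all]

end rel

/-- Triples: index, class, element. -/
abbrev Tp := ℕ × Cl × ℕ

/-- The family defined by recursion. -/
def EH : Env Tp := ⟨fun p => nH p.1 p.2.1 p.2.2, fun p => lev p.2.1, fun p => lev p.2.1⟩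

theorem t1 : Primrec fun p : Tp => p.1 := Primrec.fst
theorem t2 : Primrec fun p : Tp => p.2.1 := Primrec.fst.comp Primrec.snd
theorem t3 : Primrec fun p : Tp => p.2.2 := Primrec.snd.comp Primrec.snd

theorem call_at {γ : Type} [Primcodable γ] {fe fw : γ → ℕ} {fB : γ → Cl} (he : Primrec fe)
    (hB : Primrec fB) (hw : Primrec fw) :
    URel zero EH (fun c => lev (fB c) + 1) (fun c => lev (fB c))
      fun c => nH (fe c) (fB c) (fw c) := by
  have h := (URel.call zero EH).comp (f := fun c => ((fe c, fB c, fw c) : Tp))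
    (he.pair (hB.pair hw)).computableIn
  exact h

/-- At most one point of class `B` lies in `w`. -/
def Sp (e : ℕ) (B : Cl) (w : ℕ) : Prop :=
  ∀ w₁ w₂, leS e w₁ w → leS e w₂ w → djS e w₁ w₂ → nH e B w₁ ∨ nH e B w₂

theorem sp_rel : URel zero EH (fun p : Tp => lev p.2.1 + 1) (fun p => max (lev p.2.1) 2)
    fun p => Sp p.1 p.2.1 p.2.2 := by
  have f1 : Primrec fun q : (Tp × ℕ) × ℕ => q.1.1 := Primrec.fst.comp Primrec.fst
  have hl : Primrec fun q : (Tp × ℕ) × ℕ => lev q.1.1.2.1 := primrec_lev'.comp (t2.comp f1)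
  have h1 := (call_at (t1.comp f1) (t2.comp f1) (Primrec.snd.comp Primrec.fst)).pad
    (ℓ' := fun q => max (lev q.1.1.2.1) 2) hl.computableIn fun _ => le_max_left _ _
  have h2 := (call_at (t1.comp f1) (t2.comp f1) Primrec.snd).pad
    (ℓ' := fun q => max (lev q.1.1.2.1) 2) hl.computableIn fun _ => le_max_left _ _
  have h3 := URel.or h1 h2 fun _ => le_max_right _ _
  exact split_all (ρ := fun p : Tp => lev p.2.1 + 1) (ℓ := fun p => max (lev p.2.1) 2)
    t1 t3 h3 fun _ => le_trans (by norm_num) (le_max_right _ _)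

theorem nH_all (e w : ℕ) : nH e cAll w ↔ w = e.unpair.2 := by
  rw [nH]; simp [cAll]

theorem sp_all : URel zero EH (fun p : Tp => lev p.2.1) (fun _ => 1)
    fun p => Sp p.1 cAll p.2.2 := by
  have f1 : Primrec fun q : (Tp × ℕ) × ℕ => q.1.1 := Primrec.fst.comp Primrec.fst
  have hp : PrimrecPred fun q : (Tp × ℕ) × ℕ =>
      q.1.2 = q.1.1.1.unpair.2 ∨ q.2 = q.1.1.1.unpair.2 :=
    (Primrec.eq.comp (Primrec.snd.comp Primrec.fst) (bot_comp (t1.comp f1))).or
      (Primrec.eq.comp Primrec.snd (bot_comp (t1.comp f1)))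
  have h := split_all (X := zero) (E := EH) (ρ := fun p : Tp => lev p.2.1) (ℓ := fun _ => 1)
    t1 t3 (URel.prim hp _ _) fun _ => le_rfl
  refine h.congr (fun _ => le_rfl) (fun _ => rfl) fun p => ?_
  simp only [Sp, nH_all]

theorem inn_big : URel zero EH (fun p : Tp => lev p.2.1) (fun p => max (lev p.2.1 - 2) 2)
    fun p => ∃ B ∈ posC p.2.1, Sp p.1 B p.2.2 := by
  have hf : Primrec fun q : Tp × Cl => ((q.1.1, q.2, q.1.2.2) : Tp) :=
    (t1.comp Primrec.fst).pair (Primrec.snd.pair (t3.comp Primrec.fst))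
  have hB : Primrec fun q : Tp × Cl => lev q.2 := primrec_lev'.comp Primrec.snd
  have hp : PrimrecPred fun q : Tp × Cl => lev q.2 + 2 ≤ lev q.1.2.1 :=
    Primrec.nat_le.comp (add_c hB 2) (primrec_lev'.comp (t2.comp Primrec.fst))
  have h1 : URel zero EH (fun q : Tp × Cl => lev q.2 + 1) (fun q => max (lev q.2) 2)
      fun q => Sp q.1.1 q.2 q.1.2.2 := sp_rel.comp hf.computableIn
  have h2 := guard hp (ρ := fun q => lev q.1.2.1) (ℓ := fun q => max (lev q.1.2.1 - 2) 2) h1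
    (Primrec.nat_max.comp hB (Primrec.const 2)) fun q hq => by constructor <;> omega
  have h3 := URel.bex (ρ := fun p : Tp => lev p.2.1) (ℓ := fun p => max (lev p.2.1 - 2) 2)
    (primrec_posC.comp t2).computableIn h2 fun _ => le_max_right _ _
  refine h3.congr (fun _ => le_rfl) (fun _ => rfl) fun p => ?_
  exact ⟨fun ⟨B, hB, h⟩ => ⟨B, hB, h.2⟩, fun ⟨B, hB, h⟩ => ⟨B, hB, lev_pos hB, h⟩⟩

theorem inn_rel : URel zero EH (fun p : Tp => lev p.2.1) (fun p => max (lev p.2.1 - 2) 1)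
    fun p => ∃ B ∈ posC p.2.1, Sp p.1 B p.2.2 := by
  have hp : PrimrecPred fun p : Tp => lev p.2.1 ≤ 3 :=
    Primrec.nat_le.comp (primrec_lev'.comp t2) (Primrec.const 3)
  refine URel.cases (ci_pred hp) (URel.andp (eq_const (c1.comp t2) 3) sp_all) inn_big
    (fun p h => ?_) fun p h => ?_
  · have h' : lev p.2.1 ≤ 3 := by simpa using h
    refine ⟨le_rfl, by omega, ?_⟩
    rw [pos_small h']
    split_ifs with h3 <;> simp [h3]
  · have h' : ¬ lev p.2.1 ≤ 3 := by simpa using h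
    exact ⟨le_rfl, by omega, Iff.rfl⟩

theorem ncov_rel : URel zero EH (fun p : Tp => lev p.2.1) (fun p => max (lev p.2.1 - 2) 1 + 1)
    fun p => ∀ l : List ℕ, ¬ (covP p.1 p.2.2 l ∧ ∀ w ∈ l, ∃ B ∈ posC p.2.1, Sp p.1 B w) := by
  have f1 : Primrec fun q : (Tp × List ℕ) × ℕ => q.1.1 := Primrec.fst.comp Primrec.fst
  have hf : Primrec fun q : (Tp × List ℕ) × ℕ => ((q.1.1.1, q.1.1.2.1, q.2) : Tp) :=
    (t1.comp f1).pair ((t2.comp f1).pair Primrec.snd)
  have h1 : URel zero EH (fun q : (Tp × List ℕ) × ℕ => lev q.1.1.2.1)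
      (fun q => max (lev q.1.1.2.1 - 2) 1)
      fun q => ∃ B ∈ posC q.1.1.2.1, Sp q.1.1.1 B q.2 := inn_rel.comp hf.computableIn
  have h2 := URel.ball (ρ := fun q : Tp × List ℕ => lev q.1.2.1)
    (ℓ := fun q => max (lev q.1.2.1 - 2) 1) (l := fun q => q.2) ComputableIn.snd h1
    fun _ => le_max_right _ _
  have h3 := (cov_rel (X := zero) (E := EH) (t1.comp Primrec.fst) (t3.comp Primrec.fst)
    (Primrec.snd (β := List ℕ)) fun q => lev q.1.2.1).pad
    (ℓ' := fun q => max (lev q.1.2.1 - 2) 1) (ComputableIn.const 1) fun _ => le_max_right _ _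
  have h4 := URel.and h3 h2 fun _ => le_max_right _ _
  exact URel.nex (ρ := fun p : Tp => lev p.2.1) (ℓ := fun p => max (lev p.2.1 - 2) 1) h4

theorem neg_rel : URel zero EH (fun p : Tp => lev p.2.1) (fun p => max (lev p.2.1 - 2) 1 + 1)
    fun p => ∀ B ∈ negC p.2.1, nH p.1 B p.2.2 := by
  have hB : Primrec fun q : Tp × Cl => lev q.2 := primrec_lev'.comp Primrec.snd
  have hp : PrimrecPred fun q : Tp × Cl => lev q.2 + 1 ≤ lev q.1.2.1 :=
    Primrec.nat_le.comp (add_c hB 1) (primrec_lev'.comp (t2.comp Primrec.fst))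
  have h1 := call_at (γ := Tp × Cl) (t1.comp Primrec.fst) Primrec.snd (t3.comp Primrec.fst)
  have h2 := guard hp (ρ := fun q => lev q.1.2.1) (ℓ := fun q => max (lev q.1.2.1 - 2) 1 + 1)
    h1 hB fun q hq => by constructor <;> omega
  have h3 := URel.ball (ρ := fun p : Tp => lev p.2.1)
    (ℓ := fun p => max (lev p.2.1 - 2) 1 + 1)
    (primrec_negC.comp t2).computableIn h2 fun _ => Nat.le_add_left _ _
  refine h3.congr (fun _ => le_rfl) (fun _ => rfl) fun p => ?_
  exact ⟨fun h B hB => (h B hB).2, fun h B hB => ⟨lev_neg hB, h B hB⟩⟩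

theorem big_rel : URel zero EH (fun p : Tp => lev p.2.1)
    (fun p => max (lev p.2.1 - 2) 1 + 1 + 1)
    fun p => ∀ z, leS p.1 z p.2.2 → ¬ ((∀ B ∈ negC p.2.1, nH p.1 B z) ∧
      ∀ l : List ℕ, ¬ (covP p.1 z l ∧ ∀ w ∈ l, ∃ B ∈ posC p.2.1, Sp p.1 B w)) := by
  have h1 := (URel.and neg_rel ncov_rel fun _ => Nat.le_add_left _ _).neg
  have hf : Primrec fun q : Tp × ℕ => ((q.1.1, q.1.2.1, q.2) : Tp) :=
    (t1.comp Primrec.fst).pair ((t2.comp Primrec.fst).pair Primrec.snd)
  have h2 := leS_imp (t1.comp Primrec.fst) Primrec.snd (t3.comp Primrec.fst)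
    (h1.comp hf.computableIn) fun _ => Nat.le_add_left _ _
  exact URel.all (ρ := fun p : Tp => lev p.2.1)
    (ℓ := fun p => max (lev p.2.1 - 2) 1 + 1 + 1) h2 fun _ => Nat.le_add_left _ _

theorem at_rel : URel zero EH (fun p : Tp => lev p.2.1) (fun _ => 2)
    fun p => ∀ z, leS p.1 z p.2.2 →
      z = p.1.unpair.2 ∨ ∃ w, leS p.1 w z ∧ w ≠ p.1.unpair.2 ∧ w ≠ z := by
  have f1 : Primrec fun q : (Tp × ℕ) × ℕ => q.1.1 := Primrec.fst.comp Primrec.fst
  have f2 : Primrec fun q : (Tp × ℕ) × ℕ => q.1.2 := Primrec.snd.comp Primrec.fst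
  have hp : PrimrecPred fun q : (Tp × ℕ) × ℕ => q.2 = q.1.1.1.unpair.2 ∨ q.2 = q.1.2 :=
    (Primrec.eq.comp Primrec.snd (bot_comp (t1.comp f1))).or (Primrec.eq.comp Primrec.snd f2)
  have h1 := leS_imp (X := zero) (E := EH) (t1.comp f1) Primrec.snd f2
    (URel.prim hp (fun q => lev q.1.1.2.1) fun _ => 1) fun _ => le_rfl
  have h2 := URel.all (ρ := fun q : Tp × ℕ => lev q.1.2.1) (ℓ := fun _ => 1) h1
    fun _ => le_rfl
  have hq : PrimrecPred fun q : Tp × ℕ => ¬ q.2 = q.1.1.unpair.2 :=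
    (Primrec.eq.comp Primrec.snd (bot_comp (t1.comp Primrec.fst))).not
  have h3 := leS_imp (t1.comp Primrec.fst) Primrec.snd (t3.comp Primrec.fst)
    (URel.andp hq h2).neg fun _ => Nat.le_add_left _ _
  have h4 := URel.all (ρ := fun p : Tp => lev p.2.1) (ℓ := fun _ => 1 + 1) h3
    fun _ => Nat.le_add_left _ _
  refine h4.congr (fun _ => le_rfl) (fun _ => rfl) fun p => ?_
  refine forall_congr' fun z => imp_congr_right fun _ => ?_
  simp only [not_and, not_forall, not_or, exists_prop]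
  exact imp_iff_or_not.trans (by rw [not_not, or_comm])

end HC

theorem upi_leP : UPi zero (fun _ : ℕ × ℕ × ℕ => 1) fun p => leP p.1 p.2.1 p.2.2 :=
  URel.upi (E := HC.EH) (HC.val_all Primrec.fst (Primrec.fst.comp Primrec.snd)
    (Primrec.snd.comp Primrec.snd) (Primrec.fst.comp Primrec.snd) _)

theorem upi_djP : UPi zero (fun _ : ℕ × ℕ × ℕ => 1) fun p => djP p.1 p.2.1 p.2.2 :=
  URel.upi (E := HC.EH) (HC.val_all Primrec.fst (Primrec.fst.comp Primrec.snd)
    (Primrec.snd.comp Primrec.snd) (HC.bot_comp Primrec.fst) _)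

theorem primrec_lev : Primrec lev := HC.primrec_lev'

theorem upi_nH : UPi zero (fun p : ℕ × Cl × ℕ => lev p.2.1) fun p => nH p.1 p.2.1 p.2.2 := by
  refine URel.fix (E := HC.EH) (primrec_lev.comp HC.t2).computableIn ?_
  have hc : Primrec fun p : HC.Tp => p.2.1.1 := HC.c1.comp HC.t2
  have h1 : URel zero HC.EH (fun p : HC.Tp => lev p.2.1) (fun p => if p.2.1.1 = 1 then 2 else 1)
      fun p => if p.2.1.1 = 1 then nH p.1 p.2.1 p.2.2 else p.2.2 = p.1.unpair.2 := by
    refine URel.cases (ci_pred (HC.eq_const hc 1)) HC.at_rel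
      (URel.prim (Primrec.eq.comp HC.t3 (HC.bot_comp HC.t1)) (fun p => lev p.2.1) fun _ => 1)
      (fun p h => ?_) fun p h => ?_
    · have h' : p.2.1.1 = 1 := by simpa using h
      refine ⟨le_rfl, by simp [h'], ?_⟩
      rw [if_pos h', nH, if_neg (by omega), if_pos h']
    · have h' : ¬ p.2.1.1 = 1 := by simpa using h
      exact ⟨le_rfl, by simp [h'], by rw [if_neg h']⟩
  have hp : PrimrecPred fun p : HC.Tp => p.2.1.1 ≤ 1 :=
    Primrec.nat_le.comp hc (Primrec.const 1)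
  refine URel.cases (ci_pred hp) h1 HC.big_rel (fun p h => ?_) fun p h => ?_
  · have h' : p.2.1.1 ≤ 1 := by simpa using h
    refine ⟨le_rfl, ?_, ?_⟩
    · show _ = lev p.2.1
      unfold lev
      split_ifs <;> omega
    · show _ ↔ nH p.1 p.2.1 p.2.2
      split_ifs with h1
      · rfl
      · rw [nH, if_pos (by omega)]
  · have h' : ¬ p.2.1.1 ≤ 1 := by simpa using h
    have h3 : 3 ≤ lev p.2.1 := HC.lev_ge (by omega) (by omega)
    refine ⟨le_rfl, ?_, ?_⟩
    · show _ = lev p.2.1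
      omega
    · show _ ↔ nH p.1 p.2.1 p.2.2
      rw [nH, if_neg (by omega), if_neg (by omega)]
      refine forall_congr' fun z => imp_congr_right fun _ => ?_
      rw [not_and, not_forall_not]
      simp only [exists_prop, HC.Sp]

end Pool.Agent.P.MP_9f8894_lc
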