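import Mathlib
import Pool.Agent.P.MP_9f8894_lc.Cst
import Pool.Agent.P.MP_9f8894_lc.HasCx

/-! Package BaseCx: complexity of the conditions on candidates. -/

set_option autoImplicit false
open Encodable Denumerable Filter TopologicalSpace
open scoped Classical

namespace Pool.Agent.P.MP_9f8894_lc

theorem primrec_idx : Primrec idx := by
  have hc : PrimrecPred fun r : Hist × (ℕ × ℕ) × ℕ × ℕ => r.2.1.1 % 2 = 0 :=
    Primrec.eq.comp (Primrec.nat_mod.comp (Primrec.fst.comp (Primrec.fst.comp Primrec.snd))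
      (Primrec.const 2)) (Primrec.const 0)
  have h1 : Primrec fun r : Hist × (ℕ × ℕ) × ℕ × ℕ => r.2.2.1 :=
    Primrec.fst.comp (Primrec.snd.comp Primrec.snd)
  have h2 : Primrec fun r : Hist × (ℕ × ℕ) × ℕ × ℕ => r.2.2.2 :=
    Primrec.snd.comp (Primrec.snd.comp Primrec.snd)
  have h := Primrec.list_foldr (f := fun L : Hist => L) (g := fun _ => ((0, 0) : ℕ × ℕ))
    (h := fun _ r => if r.1.1 % 2 = 0 then (r.2.1 + 1, 0) else (r.2.1, r.2.2 + 1))
    Primrec.id (Primrec.const _)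
    (Primrec.ite hc ((Primrec.succ.comp h1).pair (Primrec.const 0))
      (h1.pair (Primrec.succ.comp h2))).to₂
  refine h.of_eq fun L => ?_
  induction L with
  | nil => rfl
  | cons q L ih => rw [List.foldr_cons, ih, idx]

theorem primrec_sumL : Primrec sumL := by
  have h1 : Primrec fun r : Hist × (ℕ × ℕ) × ℕ => r.2.1 := Primrec.fst.comp Primrec.snd
  have h := Primrec.list_foldr (f := fun L : Hist => L) (g := fun _ => (0 : ℕ))
    (h := fun _ r => (r.1.1 + 1) * (1 + r.1.2) + r.2) Primrec.id (Primrec.const _)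
    (Primrec.nat_add.comp (Primrec.nat_mul.comp (Primrec.succ.comp (Primrec.fst.comp h1))
      (Primrec.nat_add.comp (Primrec.const 1) (Primrec.snd.comp h1)))
      (Primrec.snd.comp Primrec.snd)).to₂
  refine h.of_eq fun L => ?_
  induction L with
  | nil => rfl
  | cons q L ih => rw [List.foldr_cons, ih, sumL]

theorem primrec_gP : Primrec gP := by
  have h := Primrec.list_foldr (f := fun π : Path => π) (g := fun _ => (1 : ℕ))
    (h := fun _ r => r.2 * ((idx r.1).1 + 1)) Primrec.id (Primrec.const _)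
    (Primrec.nat_mul.comp (Primrec.snd.comp Primrec.snd) (Primrec.succ.comp
      (Primrec.fst.comp (primrec_idx.comp (Primrec.fst.comp Primrec.snd))))).to₂
  refine h.of_eq fun π => ?_
  induction π with
  | nil => rfl
  | cons L π ih => rw [List.foldr_cons, ih, gP]

theorem primrec_aP : Primrec aP := by
  have h1 : Primrec fun r : Path × Hist × Path × ℕ => r.2.1 := Primrec.fst.comp Primrec.snd
  have h2 : Primrec fun r : Path × Hist × Path × ℕ => r.2.2 := Primrec.snd.comp Primrec.snd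
  have h := Primrec.list_rec (f := fun π : Path => π) (g := fun _ => (0 : ℕ))
    (h := fun _ r => r.2.2 + gP (r.1 :: r.2.1) * sumL r.1) Primrec.id (Primrec.const _)
    (Primrec.nat_add.comp (Primrec.snd.comp h2) (Primrec.nat_mul.comp
      (primrec_gP.comp (Primrec.list_cons.comp h1 (Primrec.fst.comp h2)))
      (primrec_sumL.comp h1))).to₂
  refine h.of_eq fun π => ?_
  induction π with
  | nil => rfl
  | cons L π ih => exact congrArg (fun n => n + gP (L :: π) * sumL L) ih

theorem primrec_cand : Primrec cand := Primrec.ofNat (ℕ × List ℕ)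

theorem primrec_path : Primrec path :=
  Primrec.list_map Primrec.id (Primrec.fst.comp Primrec.snd).to₂

section aux

variable {β : Type} [Primcodable β]

theorem bc_leP {e x y ℓ : β → ℕ} (he : Primrec e) (hx : Primrec x) (hy : Primrec y)
    (h1 : ∀ b, 1 ≤ ℓ b) : UPi zero ℓ fun b => leP (e b) (x b) (y b) :=
  (upi_leP.comp (he.pair (hx.pair hy)).computableIn).pad (ComputableIn.const 1) h1

theorem bc_djP {e x y ℓ : β → ℕ} (he : Primrec e) (hx : Primrec x) (hy : Primrec y)
    (h1 : ∀ b, 1 ≤ ℓ b) : UPi zero ℓ fun b => djP (e b) (x b) (y b) :=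
  (upi_djP.comp (he.pair (hx.pair hy)).computableIn).pad (ComputableIn.const 1) h1

theorem bc_nT {e c L y ℓ : β → ℕ} (he : Primrec e) (hc : Primrec c) (hL : Primrec L)
    (hy : Primrec y) (h : ∀ b, max (L b) (c b + 12) = ℓ b) :
    UPi zero ℓ fun b => nT (e b) (c b) (L b) (y b) :=
  (upi_nH.comp (he.pair (((Primrec.const 7).pair (hc.pair hL)).pair hy)).computableIn).congr
    (fun b => (lev_cTop _ _).trans (h b)) fun _ => Iff.rfl

theorem bc_hA {e c L y ℓ : β → ℕ} (he : Primrec e) (hc : Primrec c) (hL : Primrec L)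
    (hy : Primrec y) (h : ∀ b, max (L b) (c b + 12) + 3 = ℓ b) :
    UPi zero ℓ fun b => hA (e b) (c b) (L b) (y b) :=
  (upi_nH.comp (he.pair (((Primrec.const 8).pair (hc.pair hL)).pair hy)).computableIn).neg.congr
    (fun b => (congrArg (· + 1) (lev_cAcc _ _)).trans (h b)) fun _ => Iff.rfl

theorem bc_pairwise (R : ℕ → ℕ → Prop) (l : List ℕ) : l.Pairwise R ↔
    ∀ c : ℕ × ℕ, c.1 < c.2 ∧ c.2 < l.length → R (l.getD c.1 0) (l.getD c.2 0) := by
  rw [List.pairwise_iff_getElem]
  constructor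
  · rintro h ⟨i, j⟩ ⟨h1, h2⟩
    rw [List.getD_eq_getElem _ _ (h1.trans h2), List.getD_eq_getElem _ _ h2]
    exact h i j _ _ h1
  · intro h i j hi hj hij
    have := h (i, j) ⟨hij, hj⟩
    rwa [List.getD_eq_getElem _ _ hi, List.getD_eq_getElem _ _ hj] at this

theorem bc_Many {e c L U n ℓ : β → ℕ} {l : β → List ℕ} (he : Primrec e) (hc : Primrec c)
    (hL : Primrec L) (hU : Primrec U) (hn : Primrec n) (hl : Primrec l)
    (h : ∀ b, max (L b) (c b + 12) + 3 = ℓ b) :
    UPi zero ℓ fun b => Many (e b) (c b) (L b) (U b) (n b) (l b) := by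
  have h1 : ∀ b, 1 ≤ ℓ b := fun b => by rw [← h b]; omega
  have a1 : PrimrecPred fun b => (l b).length = n b :=
    Primrec.eq.comp (Primrec.list_length.comp hl) hn
  have b1 : Primrec fun p : β × ℕ × ℕ => p.2.1 := Primrec.fst.comp Primrec.snd
  have b2 : Primrec fun p : β × ℕ × ℕ => p.2.2 := Primrec.snd.comp Primrec.snd
  have b3 : Primrec fun p : β × ℕ × ℕ => l p.1 := hl.comp Primrec.fst
  have a2 : UPi zero ℓ fun b => (l b).Pairwise (djP (e b)) :=
    (UPi.all (((bc_djP (ℓ := fun p : β × ℕ × ℕ => ℓ p.1) (he.comp Primrec.fst)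
      ((Primrec.list_getD 0).comp b3 b1) ((Primrec.list_getD 0).comp b3 b2)
      fun p => h1 p.1)).imp ((Primrec.nat_lt.comp b1 b2).and
        (Primrec.nat_lt.comp b2 (Primrec.list_length.comp b3)))) h1).congr (fun _ => rfl)
      fun b => (bc_pairwise (djP (e b)) (l b)).symm
  have a3 : UPi zero ℓ fun b => ∀ y ∈ l b, leP (e b) y (U b) ∧ hA (e b) (c b) (L b) y :=
    UPi.ball hl.computableIn
      ((bc_leP (ℓ := fun p : β × ℕ => ℓ p.1) (he.comp Primrec.fst) Primrec.snd
        (hU.comp Primrec.fst) fun p => h1 p.1).and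
        (bc_hA (he.comp Primrec.fst) (hc.comp Primrec.fst) (hL.comp Primrec.fst) Primrec.snd
          fun p => h p.1) fun p => h1 p.1) h1
  exact (a2.and a3 h1).andp a1

end aux

theorem upi_notKref : UPi zero (fun p : (ℕ × ℕ × Path) × ℕ => 21 + p.1.2.1)
    fun p => ¬ Kref p.1.1 p.1.2.1 p.1.2.2 p.2 := by
  have he : Primrec fun p : (ℕ × ℕ × Path) × ℕ => p.1.1 := Primrec.fst.comp Primrec.fst
  have hj : Primrec fun p : (ℕ × ℕ × Path) × ℕ => p.1.2.1 :=
    Primrec.fst.comp (Primrec.snd.comp Primrec.fst)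
  have hπ : Primrec fun p : (ℕ × ℕ × Path) × ℕ => p.1.2.2 :=
    Primrec.snd.comp (Primrec.snd.comp Primrec.fst)
  have hi : Primrec fun p : (ℕ × ℕ × Path) × ℕ => cand p.2 := primrec_cand.comp Primrec.snd
  have h1 : ∀ p : (ℕ × ℕ × Path) × ℕ, 1 ≤ 21 + p.1.2.1 := fun p => by omega
  have hnil : PrimrecPred fun p : (ℕ × ℕ × Path) × ℕ => p.1.2.2 = [] :=
    Primrec.eq.comp hπ (Primrec.const [])
  have a1 := (bc_leP he (Primrec.fst.comp hi) (Primrec.fst.comp (primrec_cand.comp
    (Primrec.snd.comp (primrec_idx.comp (Primrec.list_headI.comp hπ))))) h1).imp hnil.not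
  have a2 := (bc_Many (ℓ := fun p : (ℕ × ℕ × Path) × ℕ => 20 + p.1.2.1) he (Primrec.const 4)
    (Primrec.nat_add.comp (Primrec.const 17) hj) (Primrec.fst.comp hi)
    (Primrec.succ.comp (Primrec.nat_mul.comp (Primrec.const 2) (primrec_aP.comp hπ)))
    (Primrec.snd.comp hi) fun p => by omega).pad
    (ℓ' := fun p : (ℕ × ℕ × Path) × ℕ => 21 + p.1.2.1)
    (Primrec.nat_add.comp (Primrec.const 20) hj).computableIn fun p => by omega
  have a3 := bc_nT (ℓ := fun p : (ℕ × ℕ × Path) × ℕ => 21 + p.1.2.1) he (Primrec.const 1)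
    (Primrec.nat_add.comp (Primrec.const 21) hj) (Primrec.fst.comp hi) fun p => by omega
  have a4 := (bc_nT (ℓ := fun p : (ℕ × ℕ × Path) × ℕ => 21 + p.1.2.1) he (Primrec.const 3)
    (Primrec.nat_add.comp (Primrec.const 21) hj) (Primrec.fst.comp hi) fun p => by omega).imp hnil
  refine ((a1.and a2 h1).and (a3.and a4 h1) h1).congr (fun _ => rfl) fun p => ?_
  rw [Kref, not_not]
  refine and_congr (and_congr ?_ Iff.rfl) Iff.rfl
  obtain ⟨⟨e, j, π⟩, i⟩ := p
  cases π with
  | nil => simp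
  | cons L π => simp

theorem upi_Wval : UPi zero (fun p : (ℕ × ℕ × Path) × Hist => 20 + p.1.2.1)
    fun p => Wval p.1.1 p.1.2.1 p.1.2.2 p.2 := by
  have he : Primrec fun p : (ℕ × ℕ × Path) × Hist => p.1.1 := Primrec.fst.comp Primrec.fst
  have hj : Primrec fun p : (ℕ × ℕ × Path) × Hist => p.1.2.1 :=
    Primrec.fst.comp (Primrec.snd.comp Primrec.fst)
  have hπ : Primrec fun p : (ℕ × ℕ × Path) × Hist => p.1.2.2 :=
    Primrec.snd.comp (Primrec.snd.comp Primrec.fst)
  have hi : Primrec fun p : (ℕ × ℕ × Path) × Hist => idx p.2 := primrec_idx.comp Primrec.snd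
  have hc1 := primrec_cand.comp (Primrec.fst.comp hi)
  have hc2 := primrec_cand.comp (Primrec.snd.comp hi)
  have h1 : ∀ p : (ℕ × ℕ × Path) × Hist, 1 ≤ 20 + p.1.2.1 := fun p => by omega
  have a1 := bc_leP he (Primrec.fst.comp hc2) (Primrec.fst.comp hc1) h1
  have a2 := bc_Many (ℓ := fun p : (ℕ × ℕ × Path) × Hist => 20 + p.1.2.1) he (Primrec.const 4)
    (Primrec.nat_add.comp (Primrec.const 17) hj) (Primrec.fst.comp hc2)
    (Primrec.succ.comp (primrec_aP.comp hπ)) (Primrec.snd.comp hc2) fun p => by omega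
  exact (a1.and a2 h1).congr (fun _ => rfl) fun _ => Iff.rfl

theorem upi_XP : UPi zero (fun p : (ℕ × ℕ) × Hist => 21 + p.1.2)
    fun p => XP p.1.1 p.1.2 p.2 := by
  have a1 := bc_nT (ℓ := fun p : (ℕ × ℕ) × Hist => 21 + p.1.2) (Primrec.fst.comp Primrec.fst)
    (Primrec.const 2) (Primrec.nat_add.comp (Primrec.const 21) (Primrec.snd.comp Primrec.fst))
    (Primrec.fst.comp (primrec_cand.comp (Primrec.snd.comp (primrec_idx.comp Primrec.snd))))
    fun p => by omega
  exact a1.congr (fun _ => rfl) fun _ => Iff.rfl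

theorem exists_wit : ∃ W : Wit, WitSem W ∧ WitCx W := by
  obtain ⟨Q1, h1, e1⟩ := UPi.wit (ℓ := fun p : (ℕ × ℕ × Path) × ℕ => 20 + p.1.2.1)
    (upi_notKref.congr (fun p => by omega) fun _ => Iff.rfl)
  obtain ⟨Q2, h2, e2⟩ := UPi.wit (ℓ := fun p : (ℕ × ℕ × Path) × Hist => 20 + p.1.2.1)
    (upi_Wval.pad (Primrec.nat_add.comp (Primrec.const 20)
      (Primrec.fst.comp (Primrec.snd.comp Primrec.fst))).computableIn fun p => Nat.le_succ _)
  obtain ⟨Q3, h3, e3⟩ := UPi.wit (ℓ := fun p : (ℕ × ℕ) × Hist => 20 + p.1.2)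
    (upi_XP.congr (fun p => by omega) fun _ => Iff.rfl)
  refine ⟨⟨fun e j π i w => Q1 (((e, j, π), i), w), fun e j π L x => Q2 (((e, j, π), L), x),
    fun e j L x => Q3 (((e, j), L), x)⟩, ⟨fun e j π i => ?_, fun e j π L => e2 ((e, j, π), L),
    fun e j L => e3 ((e, j), L)⟩, ?_, ?_, ?_⟩
  · exact not_not.symm.trans (e1 ((e, j, π), i))
  · exact (h1.comp (((Primrec.fst.pair (Primrec.fst.comp Primrec.snd)).pair
      (Primrec.snd.comp Primrec.snd)).computableIn)).congr (fun _ => rfl) fun _ => Iff.rfl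
  · exact (h2.comp (((Primrec.fst.pair (Primrec.fst.comp Primrec.snd)).pair
      (Primrec.snd.comp Primrec.snd)).computableIn)).congr (fun _ => rfl) fun _ => Iff.rfl
  · exact (h3.comp (((Primrec.fst.pair (Primrec.fst.comp Primrec.snd)).pair
      (Primrec.snd.comp Primrec.snd)).computableIn)).congr (fun _ => rfl) fun _ => Iff.rfl

end Pool.Agent.P.MP_9f8894_lc
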