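import Mathlib
import Pool.Agent.P.MP_9f8894_lc.JumpA

/-! Basic facts on the jump. -/

set_option autoImplicit false
open Encodable Denumerable Filter TopologicalSpace
open scoped Classical

namespace Pool.Agent.P.MP_9f8894_lc

/-- The jump is given by an existential quantifier over a decidable matrix. -/
theorem J_sigma (X : Orc) : ∃ p : ℕ × ℕ → Bool, CI X p ∧
    ∀ n, J X n = true ↔ ∃ k, p (n, k) = true := by
  refine ⟨fun q => ((ofNat Nat.Partrec.Code q.1).evaln q.2.unpair.2
    (encode (seg X q.2.unpair.1))).isSome, ?_, fun n => ?_⟩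
  · have h1 : Primrec fun q : (ℕ × ℕ) × List Bool =>
        ((ofNat Nat.Partrec.Code q.1.1).evaln q.1.2.unpair.2 (encode q.2)).isSome :=
      Primrec.option_isSome.comp (Nat.Partrec.Code.primrec_evaln.comp
        (((Primrec.snd.comp (Primrec.unpair.comp (Primrec.snd.comp Primrec.fst))).pair
          ((Primrec.ofNat _).comp (Primrec.fst.comp Primrec.fst))).pair
          (Primrec.encode.comp Primrec.snd)))
    have h2 := ci_comp h1.computableIn (ci_pair ComputableIn.id (ci_comp (ci_seg (ci_self X))
      (Primrec.fst.comp (Primrec.unpair.comp (Primrec.snd (α := ℕ)))).computableIn))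
    exact ci_of_eq h2 fun _ => rfl
  · rw [J_iff]
    constructor
    · rintro ⟨l, hl⟩
      obtain ⟨k, hk⟩ := (dom_iff_evaln _ _).1 hl
      exact ⟨Nat.pair l k, by simpa using hk⟩
    · rintro ⟨k, hk⟩
      exact ⟨_, (dom_iff_evaln _ _).2 ⟨_, hk⟩⟩

/-- Existential questions over `X` are decided by the jump. -/
theorem ci_J_ex {X : Orc} {β : Type} [Primcodable β] {p : β × ℕ → Bool} (hp : CI X p) :
    CI (J X) fun b => decide (∃ k, p (b, k) = true) := by
  by_cases hne : Nonempty β
  · obtain ⟨b0⟩ := hne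
    have hd : Primrec fun n : ℕ => (decode (α := β) n).getD b0 :=
      Primrec.option_getD.comp Primrec.decode (Primrec.const b0)
    have h1 : CEIn X fun n => decide (∃ k, p ((decode (α := β) n).getD b0, k) = true) :=
      ceIn_of_exists (p := fun n k => p ((decode (α := β) n).getD b0, k))
        (ci_comp hp (ci_pair (hd.comp Primrec.fst).computableIn ComputableIn.snd))
        fun n => by simp
    refine ci_of_eq (ci_comp (Inv.ci_of_ce h1) Primrec.encode.computableIn) fun b => ?_
    simp
  · exact ci_of_eq (ComputableIn.const true) fun b => (hne ⟨b⟩).elim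

theorem ci_J_self (X : Orc) : CI (J X) X := Inv.le_J X

theorem J_mono {X Y : Orc} (h : CI Y X) : CI (J Y) (J X) := Inv.J_mono h

theorem Jn_eq (X : Orc) (n : ℕ) : Jn X n = J^[n] X := by
  induction n with
  | zero => rfl
  | succ n ih => rw [Function.iterate_succ_apply', ← ih]; rfl

theorem Jn_mono {X Y : Orc} (h : CI Y X) (n : ℕ) : CI (Jn Y n) (Jn X n) := by
  rw [Jn_eq, Jn_eq]; exact Inv.iter_mono h n

theorem ci_Jn_self (X : Orc) (n : ℕ) : CI (Jn X n) X := by
  induction n with
  | zero => exact ci_self X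
  | succ n ih => exact ci_trans ih (ci_J_self _)

theorem inversion (n : ℕ) {W : Orc} (h : CI W (Jn zero n)) :
    ∃ Y : Orc, CI (Jn Y n) W ∧ CI W (Jn Y n) := by
  rw [Jn_eq] at h
  obtain ⟨Y, -, h1, h2⟩ := Inv.inversion_iter zero n h
  exact ⟨Y, by rw [Jn_eq]; exact h2, by rw [Jn_eq]; exact h1⟩

end Pool.Agent.P.MP_9f8894_lc
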