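import Mathlib
import Pool.Agent.P.MP_9f8894_lc.FmC
import Pool.Agent.P.MP_9f8894_lc.Jump

/-! Package Post: formulas and jumps. -/

set_option autoImplicit false
open Encodable Denumerable Filter TopologicalSpace
open scoped Classical

namespace Pool.Agent.P.MP_9f8894_lc

variable {X : Orc} {β : Type} [Primcodable β]

/-- A code that reads the values of an oracle computable predicate off finite strings. -/
theorem post_code {Z : Orc} {p : β → Bool} (hp : CI Z p) :
    ∃ c : Nat.Partrec.Code, ∀ b, p b = false ↔
      ∃ s k, c.evaln k (Nat.pair (encode b) (encode (seg Z s))) = some (encode false) := by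
  have hp' : Nat.RecursiveIn {chi Z} fun n => Part.bind (decode (α := β) n : Part β)
      fun a => (Part.some (p a)).map encode := hp
  obtain ⟨F, hF⟩ := exists_use (RecursiveIn.iff_nat.2 hp')
  obtain ⟨c, hc⟩ := hF.exists_code
  refine ⟨c, fun b => ⟨fun h => ?_, ?_⟩⟩
  · have h1 : encode false ∈ Part.bind (decode (α := β) (encode b) : Part β)
        fun a => (Part.some (p a)).map encode := by
      simp [h]
    obtain ⟨s, hs⟩ := (hF.complete _ _ h1).exists
    rw [← hc] at hs
    obtain ⟨k, hk⟩ := Nat.Partrec.Code.evaln_complete.1 hs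
    exact ⟨s, k, hk⟩
  · rintro ⟨s, k, hk⟩
    have h1 := Nat.Partrec.Code.evaln_sound (Option.mem_def.2 hk)
    rw [hc] at h1
    have h2 := hF.sound _ _ _ h1
    simp only [encodek, Part.coe_some, Part.bind_some, Part.map_some, Part.mem_some_iff,
      encode_inj] at h2
    exact h2.symm

/-- A string is an initial segment of a set given by an existential quantifier. -/
theorem post_seg {Z : Orc} {q : ℕ × ℕ → Bool} (hq : ∀ n, Z n = true ↔ ∃ k, q (n, k) = true)
    (σ : List Bool) :
    σ = seg Z σ.length ↔ ∃ m : ℕ, ∀ k : ℕ, ∀ i < σ.length,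
      (cond (σ.getD i false) (decide (∃ j < m, q (i, j) = true)) (!q (i, k))) = true := by
  constructor
  · intro h
    have h1 : ∀ i, i < σ.length → σ.getD i false = Z i := fun i hi => by
      rw [h]; exact Inv.seg_getD Z (by simpa using hi)
    have h2 : ∀ i, ∀ᶠ m in atTop, Z i = true → ∃ j < m, q (i, j) = true := fun i => by
      by_cases hz : Z i = true
      · obtain ⟨j, hj⟩ := (hq i).1 hz
        filter_upwards [eventually_gt_atTop j] with m hm _ using ⟨j, hm, hj⟩
      · exact Eventually.of_forall fun _ h => (hz h).elim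
    obtain ⟨m, hm⟩ := ((eventually_all_finite (Set.finite_Iio σ.length)).2
      fun i _ => h2 i).exists
    refine ⟨m, fun k i hi => ?_⟩
    rw [h1 i hi]
    cases hz : Z i with
    | true => simpa using hm i hi hz
    | false =>
      have : ¬ q (i, k) = true := fun h => by
        have := (hq i).2 ⟨k, h⟩
        rw [hz] at this; exact Bool.false_ne_true this
      simpa using this
  · rintro ⟨m, hm⟩
    refine List.ext_getElem? fun i => ?_
    by_cases hi : i < σ.length
    · rw [seg_getElem? Z hi, List.getElem?_eq_getElem hi]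
      have e : σ.getD i false = σ[i] := by
        rw [List.getD_eq_getElem?_getD, List.getElem?_eq_getElem hi]; rfl
      congr 1
      cases hs : σ[i] with
      | true =>
        have := hm 0 i hi
        rw [e, hs] at this
        obtain ⟨j, -, hj⟩ : ∃ j < m, q (i, j) = true := by simpa using this
        exact ((hq i).2 ⟨j, hj⟩).symm
      | false =>
        cases hz : Z i with
        | false => rfl
        | true =>
          obtain ⟨k, hk⟩ := (hq i).1 hz
          have := hm k i hi
          rw [e, hs] at this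
          simp [hk] at this
    · rw [List.getElem?_eq_none (by omega), List.getElem?_eq_none (by simp; omega)]

/-- Predicates decided by the jump have two quantifiers over a decidable matrix. -/
theorem post_step {W : Orc} {p : β → Bool} (hp : CI (J W) p) :
    ∃ G : (β × (List Bool × ℕ × ℕ)) × ℕ → Bool, CI W G ∧
      ∀ b, p b = true ↔ ∀ c, ¬ ∀ k, G ((b, c), k) = true := by
  obtain ⟨c, hc⟩ := post_code hp
  obtain ⟨q, hq, hJ⟩ := J_sigma W
  refine ⟨fun r => decide (c.evaln r.1.2.2.1 (Nat.pair (encode r.1.1) (encode r.1.2.1)) =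
      some (encode false)) && decide (∀ i < r.1.2.1.length,
      (cond (r.1.2.1.getD i false) (decide (∃ j < r.1.2.2.2, q (i, j) = true))
        (!q (i, r.2))) = true), ci_and ?_ ?_, fun b => ?_⟩
  · have h1 : Primrec fun r : (β × (List Bool × ℕ × ℕ)) × ℕ =>
        c.evaln r.1.2.2.1 (Nat.pair (encode r.1.1) (encode r.1.2.1)) :=
      Nat.Partrec.Code.primrec_evaln.comp
        (((Primrec.fst.comp (Primrec.snd.comp (Primrec.snd.comp Primrec.fst))).pair
          (Primrec.const c)).pair
          (Primrec₂.natPair.comp (Primrec.encode.comp (Primrec.fst.comp Primrec.fst))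
            (Primrec.encode.comp (Primrec.fst.comp (Primrec.snd.comp Primrec.fst)))))
    exact ci_of_eq (ci_pred (X := W) (Primrec.eq.comp h1 (Primrec.const (some (encode false)))))
      fun _ => by congr
  · have hσ : Primrec fun r : ((β × (List Bool × ℕ × ℕ)) × ℕ) × ℕ => r.1.1.2.1 :=
      Primrec.fst.comp (Primrec.snd.comp (Primrec.fst.comp Primrec.fst))
    have h1 : CI W fun r : ((β × (List Bool × ℕ × ℕ)) × ℕ) × ℕ => r.1.1.2.1.getD r.2 false :=
      ((Primrec.list_getD false).comp hσ Primrec.snd).computableIn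
    have h2 : CI W fun r : (((β × (List Bool × ℕ × ℕ)) × ℕ) × ℕ) × ℕ => q (r.1.2, r.2) :=
      ci_comp hq ((Primrec.snd.comp Primrec.fst).pair Primrec.snd).computableIn
    have h3 : CI W fun r : ((β × (List Bool × ℕ × ℕ)) × ℕ) × ℕ => r.1.1.2.2.2 :=
      (Primrec.snd.comp (Primrec.snd.comp (Primrec.snd.comp
        (Primrec.fst.comp Primrec.fst)))).computableIn
    have h4 := ci_bex h2 h3
    have h5 : CI W fun r : ((β × (List Bool × ℕ × ℕ)) × ℕ) × ℕ => q (r.2, r.1.2) :=
      ci_comp hq (Primrec.snd.pair (Primrec.snd.comp Primrec.fst)).computableIn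
    have h6 := ci_cond h1 h4 (ci_not h5)
    have h7 : CI W fun r : (β × (List Bool × ℕ × ℕ)) × ℕ => r.1.2.1.length :=
      (Primrec.list_length.comp (Primrec.fst.comp (Primrec.snd.comp Primrec.fst))).computableIn
    exact ci_of_eq (ci_ball h6 h7) fun _ => by congr
  · rw [← Bool.not_eq_false, hc]
    simp only [Bool.and_eq_true, decide_eq_true_eq]
    constructor
    · rintro h ⟨σ, k, m⟩ hall
      have h1 := (post_seg hJ σ).2 ⟨m, fun k' => (hall k').2⟩
      refine h ⟨σ.length, k, ?_⟩
      rw [← h1]
      exact (hall 0).1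
    · rintro h ⟨s, k, hk⟩
      obtain ⟨m, hm⟩ := (post_seg hJ (seg (J W) s)).1 (by rw [seg_length])
      exact h (seg (J W) s, k, m) fun k' => ⟨hk, hm k'⟩

theorem upi_dec {n : ℕ} {P : β → Prop} (h : UPi X (fun _ => n) P) :
    CI (Jn X n) fun b => decide (P b) := by
  induction n generalizing β with
  | zero =>
    obtain ⟨M, hM, hP⟩ := h
    have h1 := ci_comp hM (ci_pair ComputableIn.id (ComputableIn.const ([] : List ℕ)))
    refine ci_of_eq h1 fun b => ?_
    rw [Bool.eq_iff_iff, decide_eq_true_eq]
    exact (hP b).symm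
  | succ n ih =>
    obtain ⟨Q, hQ, hPQ⟩ := UPi.wit (ℓ := fun _ => n) h
    refine ci_of_eq (ci_not (ci_J_ex (ih hQ))) fun b => ?_
    rw [Bool.eq_iff_iff]
    simp only [decide_eq_true_eq, Bool.not_eq_true', decide_eq_false_iff_not, ← hPQ, not_not]

theorem dec_upi {n : ℕ} {p : β → Bool} (hp : CI (Jn X n) p) :
    UPi X (fun _ => n + 1) fun b => p b = true := by
  induction n generalizing β with
  | zero => exact UPi.dec hp _
  | succ n ih =>
    obtain ⟨G, hG, hp'⟩ := post_step (W := Jn X n) hp
    have h1 := UPi.all (ℓ := fun _ => n + 1) (ih hG) fun _ => Nat.le_add_left 1 n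
    have h2 := UPi.nex (ℓ := fun _ => n + 1) h1
    exact h2.congr (fun _ => rfl) fun b => (hp' b).symm

end Pool.Agent.P.MP_9f8894_lc
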