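import Mathlib
import Pool.Agent.P.MP_9f8894_lc.Cst

/-! Package VChain: certified histories. -/

set_option autoImplicit false
open Encodable Denumerable Filter TopologicalSpace
open scoped Classical

namespace Pool.Agent.P.MP_9f8894_lc

section cert
variable {lw bd : Hist → ℕ → Prop}

theorem certOf_suffix {L L' : Hist} (h : certOf lw bd L) (hs : L' <:+ L) : certOf lw bd L' := by
  obtain ⟨t, rfl⟩ := hs
  induction t with
  | nil => exact h
  | cons q t ih => exact ih h.1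

theorem vc_least {P : ℕ → Prop} {a b : ℕ} (ha : P a ∧ ∀ w < a, ¬ P w)
    (hb : P b ∧ ∀ w < b, ¬ P w) : a = b :=
  le_antisymm (not_lt.1 fun h => ha.2 b h hb.1) (not_lt.1 fun h => hb.2 a h ha.1)

theorem vc_eq_of_length : ∀ {L L' : Hist}, certOf lw bd L → certOf lw bd L' →
    L.length = L'.length → L = L'
  | [], [], _, _, _ => rfl
  | [], _ :: _, _, _, hl => by simp at hl
  | _ :: _, [], _, _, hl => by simp at hl
  | q :: L, q' :: L', h, h', hl => by
    obtain rfl : L = L' := vc_eq_of_length h.1 h'.1 (by simpa using hl)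
    rw [Prod.ext (vc_least h.2.1 h'.2.1) (vc_least h.2.2 h'.2.2)]

theorem vc_cons_suffix {L L' : Hist} (hs : L' <:+ L) (hne : L' ≠ L) : ∃ q, q :: L' <:+ L := by
  obtain ⟨t, rfl⟩ := hs
  rcases List.eq_nil_or_concat t with rfl | ⟨t', q, rfl⟩
  · exact absurd rfl hne
  · exact ⟨q, t', by simp⟩

theorem certOf_cmp {L L' : Hist} (h : certOf lw bd L) (h' : certOf lw bd L')
    (hl : L'.length ≤ L.length) : L' <:+ L := by
  have h1 : L.drop (L.length - L'.length) <:+ L := List.drop_suffix _ _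
  have h2 : L' = L.drop (L.length - L'.length) :=
    vc_eq_of_length h' (certOf_suffix h h1) (by rw [List.length_drop]; omega)
  rw [h2]
  exact h1

theorem certOf_of_cons {L L' : Hist} {q : ℕ × ℕ} (h : certOf lw bd L) (hs : q :: L' <:+ L) :
    (lw L' q.1 ∧ ∀ w < q.1, ¬ lw L' w) ∧ bd L' q.2 := by
  have h1 := certOf_suffix h hs
  exact ⟨h1.2.1, h1.2.2.1⟩

/-- Below a history which is never left. -/
theorem certOf_below {L L' : Hist} (h : certOf lw bd L) (hn : ¬ ∃ w, lw L w)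
    (h' : certOf lw bd L') : L' = L ∨ ∃ q, q :: L' <:+ L := by
  by_cases he : L' = L
  · exact Or.inl he
  rcases le_total L'.length L.length with hl | hl
  · exact Or.inr (vc_cons_suffix (certOf_cmp h h' hl) he)
  · obtain ⟨q, hq⟩ := vc_cons_suffix (certOf_cmp h' h hl) (Ne.symm he)
    exact absurd ⟨q.1, (certOf_of_cons h' hq).1.1⟩ hn

theorem certOf_finite {n : ℕ} : {L | certOf lw bd L ∧ L.length ≤ n}.Finite := by
  refine Set.Finite.of_injOn (f := List.length) (t := Set.Iic n) (fun L hL => hL.2)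
    (fun L hL L' hL' hl => vc_eq_of_length hL.1 hL'.1 hl) (Set.finite_Iic n)

end cert

variable {W : Wit} {B : Bot} {e : ℕ}

theorem leave_of_kref (hW : WitSem W) {j : ℕ} {π : Path} {L : Hist}
    (h : Kref e j π (idx L).1) : Leave W B e j π L := by
  obtain ⟨w, hw⟩ := (hW.kw e j π _).1 h
  refine ⟨2 * w, ?_⟩
  rw [LW_iff, if_pos (by omega), show 2 * w / 2 = w by omega]
  exact hw

theorem leave_iff (hW : WitSem W) (j : ℕ) (π : Path) (L : Hist) : Leave W B e j π L ↔
    Kref e j π (idx L).1 ∨ ¬ Wval e j π L ∨ (¬ XP e j L ∧ Fin2 W B e j (L :: π)) := by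
  have key : ∀ x y : ℕ, (W.NV e j π L x ∨ (W.NX e j L x ∧ FW W B e j (L :: π) y)) →
      Leave W B e j π L := by
    intro x y h
    refine ⟨2 * Nat.pair (Nat.pair x y) (idx L).2 + 1, ?_⟩
    have h1 := Nat.right_le_pair (Nat.pair x y) (idx L).2
    rw [LW_iff, if_neg (by omega),
      show (2 * Nat.pair (Nat.pair x y) (idx L).2 + 1) / 2 = Nat.pair (Nat.pair x y) (idx L).2 by
        omega]
    simp only [Nat.unpair_pair]
    exact ⟨by omega, h⟩
  constructor
  · rintro ⟨w, hw⟩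
    rw [LW_iff] at hw
    split_ifs at hw with h2
    · exact Or.inl ((hW.kw e j π _).2 ⟨_, hw⟩)
    · rcases hw.2 with h | h
      · exact Or.inr (Or.inl ((hW.nv e j π L).2 ⟨_, h⟩))
      · exact Or.inr (Or.inr ⟨(hW.nx e j L).2 ⟨_, h.1⟩, _, h.2⟩)
  · rintro (h | h | ⟨h, y, hy⟩)
    · exact leave_of_kref hW h
    · obtain ⟨x, hx⟩ := (hW.nv e j π L).1 h
      exact key x 0 (Or.inl hx)
    · obtain ⟨x, hx⟩ := (hW.nx e j L).1 h
      exact key x y (Or.inr ⟨hx, hy⟩)

theorem fin2_succ (j : ℕ) (p : Path) : Fin2 W B e (j + 1) p ↔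
    ∃ L, Cert W B e j p L ∧ ¬ Leave W B e j p L ∧ Fin1 W B e j (L :: p) := by
  constructor
  · rintro ⟨y, hy⟩
    rw [FW_succ] at hy
    exact ⟨_, hy.1, hy.2.1, _, hy.2.2⟩
  · rintro ⟨L, h1, h2, z, hz⟩
    refine ⟨encode ((L, z) : Hist × ℕ), ?_⟩
    rw [FW_succ, Denumerable.ofNat_encode]
    exact ⟨h1, h2, hz⟩

theorem fin1_succ (j : ℕ) (p : Path) : Fin1 W B e (j + 1) p ↔
    ∃ L, Cert W B e j p L ∧ ¬ Leave W B e j p L ∧ KT B e j (L :: p) := by
  constructor
  · rintro ⟨z, hz⟩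
    rw [F1W_succ] at hz
    exact ⟨_, hz⟩
  · rintro ⟨L, h⟩
    refine ⟨encode L, ?_⟩
    rw [F1W_succ, Denumerable.ofNat_encode]
    exact h

theorem fin1_of_fin2 (hW : WitSem W) {j : ℕ} {p : Path} (h : Fin2 W B e (j + 1) p) :
    Fin1 W B e (j + 1) p := by
  obtain ⟨L, h1, h2, h3⟩ := (fin2_succ j p).1 h
  refine (fin1_succ j p).2 ⟨L, h1, h2, ?_⟩
  cases j with
  | zero => exact h3
  | succ j =>
    obtain ⟨L', -, h4, -⟩ := (fin1_succ j (L :: p)).1 h3
    exact ⟨(idx L').1, fun hk => h4 (leave_of_kref hW hk)⟩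

theorem prd_cert (hB : BotSem W B) {j : ℕ} {π : Path} {L : Hist} {k : ℕ}
    (h : Prd W B e j π L k) : Cert W B e j π L ∧ Wval e j π L := by
  cases j with
  | zero => exact hB.re_ok e π L k h
  | succ j =>
    rw [Prd_succ] at h
    exact ⟨h.1, h.2.1⟩

end Pool.Agent.P.MP_9f8894_lc
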