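import Mathlib
import Pool.Agent.P.MP_9f8894_lc.Cst

/-! The bottom construction, computable in the jump of `A`. -/

set_option autoImplicit false
open Encodable Denumerable
open scoped Classical

namespace Pool.Agent.P.MP_9f8894_lc

/-- The questions asked by the bottom construction. Sessions are pairs in `F × H`. -/
structure ZIn (F H : Type) where
  ok : F × H → Bool
  lw : (F × H) × ℕ → Bool
  ug : F × ℕ × ℕ → Bool
  win : (F × H) × ℕ × ℕ → Bool
  bd : F × H → ℕ

/-- States: finite part of `G`, real positions, closed positions, finished sessions. -/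
abbrev ZSt (F H : Type) := List Bool × List ((F × H) × ℕ) × List ((F × H) × ℕ) × List (F × H)

section z
variable {F H : Type} [Denumerable F] [Denumerable H]

/-- The bit `n` lies in a frozen class. -/
def frozen (st : ZSt F H) (n : ℕ) : Prop :=
  if n.unpair.1 % 2 = 0 then ofNat ((F × H) × ℕ) (n.unpair.1 / 2) ∈ st.2.1
  else ofNat ((F × H) × ℕ) (n.unpair.1 / 2) ∈ st.2.2.1

/-- `τ` extends the finite part without a new `true` in a frozen class. -/
def allowed (st : ZSt F H) (τ : List Bool) : Prop :=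
  st.1 <+: τ ∧ ∀ n < τ.length, st.1.length ≤ n → τ.getD n false = true → ¬ frozen st n

/-- The initial segment of the join of `A` and `G` determined by the part `τ` of `G`. -/
def jseg (A : Orc) (τ : List Bool) : List Bool :=
  seg (join A fun n => τ.getD n false) (2 * τ.length)

/-- The number `n` codes an allowed extension forcing `s` into the jump, with a step bound. -/
def forces (A : Orc) (s : ℕ) (st : ZSt F H) (p : List Bool × ℕ × ℕ) : Prop :=
  allowed st p.1 ∧ p.2.1 ≤ 2 * p.1.length ∧
    ((ofNat Nat.Partrec.Code s).evaln p.2.2 (encode ((jseg A p.1).take p.2.1))).isSome = true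

/-- The triple coded by `n`. -/
def trip (n : ℕ) : List Bool × ℕ × ℕ := (decode (α := List Bool × ℕ × ℕ) n).getD ([], 0, 0)

/-- Forcing the jump. -/
noncomputable def stepN (A : Orc) (s : ℕ) (st : ZSt F H) : ZSt F H :=
  if h : ∃ n, forces A s st (trip n) then ((trip (Nat.find h)).1, st.2) else st

/-- The class `c` wants a new `true`. -/
def wants (st : ZSt F H) (c : ℕ) : Prop :=
  if c % 2 = 0 then ofNat ((F × H) × ℕ) (c / 2) ∉ st.2.1
  else ofNat ((F × H) × ℕ) (c / 2) ∈ st.2.1 ∧ ofNat ((F × H) × ℕ) (c / 2) ∉ st.2.2.1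

/-- Putting a `true` into the class given by the stage. -/
noncomputable def stepP (s : ℕ) (st : ZSt F H) : ZSt F H :=
  if wants st s.unpair.1 then
    (st.1 ++ List.replicate (Nat.pair s.unpair.1 st.1.length - st.1.length) false ++ [true], st.2)
  else st

/-- Closing the positions of sessions which are seen to be left. -/
noncomputable def stepC (I : ZIn F H) (s : ℕ) (st : ZSt F H) : ZSt F H :=
  (st.1, st.2.1, st.2.2.1 ++ st.2.1.filter (fun p => decide (∃ w < s, I.lw (p.1, w) = true)),
    st.2.2.2)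

/-- The action for the session given by the stage. -/
noncomputable def stepS (I : ZIn F H) (s : ℕ) (st : ZSt F H) : ZSt F H :=
  let a := ofNat (F × H) s.unpair.1
  if I.ok a = true ∧ (∀ w < s, I.lw (a, w) = false) ∧ a ∉ st.2.2.2 then
    if I.bd a < s ∧ ∃ y < s, I.win (a, y, st.2.1.length * (1 + st.1.length)) = true then
      (st.1, st.2.1, st.2.2.1 ++ st.2.1.filter (fun p => decide (p.1 = a)), a :: st.2.2.2)
    else if ∀ w < encode a.2 + (st.2.1.filter (fun p => decide (p.1 = a))).length,
        ∃ v < s, I.ug (a.1, w, v) = true then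
      (st.1, (a, st.1.length) :: st.2.1, st.2.2)
    else st
  else st

def stepE (st : ZSt F H) : ZSt F H := (st.1 ++ [false], st.2)

/-- The construction. -/
noncomputable def run (A : Orc) (I : ZIn F H) : ℕ → ZSt F H
  | 0 => ([], [], [], [])
  | s + 1 => stepE (stepS I s (stepC I s (stepP s (stepN A s (run A I s)))))

noncomputable def zG (A : Orc) (I : ZIn F H) : Orc := fun n => (run A I (n + 1)).1.getD n false
noncomputable def zre (A : Orc) (I : ZIn F H) (p : (F × H) × ℕ) : Bool :=
  decide (p ∈ (run A I (p.2 + 1)).2.1)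
noncomputable def zdn (A : Orc) (I : ZIn F H) (p : (F × H) × ℕ) : Bool :=
  decide (p.1 ∈ (run A I p.2).2.2.2)

/-- Extension of states. -/
def Ext (st st' : ZSt F H) : Prop :=
  allowed st st'.1 ∧ st.2.1 ⊆ st'.2.1 ∧ st.2.2.1 ⊆ st'.2.2.1 ∧ st.2.2.2 ⊆ st'.2.2.2

/-- All questions are decided by `Z`. -/
structure ZCx (Z : Orc) (I : ZIn F H) : Prop where
  ok : CI Z I.ok
  lw : CI Z I.lw
  ug : CI Z I.ug
  win : CI Z I.win
  bd : CI Z I.bd

/-- The properties of the outcome. -/
structure ZSem (I : ZIn F H) (G : Orc) (re dn : (F × H) × ℕ → Bool) : Prop where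
  fake : ∀ p, re p = false ↔ ∃ n, G (bitF p n) = true
  re_ok : ∀ a k, re (a, k) = true → I.ok a = true
  act_fin : ∀ a k, re (a, k) = true → ((∃ w, I.lw (a, w) = true) ∨ ∃ z, dn (a, z) = true) →
    {n | G (bitA (a, k) n) = true}.Finite
  re_fin : ∀ a, ((∃ w, I.lw (a, w) = true) ∨ ∃ z, dn (a, z) = true) →
    {k | re (a, k) = true}.Finite
  fam_fin : ∀ f w, (∀ v, I.ug (f, w, v) = false) →
    {q : H × ℕ | re ((f, q.1), q.2) = true}.Finite
  forever : ∀ a, I.ok a = true → (∀ w, I.lw (a, w) = false) → (∀ z, dn (a, z) = false) →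
    (∀ w, ∃ v, I.ug (a.1, w, v) = true) →
    {k | re (a, k) = true}.Infinite ∧
      (∀ k, re (a, k) = true → {n | G (bitA (a, k) n) = true}.Infinite) ∧
      ¬ ∃ y, ∀ n, I.win (a, y, n) = true
  done : ∀ a, (∃ z, dn (a, z) = true) →
    (∀ l, I.ok (a.1, l) = true → l ≠ a.2 → ∃ w ≤ I.bd a, I.lw ((a.1, l), w) = true) →
    ∃ y n, I.win (a, y, n) = true ∧
      {q : H × ℕ × Option ℕ | re ((a.1, q.1), q.2.1) = true ∧
        ∀ m ∈ q.2.2, G (bitA ((a.1, q.1), q.2.1) m) = true}.encard ≤ (n : ℕ∞)

end z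

end Pool.Agent.P.MP_9f8894_lc
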