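import Mathlib
import Pool.Agent.P.MP_9f8894_lc.ZDefs

/-! Package ZBas: invariants of the bottom construction. -/

set_option autoImplicit false
open Encodable Denumerable Filter TopologicalSpace
open scoped Classical

namespace Pool.Agent.P.MP_9f8894_lc

variable {F H : Type} [Denumerable F] [Denumerable H] (A : Orc) (I : ZIn F H)

theorem zb_getD_of_pre {l l' : List Bool} (h : l <+: l') {n : ℕ} (hn : n < l.length) :
    l'.getD n false = l.getD n false := by
  obtain ⟨t, rfl⟩ := h
  rw [List.getD_append _ _ _ _ hn]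

theorem zb_frozen_mono {a b : ZSt F H} (h1 : a.2.1 ⊆ b.2.1) (h2 : a.2.2.1 ⊆ b.2.2.1) {n : ℕ}
    (h : frozen a n) : frozen b n := by
  unfold frozen at h ⊢
  split_ifs at h ⊢ with hc
  · exact h1 h
  · exact h2 h

theorem zb_allowed_refl (st : ZSt F H) : allowed st st.1 :=
  ⟨List.prefix_refl _, fun _ h1 h2 => absurd h1 (not_lt.2 h2)⟩

theorem Ext.refl (st : ZSt F H) : Ext st st := by
  exact ⟨zb_allowed_refl st, List.Subset.refl _, List.Subset.refl _, List.Subset.refl _⟩

theorem Ext.trans {a b c : ZSt F H} (h : Ext a b) (h' : Ext b c) : Ext a c := by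
  obtain ⟨⟨h1, h2⟩, h3, h4, h5⟩ := h
  obtain ⟨⟨g1, g2⟩, g3, g4, g5⟩ := h'
  refine ⟨⟨h1.trans g1, fun n hn hle ht hf => ?_⟩, List.Subset.trans h3 g3,
    List.Subset.trans h4 g4, List.Subset.trans h5 g5⟩
  by_cases hb : n < b.1.length
  · rw [zb_getD_of_pre g1 hb] at ht
    exact h2 n hb hle ht hf
  · exact g2 n hn (not_lt.1 hb) ht (zb_frozen_mono h3 h4 hf)

theorem ext_stepN (s : ℕ) (st : ZSt F H) : Ext st (stepN A s st) := by
  unfold stepN
  split_ifs with h
  · exact ⟨(Nat.find_spec h).1, List.Subset.refl _, List.Subset.refl _, List.Subset.refl _⟩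
  · exact Ext.refl st

theorem ext_stepP (s : ℕ) (st : ZSt F H) : Ext st (stepP s st) := by
  unfold stepP
  split_ifs with h
  · refine ⟨⟨?_, fun n hn hle ht hf => ?_⟩, List.Subset.refl _, List.Subset.refl _,
      List.Subset.refl _⟩
    · rw [List.append_assoc]
      exact List.prefix_append _ _
    · have hle' : st.1.length ≤ Nat.pair s.unpair.1 st.1.length := Nat.right_le_pair _ _
      have hn' : n = Nat.pair s.unpair.1 st.1.length := by
        by_contra hne
        simp only [List.length_append, List.length_replicate, List.length_singleton] at hn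
        have hlt : n < (st.1 ++ List.replicate (Nat.pair s.unpair.1 st.1.length - st.1.length)
            false).length := by
          simp only [List.length_append, List.length_replicate]
          omega
        simp only at ht
        rw [List.getD_append _ _ _ _ hlt, List.getD_append_right _ _ _ _ hle] at ht
        simp only [List.getD_eq_getElem?_getD, List.getElem?_replicate] at ht
        split_ifs at ht <;> simp at ht
      subst hn'
      unfold frozen at hf
      unfold wants at h
      rw [Nat.unpair_pair] at hf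
      simp only at hf
      split_ifs at hf h with hc
      · exact h hf
      · exact h.2 hf
  · exact Ext.refl st

theorem ext_stepC (s : ℕ) (st : ZSt F H) : Ext st (stepC I s st) := by
  exact ⟨zb_allowed_refl st, List.Subset.refl _, List.subset_append_left _ _,
    List.Subset.refl _⟩

theorem ext_stepS (s : ℕ) (st : ZSt F H) : Ext st (stepS I s st) := by
  unfold stepS
  simp only
  split_ifs with h1 h2 h3
  · exact ⟨zb_allowed_refl st, List.Subset.refl _, List.subset_append_left _ _,
      List.subset_cons_self _ _⟩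
  · exact ⟨zb_allowed_refl st, List.subset_cons_self _ _, List.Subset.refl _,
      List.Subset.refl _⟩
  · exact Ext.refl st
  · exact Ext.refl st

theorem ext_stepE (st : ZSt F H) : Ext st (stepE st) := by
  refine ⟨⟨List.prefix_append _ _, fun n hn hle ht _ => ?_⟩, List.Subset.refl _,
    List.Subset.refl _, List.Subset.refl _⟩
  simp only [stepE, List.length_append, List.length_singleton] at hn ht
  rw [List.getD_append_right _ _ _ _ hle] at ht
  have : n - st.1.length = 0 := by omega
  rw [this] at ht
  simp at ht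

/-- The state before the action for the session. -/
noncomputable def zbPre (s : ℕ) : ZSt F H := stepC I s (stepP s (stepN A s (run A I s)))

theorem zb_run_succ (s : ℕ) : run A I (s + 1) = stepE (stepS I s (zbPre A I s)) := rfl

theorem zb_ext_pre (s : ℕ) : Ext (run A I s) (zbPre A I s) :=
  ((ext_stepN A s _).trans (ext_stepP s _)).trans (ext_stepC I s _)

theorem zb_pre_ext (s : ℕ) : Ext (zbPre A I s) (run A I (s + 1)) :=
  (ext_stepS I s _).trans (ext_stepE _)

theorem zb_stepN_snd (s : ℕ) (st : ZSt F H) : (stepN A s st).2 = st.2 := by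
  unfold stepN
  split_ifs <;> rfl

theorem zb_stepP_snd (s : ℕ) (st : ZSt F H) : (stepP s st).2 = st.2 := by
  unfold stepP
  split_ifs <;> rfl

theorem zb_pre_R (s : ℕ) : (zbPre A I s).2.1 = (run A I s).2.1 := by
  simp only [zbPre, stepC, zb_stepP_snd, zb_stepN_snd]

theorem zb_pre_D (s : ℕ) : (zbPre A I s).2.2.2 = (run A I s).2.2.2 := by
  simp only [zbPre, stepC, zb_stepP_snd, zb_stepN_snd]

theorem zb_pre_C (s : ℕ) : (zbPre A I s).2.2.1 = (run A I s).2.2.1 ++
    (run A I s).2.1.filter (fun p => decide (∃ w < s, I.lw (p.1, w) = true)) := by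
  simp only [zbPre, stepC, zb_stepP_snd, zb_stepN_snd]

theorem zb_stepS_fst (s : ℕ) (st : ZSt F H) : (stepS I s st).1 = st.1 := by
  unfold stepS
  simp only
  split_ifs <;> rfl

theorem zb_succ_len (s : ℕ) : (run A I (s + 1)).1.length = (zbPre A I s).1.length + 1 := by
  rw [zb_run_succ]
  simp only [stepE, zb_stepS_fst, List.length_append, List.length_singleton]

theorem zb_succ_snd (s : ℕ) : (run A I (s + 1)).2 = (stepS I s (zbPre A I s)).2 := rfl

/-- The three possible actions for the session. -/
theorem zb_stepS_cases (s : ℕ) (st : ZSt F H) :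
    (stepS I s st).2 = st.2 ∨
    (∃ a, I.ok a = true ∧ a ∉ st.2.2.2 ∧
      (stepS I s st).2 = ((a, st.1.length) :: st.2.1, st.2.2)) ∨
    (∃ a, (stepS I s st).2 =
      (st.2.1, st.2.2.1 ++ st.2.1.filter (fun p => decide (p.1 = a)), a :: st.2.2.2)) := by
  unfold stepS
  simp only
  split_ifs with h1 h2 h3
  · exact Or.inr (Or.inr ⟨_, rfl⟩)
  · exact Or.inr (Or.inl ⟨_, h1.1, h1.2.2, rfl⟩)
  · exact Or.inl rfl
  · exact Or.inl rfl

/-- A real position is old or has just been added. -/
theorem zb_mem_succ {s : ℕ} {p : (F × H) × ℕ} (h : p ∈ (run A I (s + 1)).2.1) :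
    p ∈ (run A I s).2.1 ∨ (I.ok p.1 = true ∧ p.2 = (zbPre A I s).1.length) := by
  rw [zb_succ_snd] at h
  rcases zb_stepS_cases I s (zbPre A I s) with e | ⟨a, h1, _, e⟩ | ⟨a, e⟩
  · rw [e, zb_pre_R] at h
    exact Or.inl h
  · rw [e] at h
    rcases List.mem_cons.1 h with rfl | h
    · exact Or.inr ⟨h1, rfl⟩
    · rw [zb_pre_R] at h
      exact Or.inl h
  · rw [e] at h
    simp only [zb_pre_R] at h
    exact Or.inl h

theorem run_ext {s t : ℕ} (h : s ≤ t) : Ext (run A I s) (run A I t) := by
  induction t, h using Nat.le_induction with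
  | base => exact Ext.refl _
  | succ t _ ih => exact ih.trans ((zb_ext_pre A I t).trans (zb_pre_ext A I t))

theorem run_length (s : ℕ) : s ≤ (run A I s).1.length := by
  induction s with
  | zero => exact Nat.zero_le _
  | succ s ih =>
    have h1 := (zb_ext_pre A I s).1.1.length_le
    rw [zb_succ_len]
    omega

theorem zG_eq {t n : ℕ} (h : n < (run A I t).1.length) :
    zG A I n = (run A I t).1.getD n false := by
  unfold zG
  have h1 : n < (run A I (n + 1)).1.length := run_length A I (n + 1)
  rcases le_total t (n + 1) with h2 | h2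
  · exact zb_getD_of_pre (run_ext A I h2).1.1 h
  · exact (zb_getD_of_pre (run_ext A I h2).1.1 h1).symm

/-- A bit beyond the finite part which is `true` in the end is not frozen. -/
theorem zG_not_frozen {st : ZSt F H} {t n : ℕ} (h : Ext st (run A I t)) (hn : st.1.length ≤ n)
    (hG : zG A I n = true) : ¬ frozen st n := by
  have h1 : Ext st (run A I (max t (n + 1))) := h.trans (run_ext A I (le_max_left _ _))
  have h2 : n < (run A I (max t (n + 1))).1.length :=
    lt_of_lt_of_le (lt_of_lt_of_le (Nat.lt_succ_self n) (le_max_right _ _)) (run_length A I _)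
  rw [zG_eq A I h2] at hG
  exact h1.1.2 n h2 hn hG

theorem run_lt {s : ℕ} {p : (F × H) × ℕ} (h : p ∈ (run A I s).2.1) :
    p.2 < (run A I s).1.length := by
  induction s with
  | zero => simp [run] at h
  | succ s ih =>
    have h1 := (zb_ext_pre A I s).1.1.length_le
    rw [zb_succ_len]
    rcases zb_mem_succ A I h with h2 | h2
    · have := ih h2
      omega
    · omega

theorem run_nodup (s : ℕ) : (run A I s).2.1.Nodup := by
  induction s with
  | zero => simp [run]
  | succ s ih =>
    rw [zb_succ_snd]
    rcases zb_stepS_cases I s (zbPre A I s) with e | ⟨a, _, _, e⟩ | ⟨a, e⟩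
    · rw [e, zb_pre_R]
      exact ih
    · rw [e]
      simp only [zb_pre_R]
      refine List.nodup_cons.2 ⟨fun h => ?_, ih⟩
      have h1 := (zb_ext_pre A I s).1.1.length_le
      have h2 := run_lt A I h
      simp only at h2
      omega
    · rw [e]
      simp only [zb_pre_R]
      exact ih

theorem zre_iff (p : (F × H) × ℕ) : zre A I p = true ↔ ∃ t, p ∈ (run A I t).2.1 := by
  unfold zre
  rw [decide_eq_true_iff]
  refine ⟨fun h => ⟨_, h⟩, ?_⟩
  rintro ⟨t, h⟩
  induction t with
  | zero => simp [run] at h
  | succ t ih =>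
    rcases zb_mem_succ A I h with h2 | h2
    · exact ih h2
    · have h1 := (zb_ext_pre A I t).1.1.length_le
      have h3 := run_length A I t
      exact (run_ext A I (show t + 1 ≤ p.2 + 1 by omega)).2.1 h

theorem run_ok {s : ℕ} {p : (F × H) × ℕ} (h : p ∈ (run A I s).2.1) : I.ok p.1 = true := by
  induction s with
  | zero => simp [run] at h
  | succ s ih =>
    rcases zb_mem_succ A I h with h2 | h2
    · exact ih h2
    · exact h2.1

theorem run_closed {s : ℕ} {p : (F × H) × ℕ} (h : p ∈ (run A I s).2.2.1) :
    (∃ w, I.lw (p.1, w) = true) ∨ p.1 ∈ (run A I s).2.2.2 := by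
  induction s with
  | zero => simp [run] at h
  | succ s ih =>
    have key : p ∈ (zbPre A I s).2.2.1 →
        (∃ w, I.lw (p.1, w) = true) ∨ p.1 ∈ (run A I (s + 1)).2.2.2 := by
      intro h1
      rw [zb_pre_C] at h1
      rcases List.mem_append.1 h1 with h2 | h2
      · rcases ih h2 with h3 | h3
        · exact Or.inl h3
        · exact Or.inr ((run_ext A I (Nat.le_succ s)).2.2.2 h3)
      · obtain ⟨w, _, hw⟩ := of_decide_eq_true (List.mem_filter.1 h2).2
        exact Or.inl ⟨w, hw⟩
    rcases zb_stepS_cases I s (zbPre A I s) with e | ⟨a, _, _, e⟩ | ⟨a, e⟩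
    · rw [zb_succ_snd, e] at h
      exact key h
    · rw [zb_succ_snd, e] at h
      exact key h
    · rw [zb_succ_snd, e] at h
      rcases List.mem_append.1 h with h2 | h2
      · exact key h2
      · right
        rw [zb_succ_snd, e]
        have h3 : p.1 = a := of_decide_eq_true (List.mem_filter.1 h2).2
        rw [h3]
        exact List.mem_cons_self

theorem run_done_closed {s : ℕ} {p : (F × H) × ℕ} (h : p ∈ (run A I s).2.1)
    (hd : p.1 ∈ (run A I s).2.2.2) : p ∈ (run A I s).2.2.1 := by
  induction s with
  | zero => simp [run] at h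
  | succ s ih =>
    have key : p ∈ (zbPre A I s).2.1 → p.1 ∈ (zbPre A I s).2.2.2 →
        p ∈ (run A I (s + 1)).2.2.1 := by
      intro h1 h2
      rw [zb_pre_R] at h1
      rw [zb_pre_D] at h2
      exact (run_ext A I (Nat.le_succ s)).2.2.1 (ih h1 h2)
    rcases zb_stepS_cases I s (zbPre A I s) with e | ⟨a, _, ha, e⟩ | ⟨a, e⟩
    · rw [zb_succ_snd, e] at h hd
      exact key h hd
    · rw [zb_succ_snd, e] at h hd
      rcases List.mem_cons.1 h with rfl | h
      · exact absurd hd ha
      · exact key h hd
    · rw [zb_succ_snd, e] at h hd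
      rcases List.mem_cons.1 hd with h3 | h3
      · rw [zb_succ_snd, e]
        exact List.mem_append_right _ (List.mem_filter.2 ⟨h, decide_eq_true h3⟩)
      · exact key h h3

theorem frozen_bitF (st : ZSt F H) (p : (F × H) × ℕ) (n : ℕ) :
    frozen st (bitF p n) ↔ p ∈ st.2.1 := by
  unfold frozen bitF
  rw [Nat.unpair_pair]
  have h1 : 2 * encode p % 2 = 0 := by omega
  have h2 : 2 * encode p / 2 = encode p := by omega
  simp only [h1, h2, if_true]
  rw [Denumerable.ofNat_encode]

theorem frozen_bitA (st : ZSt F H) (p : (F × H) × ℕ) (n : ℕ) :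
    frozen st (bitA p n) ↔ p ∈ st.2.2.1 := by
  unfold frozen bitA
  rw [Nat.unpair_pair]
  have h1 : ¬ (2 * encode p + 1) % 2 = 0 := by omega
  have h2 : (2 * encode p + 1) / 2 = encode p := by omega
  simp only [h1, h2, if_false]
  rw [Denumerable.ofNat_encode]

end Pool.Agent.P.MP_9f8894_lc
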