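import Mathlib
import Pool.Agent.P.MP_9f8894_lc.ZBas
import Pool.Agent.P.MP_9f8894_lc.Jump

/-! Package ZLow: forcing the jump. -/

set_option autoImplicit false
open Encodable Denumerable Filter TopologicalSpace
open scoped Classical

namespace Pool.Agent.P.MP_9f8894_lc

variable {F H : Type} [Denumerable F] [Denumerable H] {A : Orc} {I : ZIn F H}

theorem zl_mem {γ : Type} [Primcodable γ] : PrimrecRel fun (L : List γ) (b : γ) => b ∈ L := by
  have h := PrimrecRel.exists_mem_list (R := fun a b : γ => a = b) Primrec.eq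
  exact h.of_eq fun L b => by simp

theorem zl_ball {γ : Type} [Primcodable γ] {R : ℕ → γ → Prop} (h : PrimrecRel R) :
    PrimrecRel fun (n : ℕ) (y : γ) => ∀ x < n, R x y := by
  have h1 := h.forall_mem_list.comp (Primrec.list_range.comp (Primrec.fst (β := γ))) Primrec.snd
  exact h1.of_eq fun q => by simp

theorem zl_trip : Primrec trip :=
  Primrec.option_getD.comp Primrec.decode (Primrec.const _)

theorem zl_trip_encode (p : List Bool × ℕ × ℕ) : trip (encode p) = p := by
  simp [trip]

theorem zl_frozen : PrimrecRel fun (st : ZSt F H) (n : ℕ) => frozen st n := by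
  have hu : Primrec fun q : ZSt F H × ℕ => q.2.unpair.1 :=
    Primrec.fst.comp (Primrec.unpair.comp Primrec.snd)
  have ho : Primrec fun q : ZSt F H × ℕ => ofNat ((F × H) × ℕ) (q.2.unpair.1 / 2) :=
    (Primrec.ofNat _).comp (Primrec.nat_div.comp hu (Primrec.const 2))
  have h0 : PrimrecPred fun q : ZSt F H × ℕ => q.2.unpair.1 % 2 = 0 :=
    Primrec.eq.comp (Primrec.nat_mod.comp hu (Primrec.const 2)) (Primrec.const 0)
  have h1 : PrimrecPred fun q : ZSt F H × ℕ =>
      ofNat ((F × H) × ℕ) (q.2.unpair.1 / 2) ∈ q.1.2.1 :=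
    zl_mem.comp (Primrec.fst.comp (Primrec.snd.comp Primrec.fst)) ho
  have h2 : PrimrecPred fun q : ZSt F H × ℕ =>
      ofNat ((F × H) × ℕ) (q.2.unpair.1 / 2) ∈ q.1.2.2.1 :=
    zl_mem.comp (Primrec.fst.comp (Primrec.snd.comp (Primrec.snd.comp Primrec.fst))) ho
  refine ((h0.and h1).or (h0.not.and h2)).of_eq fun q => ?_
  by_cases h : q.2.unpair.1 % 2 = 0 <;> simp [frozen, h]

theorem zl_allowed : PrimrecRel fun (st : ZSt F H) (τ : List Bool) => allowed st τ := by
  have h1 : PrimrecPred fun q : ZSt F H × List Bool => q.1.1 = q.2.take q.1.1.length :=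
    Primrec.eq.comp (Primrec.fst.comp Primrec.fst)
      (Primrec.list_take.comp (Primrec.list_length.comp (Primrec.fst.comp Primrec.fst))
        Primrec.snd)
  have ha : PrimrecPred fun r : ℕ × ZSt F H × List Bool => r.2.1.1.length ≤ r.1 :=
    Primrec.nat_le.comp
      (Primrec.list_length.comp (Primrec.fst.comp (Primrec.fst.comp Primrec.snd))) Primrec.fst
  have hb : PrimrecPred fun r : ℕ × ZSt F H × List Bool => r.2.2.getD r.1 false = true :=
    Primrec.eq.comp ((Primrec.list_getD false).comp (Primrec.snd.comp Primrec.snd) Primrec.fst)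
      (Primrec.const true)
  have hc : PrimrecPred fun r : ℕ × ZSt F H × List Bool => frozen r.2.1 r.1 :=
    zl_frozen.comp (Primrec.fst.comp Primrec.snd) Primrec.fst
  have h2 : PrimrecRel fun (n : ℕ) (q : ZSt F H × List Bool) =>
      q.1.1.length ≤ n → q.2.getD n false = true → ¬ frozen q.1 n :=
    (ha.not.or (hb.not.or hc.not)).of_eq fun r => by tauto
  have hl : Primrec fun q : ZSt F H × List Bool => q.2.length :=
    Primrec.list_length.comp Primrec.snd
  have h3 : PrimrecPred fun q : ZSt F H × List Bool => ∀ n < q.2.length,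
      q.1.1.length ≤ n → q.2.getD n false = true → ¬ frozen q.1 n :=
    (zl_ball h2).comp hl Primrec.id
  refine (h1.and h3).of_eq fun q => ?_
  exact and_congr List.prefix_iff_eq_take.symm Iff.rfl

theorem zl_jseg (A : Orc) : CI A (jseg A) := by
  have h0 : PrimrecPred fun q : List Bool × ℕ => q.2 % 2 = 0 :=
    Primrec.eq.comp (Primrec.nat_mod.comp Primrec.snd (Primrec.const 2)) (Primrec.const 0)
  have hd : Primrec fun q : List Bool × ℕ => q.2 / 2 :=
    Primrec.nat_div.comp Primrec.snd (Primrec.const 2)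
  have h1 := ci_ite (X := A) (ci_pred h0) (ci_comp (ci_self A) hd.computableIn)
    ((Primrec.list_getD false).comp Primrec.fst hd).computableIn
  have h2 : Primrec fun τ : List Bool => List.range (2 * τ.length) :=
    Primrec.list_range.comp (Primrec.nat_mul.comp (Primrec.const 2) Primrec.list_length)
  refine ci_of_eq (ci_map h1 h2.computableIn) fun τ => ?_
  rw [jseg, seg]
  refine List.map_congr_left fun n _ => ?_
  rw [join]
  congr

theorem ci_forces (A : Orc) : CI A fun p : (ℕ × ZSt F H) × ℕ =>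
    decide (forces A p.1.1 p.1.2 (trip p.2)) := by
  have ht : Primrec fun p : (ℕ × ZSt F H) × ℕ => trip p.2 := zl_trip.comp Primrec.snd
  have h1 : PrimrecPred fun p : (ℕ × ZSt F H) × ℕ => allowed p.1.2 (trip p.2).1 :=
    zl_allowed.comp (Primrec.snd.comp Primrec.fst) (Primrec.fst.comp ht)
  have h2 : PrimrecPred fun p : (ℕ × ZSt F H) × ℕ => (trip p.2).2.1 ≤ 2 * (trip p.2).1.length :=
    Primrec.nat_le.comp (Primrec.fst.comp (Primrec.snd.comp ht))
      (Primrec.nat_mul.comp (Primrec.const 2) (Primrec.list_length.comp (Primrec.fst.comp ht)))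
  have h3 : Primrec fun q : ((ℕ × ZSt F H) × ℕ) × List Bool =>
      ((ofNat Nat.Partrec.Code q.1.1.1).evaln (trip q.1.2).2.2
        (encode (q.2.take (trip q.1.2).2.1))).isSome :=
    Primrec.option_isSome.comp (Nat.Partrec.Code.primrec_evaln.comp
      (((Primrec.snd.comp (Primrec.snd.comp (ht.comp Primrec.fst))).pair
        ((Primrec.ofNat _).comp (Primrec.fst.comp (Primrec.fst.comp Primrec.fst)))).pair
        (Primrec.encode.comp (Primrec.list_take.comp
          (Primrec.fst.comp (Primrec.snd.comp (ht.comp Primrec.fst))) Primrec.snd))))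
  have h4 := ci_comp h3.computableIn (ci_pair ComputableIn.id
    (ci_comp (zl_jseg A) (Primrec.fst.comp ht).computableIn))
  refine ci_of_eq (ci_and (ci_pred h1) (ci_and (ci_pred h2) h4)) fun p => ?_
  rw [Bool.eq_iff_iff]
  simp only [forces, Bool.and_eq_true, decide_eq_true_eq, id]

theorem ci_stepN (A : Orc) : CI (J A) fun p : ℕ × ZSt F H => stepN A p.1 p.2 := by
  have h1 := ci_J_ex (ci_forces (F := F) (H := H) A)
  have h2 := ci_trans (ci_forces (F := F) (H := H) A) (ci_J_self A)
  have h3 := ci_or h2 (ci_not (ci_comp h1 (ComputableIn.fst (β := ℕ))))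
  have hex : ∀ p : ℕ × ZSt F H, ∃ n, (decide (forces A p.1 p.2 (trip n)) ||
      !decide (∃ k, decide (forces A p.1 p.2 (trip k)) = true)) = true := by
    intro p
    by_cases h : ∃ k, forces A p.1 p.2 (trip k)
    · obtain ⟨k, hk⟩ := h
      exact ⟨k, by simp [hk]⟩
    · exact ⟨0, by simp [h]⟩
  have h4 := ci_find (O := {chi (J A)}) (p := fun (p : ℕ × ZSt F H) (n : ℕ) =>
    (decide (forces A p.1 p.2 (trip n)) ||
      !decide (∃ k, decide (forces A p.1 p.2 (trip k)) = true))) h3 hex
  have h5 := ci_pair (ci_comp (Primrec.fst.comp zl_trip).computableIn h4)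
    (Primrec.snd.comp (Primrec.snd (α := ℕ) (β := ZSt F H))).computableIn
  refine ci_of_eq (ci_cond h1 h5 ComputableIn.snd) fun p => ?_
  rw [stepN]
  by_cases h : ∃ k, forces A p.1 p.2 (trip k)
  · have he : Nat.find (hex p) = Nat.find h := by
      refine Nat.find_congr' fun {n} => ?_
      simp [h]
    rw [dif_pos h, he]
    simp [h]
  · rw [dif_neg h]
    simp [h]

theorem zl_jseg_eq {τ : List Bool} {G : Orc} (h : ∀ n < τ.length, G n = τ.getD n false) :
    jseg A τ = seg (join A G) (2 * τ.length) := by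
  rw [jseg, seg_eq_iff]
  intro i hi
  rw [join, join, h (i / 2) (by omega)]

theorem J_join_zG (A : Orc) (I : ZIn F H) (s : ℕ) :
    J (join A (zG A I)) s = true ↔ ∃ n, forces A s (run A I s) (trip n) := by
  rw [J_iff]
  constructor
  · rintro ⟨l, hl⟩
    obtain ⟨k, hk⟩ := (dom_iff_evaln _ _).1 hl
    have hlen := run_length A I (s + l)
    have hle : l ≤ 2 * (run A I (s + l)).1.length := by omega
    refine ⟨encode ((run A I (s + l)).1, l, k), ?_⟩
    rw [zl_trip_encode]
    refine ⟨(run_ext A I (Nat.le_add_right s l)).1, hle, ?_⟩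
    change ((ofNat Nat.Partrec.Code s).evaln k
      (encode ((jseg A (run A I (s + l)).1).take l))).isSome = true
    rw [zl_jseg_eq (G := zG A I) fun n hn => zG_eq A I hn, seg_take _ hle]
    exact hk
  · intro h
    obtain ⟨-, hle, hk⟩ := Nat.find_spec h
    have h1 : (stepN A s (run A I s)).1 = (trip (Nat.find h)).1 := by
      rw [stepN, dif_pos h]
    have h2 : Ext (stepN A s (run A I s)) (run A I (s + 1)) :=
      (((ext_stepP s _).trans (ext_stepC I s _)).trans (ext_stepS I s _)).trans (ext_stepE _)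
    have h3 : (trip (Nat.find h)).1 <+: (run A I (s + 1)).1 := h1 ▸ h2.1.1
    have h4 : ∀ n < (trip (Nat.find h)).1.length,
        zG A I n = (trip (Nat.find h)).1.getD n false := by
      intro n hn
      rw [zG_eq A I (lt_of_lt_of_le hn h3.length_le)]
      obtain ⟨t, ht⟩ := h3
      rw [← ht, List.getD_append _ _ _ _ hn]
    rw [zl_jseg_eq h4, seg_take _ hle] at hk
    exact ⟨_, (dom_iff_evaln _ _).2 ⟨_, hk⟩⟩

end Pool.Agent.P.MP_9f8894_lc
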