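import Mathlib
import Pool.Agent.P.MP_9f8894_lc.ZLow

/-! Package ZComp: the bottom construction is computable in the jump, and low. -/

set_option autoImplicit false
open Encodable Denumerable Filter TopologicalSpace
open scoped Classical

namespace Pool.Agent.P.MP_9f8894_lc

variable {F H : Type} [Denumerable F] [Denumerable H] {A : Orc} {I : ZIn F H}

theorem zc_mem {α β : Type} [Primcodable α] [Primcodable β] {a : β → α} {l : β → List α}
    (ha : Primrec a) (hl : Primrec l) : PrimrecPred fun b => a b ∈ l b := by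
  have h := (PrimrecRel.exists_mem_list (R := fun x y : α => x = y) Primrec.eq).comp hl ha
  exact h.of_eq fun b => by simp

theorem zc_ci_mem {X : Orc} {α β : Type} [Primcodable α] [Primcodable β] {a : β → α}
    {l : β → List α} (ha : CI X a) (hl : CI X l) : CI X fun b => decide (a b ∈ l b) := by
  have h := ci_comp (ci_pred (X := X)
    (zc_mem (Primrec.fst (α := α) (β := List α)) Primrec.snd)) (ci_pair ha hl)
  exact ci_of_eq h fun _ => by congr

theorem zc_dec_and {X : Orc} {β : Type} [Primcodable β] {p q : β → Prop}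
    {dp : ∀ b, Decidable (p b)} {dq : ∀ b, Decidable (q b)}
    (hp : CI X fun b => @decide (p b) (dp b)) (hq : CI X fun b => @decide (q b) (dq b)) :
    CI X fun b => decide (p b ∧ q b) :=
  ci_of_eq (ci_and hp hq) fun b => by simp

theorem zc_ite {X : Orc} {β σ : Type} [Primcodable β] [Primcodable σ] {p : β → Prop}
    {dp : ∀ b, Decidable (p b)} {f g : β → σ} (hp : CI X fun b => @decide (p b) (dp b))
    (hf : CI X f) (hg : CI X g) : CI X fun b => @ite σ (p b) (dp b) (f b) (g b) :=
  ci_of_eq (ci_cond hp hf hg) fun b => by by_cases h : p b <;> simp [h]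

theorem zc_dec_true {X : Orc} {β : Type} [Primcodable β] {p : β → Bool} (hp : CI X p) :
    CI X fun b => decide (p b = true) :=
  ci_of_eq hp fun b => by simp

theorem zc_ofNat2 : Primrec (ofNat (F × H)) := by
  have h := ((Primrec.ofNat F).comp (Primrec.fst.comp Primrec.unpair)).pair
    ((Primrec.ofNat H).comp (Primrec.snd.comp Primrec.unpair))
  exact h.of_eq fun n => (prod_ofNat_val n).symm

theorem zc_ofNat3 : Primrec (ofNat ((F × H) × ℕ)) := by
  have h := ((zc_ofNat2 (F := F) (H := H)).comp (Primrec.fst.comp Primrec.unpair)).pair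
    (Primrec.snd.comp Primrec.unpair)
  exact h.of_eq fun n => (prod_ofNat_val (α := F × H) (β := ℕ) n).symm

theorem zc_replicate : Primrec fun n : ℕ => List.replicate n false := by
  have h := Primrec.list_map Primrec.list_range
    (Primrec.const (α := ℕ × ℕ) false).to₂
  exact h.of_eq fun n => by simp

theorem zc_wants : PrimrecPred fun p : ZSt F H × ℕ => wants p.1 p.2 := by
  have ho : Primrec fun p : ZSt F H × ℕ => ofNat ((F × H) × ℕ) (p.2 / 2) :=
    zc_ofNat3.comp (Primrec.nat_div.comp Primrec.snd (Primrec.const 2))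
  have h1 : PrimrecPred fun p : ZSt F H × ℕ => ofNat ((F × H) × ℕ) (p.2 / 2) ∈ p.1.2.1 :=
    zc_mem ho (Primrec.fst.comp (Primrec.snd.comp Primrec.fst))
  have h2 : PrimrecPred fun p : ZSt F H × ℕ => ofNat ((F × H) × ℕ) (p.2 / 2) ∈ p.1.2.2.1 :=
    zc_mem ho (Primrec.fst.comp (Primrec.snd.comp (Primrec.snd.comp Primrec.fst)))
  have h0 : PrimrecPred fun p : ZSt F H × ℕ => p.2 % 2 = 0 :=
    Primrec.eq.comp (Primrec.nat_mod.comp Primrec.snd (Primrec.const 2)) (Primrec.const 0)
  refine ((h0.and h1.not).or (h0.not.and (h1.and h2.not))).of_eq fun p => ?_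
  unfold wants
  by_cases h : p.2 % 2 = 0 <;> simp [h]

theorem zc_stepP : Primrec fun p : ℕ × ZSt F H => stepP p.1 p.2 := by
  have hc : Primrec fun p : ℕ × ZSt F H => p.1.unpair.1 :=
    Primrec.fst.comp (Primrec.unpair.comp Primrec.fst)
  have ht : Primrec fun p : ℕ × ZSt F H => p.2.1 := Primrec.fst.comp Primrec.snd
  have hl : Primrec fun p : ℕ × ZSt F H => p.2.1.length := Primrec.list_length.comp ht
  have hw : PrimrecPred fun p : ℕ × ZSt F H => wants p.2 p.1.unpair.1 :=
    zc_wants.comp (Primrec.snd.pair hc)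
  have hr : Primrec fun p : ℕ × ZSt F H =>
      List.replicate (Nat.pair p.1.unpair.1 p.2.1.length - p.2.1.length) false :=
    zc_replicate.comp (Primrec.nat_sub.comp (Primrec₂.natPair.comp hc hl) hl)
  have ha : Primrec fun p : ℕ × ZSt F H => p.2.1 ++
      List.replicate (Nat.pair p.1.unpair.1 p.2.1.length - p.2.1.length) false ++ [true] :=
    Primrec.list_append.comp (Primrec.list_append.comp ht hr) (Primrec.const [true])
  have h := Primrec.ite hw (ha.pair (Primrec.snd.comp Primrec.snd)) Primrec.snd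
  exact h.of_eq fun p => by unfold stepP; congr

theorem zc_stepE : Primrec fun st : ZSt F H => stepE st :=
  (Primrec.list_append.comp Primrec.fst (Primrec.const [false])).pair Primrec.snd

theorem zc_stepC {Z : Orc} (h : ZCx Z I) : CI Z fun p : ℕ × ZSt F H => stepC I p.1 p.2 := by
  have p1 : Primrec fun q : ((ℕ × ZSt F H) × (F × H) × ℕ) × ℕ => (q.1.2.1, q.2) :=
    (Primrec.fst.comp (Primrec.snd.comp Primrec.fst)).pair Primrec.snd
  have h1 := ci_comp h.lw p1.computableIn
  have p2 : Primrec fun q : (ℕ × ZSt F H) × (F × H) × ℕ => q.1.1 :=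
    Primrec.fst.comp Primrec.fst
  have h2 := ci_bex h1 p2.computableIn
  have hR : Primrec fun p : ℕ × ZSt F H => p.2.2.1 :=
    Primrec.fst.comp (Primrec.snd.comp Primrec.snd)
  have hC : Primrec fun p : ℕ × ZSt F H => p.2.2.2.1 :=
    Primrec.fst.comp (Primrec.snd.comp (Primrec.snd.comp Primrec.snd))
  have hD : Primrec fun p : ℕ × ZSt F H => p.2.2.2.2 :=
    Primrec.snd.comp (Primrec.snd.comp (Primrec.snd.comp Primrec.snd))
  have h3 := ci_filter h2 hR.computableIn
  have h4 := ci_comp (f := fun q : List ((F × H) × ℕ) × List ((F × H) × ℕ) => q.1 ++ q.2)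
    Primrec.list_append.computableIn (ci_pair hC.computableIn h3)
  have h5 := ci_pair (Primrec.fst.comp (Primrec.snd (α := ℕ) (β := ZSt F H))).computableIn
    (ci_pair hR.computableIn (ci_pair h4 hD.computableIn))
  exact ci_of_eq h5 fun _ => rfl

theorem zc_a : Primrec fun p : ℕ × ZSt F H => ofNat (F × H) p.1.unpair.1 :=
  zc_ofNat2.comp (Primrec.fst.comp (Primrec.unpair.comp Primrec.fst))

theorem zc_t : Primrec fun p : ℕ × ZSt F H => p.2.1 := Primrec.fst.comp Primrec.snd

theorem zc_R : Primrec fun p : ℕ × ZSt F H => p.2.2.1 :=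
  Primrec.fst.comp (Primrec.snd.comp Primrec.snd)

theorem zc_C : Primrec fun p : ℕ × ZSt F H => p.2.2.2.1 :=
  Primrec.fst.comp (Primrec.snd.comp (Primrec.snd.comp Primrec.snd))

theorem zc_D : Primrec fun p : ℕ × ZSt F H => p.2.2.2.2 :=
  Primrec.snd.comp (Primrec.snd.comp (Primrec.snd.comp Primrec.snd))

theorem zc_c1 {Z : Orc} (h : ZCx Z I) :
    CI Z fun p : ℕ × ZSt F H => decide (I.ok (ofNat (F × H) p.1.unpair.1) = true) := by
  have h1 := zc_dec_true (ci_comp h.ok (zc_a (F := F) (H := H)).computableIn)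
  exact ci_of_eq h1 fun _ => rfl

theorem zc_c2 {Z : Orc} (h : ZCx Z I) : CI Z fun p : ℕ × ZSt F H =>
    decide (∀ w < p.1, I.lw (ofNat (F × H) p.1.unpair.1, w) = false) := by
  have p1 : Primrec fun q : (ℕ × ZSt F H) × ℕ => (ofNat (F × H) q.1.1.unpair.1, q.2) :=
    (zc_a.comp Primrec.fst).pair Primrec.snd
  have h1 := ci_not (ci_comp h.lw p1.computableIn)
  have h2 := ci_ball h1 Primrec.fst.computableIn
  refine ci_of_eq h2 fun p => ?_
  rw [Bool.eq_iff_iff]
  simp only [decide_eq_true_eq, Bool.not_eq_true']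

theorem zc_c3 (Z : Orc) :
    CI Z fun p : ℕ × ZSt F H => decide (ofNat (F × H) p.1.unpair.1 ∉ p.2.2.2.2) := by
  have h1 := ci_pred (X := Z) (zc_mem (zc_a (F := F) (H := H)) zc_D).not
  exact ci_of_eq h1 fun _ => by congr

theorem zc_c4 {Z : Orc} (h : ZCx Z I) :
    CI Z fun p : ℕ × ZSt F H => decide (I.bd (ofNat (F × H) p.1.unpair.1) < p.1) := by
  have h0 := ci_comp h.bd (zc_a (F := F) (H := H)).computableIn
  have h1 := ci_comp (ci_pred (X := Z) (p := fun q : ℕ × ℕ => q.1 < q.2) Primrec.nat_lt)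
    (ci_pair h0 Primrec.fst.computableIn)
  exact ci_of_eq h1 fun _ => by congr

theorem zc_c5 {Z : Orc} (h : ZCx Z I) : CI Z fun p : ℕ × ZSt F H => decide (∃ y < p.1,
    I.win (ofNat (F × H) p.1.unpair.1, y, p.2.2.1.length * (1 + p.2.1.length)) = true) := by
  have hm : Primrec fun p : ℕ × ZSt F H => p.2.2.1.length * (1 + p.2.1.length) :=
    Primrec.nat_mul.comp (Primrec.list_length.comp zc_R)
      (Primrec.nat_add.comp (Primrec.const 1) (Primrec.list_length.comp zc_t))
  have p1 : Primrec fun q : (ℕ × ZSt F H) × ℕ =>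
      (ofNat (F × H) q.1.1.unpair.1, q.2, q.1.2.2.1.length * (1 + q.1.2.1.length)) :=
    (zc_a.comp Primrec.fst).pair (Primrec.snd.pair (hm.comp Primrec.fst))
  have h1 := ci_comp h.win p1.computableIn
  have h2 := ci_bex h1 Primrec.fst.computableIn
  exact ci_of_eq h2 fun _ => rfl

theorem zc_f (Z : Orc) : CI Z fun p : ℕ × ZSt F H =>
    p.2.2.1.filter fun c => decide (c.1 = ofNat (F × H) p.1.unpair.1) := by
  have p1 : PrimrecPred fun q : (ℕ × ZSt F H) × (F × H) × ℕ =>
      q.2.1 = ofNat (F × H) q.1.1.unpair.1 :=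
    Primrec.eq.comp (Primrec.fst.comp Primrec.snd) (zc_a.comp Primrec.fst)
  have h1 := ci_pred (X := Z) p1
  have h2 := ci_filter h1 zc_R.computableIn
  exact ci_of_eq h2 fun _ => List.filter_congr fun c _ => by congr

theorem zc_c6 {Z : Orc} (h : ZCx Z I) : CI Z fun p : ℕ × ZSt F H =>
    decide (∀ w < encode (ofNat (F × H) p.1.unpair.1).2 +
      (p.2.2.1.filter fun c => decide (c.1 = ofNat (F × H) p.1.unpair.1)).length,
      ∃ v < p.1, I.ug ((ofNat (F × H) p.1.unpair.1).1, w, v) = true) := by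
  have p1 : Primrec fun q : ((ℕ × ZSt F H) × ℕ) × ℕ =>
      ((ofNat (F × H) q.1.1.1.unpair.1).1, q.1.2, q.2) :=
    (Primrec.fst.comp (zc_a.comp (Primrec.fst.comp Primrec.fst))).pair
      ((Primrec.snd.comp Primrec.fst).pair Primrec.snd)
  have h1 := ci_comp h.ug p1.computableIn
  have p2 : Primrec fun q : (ℕ × ZSt F H) × ℕ => q.1.1 := Primrec.fst.comp Primrec.fst
  have h2 := ci_bex h1 p2.computableIn
  have he : Primrec fun p : ℕ × ZSt F H => encode (ofNat (F × H) p.1.unpair.1).2 :=
    Primrec.encode.comp (Primrec.snd.comp zc_a)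
  have h3 := ci_comp (f := fun q : ℕ × ℕ => q.1 + q.2) Primrec.nat_add.computableIn
    (ci_pair he.computableIn
      (ci_comp Primrec.list_length.computableIn (zc_f (F := F) (H := H) Z)))
  have h4 := ci_ball h2 h3
  refine ci_of_eq h4 fun p => ?_
  rw [Bool.eq_iff_iff]
  simp only [decide_eq_true_eq]

theorem zc_o1 (Z : Orc) : CI Z fun p : ℕ × ZSt F H => ((p.2.1, p.2.2.1, p.2.2.2.1 ++
    p.2.2.1.filter (fun c => decide (c.1 = ofNat (F × H) p.1.unpair.1)),
    ofNat (F × H) p.1.unpair.1 :: p.2.2.2.2) : ZSt F H) := by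
  have h4 := ci_comp (f := fun q : List ((F × H) × ℕ) × List ((F × H) × ℕ) => q.1 ++ q.2)
    Primrec.list_append.computableIn (ci_pair zc_C.computableIn (zc_f (F := F) (H := H) Z))
  have p1 : Primrec fun p : ℕ × ZSt F H => ofNat (F × H) p.1.unpair.1 :: p.2.2.2.2 :=
    Primrec.list_cons.comp zc_a zc_D
  have o1 := ci_pair zc_t.computableIn (ci_pair zc_R.computableIn (ci_pair h4 p1.computableIn))
  exact ci_of_eq o1 fun _ => rfl

theorem zc_o2 : Primrec fun p : ℕ × ZSt F H => ((p.2.1,
    (ofNat (F × H) p.1.unpair.1, p.2.1.length) :: p.2.2.1, p.2.2.2) : ZSt F H) :=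
  zc_t.pair ((Primrec.list_cons.comp (zc_a.pair (Primrec.list_length.comp zc_t)) zc_R).pair
    (Primrec.snd.comp (Primrec.snd.comp Primrec.snd)))

theorem zc_stepS {Z : Orc} (h : ZCx Z I) : CI Z fun p : ℕ × ZSt F H => stepS I p.1 p.2 := by
  have hs : CI Z fun p : ℕ × ZSt F H => p.2 := Primrec.snd.computableIn
  have d1 := zc_dec_and (zc_c1 h) (zc_dec_and (zc_c2 h) (zc_c3 Z))
  have d2 := zc_dec_and (zc_c4 h) (zc_c5 h)
  have h3 := zc_ite (zc_c6 h) zc_o2.computableIn hs
  have h4 := zc_ite d2 (zc_o1 Z) h3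
  have h5 := zc_ite d1 h4 hs
  refine ci_of_eq h5 fun p => ?_
  unfold stepS
  congr

theorem ci_run (h : ZCx (J A) I) : CI (J A) (run A I) := by
  have hs : CI (J A) fun p : ℕ × ZSt F H => p.1 := Primrec.fst.computableIn
  have h1 := ci_comp (zc_stepP (F := F) (H := H)).computableIn (ci_pair hs (ci_stepN A))
  have h2 := ci_comp (zc_stepC h) (ci_pair hs h1)
  have h3 := ci_comp (zc_stepS h) (ci_pair hs h2)
  have h4 := ci_comp (zc_stepE (F := F) (H := H)).computableIn h3
  have h5 : CI (J A) fun q : ℕ × ℕ × ZSt F H =>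
      stepE (stepS I q.2.1 (stepC I q.2.1 (stepP q.2.1 (stepN A q.2.1 q.2.2)))) :=
    ci_of_eq (ci_comp h4 (Primrec.snd (α := ℕ)).computableIn) fun _ => rfl
  have h6 := ci_nat_rec (O := {chi (J A)}) (f := fun s : ℕ => s)
    (g := fun _ => (([], [], [], []) : ZSt F H))
    (h := fun _ q => stepE (stepS I q.1 (stepC I q.1 (stepP q.1 (stepN A q.1 q.2)))))
    ComputableIn.id (ComputableIn.const _) h5
  refine ci_of_eq h6 fun s => ?_
  induction s with
  | zero => rfl
  | succ s ih => rw [run, ← ih]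

theorem ci_zG (h : ZCx (J A) I) : CI (J A) (zG A I) := by
  have h1 := ci_comp Primrec.fst.computableIn (ci_comp (ci_run h) Primrec.succ.computableIn)
  have h2 := ci_comp (f := fun q : List Bool × ℕ => q.1.getD q.2 false)
    (Primrec.list_getD false).computableIn (ci_pair h1 ComputableIn.id)
  exact ci_of_eq h2 fun _ => rfl

theorem ci_zre (h : ZCx (J A) I) : CI (J A) (zre A I) := by
  have h1 := ci_comp (Primrec.fst.comp Primrec.snd).computableIn (ci_comp (ci_run h)
    (Primrec.succ.comp (Primrec.snd (α := F × H) (β := ℕ))).computableIn)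
  have h2 := zc_ci_mem ComputableIn.id h1
  exact ci_of_eq h2 fun _ => by unfold zre; congr

theorem ci_zdn (h : ZCx (J A) I) : CI (J A) (zdn A I) := by
  have h1 := ci_comp (Primrec.snd.comp (Primrec.snd.comp Primrec.snd)).computableIn
    (ci_comp (ci_run h) (Primrec.snd (α := F × H) (β := ℕ)).computableIn)
  have h2 := zc_ci_mem Primrec.fst.computableIn h1
  exact ci_of_eq h2 fun _ => by unfold zdn; congr

theorem z_low (h : ZCx (J A) I) : CI (J A) (J (join A (zG A I))) := by
  have h1 := ci_J_ex (ci_forces (F := F) (H := H) A)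
  have h2 := ci_comp h1 (ci_pair ComputableIn.id (ci_run h))
  refine ci_of_eq h2 fun s => ?_
  rw [Bool.eq_iff_iff, J_join_zG]
  simp

end Pool.Agent.P.MP_9f8894_lc
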