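import Mathlib
import Pool.Agent.P.MP_9f8894_lc.ZBas

/-! Package ZSemA: finiteness properties of the bottom construction. -/

set_option autoImplicit false
open Encodable Denumerable Filter TopologicalSpace
open scoped Classical

namespace Pool.Agent.P.MP_9f8894_lc

variable {F H : Type} [Denumerable F] [Denumerable H] (A : Orc) (I : ZIn F H)

namespace ZsA

theorem stepN_snd (s : ℕ) (st : ZSt F H) : (stepN A s st).2 = st.2 := by
  unfold stepN; split_ifs <;> rfl

theorem stepP_snd (s : ℕ) (st : ZSt F H) : (stepP s st).2 = st.2 := by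
  unfold stepP; split_ifs <;> rfl

theorem stepS_cases (s : ℕ) (st : ZSt F H) : (stepS I s st).2.1 = st.2.1 ∨
    ∃ a : F × H, (stepS I s st).1 = st.1 ∧ (stepS I s st).2.1 = (a, st.1.length) :: st.2.1 ∧
      (∀ w < s, I.lw (a, w) = false) ∧ a ∉ st.2.2.2 ∧
      ∀ w < encode a.2 + (st.2.1.filter (fun p => decide (p.1 = a))).length,
        ∃ v < s, I.ug (a.1, w, v) = true := by
  unfold stepS
  dsimp only
  split_ifs with h1 h2 h3
  · exact Or.inl rfl
  · exact Or.inr ⟨_, rfl, rfl, h1.2.1, h1.2.2, h3⟩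
  · exact Or.inl rfl
  · exact Or.inl rfl

theorem run_cases (s : ℕ) : (run A I (s + 1)).2.1 = (run A I s).2.1 ∨
    ∃ (a : F × H) (st : ZSt F H), Ext st (run A I (s + 1)) ∧ st.2.1 = (run A I (s + 1)).2.1 ∧
      (run A I (s + 1)).2.1 = (a, st.1.length) :: (run A I s).2.1 ∧
      (∀ w < s, I.lw (a, w) = false) ∧ a ∉ (run A I s).2.2.2 ∧
      ∀ w < encode a.2 + ((run A I s).2.1.filter (fun p => decide (p.1 = a))).length,
        ∃ v < s, I.ug (a.1, w, v) = true := by
  have e1 : (stepC I s (stepP s (stepN A s (run A I s)))).2.1 = (run A I s).2.1 := by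
    show (stepP s (stepN A s (run A I s))).2.1 = _
    rw [stepP_snd, stepN_snd]
  have e2 : (stepC I s (stepP s (stepN A s (run A I s)))).2.2.2 = (run A I s).2.2.2 := by
    show (stepP s (stepN A s (run A I s))).2.2.2 = _
    rw [stepP_snd, stepN_snd]
  rcases stepS_cases I s (stepC I s (stepP s (stepN A s (run A I s)))) with h | ⟨a, h1, h2, h3, h4, h5⟩
  · exact Or.inl (h.trans e1)
  · rw [e1] at h2 h5
    rw [e2] at h4
    refine Or.inr ⟨a, stepS I s (stepC I s (stepP s (stepN A s (run A I s)))), ext_stepE _, rfl,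
      ?_, h3, h4, h5⟩
    rw [h1]
    exact h2

theorem entry {t : ℕ} {p : (F × H) × ℕ} (h : p ∈ (run A I t).2.1) :
    ∃ (s : ℕ) (st : ZSt F H), Ext st (run A I s) ∧ p ∈ st.2.1 ∧ st.1.length = p.2 := by
  induction t with
  | zero => simp [run] at h
  | succ t ih =>
    rcases run_cases A I t with h1 | ⟨a, st, h1, h2, h3, -⟩
    · exact ih (h1 ▸ h)
    · have h4 := h
      rw [h3] at h4
      rcases List.mem_cons.1 h4 with h5 | h5
      · exact ⟨t + 1, st, h1, h2 ▸ h, by rw [h5]⟩
      · exact ih h5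

theorem closed_of {a : F × H} {k : ℕ} (h : zre A I (a, k) = true)
    (h' : (∃ w, I.lw (a, w) = true) ∨ ∃ z, zdn A I (a, z) = true) :
    ∃ t, (a, k) ∈ (run A I t).2.2.1 := by
  obtain ⟨t, ht⟩ := (zre_iff A I _).1 h
  rcases h' with ⟨w, hw⟩ | ⟨z, hz⟩
  · refine ⟨max t (w + 1) + 1, ?_⟩
    set s := max t (w + 1) with hs
    have h1 : (a, k) ∈ (run A I s).2.1 := (run_ext A I (le_max_left _ _)).2.1 ht
    have h2 : (a, k) ∈ (stepC I s (stepP s (stepN A s (run A I s)))).2.2.1 := by
      refine List.mem_append_right _ (List.mem_filter.2 ⟨?_, ?_⟩)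
      · rwa [stepP_snd, stepN_snd]
      · exact decide_eq_true ⟨w, lt_of_lt_of_le (Nat.lt_succ_self w) (le_max_right _ _), hw⟩
    exact (ext_stepE _).2.2.1 ((ext_stepS I s _).2.2.1 h2)
  · have h1 : a ∈ (run A I z).2.2.2 := of_decide_eq_true hz
    exact ⟨max t z, run_done_closed A I ((run_ext A I (le_max_left _ _)).2.1 ht)
      ((run_ext A I (le_max_right _ _)).2.2.2 h1)⟩

theorem fam_inv {f : F} {w : ℕ} (h : ∀ v, I.ug (f, w, v) = false) (l : H) (t : ℕ) :
    ((run A I t).2.1.filter (fun p => decide (p.1 = (f, l)))).length = 0 ∨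
      encode l + ((run A I t).2.1.filter (fun p => decide (p.1 = (f, l)))).length ≤ w + 1 := by
  induction t with
  | zero => simp [run]
  | succ t ih =>
    rcases run_cases A I t with h1 | ⟨a, st, -, -, h3, -, -, h6⟩
    · rwa [h1]
    · rw [h3]
      by_cases ha : a = (f, l)
      · subst ha
        right
        rw [List.filter_cons_of_pos (by simp), List.length_cons]
        by_contra hc
        obtain ⟨v, -, hv⟩ := h6 w (by dsimp only; omega)
        rw [h v] at hv
        exact Bool.false_ne_true hv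
      · rwa [List.filter_cons_of_neg (by simpa using ha)]

end ZsA

theorem z_fake (p : (F × H) × ℕ) : zre A I p = false ↔ ∃ n, zG A I (bitF p n) = true := by
  constructor
  · intro h
    have h1 : ∀ t, p ∉ (run A I t).2.1 := fun t ht => by
      rw [(zre_iff A I p).2 ⟨t, ht⟩] at h
      exact Bool.false_ne_true h.symm
    set s := Nat.pair (2 * encode p) 0 with hs
    have hs1 : s.unpair.1 = 2 * encode p := by rw [hs, Nat.unpair_pair]
    set st := stepN A s (run A I s) with hst
    have hw : wants st s.unpair.1 := by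
      unfold wants
      rw [hs1, if_pos (Nat.mul_mod_right 2 _), Nat.mul_div_cancel_left _ two_pos, ofNat_encode, hst,
        ZsA.stepN_snd]
      exact h1 s
    have h2 : (stepP s st).1 = st.1 ++ List.replicate (bitF p st.1.length - st.1.length) false
        ++ [true] := by
      unfold stepP
      rw [if_pos hw, hs1]
      rfl
    have h3 : Ext (stepP s st) (run A I (s + 1)) :=
      ((ext_stepC I s _).trans (ext_stepS I s _)).trans (ext_stepE _)
    have h4 : st.1.length ≤ bitF p st.1.length := Nat.right_le_pair _ _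
    have h5 : (st.1 ++ List.replicate (bitF p st.1.length - st.1.length) false).length =
        bitF p st.1.length := by
      rw [List.length_append, List.length_replicate]; omega
    obtain ⟨r, hr⟩ := h3.1.1
    refine ⟨st.1.length, ?_⟩
    rw [zG_eq A I (t := s + 1) (by
      rw [← hr, h2, List.length_append, List.length_append, h5]; simp; omega), ← hr, h2,
      List.append_assoc, List.getD_append_right _ _ _ _ h5.le, h5, Nat.sub_self]
    rfl
  · rintro ⟨n, hn⟩
    by_contra hc
    obtain ⟨t, ht⟩ := (zre_iff A I p).1 (by simpa using hc)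
    obtain ⟨s, st, h1, h2, h3⟩ := ZsA.entry A I ht
    refine zG_not_frozen A I h1 ?_ hn ((frozen_bitF st p n).2 h2)
    have h4 : p.2 ≤ encode p := by
      obtain ⟨a, k⟩ := p
      rw [encode_prod_val]
      exact Nat.right_le_pair _ _
    have h5 : 2 * encode p ≤ bitF p n := Nat.left_le_pair _ _
    omega

theorem z_act_fin (a : F × H) (k : ℕ) (h : zre A I (a, k) = true)
    (h' : (∃ w, I.lw (a, w) = true) ∨ ∃ z, zdn A I (a, z) = true) :
    {n | zG A I (bitA (a, k) n) = true}.Finite := by
  obtain ⟨t, ht⟩ := ZsA.closed_of A I h h'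
  refine (Set.finite_lt_nat (run A I t).1.length).subset fun n hn => ?_
  by_contra hc
  have h1 : n ≤ bitA (a, k) n := Nat.right_le_pair _ _
  exact zG_not_frozen A I (Ext.refl (run A I t)) ((not_lt.1 hc).trans h1) hn
    ((frozen_bitA _ _ n).2 ht)

theorem z_re_fin (a : F × H) (h' : (∃ w, I.lw (a, w) = true) ∨ ∃ z, zdn A I (a, z) = true) :
    {k | zre A I (a, k) = true}.Finite := by
  obtain ⟨s, hs⟩ : ∃ s, (∃ w < s, I.lw (a, w) = true) ∨ a ∈ (run A I s).2.2.2 := by
    rcases h' with ⟨w, hw⟩ | ⟨z, hz⟩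
    · exact ⟨w + 1, Or.inl ⟨w, Nat.lt_succ_self w, hw⟩⟩
    · exact ⟨z, Or.inr (of_decide_eq_true hz)⟩
  have key : ∀ k t, s ≤ t → (a, k) ∈ (run A I t).2.1 → (a, k) ∈ (run A I s).2.1 := by
    intro k t ht
    induction t, ht using Nat.le_induction with
    | base => exact id
    | succ t ht ih =>
      intro hm
      rcases ZsA.run_cases A I t with h1 | ⟨b, st, -, -, h3, h4, h5, -⟩
      · exact ih (h1 ▸ hm)
      · rw [h3] at hm
        rcases List.mem_cons.1 hm with h6 | h6
        · obtain rfl : a = b := congrArg Prod.fst h6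
          exfalso
          rcases hs with ⟨w, hw, hw'⟩ | hs
          · rw [h4 w (hw.trans_le ht)] at hw'
            exact Bool.false_ne_true hw'
          · exact h5 ((run_ext A I ht).2.2.2 hs)
        · exact ih h6
  refine (Set.finite_lt_nat (run A I s).1.length).subset fun k hk => ?_
  obtain ⟨t, ht⟩ := (zre_iff A I _).1 hk
  exact run_lt A I (key k (max s t) (le_max_left _ _) ((run_ext A I (le_max_right _ _)).2.1 ht))

theorem z_fam_fin (f : F) (w : ℕ) (h : ∀ v, I.ug (f, w, v) = false) :
    {q : H × ℕ | zre A I ((f, q.1), q.2) = true}.Finite := by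
  have h1 : {l : H | encode l < w + 1}.Finite :=
    Set.Finite.preimage (encode_injective.injOn) (Set.finite_lt_nat (w + 1))
  have h2 : ∀ l : H, {k | zre A I ((f, l), k) = true}.Finite := by
    intro l
    by_contra hc
    obtain ⟨S, hS, hcard⟩ := Set.Infinite.exists_subset_card_eq hc (w + 2)
    have h3 : ∀ k : S, ∃ t, ((f, l), (k : ℕ)) ∈ (run A I t).2.1 := fun k =>
      (zre_iff A I _).1 (hS k.2)
    choose T hT using h3
    have h4 : S.card ≤ ((run A I (Finset.univ.sup T)).2.1.filter
        (fun p => decide (p.1 = (f, l)))).length := by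
      refine le_trans ?_ (List.toFinset_card_le _)
      refine Finset.card_le_card_of_injOn (fun k => ((f, l), k)) (fun k hk => ?_)
        (fun k _ k' _ hk => congrArg Prod.snd hk)
      refine Finset.mem_coe.2 (List.mem_toFinset.2 (List.mem_filter.2 ⟨?_, by simp⟩))
      exact (run_ext A I (Finset.le_sup (f := T) (Finset.mem_univ ⟨k, hk⟩))).2.1 (hT ⟨k, hk⟩)
    rcases ZsA.fam_inv A I h l (Finset.univ.sup T) with h5 | h5 <;> omega
  refine (h1.biUnion fun l _ => (h2 l).image fun k => (l, k)).subset fun q hq => ?_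
  refine Set.mem_biUnion (x := q.1) ?_ ⟨q.2, hq, rfl⟩
  obtain ⟨t, ht⟩ := (zre_iff A I _).1 hq
  have h3 : 0 < ((run A I t).2.1.filter (fun p => decide (p.1 = (f, q.1)))).length :=
    List.length_pos_of_mem (List.mem_filter.2 ⟨ht, by simp⟩)
  rcases ZsA.fam_inv A I h q.1 t with h5 | h5
  · omega
  · show encode q.1 < w + 1
    omega

end Pool.Agent.P.MP_9f8894_lc
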