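import Mathlib
import Pool.Agent.P.MP_9f8894_lc.ZSemA

/-! Package ZSemB: the two outcomes of a session. -/

set_option autoImplicit false
open Encodable Denumerable Filter TopologicalSpace
open scoped Classical

namespace Pool.Agent.P.MP_9f8894_lc

variable {F H : Type} [Denumerable F] [Denumerable H] (A : Orc) (I : ZIn F H)

theorem zsb_stepN_snd (s : ℕ) (st : ZSt F H) : (stepN A s st).2 = st.2 := by
  unfold stepN
  split_ifs <;> rfl

theorem zsb_stepP_snd (s : ℕ) (st : ZSt F H) : (stepP s st).2 = st.2 := by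
  unfold stepP
  split_ifs <;> rfl

/-- The state before the action for the session. -/
noncomputable def zsbPre (s : ℕ) : ZSt F H :=
  stepC I s (stepP s (stepN A s (run A I s)))

theorem zsb_run_succ (s : ℕ) : run A I (s + 1) = stepE (stepS I s (zsbPre A I s)) := rfl

theorem zsb_pre_real (s : ℕ) : (zsbPre A I s).2.1 = (run A I s).2.1 := by
  show (stepP s (stepN A s (run A I s))).2.1 = _
  rw [zsb_stepP_snd, zsb_stepN_snd]

theorem zsb_pre_done (s : ℕ) : (zsbPre A I s).2.2.2 = (run A I s).2.2.2 := by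
  show (stepP s (stepN A s (run A I s))).2.2.2 = _
  rw [zsb_stepP_snd, zsb_stepN_snd]

theorem zsb_pre_closed (s : ℕ) {p : (F × H) × ℕ} (hp : p ∈ (run A I s).2.1)
    (hw : ∃ w < s, I.lw (p.1, w) = true) : p ∈ (zsbPre A I s).2.2.1 := by
  have h1 : p ∈ (stepP s (stepN A s (run A I s))).2.1 := by
    rw [zsb_stepP_snd, zsb_stepN_snd]; exact hp
  show p ∈ (stepP s (stepN A s (run A I s))).2.2.1 ++
    (stepP s (stepN A s (run A I s))).2.1.filter (fun p => decide (∃ w < s, I.lw (p.1, w) = true))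
  refine List.mem_append_right _ (List.mem_filter.2 ⟨h1, ?_⟩)
  exact decide_eq_true hw

theorem zsb_pre_ext (s : ℕ) : Ext (run A I s) (zsbPre A I s) :=
  Ext.trans (Ext.trans (ext_stepN A s _) (ext_stepP s _)) (ext_stepC I s _)

theorem zsb_pre_length (s : ℕ) : s ≤ (zsbPre A I s).1.length :=
  (run_length A I s).trans (zsb_pre_ext A I s).1.1.length_le

theorem zsb_stepS_fst (s : ℕ) (st : ZSt F H) : (stepS I s st).1 = st.1 := by
  unfold stepS
  simp only
  split_ifs <;> rfl

/-- The three possible actions of `stepS`. -/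
theorem zsb_stepS_cases (s : ℕ) (st : ZSt F H) :
    stepS I s st = st ∨
    (I.ok (ofNat (F × H) s.unpair.1) = true ∧
      (∀ w < s, I.lw (ofNat (F × H) s.unpair.1, w) = false) ∧
      ofNat (F × H) s.unpair.1 ∉ st.2.2.2 ∧
      ((I.bd (ofNat (F × H) s.unpair.1) < s ∧
        (∃ y < s, I.win (ofNat (F × H) s.unpair.1, y, st.2.1.length * (1 + st.1.length)) = true) ∧
        stepS I s st = (st.1, st.2.1,
          st.2.2.1 ++ st.2.1.filter (fun p => decide (p.1 = ofNat (F × H) s.unpair.1)),
          ofNat (F × H) s.unpair.1 :: st.2.2.2)) ∨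
       stepS I s st = (st.1, (ofNat (F × H) s.unpair.1, st.1.length) :: st.2.1, st.2.2))) := by
  by_cases h1 : I.ok (ofNat (F × H) s.unpair.1) = true ∧
      (∀ w < s, I.lw (ofNat (F × H) s.unpair.1, w) = false) ∧
      ofNat (F × H) s.unpair.1 ∉ st.2.2.2
  · by_cases h2 : I.bd (ofNat (F × H) s.unpair.1) < s ∧
        ∃ y < s, I.win (ofNat (F × H) s.unpair.1, y, st.2.1.length * (1 + st.1.length)) = true
    · refine Or.inr ⟨h1.1, h1.2.1, h1.2.2, Or.inl ⟨h2.1, h2.2, ?_⟩⟩
      unfold stepS
      simp only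
      rw [if_pos h1, if_pos h2]
    · by_cases h3 : ∀ w < encode (ofNat (F × H) s.unpair.1).2 +
          (st.2.1.filter (fun p => decide (p.1 = ofNat (F × H) s.unpair.1))).length,
          ∃ v < s, I.ug ((ofNat (F × H) s.unpair.1).1, w, v) = true
      · refine Or.inr ⟨h1.1, h1.2.1, h1.2.2, Or.inr ?_⟩
        unfold stepS
        simp only
        rw [if_pos h1, if_neg h2, if_pos h3]
      · left
        unfold stepS
        simp only
        rw [if_pos h1, if_neg h2, if_neg h3]
  · left
    unfold stepS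
    simp only
    rw [if_neg h1]

theorem zsb_not_done {a : F × H} (h3 : ∀ z, zdn A I (a, z) = false) (s : ℕ) :
    a ∉ (run A I s).2.2.2 := by
  intro h
  have := h3 s
  unfold zdn at this
  simp only [decide_eq_false_iff_not] at this
  exact this h

/-- A session which is never left and never done does not take the first branch. -/
theorem zsb_no_win {a : F × H} (h1 : I.ok a = true) (h2 : ∀ w, I.lw (a, w) = false)
    (h3 : ∀ z, zdn A I (a, z) = false) {s : ℕ} (hs : ofNat (F × H) s.unpair.1 = a) :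
    ¬ (I.bd a < s ∧ ∃ y < s,
      I.win (a, y, (zsbPre A I s).2.1.length * (1 + (zsbPre A I s).1.length)) = true) := by
  intro h
  have hd : a ∉ (zsbPre A I s).2.2.2 := by
    rw [zsb_pre_done]; exact zsb_not_done A I h3 s
  apply zsb_not_done A I h3 (s + 1)
  rw [zsb_run_succ]
  show a ∈ (stepS I s (zsbPre A I s)).2.2.2
  unfold stepS
  simp only
  rw [hs, if_pos ⟨h1, fun w _ => h2 w, hd⟩, if_pos h]
  exact List.mem_cons_self

theorem zsb_real_inf {a : F × H} (h1 : I.ok a = true) (h2 : ∀ w, I.lw (a, w) = false)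
    (h3 : ∀ z, zdn A I (a, z) = false) (h4 : ∀ w, ∃ v, I.ug (a.1, w, v) = true) :
    {k | zre A I (a, k) = true}.Infinite := by
  intro hfin
  choose v hv using h4
  set S := hfin.toFinset with hS
  obtain ⟨s, hs1, hs2⟩ := exists_unpair_ge (encode a)
    ((Finset.range (encode a.2 + S.card)).sup v + S.sup id + 1)
  have hs : ofNat (F × H) s.unpair.1 = a := by rw [hs2, ofNat_encode]
  have hd : a ∉ (zsbPre A I s).2.2.2 := by
    rw [zsb_pre_done]; exact zsb_not_done A I h3 s
  have hlen : ((zsbPre A I s).2.1.filter (fun p => decide (p.1 = a))).length ≤ S.card := by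
    have hnd : ((zsbPre A I s).2.1.filter (fun p => decide (p.1 = a))).Nodup := by
      rw [zsb_pre_real]; exact (run_nodup A I s).filter _
    rw [← List.toFinset_card_of_nodup hnd]
    have hsub : ((zsbPre A I s).2.1.filter (fun p => decide (p.1 = a))).toFinset ⊆
        S.image (fun k => (a, k)) := by
      intro p hp
      rw [List.mem_toFinset, List.mem_filter, zsb_pre_real] at hp
      have hpa : p.1 = a := by simpa using hp.2
      rw [Finset.mem_image]
      refine ⟨p.2, ?_, by rw [← hpa]⟩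
      rw [hS, Set.Finite.mem_toFinset, Set.mem_ofPred_eq, zre_iff]
      exact ⟨s, by rw [← hpa]; exact hp.1⟩
    exact (Finset.card_le_card hsub).trans Finset.card_image_le
  have hug : ∀ w < encode a.2 + ((zsbPre A I s).2.1.filter (fun p => decide (p.1 = a))).length,
      ∃ v < s, I.ug (a.1, w, v) = true := by
    intro w hw
    refine ⟨v w, ?_, hv w⟩
    have : v w ≤ (Finset.range (encode a.2 + S.card)).sup v :=
      Finset.le_sup (Finset.mem_range.2 (by omega))
    omega
  have hmem : (a, (zsbPre A I s).1.length) ∈ (run A I (s + 1)).2.1 := by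
    rw [zsb_run_succ]
    show _ ∈ (stepS I s (zsbPre A I s)).2.1
    have hnw := zsb_no_win A I h1 h2 h3 hs
    unfold stepS
    simp only
    rw [hs, if_pos ⟨h1, fun w _ => h2 w, hd⟩, if_neg hnw, if_pos hug]
    exact List.mem_cons_self
  have hin : (zsbPre A I s).1.length ∈ S := by
    rw [hS, Set.Finite.mem_toFinset, Set.mem_ofPred_eq, zre_iff]
    exact ⟨s + 1, hmem⟩
  have h5 : (zsbPre A I s).1.length ≤ S.sup id := Finset.le_sup (f := id) hin
  have h6 := zsb_pre_length A I s
  omega

theorem zsb_act_inf {a : F × H} (h2 : ∀ w, I.lw (a, w) = false)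
    (h3 : ∀ z, zdn A I (a, z) = false) (k : ℕ) (hk : zre A I (a, k) = true) :
    {n | zG A I (bitA (a, k) n) = true}.Infinite := by
  apply Set.infinite_of_forall_exists_gt
  intro M
  obtain ⟨t, ht⟩ := (zre_iff A I _).1 hk
  obtain ⟨s, hs1, hs2⟩ := exists_unpair_ge (2 * encode (a, k) + 1) (t + M + 1)
  have hreal : (a, k) ∈ (run A I s).2.1 := (run_ext A I (by omega : t ≤ s)).2.1 ht
  have hncl : (a, k) ∉ (run A I s).2.2.1 := by
    intro h
    rcases run_closed A I h with ⟨w, hw⟩ | hd
    · rw [h2 w] at hw; exact absurd hw (by simp)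
    · exact zsb_not_done A I h3 s hd
  set R1 := stepN A s (run A I s) with hR1
  have hw : wants R1 s.unpair.1 := by
    unfold wants
    rw [hs2, if_neg (by omega)]
    have : (2 * encode (a, k) + 1) / 2 = encode (a, k) := by omega
    rw [this, ofNat_encode, hR1, zsb_stepN_snd]
    exact ⟨hreal, hncl⟩
  have hP : (stepP s R1).1 =
      R1.1 ++ List.replicate (Nat.pair s.unpair.1 R1.1.length - R1.1.length) false ++ [true] := by
    unfold stepP
    rw [if_pos hw]
  have hrun : (run A I (s + 1)).1 =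
      (R1.1 ++ List.replicate (Nat.pair s.unpair.1 R1.1.length - R1.1.length) false) ++
        [true, false] := by
    rw [zsb_run_succ]
    show (stepS I s (zsbPre A I s)).1 ++ [false] = _
    rw [zsb_stepS_fst]
    show (stepP s R1).1 ++ [false] = _
    rw [hP]; simp
  have hle : R1.1.length ≤ Nat.pair s.unpair.1 R1.1.length := Nat.right_le_pair _ _
  have hl : (R1.1 ++ List.replicate (Nat.pair s.unpair.1 R1.1.length - R1.1.length) false).length
      = Nat.pair s.unpair.1 R1.1.length := by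
    rw [List.length_append, List.length_replicate]; omega
  have hbit : bitA (a, k) R1.1.length = Nat.pair s.unpair.1 R1.1.length := by
    unfold bitA; rw [hs2]
  refine ⟨R1.1.length, ?_, ?_⟩
  · rw [Set.mem_ofPred_eq, hbit, zG_eq A I (t := s + 1)
      (by rw [hrun, List.length_append, hl]; simp), hrun,
      List.getD_append_right _ _ _ _ (by rw [hl]), hl]
    simp
  · have h7 : (run A I s).1.length ≤ R1.1.length := (ext_stepN A s (run A I s)).1.1.length_le
    have h8 := run_length A I s
    omega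

theorem z_forever (a : F × H) (h1 : I.ok a = true) (h2 : ∀ w, I.lw (a, w) = false)
    (h3 : ∀ z, zdn A I (a, z) = false) (h4 : ∀ w, ∃ v, I.ug (a.1, w, v) = true) :
    {k | zre A I (a, k) = true}.Infinite ∧
      (∀ k, zre A I (a, k) = true → {n | zG A I (bitA (a, k) n) = true}.Infinite) ∧
      ¬ ∃ y, ∀ n, I.win (a, y, n) = true := by
  refine ⟨zsb_real_inf A I h1 h2 h3 h4, zsb_act_inf A I h2 h3, ?_⟩
  rintro ⟨y, hy⟩
  obtain ⟨s, hs1, hs2⟩ := exists_unpair_ge (encode a) (I.bd a + y + 1)
  have hs : ofNat (F × H) s.unpair.1 = a := by rw [hs2, ofNat_encode]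
  exact zsb_no_win A I h1 h2 h3 hs ⟨by omega, y, by omega, hy _⟩

/-- The stage at which an element enters a list. -/
theorem zsb_enter {P : ℕ → Prop} {s t : ℕ} (hst : s ≤ t) (hs : ¬ P s) (ht : P t) :
    ∃ u, s ≤ u ∧ ¬ P u ∧ P (u + 1) := by
  induction t, hst using Nat.le_induction with
  | base => exact absurd ht hs
  | succ t hst ih =>
    by_cases h : P t
    · exact ih h
    · exact ⟨t, hst, h, ht⟩

/-- A position enters only while its session is alive. -/
theorem zsb_enter_real {u : ℕ} {p : (F × H) × ℕ} (h0 : p ∉ (run A I u).2.1)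
    (h1 : p ∈ (run A I (u + 1)).2.1) :
    (∀ w < u, I.lw (p.1, w) = false) ∧ p.1 ∉ (run A I (u + 1)).2.2.2 := by
  rw [zsb_run_succ] at h1 ⊢
  change p ∈ (stepS I u (zsbPre A I u)).2.1 at h1
  change _ ∧ p.1 ∉ (stepS I u (zsbPre A I u)).2.2.2
  rw [← zsb_pre_real] at h0
  rcases zsb_stepS_cases I u (zsbPre A I u) with h | ⟨-, hlw, hd, ⟨-, -, h⟩ | h⟩
  · rw [h] at h1; exact absurd h1 h0
  · rw [h] at h1; exact absurd h1 h0
  · rw [h] at h1 ⊢
    rcases List.mem_cons.1 h1 with h2 | h2
    · rw [h2]; exact ⟨hlw, hd⟩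
    · exact absurd h2 h0

theorem z_done (a : F × H) (h1 : ∃ z, zdn A I (a, z) = true)
    (h2 : ∀ l, I.ok (a.1, l) = true → l ≠ a.2 → ∃ w ≤ I.bd a, I.lw ((a.1, l), w) = true) :
    ∃ y n, I.win (a, y, n) = true ∧
      {q : H × ℕ × Option ℕ | zre A I ((a.1, q.1), q.2.1) = true ∧
        ∀ m ∈ q.2.2, zG A I (bitA ((a.1, q.1), q.2.1) m) = true}.encard ≤ (n : ℕ∞) := by
  obtain ⟨z, hz⟩ := h1
  have hz' : a ∈ (run A I z).2.2.2 := by
    unfold zdn at hz
    exact of_decide_eq_true hz
  obtain ⟨s, -, hs0, hs1⟩ := zsb_enter (P := fun t => a ∈ (run A I t).2.2.2) (Nat.zero_le z)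
    (by show a ∉ ([] : List (F × H)); exact List.not_mem_nil) hz'
  have hs1' : a ∈ (stepS I s (zsbPre A I s)).2.2.2 := hs1
  have hs0' : a ∉ (zsbPre A I s).2.2.2 := by rw [zsb_pre_done]; exact hs0
  rcases zsb_stepS_cases I s (zsbPre A I s) with h | ⟨-, -, -, ⟨hbd, ⟨y, -, hy⟩, h⟩ | h⟩
  · rw [h] at hs1'; exact absurd hs1' hs0'
  swap
  · rw [h] at hs1'; exact absurd hs1' hs0'
  have ha : a = ofNat (F × H) s.unpair.1 := by
    rw [h] at hs1'
    rcases List.mem_cons.1 hs1' with h3 | h3
    · exact h3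
    · exact absurd h3 hs0'
  rw [← ha] at hbd hy h
  refine ⟨y, _, hy, ?_⟩
  -- every real position of the family is already there
  have hA : ∀ l k, zre A I ((a.1, l), k) = true → ((a.1, l), k) ∈ (run A I s).2.1 := by
    intro l k hk
    obtain ⟨t, ht⟩ := (zre_iff A I _).1 hk
    by_contra hn
    have ht' : ((a.1, l), k) ∈ (run A I (s + t)).2.1 :=
      (run_ext A I (by omega : t ≤ s + t)).2.1 ht
    obtain ⟨u, hu, hu0, hu1⟩ := zsb_enter (P := fun t => ((a.1, l), k) ∈ (run A I t).2.1)
      (by omega : s ≤ s + t) hn ht'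
    obtain ⟨hlw, hd⟩ := zsb_enter_real A I hu0 hu1
    by_cases hl : l = a.2
    · apply hd
      rw [hl]
      exact (run_ext A I (by omega : s + 1 ≤ u + 1)).2.2.2 hs1
    · obtain ⟨w, hw, hw'⟩ := h2 l (run_ok A I ht) hl
      have := hlw w (by omega)
      rw [hw'] at this
      exact absurd this (by simp)
  -- and is closed after the action
  have hB : ∀ l k, zre A I ((a.1, l), k) = true →
      ((a.1, l), k) ∈ (stepS I s (zsbPre A I s)).2.2.1 := by
    intro l k hk
    have hin := hA l k hk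
    rw [h]
    by_cases hl : l = a.2
    · refine List.mem_append_right _ (List.mem_filter.2 ⟨by rw [zsb_pre_real]; exact hin, ?_⟩)
      rw [hl]; simp
    · obtain ⟨w, hw, hw'⟩ := h2 l (run_ok A I hin) hl
      exact List.mem_append_left _ (zsb_pre_closed A I s hin ⟨w, by omega, hw'⟩)
  have hC : ∀ l k m, zre A I ((a.1, l), k) = true → zG A I (bitA ((a.1, l), k) m) = true →
      m < (zsbPre A I s).1.length := by
    intro l k m hk hm
    by_contra hlt
    have hext : Ext (stepS I s (zsbPre A I s)) (run A I (s + 1)) := ext_stepE _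
    have hle : m ≤ bitA ((a.1, l), k) m := Nat.right_le_pair _ _
    have := zG_not_frozen A I hext (n := bitA ((a.1, l), k) m)
      (by rw [zsb_stepS_fst]; omega) hm
    rw [frozen_bitA] at this
    exact this (hB l k hk)
  let φ : H × ℕ × Option ℕ → ((F × H) × ℕ) × Option ℕ := fun q => (((a.1, q.1), q.2.1), q.2.2)
  have hφ : Function.Injective φ := by
    rintro ⟨l, k, o⟩ ⟨l', k', o'⟩ hq
    simp only [φ, Prod.mk.injEq] at hq
    obtain ⟨⟨⟨-, rfl⟩, rfl⟩, rfl⟩ := hq
    rfl
  let T : Finset (((F × H) × ℕ) × Option ℕ) :=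
    (zsbPre A I s).2.1.toFinset ×ˢ Finset.insertNone (Finset.range (zsbPre A I s).1.length)
  have hT : T.card ≤ (zsbPre A I s).2.1.length * (1 + (zsbPre A I s).1.length) := by
    rw [Finset.card_product, Finset.card_insertNone, Finset.card_range, Nat.add_comm 1]
    exact Nat.mul_le_mul_right _ (List.toFinset_card_le _)
  rw [← hφ.encard_image]
  refine le_trans (Set.encard_le_encard (t := (T : Set _)) ?_) ?_
  · rintro _ ⟨⟨l, k, o⟩, ⟨hq1, hq2⟩, rfl⟩
    rw [Finset.mem_coe, Finset.mem_product]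
    refine ⟨?_, ?_⟩
    · rw [List.mem_toFinset, zsb_pre_real]
      exact hA l k hq1
    · rw [Finset.mem_insertNone]
      intro m hm
      exact Finset.mem_range.2 (hC l k m hq1 (hq2 m hm))
  · rw [Set.encard_coe_eq_coe_finsetCard]
    exact_mod_cast hT

theorem z_sem : ZSem I (zG A I) (zre A I) (zdn A I) where
  fake := z_fake A I
  re_ok := fun a k h => by
    obtain ⟨t, ht⟩ := (zre_iff A I _).1 h
    exact run_ok A I ht
  act_fin := z_act_fin A I
  re_fin := z_re_fin A I
  fam_fin := z_fam_fin A I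
  forever := z_forever A I
  done := z_done A I

end Pool.Agent.P.MP_9f8894_lc
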