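import Mathlib
import Pool.Agent.P.MP_9f8894_lc.BaseCx
import Pool.Agent.P.MP_9f8894_lc.Post
import Pool.Agent.P.MP_9f8894_lc.ZSemB
import Pool.Agent.P.MP_9f8894_lc.ZComp
import Pool.Agent.P.MP_9f8894_lc.VChain

/-! Package BotEx: the bottom construction applied to the candidates. -/

set_option autoImplicit false
open Encodable Denumerable Filter TopologicalSpace
open scoped Classical

namespace Pool.Agent.P.MP_9f8894_lc

theorem be_bound {R : ℕ → ℕ → Prop} (l : List ℕ) (h : ∀ y ∈ l, ∃ k, R y k) :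
    ∃ K, ∀ y ∈ l, ∃ k < K, R y k := by
  induction l with
  | nil => exact ⟨0, fun _ h => nomatch h⟩
  | cons a l ih =>
    obtain ⟨K, hK⟩ := ih fun y hy => h y (List.mem_cons_of_mem _ hy)
    obtain ⟨k, hk⟩ := h a List.mem_cons_self
    refine ⟨K + k + 1, fun y hy => ?_⟩
    rcases List.mem_cons.1 hy with rfl | hy
    · exact ⟨k, by omega, hk⟩
    · obtain ⟨k', h1, h2⟩ := hK y hy
      exact ⟨k', by omega, h2⟩

theorem be_pairwise {R : ℕ → ℕ → Prop} (l : List ℕ) : l.Pairwise R ↔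
    ∀ i < l.length, ∀ j < i, R (l.getD j 0) (l.getD i 0) := by
  rw [List.pairwise_iff_getElem]
  refine ⟨fun h i hi j hj => ?_, fun h j i hj hi hji => ?_⟩
  · rw [List.getD_eq_getElem _ _ hi, List.getD_eq_getElem _ _ (hj.trans hi)]
    exact h j i _ hi hj
  · have := h i hi j hji
    rwa [List.getD_eq_getElem _ _ hi, List.getD_eq_getElem _ _ hj] at this

theorem be_dj : UPi zero (fun _ : ℕ × List ℕ => 1) fun p => p.2.Pairwise (djP p.1) := by
  have a1 : Primrec fun p : ((ℕ × List ℕ) × ℕ) × ℕ => p.1.1.2 :=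
    Primrec.snd.comp (Primrec.fst.comp Primrec.fst)
  have h1 := upi_djP.comp ((Primrec.fst.comp (Primrec.fst.comp Primrec.fst)).pair
    (((Primrec.list_getD 0).comp a1 Primrec.snd).pair
      ((Primrec.list_getD 0).comp a1 (Primrec.snd.comp Primrec.fst)))).computableIn
  have h2 := UPi.balllt (ℓ := fun _ => 1) Primrec.snd.computableIn h1 fun _ => le_rfl
  have h3 := UPi.balllt (ℓ := fun _ => 1) (Primrec.list_length.comp Primrec.snd).computableIn h2
    fun _ => le_rfl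
  exact h3.congr (fun _ => rfl) fun p => (be_pairwise (R := djP p.1) p.2).symm

theorem be_many : UPi zero (fun _ : ℕ × ℕ × ℕ => 20) fun p =>
    ¬ ∃ l, Many p.1 0 18 p.2.1 p.2.2 l := by
  obtain ⟨Q, hQ, hQ'⟩ := UPi.wit (ℓ := fun _ : ℕ × ℕ => 19)
    (upi_nH.comp (Primrec.fst.pair ((Primrec.const (cAcc 0 18)).pair Primrec.snd)).computableIn)
  have a1 : Primrec fun p : ((ℕ × ℕ × ℕ) × List ℕ × ℕ) × ℕ => p.1.1.1 :=
    Primrec.fst.comp (Primrec.fst.comp Primrec.fst)
  have h1 := hQ.comp (γ := (((ℕ × ℕ × ℕ) × List ℕ × ℕ) × ℕ) × ℕ)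
    (((a1.comp Primrec.fst).pair (Primrec.snd.comp Primrec.fst)).pair Primrec.snd).computableIn
  have h2 := UPi.bexlt (ℓ := fun _ => 19)
    (Primrec.snd.comp (Primrec.snd.comp Primrec.fst)).computableIn h1 fun _ => by omega
  have h3 := (upi_leP.comp (a1.pair (Primrec.snd.pair (Primrec.fst.comp (Primrec.snd.comp
    (Primrec.fst.comp Primrec.fst))))).computableIn).pad (ℓ' := fun _ => 19)
    (ComputableIn.const 1) fun _ => by omega
  have h4 := UPi.ball (ℓ := fun _ => 19) (Primrec.fst.comp Primrec.snd).computableIn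
    (h3.and h2 fun _ => by omega) fun _ => by omega
  have h5 := (be_dj.comp (γ := (ℕ × ℕ × ℕ) × List ℕ × ℕ) ((Primrec.fst.comp Primrec.fst).pair
    (Primrec.fst.comp Primrec.snd)).computableIn).pad (ℓ' := fun _ => 19)
    (ComputableIn.const 1) fun _ => by omega
  have h6 := UPi.andp (Primrec.eq.comp (Primrec.list_length.comp (Primrec.fst.comp Primrec.snd))
    (Primrec.snd.comp (Primrec.snd.comp Primrec.fst))) (h5.and h4 fun _ => by omega)
  refine (UPi.nex (ℓ := fun _ => 19) h6).congr (fun _ => rfl) fun p => ⟨fun h ⟨l, b1, b2, b3⟩ => ?_,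
    fun h c hc => h ⟨c.1, hc.1, hc.2.1, fun y hy => ⟨(hc.2.2 y hy).1, ?_⟩⟩⟩
  · obtain ⟨K, hK⟩ := be_bound (R := fun y k => Q ((p.1, y), k)) l fun y hy =>
      (hQ' (p.1, y)).1 (b3 y hy).2
    exact h (l, K) ⟨b1, b2, fun y hy => ⟨(b3 y hy).1, hK y hy⟩⟩
  · obtain ⟨k, -, hk⟩ := (hc.2.2 y hy).2
    exact (hQ' (p.1, y)).2 ⟨k, hk⟩

theorem ci_Win : CI (Jn zero 20) fun p : ((ℕ × Path) × Hist) × ℕ × ℕ =>
    decide (Win p.1.1.1 p.1.1.2 p.1.2 p.2.1 p.2.2) := by
  have a1 : Primrec fun p : ((ℕ × Path) × Hist) × ℕ × ℕ => p.1.1.1 :=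
    Primrec.fst.comp (Primrec.fst.comp Primrec.fst)
  have a2 : Primrec fun p : ((ℕ × Path) × Hist) × ℕ × ℕ => p.1.1.2 :=
    Primrec.snd.comp (Primrec.fst.comp Primrec.fst)
  have a3 : Primrec fun p : ((ℕ × Path) × Hist) × ℕ × ℕ => p.1.2 := Primrec.snd.comp Primrec.fst
  have a4 : Primrec fun p : ((ℕ × Path) × Hist) × ℕ × ℕ => p.2.1 := Primrec.fst.comp Primrec.snd
  have a5 := Primrec.fst.comp (primrec_cand.comp (Primrec.snd.comp (primrec_idx.comp a3)))
  have a6 := Primrec.succ.comp (Primrec.nat_add.comp (primrec_aP.comp a2) (Primrec.nat_mul.comp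
    (primrec_gP.comp (Primrec.list_cons.comp a3 a2)) (Primrec.snd.comp Primrec.snd)))
  have h1 := (upi_leP.comp (a1.pair (a4.pair a5)).computableIn).pad (ℓ' := fun _ => 20)
    (ComputableIn.const 1) fun _ => by omega
  have h2 := upi_nH.comp (a1.pair ((Primrec.const (cTop 1 20)).pair a4)).computableIn
  have h3 := upi_dec (n := 20) (h1.and h2 fun _ => by omega)
  have h4 := upi_dec (be_many.comp (a1.pair (a4.pair a6)).computableIn)
  refine ci_of_eq (ci_and h3 (ci_not h4)) fun p => ?_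
  rw [Bool.eq_iff_iff]
  simp only [Bool.and_eq_true, decide_eq_true_eq, Bool.not_eq_true', decide_eq_false_iff_not,
    not_not, Win, nT, and_assoc]

theorem ci_LW0 {W : Wit} (hc : WitCx W) : CI (Jn zero 20) fun p : ((ℕ × Path) × Hist) × ℕ =>
    decide (LW0 W p.1.1.1 p.1.1.2 p.1.2 p.2) := by
  have a1 : Primrec fun p : ((ℕ × Path) × Hist) × ℕ => p.1.1.1 :=
    Primrec.fst.comp (Primrec.fst.comp Primrec.fst)
  have a2 : Primrec fun p : ((ℕ × Path) × Hist) × ℕ => p.1.1.2 :=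
    Primrec.snd.comp (Primrec.fst.comp Primrec.fst)
  have a3 : Primrec fun p : ((ℕ × Path) × Hist) × ℕ => p.1.2 := Primrec.snd.comp Primrec.fst
  have a4 : Primrec fun p : ((ℕ × Path) × Hist) × ℕ => p.2 / 2 :=
    Primrec.nat_div.comp Primrec.snd (Primrec.const 2)
  have a5 := Primrec.fst.comp (Primrec.unpair.comp (Primrec.fst.comp (Primrec.unpair.comp a4)))
  have a6 := a1.pair ((Primrec.const 0).pair a2)
  have a7 : PrimrecPred fun p : ((ℕ × Path) × Hist) × ℕ => p.2 % 2 = 0 :=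
    Primrec.eq.comp (Primrec.nat_mod.comp Primrec.snd (Primrec.const 2)) (Primrec.const 0)
  have h1 := hc.kw.comp (a6.pair ((Primrec.fst.comp (primrec_idx.comp a3)).pair a4)).computableIn
  have h2 := hc.nv.comp (a6.pair (a3.pair a5)).computableIn
  have h3 := hc.nx.comp ((a1.pair (Primrec.const 0)).pair (a3.pair a5)).computableIn
  have h4 := UPi.andp (ℓ := fun _ => 20)
    (Primrec.nat_le.comp (Primrec.snd.comp (primrec_idx.comp a3)) Primrec.snd)
    (UPi.or (ℓ := fun _ => 20) h2 h3 fun _ => by omega)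
  have h5 := UPi.and (ℓ := fun _ => 20) (UPi.imp a7 h1) (UPi.imp a7.not h4) fun _ => by omega
  refine ci_of_eq (upi_dec h5) fun p => ?_
  rw [Bool.eq_iff_iff]
  simp only [decide_eq_true_eq, LW0, lwOf, and_true]
  by_cases h : p.2 % 2 = 0
  · simp only [h, if_true, not_true, false_imp_iff, true_imp_iff, and_true]
  · simp only [h, if_false, not_false_iff, false_imp_iff, true_imp_iff, true_and]

theorem be_cert {lw : Hist → ℕ → Prop} (L : Hist) : certOf lw (fun _ _ => True) L ↔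
    ∀ m < L.length, (lw (L.drop (m + 1)) (L.getD m (0, 0)).1 ∧
      ∀ w < (L.getD m (0, 0)).1, ¬ lw (L.drop (m + 1)) w) ∧ (L.getD m (0, 0)).2 = 0 := by
  induction L with
  | nil => exact ⟨fun _ _ h => absurd h (Nat.not_lt_zero _), fun _ => trivial⟩
  | cons q L ih =>
    rw [List.length_cons, Nat.forall_lt_succ_left, certOf, ih, and_comm]
    refine and_congr_left fun _ => and_congr_right fun _ => ?_
    exact ⟨fun h => Nat.eq_zero_of_not_pos fun h1 => h.2 0 h1 trivial,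
      fun h => ⟨trivial, fun b hb => absurd (hb.trans_eq h) (Nat.not_lt_zero b)⟩⟩

theorem ci_Cert0 {W : Wit} (hc : WitCx W) : CI (Jn zero 20) fun p : (ℕ × Path) × Hist =>
    decide (Cert0 W p.1.1 p.1.2 p.2) := by
  have a1 : Primrec fun p : ((ℕ × Path) × Hist) × ℕ =>
      (p.1.1, p.1.2.drop (p.2 + 1)) := (Primrec.fst.comp Primrec.fst).pair
    (Primrec.list_drop.comp (Primrec.succ.comp Primrec.snd) (Primrec.snd.comp Primrec.fst))
  have a2 : Primrec fun p : ((ℕ × Path) × Hist) × ℕ => p.1.2.getD p.2 (0, 0) :=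
    (Primrec.list_getD (0, 0)).comp (Primrec.snd.comp Primrec.fst) Primrec.snd
  have h1 := ci_comp (ci_LW0 hc) (a1.pair (Primrec.fst.comp a2)).computableIn
  have h2 := ci_comp (ci_LW0 hc) ((a1.comp (Primrec.fst (β := ℕ))).pair Primrec.snd).computableIn
  have h3 := ci_ball (ci_not h2) (Primrec.fst.comp a2).computableIn
  have h4 := ci_pred (X := Jn zero 20) (Primrec.eq.comp (Primrec.snd.comp a2) (Primrec.const 0))
  have h5 := ci_ball (ci_and (ci_and h1 h3) h4) (Primrec.list_length.comp Primrec.snd).computableIn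
  refine ci_of_eq h5 fun p => ?_
  rw [Bool.eq_iff_iff]
  simp only [Bool.and_eq_true, decide_eq_true_eq, Bool.not_eq_true', decide_eq_false_iff_not,
    Cert0, be_cert]

theorem be_le {q : ℕ × ℕ} {l L : Hist} (h : q :: l <:+ L) : q.1 ≤ sumL L := by
  induction L with
  | nil => exact absurd (List.suffix_nil.1 h) (List.cons_ne_nil _ _)
  | cons a L ih =>
    rw [sumL]
    rcases List.suffix_cons_iff.1 h with h | h
    · rw [← (List.cons.inj h).1]
      nlinarith [Nat.zero_le (sumL L), Nat.zero_le (q.1 * q.2), Nat.zero_le q.2]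
    · exact (ih h).trans (Nat.le_add_left _ _)

/-- The questions of the bottom construction. -/
noncomputable def beI (W : Wit) (Q : ((ℕ × Path) × ℕ × ℕ) × ℕ → Prop) : ZIn (ℕ × Path) Hist where
  ok a := decide (Cert0 W a.1.1 a.1.2 a.2 ∧ Wval a.1.1 0 a.1.2 a.2)
  lw p := decide (LW0 W p.1.1.1 p.1.1.2 p.1.2 p.2)
  ug p := decide (p.1.2 = [] ∨ Q (((p.1.1, p.1.2.tail), (idx p.1.2.headI).1, p.2.1), p.2.2))
  win p := decide (Win p.1.1.1 p.1.1.2 p.1.2 p.2.1 p.2.2)
  bd a := sumL a.2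

theorem be_ok {W : Wit} (hc : WitCx W) : CI (Jn zero 20) fun a : (ℕ × Path) × Hist =>
    decide (Cert0 W a.1.1 a.1.2 a.2 ∧ Wval a.1.1 0 a.1.2 a.2) := by
  have h1 := upi_Wval.comp (γ := (ℕ × Path) × Hist) (((Primrec.fst.comp Primrec.fst).pair
    ((Primrec.const 0).pair (Primrec.snd.comp Primrec.fst))).pair Primrec.snd).computableIn
  refine ci_of_eq (ci_and (ci_Cert0 hc) (upi_dec (n := 20) h1)) fun p => ?_
  rw [Bool.eq_iff_iff]
  simp only [Bool.and_eq_true, decide_eq_true_eq]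

theorem be_ug {Q : ((ℕ × Path) × ℕ × ℕ) × ℕ → Prop} (hQ : UPi zero (fun _ => 20) Q) :
    CI (Jn zero 20) fun p : (ℕ × Path) × ℕ × ℕ =>
      decide (p.1.2 = [] ∨ Q (((p.1.1, p.1.2.tail), (idx p.1.2.headI).1, p.2.1), p.2.2)) := by
  have a1 : Primrec fun p : (ℕ × Path) × ℕ × ℕ => p.1.2 := Primrec.snd.comp Primrec.fst
  have h1 := ci_comp (upi_dec hQ) ((((Primrec.fst.comp Primrec.fst).pair
    (Primrec.list_tail.comp a1)).pair ((Primrec.fst.comp (primrec_idx.comp
      (Primrec.list_headI.comp a1))).pair (Primrec.fst.comp Primrec.snd))).pair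
        (Primrec.snd.comp Primrec.snd)).computableIn
  have h2 := ci_pred (X := Jn zero 20) (Primrec.eq.comp a1 (Primrec.const []))
  refine ci_of_eq (ci_or h2 h1) fun p => ?_
  rw [Bool.eq_iff_iff]
  simp only [Bool.or_eq_true, decide_eq_true_eq]

theorem be_cx {W : Wit} (hc : WitCx W) {Q : ((ℕ × Path) × ℕ × ℕ) × ℕ → Prop}
    (hQ : UPi zero (fun _ => 20) Q) : ZCx (J (Jn zero 19)) (beI W Q) :=
  ⟨be_ok hc, ci_LW0 hc, be_ug hQ, ci_Win, (primrec_sumL.comp Primrec.snd).computableIn⟩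

theorem exists_bot {W : Wit} (hs : WitSem W) (hc : WitCx W) : ∃ (B : Bot) (G : Orc),
    BotSem W B ∧ BotCx B ∧ BotG B G ∧ CI (Jn zero 20) (J (join (Jn zero 19) G)) := by
  obtain ⟨Q, hQ, hQ'⟩ := UPi.wit (ℓ := fun _ : (ℕ × Path) × ℕ × ℕ => 20)
    (hc.kw.comp (((Primrec.fst.comp Primrec.fst).pair ((Primrec.const 1).pair
      (Primrec.snd.comp Primrec.fst))).pair Primrec.snd).computableIn)
  have hI := be_cx hc hQ
  have hS := z_sem (Jn zero 19) (beI W Q)
  have c1 := ci_zre (A := Jn zero 19) hI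
  have c2 := ci_zdn (A := Jn zero 19) hI
  have c3 := ci_zG (A := Jn zero 19) hI
  have c4 := z_low (A := Jn zero 19) hI
  generalize zre (Jn zero 19) (beI W Q) = re at hS c1
  generalize zdn (Jn zero 19) (beI W Q) = dn at hS c2
  generalize zG (Jn zero 19) (beI W Q) = G at hS c3 c4
  have e : ∀ e π L, ((∃ w, LW0 W e π L w) ∨
      ∃ z, L :: π ≠ [] ∧ dn (((e, π), L), z) = true) →
      (∃ w, (beI W Q).lw (((e, π), L), w) = true) ∨ ∃ z, dn (((e, π), L), z) = true :=
    fun e π L h => h.imp (fun ⟨w, h⟩ => ⟨w, decide_eq_true h⟩) fun ⟨z, h⟩ => ⟨z, h.2⟩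
  refine ⟨⟨fun e π L k => re (((e, π), L), k) = true,
    fun e p z => p ≠ [] ∧ dn (((e, p.tail), p.headI), z) = true,
    fun e π L k n => G (bitA (((e, π), L), k) n) = true⟩, G,
    ⟨fun e π L k h => of_decide_eq_true (hS.re_ok _ k h),
      fun e' π L k h h' => hS.act_fin _ k h (e e' π L h'),
      fun e' π L h' => hS.re_fin _ (e e' π L h'), fun e L₀ π₀ h => ?_,
      fun e π L h1 h2 h3 h4 h5 => ?_, fun e π L h1 h2 h3 => ?_⟩, ⟨?_, ?_, ?_⟩,
    ⟨fun e π L k => (Bool.not_eq_true _).to_iff.trans (hS.fake _), fun _ _ _ _ _ => Iff.rfl⟩, c4⟩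
  · obtain ⟨w, hw⟩ := (hs.kw _ _ _ _).1 h
    refine hS.fam_fin (e, L₀ :: π₀) w fun v => decide_eq_false fun h1 => ?_
    exact (hQ' ((e, π₀), (idx L₀).1, w)).2 ⟨v, h1.resolve_left (List.cons_ne_nil _ _)⟩ hw
  · have := hS.forever ((e, π), L) (decide_eq_true ⟨h1, h2⟩)
      (fun w => decide_eq_false fun h => h3 ⟨w, h⟩)
      (fun z => Bool.eq_false_iff.2 fun h => h4 ⟨z, List.cons_ne_nil _ _, h⟩) fun w => ?_
    · exact ⟨this.1, this.2.1, fun ⟨y, hy⟩ => this.2.2 ⟨y, fun n => decide_eq_true (hy n)⟩⟩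
    · cases π with
      | nil => exact ⟨0, by simp only [beI, true_or, decide_true]⟩
      | cons L₀ π₀ =>
        obtain ⟨v, hv⟩ := (hQ' ((e, π₀), (idx L₀).1, w)).1 fun h =>
          h5 L₀ π₀ rfl ((hs.kw _ _ _ _).2 ⟨w, h⟩)
        exact ⟨v, decide_eq_true (Or.inr hv)⟩
  · obtain ⟨y, n, b1, b2⟩ := hS.done ((e, π), L) (h3.imp fun z h => h.2) fun l b1 b2 => by
      obtain ⟨q, hq⟩ := (certOf_below h1 h2 (of_decide_eq_true b1).1).resolve_left b2
      exact ⟨q.1, be_le hq, decide_eq_true (certOf_of_cons h1 hq).1.1⟩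
    exact ⟨y, n, of_decide_eq_true b1, b2⟩
  · have := ci_comp c1 (α := (ℕ × Path) × Hist × ℕ) ((Primrec.fst.pair
      (Primrec.fst.comp Primrec.snd)).pair (Primrec.snd.comp Primrec.snd)).computableIn
    exact ci_of_eq this fun p => (Bool.decide_eq_true).symm
  · have a1 : Primrec fun p : (ℕ × Path) × ℕ => p.1.2 := Primrec.snd.comp Primrec.fst
    have h1 := ci_comp c2 (α := (ℕ × Path) × ℕ) ((((Primrec.fst.comp Primrec.fst).pair
      (Primrec.list_tail.comp a1)).pair (Primrec.list_headI.comp a1)).pair Primrec.snd).computableIn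
    have h2 := ci_pred (X := Jn zero 20) (Primrec.eq.comp a1 (Primrec.const [])).not
    refine ci_of_eq (ci_and h2 h1) fun p => ?_
    rw [Bool.eq_iff_iff]
    simp only [Bool.and_eq_true, decide_eq_true_eq, ne_eq]
  · have a1 : Primrec fun p : ((ℕ × Path) × Hist × ℕ) × ℕ => ((p.1.1, p.1.2.1), p.1.2.2) :=
      (((Primrec.fst.pair (Primrec.fst.comp Primrec.snd)).pair
        (Primrec.snd.comp Primrec.snd)).comp Primrec.fst)
    have := ci_comp c3 (Primrec₂.natPair.comp (Primrec.succ.comp (Primrec.nat_mul.comp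
      (Primrec.const 2) (Primrec.encode.comp a1))) Primrec.snd).computableIn
    exact ci_of_eq this fun p => (Bool.decide_eq_true).symm

end Pool.Agent.P.MP_9f8894_lc
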