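import Mathlib
import Pool.Agent.P.MP_9f8894_lc.Defs

/-! Unfolding of the point classes. -/

set_option autoImplicit false
open Encodable Denumerable Filter TopologicalSpace
open scoped Classical

namespace Pool.Agent.P.MP_9f8894_lc

variable {Ω : Type} [TopologicalSpace Ω] (x : Ω)

theorem in_all : In cAll x := by rw [In]; simp [cAll]

theorem in_at : In cAt x ↔ IsOpen ({x} : Set Ω) := by rw [In]; simp [cAt]

theorem in_perf : In cPerf x ↔ x ∉ closure {y | In cAt y} := by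
  rw [In]; simp [cPerf, posC, negC]

theorem in_NI_zero : In (cNI 0) x := in_all x

theorem in_NI_succ (a : ℕ) : In (cNI (a + 1)) x ↔ AccPt x (𝓟 {y | In (cNI a) y}) := by
  have : cNI (a + 1) = (3, a, 0) := by simp [cNI]
  rw [this, In]; simp [posC, negC]

theorem in_R (a : ℕ) : In (cR (a + 1)) x ↔
    In (cNI (a + 1)) x ∧ x ∉ closure {y | In cPerf y} := by
  rw [in_NI_succ, In]; simp [cR, posC, negC]

theorem cT_zero : cT 0 = cAt := rfl
theorem cT_one : cT 1 = cPerf := rfl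

theorem in_T (m : ℕ) : In (cT (m + 2)) x ↔
    (AccPt x (𝓟 {y | In (cT m) y}) ∧ AccPt x (𝓟 {y | In cAt y})) ∧
      x ∉ closure {y | In (cT (m + 1)) y} ∧ x ∉ closure {y | In (cR 2) y} := by
  have : cT (m + 2) = (5, m, 0) := by simp [cT]
  rw [this, In]; simp [posC, negC]

theorem in_Tag (i : ℕ) : In (cTag i) x ↔
    (AccPt x (𝓟 {y | In (cR 2) y}) ∧ AccPt x (𝓟 {y | In (cT i) y})) ∧
      x ∉ closure {y | In (cT (i + 1)) y} := by
  rw [In]; simp [cTag, posC, negC]

theorem in_Top (c L : ℕ) : In (cTop c L) x ↔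
    (AccPt x (𝓟 {y | In (cTag (c + 3)) y}) ∧ AccPt x (𝓟 {y | In (cT (L - 6)) y})) ∧
      x ∉ closure {y | In (cT (L - 5)) y} ∧
      if L % 2 = 1 then AccPt x (𝓟 {y | In (cR (L / 2 - 1)) y})
      else x ∉ closure {y | In (cR (L / 2 - 1)) y} := by
  rw [In]
  by_cases h : L % 2 = 1 <;> simp [cTop, posC, negC, h]
  tauto

theorem in_Acc (c L : ℕ) : In (cAcc c L) x ↔ AccPt x (𝓟 {y | In (cTop c L) y}) := by
  rw [In]; simp [cAcc, posC, negC]

end Pool.Agent.P.MP_9f8894_lc
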