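import Mathlib
import Pool.Agent.P.MP_9f8894_lc.ClB

/-! Package TreeB: the topology of tree spaces. -/

set_option autoImplicit false
open Encodable Denumerable Filter TopologicalSpace
open scoped Classical

namespace Pool.Agent.P.MP_9f8894_lc

variable {T : Tree} {σ : List ℕ}

theorem mem_cylC (x : XT T) : x ∈ cylC T σ ↔ x.1 σ = true := Iff.rfl

theorem Sub.child {f : ℕ → Tree} (h : Sub T σ (lim f)) (k : ℕ) : Sub T (σ ++ [k]) (f k) := by
  intro τ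
  have := h (k :: τ)
  rw [List.append_assoc]
  exact this

theorem Sub.root {f : ℕ → Tree} (h : Sub T σ (lim f)) : T σ := by
  have := (h []).2 trivial
  rwa [List.append_nil] at this

theorem sub_nil (T : Tree) : Sub T [] T := by
  intro τ
  exact Iff.rfl

theorem pc_lim {f : ℕ → Tree} (h : ∀ k, PC (f k)) : PC (lim f) := by
  intro σ τ hστ hτ
  cases σ with
  | nil => trivial
  | cons k σ' =>
    obtain ⟨ρ, rfl⟩ := hστ
    exact h k σ' (σ' ++ ρ) (List.prefix_append _ _) hτ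

theorem exists_pt (hT : PC T) (h : T σ) : ∃ x : XT T, IsPt σ x := by
  refine ⟨⟨fun τ => decide (τ <+: σ), ?_, ?_, ?_, ?_⟩, fun τ => ?_⟩
  · simp
  · intro τ hτ
    exact hT τ σ (of_decide_eq_true hτ) h
  · intro ρ τ hρ hτ
    exact decide_eq_true (hρ.trans (of_decide_eq_true hτ))
  · intro ρ τ hρ hτ
    exact List.prefix_or_prefix_of_prefix (of_decide_eq_true hρ) (of_decide_eq_true hτ)
  · exact decide_eq_true_iff

theorem IsPt.unique {x y : XT T} (hx : IsPt σ x) (hy : IsPt σ y) : x = y := by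
  apply Subtype.ext
  funext τ
  exact Bool.eq_iff_iff.2 ((hx τ).trans (hy τ).symm)

theorem IsPt.mem {x : XT T} (hx : IsPt σ x) : x.1 σ = true := by
  exact (hx σ).2 (List.prefix_refl σ)

theorem IsPt.addr_eq {τ : List ℕ} {x : XT T} (hx : IsPt σ x) (hy : IsPt τ x) : σ = τ := by
  have h1 : σ <+: τ := (hy σ).1 hx.mem
  have h2 : τ <+: σ := (hx τ).1 hy.mem
  exact h1.eq_of_length (le_antisymm h1.length_le h2.length_le)

/-- A point of a cylinder is its root or lies in the cylinder of a child. -/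
theorem split_pt {x : XT T} (h : x.1 σ = true) :
    IsPt σ x ∨ ∃ k, x.1 (σ ++ [k]) = true := by
  by_cases hk : ∃ k, x.1 (σ ++ [k]) = true
  · exact Or.inr hk
  refine Or.inl fun τ => ⟨fun hτ => ?_, fun hτ => x.2.2.2.1 τ σ hτ h⟩
  rcases x.2.2.2.2 σ τ h hτ with ⟨ρ, rfl⟩ | h'
  · cases ρ with
    | nil => simp
    | cons k ρ =>
      refine absurd ⟨k, x.2.2.2.1 _ _ ⟨ρ, ?_⟩ hτ⟩ hk
      simp
  · exact h'

theorem cylC_mono {τ : List ℕ} (h : σ <+: τ) : cylC T τ ≤ cylC T σ := by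
  intro x hx
  exact x.2.2.2.1 σ τ h hx

theorem cylC_disjoint {τ : List ℕ} (h₁ : ¬ σ <+: τ) (h₂ : ¬ τ <+: σ) :
    Disjoint (cylC T σ) (cylC T τ) := by
  rw [disjoint_iff]
  apply Clopens.ext
  rw [Clopens.coe_inf, Clopens.coe_bot, Set.eq_empty_iff_forall_notMem]
  rintro x ⟨hx, hy⟩
  rcases x.2.2.2.2 σ τ hx hy with h | h
  · exact h₁ h
  · exact h₂ h

theorem tb_fin {x : XT T} {U : Set (XT T)} (hU : IsOpen U) (hxU : x ∈ U) :
    ∃ I : Finset (List ℕ), ∀ y : XT T, (∀ τ ∈ I, y.1 τ = x.1 τ) → y ∈ U := by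
  obtain ⟨V, hV, rfl⟩ := isOpen_induced_iff.1 hU
  obtain ⟨I, u, hu, hI⟩ := isOpen_pi_iff.1 hV x.1 hxU
  refine ⟨I, fun y hy => hI fun τ hτ => ?_⟩
  rw [hy τ hτ]
  exact (hu τ hτ).2

theorem tb_open (σ : List ℕ) : IsOpen {y : XT T | y.1 σ = true} := (cylC T σ).isOpen

theorem tb_closed (σ : List ℕ) : IsClosed {y : XT T | y.1 σ = true} := (cylC T σ).isClosed

theorem IsPt.not_child {x : XT T} (hx : IsPt σ x) (k : ℕ) : ¬ x.1 (σ ++ [k]) = true := by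
  intro h
  have := ((hx _).1 h).length_le
  simp at this

/-- A neighbourhood of a root contains almost all cylinders of children. -/
theorem IsPt.nbhd {x : XT T} (hx : IsPt σ x) {U : Set (XT T)} (hU : IsOpen U) (hxU : x ∈ U) :
    {k | ¬ ∀ y : XT T, y.1 (σ ++ [k]) = true → y ∈ U}.Finite := by
  obtain ⟨I, hI⟩ := tb_fin hU hxU
  refine ((I.image fun τ => τ.getD σ.length 0).finite_toSet).subset fun k hk => ?_
  by_contra hk'
  refine hk fun y hy => hI y fun τ hτ => ?_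
  have hn : ¬ σ ++ [k] <+: τ := by
    rintro ⟨ρ, rfl⟩
    refine hk' (Finset.mem_coe.2 (Finset.mem_image.2 ⟨_, hτ, ?_⟩))
    simp
  refine Bool.eq_iff_iff.2 ⟨fun h => (hx τ).2 ?_, fun h => ?_⟩
  · rcases y.2.2.2.2 _ _ hy h with h' | h'
    · exact absurd h' hn
    · rcases List.prefix_concat_iff.1 h' with h'' | h''
      · exact absurd (h'' ▸ List.prefix_refl _) hn
      · exact h''
  · exact y.2.2.2.1 _ _ (((hx τ).1 h).trans (List.prefix_append _ _)) hy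

theorem IsPt.accPt_iff {x : XT T} (hx : IsPt σ x) (S : Set (XT T)) :
    AccPt x (𝓟 S) ↔ {k | ∃ y ∈ S, y.1 (σ ++ [k]) = true}.Infinite := by
  rw [accPt_iff_nhds]
  constructor
  · intro h hF
    have hO : IsOpen ({y : XT T | y.1 σ = true} ∩
        ⋂ k ∈ {k | ∃ y ∈ S, y.1 (σ ++ [k]) = true}, {y : XT T | y.1 (σ ++ [k]) = true}ᶜ) :=
      (tb_open σ).inter (hF.isOpen_biInter fun k _ => (tb_closed _).isOpen_compl)
    obtain ⟨y, ⟨⟨hy1, hy2⟩, hyS⟩, hne⟩ := h _ (hO.mem_nhds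
      ⟨hx.mem, Set.mem_iInter₂.2 fun k _ => hx.not_child k⟩)
    rcases split_pt hy1 with h' | ⟨k, hk⟩
    · exact hne (h'.unique hx)
    · exact Set.mem_iInter₂.1 hy2 k ⟨y, hyS, hk⟩ hk
  · intro h U hU
    obtain ⟨V, hVU, hV, hxV⟩ := mem_nhds_iff.1 hU
    obtain ⟨k, ⟨y, hyS, hy⟩, hk⟩ := (h.sdiff (hx.nbhd hV hxV)).nonempty
    have hk' : ∀ y : XT T, y.1 (σ ++ [k]) = true → y ∈ V := not_not.1 hk
    refine ⟨y, ⟨hVU (hk' y hy), hyS⟩, ?_⟩
    rintro rfl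
    exact hx.not_child k hy

theorem IsPt.closure_iff {x : XT T} (hx : IsPt σ x) (S : Set (XT T)) :
    x ∈ closure S ↔ x ∈ S ∨ {k | ∃ y ∈ S, y.1 (σ ++ [k]) = true}.Infinite := by
  rw [mem_closure_iff_clusterPt, clusterPt_principal, hx.accPt_iff]

theorem tb_set (A : Cl) :
    {k | ∃ y ∈ {y : XT T | In A y}, y.1 (σ ++ [k]) = true} = {k | Hs T A (σ ++ [k])} := by
  ext k
  exact ⟨fun ⟨y, h1, h2⟩ => ⟨y, h2, h1⟩, fun ⟨y, h1, h2⟩ => ⟨y, h2, h1⟩⟩

theorem IsPt.accIn {x : XT T} (hx : IsPt σ x) (A : Cl) :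
    AccPt x (𝓟 {y | In A y}) ↔ {k | Hs T A (σ ++ [k])}.Infinite := by
  rw [hx.accPt_iff, tb_set]

theorem IsPt.clIn {x : XT T} (hx : IsPt σ x) (A : Cl) :
    x ∈ closure {y | In A y} ↔ In A x ∨ {k | Hs T A (σ ++ [k])}.Infinite := by
  rw [hx.closure_iff, tb_set]
  exact Iff.rfl

theorem IsPt.at_iff (hT : PC T) {x : XT T} (hx : IsPt σ x) :
    In cAt x ↔ {k | T (σ ++ [k])}.Finite := by
  have e : {k | ∃ y ∈ (Set.univ : Set (XT T)), y.1 (σ ++ [k]) = true} =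
      {k | T (σ ++ [k])} := by
    ext k
    constructor
    · rintro ⟨y, -, hy⟩
      exact y.2.2.1 _ hy
    · intro h
      obtain ⟨y, hy⟩ := exists_pt hT h
      exact ⟨y, trivial, hy.mem⟩
  rw [in_at, ← Set.not_infinite, ← e, ← hx.accPt_iff, accPt_iff_nhds]
  constructor
  · intro h h'
    obtain ⟨y, ⟨hy, -⟩, hne⟩ := h' _ (h.mem_nhds rfl)
    exact hne hy
  · intro h
    rw [isOpen_iff_mem_nhds]
    rintro y rfl
    by_contra h'
    refine h fun U hU => ?_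
    by_contra h''
    refine h' (mem_of_superset hU fun z hz => ?_)
    by_contra hz'
    exact h'' ⟨z, ⟨hz, trivial⟩, hz'⟩

theorem hs_iff (A : Cl) :
    Hs T A σ ↔ (∃ x : XT T, IsPt σ x ∧ In A x) ∨ ∃ k, Hs T A (σ ++ [k]) := by
  constructor
  · rintro ⟨x, hx, hA⟩
    rcases split_pt hx with h | ⟨k, hk⟩
    · exact Or.inl ⟨x, h, hA⟩
    · exact Or.inr ⟨k, x, hk, hA⟩
  · rintro (⟨x, hx, hA⟩ | ⟨k, x, hx, hA⟩)
    · exact ⟨x, hx.mem, hA⟩
    · exact ⟨x, x.2.2.2.1 _ _ (List.prefix_append _ _) hx, hA⟩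

theorem Hs.mem {A : Cl} (h : Hs T A σ) : T σ := by
  obtain ⟨x, hx, -⟩ := h
  exact x.2.2.1 _ hx

theorem Hs.mono {A : Cl} {τ : List ℕ} (h : Hs T A τ) (hστ : σ <+: τ) : Hs T A σ := by
  obtain ⟨x, hx, hA⟩ := h
  exact ⟨x, x.2.2.2.1 _ _ hστ hx, hA⟩

theorem hs_of_closure {A : Cl} {x : XT T} (h : x.1 σ = true) (hx : x ∈ closure {y | In A y}) :
    Hs T A σ := by
  obtain ⟨y, hy, hA⟩ := mem_closure_iff.1 hx _ (tb_open σ) h
  exact ⟨y, hy, hA⟩

theorem hs_of_acc {A : Cl} {x : XT T} (h : x.1 σ = true) (hx : AccPt x (𝓟 {y | In A y})) :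
    Hs T A σ := by
  exact hs_of_closure h (mem_closure_iff_clusterPt.2 hx.clusterPt)

theorem tb_long {x : XT T} (h : ¬ ∃ τ, IsPt τ x) (n : ℕ) :
    ∃ τ, x.1 τ = true ∧ n ≤ τ.length := by
  induction n with
  | zero => exact ⟨[], x.2.1, le_rfl⟩
  | succ n ih =>
    obtain ⟨τ, hτ, hn⟩ := ih
    rcases split_pt hτ with h' | ⟨k, hk⟩
    · exact absurd ⟨τ, h'⟩ h
    · exact ⟨_, hk, by simpa using hn⟩

theorem tb_isolated (hT : PC T) {x : XT T} (hx : IsOpen ({x} : Set (XT T))) :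
    ∃ τ, IsPt τ x := by
  by_contra h
  obtain ⟨I, hI⟩ := tb_fin hx (Set.mem_singleton x)
  obtain ⟨τ, hτ, hn⟩ := tb_long h (I.sup List.length)
  obtain ⟨y, hy⟩ := exists_pt hT (x.2.2.1 _ hτ)
  have e : y = x := by
    refine hI y fun ρ hρ => Bool.eq_iff_iff.2 ⟨fun h' => ?_, fun h' => (hy ρ).2 ?_⟩
    · exact x.2.2.2.1 _ _ ((hy ρ).1 h') hτ
    · have hl : ρ.length ≤ τ.length := (Finset.le_sup (f := List.length) hρ).trans hn
      rcases x.2.2.2.2 _ _ h' hτ with h'' | h''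
      · exact h''
      · rw [h''.eq_of_length (le_antisymm h''.length_le hl)]
  exact h ⟨τ, e ▸ hy⟩

theorem perf_not_at (hT : PC T) (h : Sub T σ perf) : ¬ Hs T cAt σ := by
  rintro ⟨x, hx, hA⟩
  obtain ⟨τ, hτ⟩ := tb_isolated hT ((in_at x).1 hA)
  obtain ⟨ρ, rfl⟩ := (hτ σ).1 hx
  have hF := (hτ.at_iff hT).1 hA
  refine Set.infinite_univ (hF.subset fun k _ => ?_)
  have := (h (ρ ++ [k])).2 trivial
  rwa [← List.append_assoc] at this

theorem perf_in (hT : PC T) (h : Sub T σ perf) {x : XT T} (hx : x.1 σ = true) : In cPerf x := by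
  rw [in_perf]
  exact fun hc => perf_not_at hT h (hs_of_closure hx hc)

end Pool.Agent.P.MP_9f8894_lc
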