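import Mathlib
import Pool.Agent.P.MP_9f8894_lc.TreeB

/-! Package GadA: classes in switch trees and tokens. -/

set_option autoImplicit false
open Encodable Denumerable Filter TopologicalSpace
open scoped Classical

namespace Pool.Agent.P.MP_9f8894_lc

variable {T : Tree} {σ : List ℕ}

theorem ga_pc_emp : PC emp := fun _ _ _ h => h

theorem ga_pc_perf : PC perf := fun _ _ _ h => h

theorem ga_pc_atom : PC atom := pc_lim fun _ => ga_pc_emp

theorem ga_not_mem (hs : Sub T σ emp) : ¬ T σ := by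
  have h := hs []
  rw [List.append_nil] at h
  exact fun h' => h.1 h'

theorem ga_no_emp (hs : Sub T σ emp) (A : Cl) : ¬ Hs T A σ := fun h => ga_not_mem hs h.mem

theorem ga_ni_succ {Ω : Type} [TopologicalSpace Ω] (b : ℕ) :
    ∀ x : Ω, In (cNI (b + 1)) x → In (cNI b) x := by
  induction b with
  | zero => exact fun x _ => in_NI_zero x
  | succ b ih =>
    intro x hx
    rw [in_NI_succ] at hx ⊢
    exact hx.mono (principal_mono.2 fun y hy => ih y hy)

theorem ga_ni_le {Ω : Type} [TopologicalSpace Ω] {a b : ℕ} (h : a ≤ b) {x : Ω}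
    (hx : In (cNI b) x) : In (cNI a) x := by
  induction h with
  | refl => exact hx
  | step _ ih => exact ih (ga_ni_succ _ x hx)

theorem ga_hs_ni_le {a b : ℕ} (h : a ≤ b) (hx : Hs T (cNI b) σ) : Hs T (cNI a) σ := by
  obtain ⟨x, h1, h2⟩ := hx
  exact ⟨x, h1, ga_ni_le h h2⟩

theorem ga_T_ni {Ω : Type} [TopologicalSpace Ω] (m : ℕ) {x : Ω} (hx : In (cT (m + 2)) x) :
    In (cNI 1) x := by
  rw [in_T] at hx
  rw [in_NI_succ]
  exact hx.1.2.mono (principal_mono.2 fun y _ => in_NI_zero y)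

/-- Without perfect points there are no points of the classes `T^m`, `m ≥ 3`. -/
theorem ga_noT (h : ¬ Hs T cPerf σ) (m : ℕ) : 3 ≤ m → ¬ Hs T (cT m) σ := by
  induction m using Nat.strong_induction_on with
  | _ m ih =>
    intro hm hh
    obtain ⟨j, rfl⟩ : ∃ j, m = j + 2 := ⟨m - 2, by omega⟩
    obtain ⟨x, hx, hT⟩ := hh
    rw [in_T] at hT
    obtain ⟨⟨h1, -⟩, -, h4⟩ := hT
    rcases (show j = 1 ∨ j = 2 ∨ 3 ≤ j by omega) with rfl | rfl | hj
    · exact h (hs_of_acc hx h1)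
    · refine h4 (subset_closure ?_)
      show In (cR (1 + 1)) x
      rw [in_R, in_NI_succ]
      exact ⟨h1.mono (principal_mono.2 fun y hy => ga_T_ni 0 hy),
        fun hc => h (hs_of_closure hx hc)⟩
    · exact ih j (by omega) hj (hs_of_acc hx h1)

theorem pc_spec {a : ℕ} {S : Tree} {P : Prop} (h : Spec a S P) : PC S := by
  induction a generalizing S P with
  | zero =>
    by_cases hP : P
    · rw [h.1 hP]; exact ga_pc_atom
    · rw [h.2 hP]; exact ga_pc_emp
  | succ a ih =>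
    obtain ⟨f, Q, rfl, hf, -⟩ := h
    exact pc_lim fun k => ih (hf k)

theorem pc_tok (m : ℕ) : PC (tok m) := by
  induction m using Nat.strong_induction_on with
  | _ m ih =>
    rw [tok]
    split_ifs with h0 h1
    · exact ga_pc_atom
    · exact ga_pc_perf
    · refine pc_lim fun n => ih _ ?_
      have := Nat.mod_lt n (show 0 < m - 1 by omega)
      omega

theorem tok_nil (m : ℕ) : tok m [] := by
  rw [tok]
  split_ifs
  · trivial
  · trivial
  · trivial

theorem ga_spec_atom : Spec 0 atom True := ⟨fun _ => rfl, fun h => absurd trivial h⟩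

theorem ga_inf_true : (True ↔ {_n : ℕ | True}.Infinite) := by
  simp only [Set.ofPred_true, true_iff]
  exact Set.infinite_univ

theorem spec_alpha2 : Spec 2 alpha2 True :=
  ⟨fun _ => lim fun _ => atom, fun _ => True, rfl,
    fun _ => ⟨fun _ => atom, fun _ => True, rfl, fun _ => ga_spec_atom, ga_inf_true⟩, ga_inf_true⟩

theorem ga_spec_main (hT : PC T) (a : ℕ) : ∀ {σ : List ℕ} {S : Tree} {P : Prop}, Spec a S P →
    Sub T σ S → ¬ Hs T cPerf σ ∧ (T σ → Hs T cAt σ) ∧ (Hs T (cNI a) σ ↔ P) ∧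
      ¬ Hs T (cNI (a + 1)) σ := by
  induction a with
  | zero =>
    intro σ S P h hs
    by_cases hP : P
    · rw [h.1 hP] at hs
      have hc : ∀ k A, ¬ Hs T A (σ ++ [k]) := fun k A => ga_no_emp (Sub.child hs k) A
      have hat : ∀ x : XT T, IsPt σ x → In cAt x := fun x hx => by
        rw [hx.at_iff hT]
        refine Set.Finite.subset Set.finite_empty fun k hk => ?_
        exact ga_not_mem (Sub.child hs k) hk
      obtain ⟨x, hx⟩ := exists_pt hT (Sub.root hs)
      refine ⟨fun hh => ?_, fun _ => ⟨x, hx.mem, hat x hx⟩,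
        ⟨fun _ => hP, fun _ => ⟨x, hx.mem, in_NI_zero x⟩⟩, fun hh => ?_⟩
      · rcases (hs_iff _).1 hh with ⟨y, hy, hp⟩ | ⟨k, hk⟩
        · exact (in_perf y).1 hp (subset_closure (hat y hy))
        · exact hc k _ hk
      · rcases (hs_iff _).1 hh with ⟨y, hy, hp⟩ | ⟨k, hk⟩
        · rw [in_NI_succ, hy.accIn] at hp
          obtain ⟨k, hk⟩ := hp.nonempty
          exact hc k _ hk
        · exact hc k _ hk
    · rw [h.2 hP] at hs
      exact ⟨ga_no_emp hs _, fun h' => absurd h' (ga_not_mem hs),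
        ⟨fun h' => absurd h' (ga_no_emp hs _), fun h' => absurd h' hP⟩, ga_no_emp hs _⟩
  | succ a ih =>
    intro σ S P h hs
    obtain ⟨f, Q, rfl, hf, hP⟩ := h
    have hc := fun k => ih (hf k) (Sub.child hs k)
    obtain ⟨x, hx⟩ := exists_pt hT (Sub.root hs)
    have hQ : {k | Hs T (cNI a) (σ ++ [k])} = {k | Q k} :=
      Set.ext fun k => (hc k).2.2.1
    refine ⟨fun hh => ?_, fun _ => ?_, ⟨fun hh => ?_, fun hp => ?_⟩, fun hh => ?_⟩
    · rcases (hs_iff _).1 hh with ⟨y, hy, hp⟩ | ⟨k, hk⟩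
      · rw [in_perf, hy.clIn, hy.at_iff hT, not_or] at hp
        exact hp.2 (Set.Infinite.mono (fun k hk => (hc k).2.1 hk) hp.1)
      · exact (hc k).1 hk
    · by_cases hfin : {k | T (σ ++ [k])}.Finite
      · exact ⟨x, hx.mem, (hx.at_iff hT).2 hfin⟩
      · obtain ⟨k, hk⟩ := Set.Infinite.nonempty hfin
        exact (hs_iff _).2 (Or.inr ⟨k, (hc k).2.1 hk⟩)
    · rcases (hs_iff _).1 hh with ⟨y, hy, hp⟩ | ⟨k, hk⟩
      · rw [in_NI_succ, hy.accIn, hQ] at hp
        exact hP.2 hp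
      · exact absurd hk (hc k).2.2.2
    · refine ⟨x, hx.mem, ?_⟩
      rw [in_NI_succ, hx.accIn, hQ]
      exact hP.1 hp
    · rcases (hs_iff _).1 hh with ⟨y, hy, hp⟩ | ⟨k, hk⟩
      · rw [in_NI_succ, hy.accIn] at hp
        obtain ⟨k, hk⟩ := hp.nonempty
        exact (hc k).2.2.2 hk
      · exact (hc k).2.2.2 (ga_hs_ni_le (by omega) hk)

theorem spec_table (hT : PC T) {a : ℕ} {S : Tree} {P : Prop} (h : Spec a S P) (hs : Sub T σ S) :
    ¬ Hs T cPerf σ ∧ (T σ → Hs T cAt σ) ∧ (Hs T (cNI a) σ ↔ P) ∧ ¬ Hs T (cNI (a + 1)) σ ∧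
      ∀ m, 3 ≤ m → ¬ Hs T (cT m) σ := by
  obtain ⟨h1, h2, h3, h4⟩ := ga_spec_main hT a h hs
  exact ⟨h1, h2, h3, h4, ga_noT h1⟩

theorem spec_R (hT : PC T) {a : ℕ} {S : Tree} {P : Prop} (h : Spec a S P) (hs : Sub T σ S) :
    (1 ≤ a → (Hs T (cR a) σ ↔ P)) ∧ (∀ b, a < b → ¬ Hs T (cR b) σ) ∧
      (∀ i, 3 ≤ i → ¬ Hs T (cTag i) σ) := by
  obtain ⟨h1, -, h3, h4, h5⟩ := spec_table hT h hs
  refine ⟨fun ha => ?_, fun b hb hh => ?_, fun i hi hh => ?_⟩
  · obtain ⟨j, rfl⟩ : ∃ j, a = j + 1 := ⟨a - 1, by omega⟩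
    rw [← h3]
    constructor
    · rintro ⟨x, hx, hr⟩
      exact ⟨x, hx, ((in_R x j).1 hr).1⟩
    · rintro ⟨x, hx, hr⟩
      exact ⟨x, hx, (in_R x j).2 ⟨hr, fun hc => h1 (hs_of_closure hx hc)⟩⟩
  · obtain ⟨j, rfl⟩ : ∃ j, b = j + 1 := ⟨b - 1, by omega⟩
    obtain ⟨x, hx, hr⟩ := hh
    exact h4 ⟨x, hx, ga_ni_le (by omega) ((in_R x j).1 hr).1⟩
  · obtain ⟨x, hx, hr⟩ := hh
    exact h5 i hi (hs_of_acc hx ((in_Tag x i).1 hr).1.2)

theorem ga_inf_mod {j k : ℕ} (h : k ≤ j) : {n : ℕ | n % (j + 1) = k}.Infinite := by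
  refine Set.infinite_of_injective_forall_mem (f := fun t => k + (j + 1) * t) ?_ ?_
  · intro s t hst
    exact Nat.eq_of_mul_eq_mul_left (Nat.succ_pos j) (Nat.add_left_cancel hst)
  · intro t
    show (k + (j + 1) * t) % (j + 1) = k
    rw [Nat.add_mul_mod_self_left, Nat.mod_eq_of_lt (by omega)]

theorem ga_tok_main (hT : PC T) (m : ℕ) : ∀ {σ : List ℕ}, Sub T σ (tok m) →
    (∀ k, Hs T (cT k) σ ↔ k = m ∨ k + 2 ≤ m) ∧ ∀ a, 2 ≤ a → ¬ Hs T (cR a) σ := by
  induction m using Nat.strong_induction_on with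
  | _ m ih =>
    intro σ hs
    rw [tok] at hs
    split_ifs at hs with h0 h1
    · subst h0
      obtain ⟨h1, h2, -, h4, -⟩ := spec_table hT ga_spec_atom hs
      refine ⟨fun k => ⟨fun hh => ?_, fun hk => ?_⟩,
        fun a ha => (spec_R hT ga_spec_atom hs).2.1 a (by omega)⟩
      · rcases (show k = 0 ∨ k = 1 ∨ ∃ j, k = j + 2 from by
          rcases k with _ | _ | k
          · exact Or.inl rfl
          · exact Or.inr (Or.inl rfl)
          · exact Or.inr (Or.inr ⟨k, rfl⟩)) with rfl | rfl | ⟨j, rfl⟩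
        · exact Or.inl rfl
        · exact absurd hh h1
        · obtain ⟨x, hx, hr⟩ := hh
          exact absurd ⟨x, hx, ga_T_ni j hr⟩ h4
      · obtain rfl : k = 0 := by omega
        exact h2 (Sub.root hs)
    · subst h1
      have hat := perf_not_at hT hs
      refine ⟨fun k => ⟨fun hh => ?_, fun hk => ?_⟩, fun a ha hh => ?_⟩
      · rcases (show k = 0 ∨ k = 1 ∨ ∃ j, k = j + 2 from by
          rcases k with _ | _ | k
          · exact Or.inl rfl
          · exact Or.inr (Or.inl rfl)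
          · exact Or.inr (Or.inr ⟨k, rfl⟩)) with rfl | rfl | ⟨j, rfl⟩
        · exact absurd hh hat
        · exact Or.inl rfl
        · obtain ⟨x, hx, hr⟩ := hh
          exact absurd (hs_of_acc hx ((in_T x j).1 hr).1.2) hat
      · obtain rfl : k = 1 := by omega
        have hσ : T σ := by
          have := (hs []).2 trivial
          rwa [List.append_nil] at this
        obtain ⟨x, hx⟩ := exists_pt hT hσ
        exact ⟨x, hx.mem, perf_in hT hs hx.mem⟩
      · obtain ⟨j, rfl⟩ : ∃ j, a = j + 1 := ⟨a - 1, by omega⟩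
        obtain ⟨x, hx, hr⟩ := hh
        exact ((in_R x j).1 hr).2 (subset_closure (perf_in hT hs hx))
    · obtain ⟨j, rfl⟩ : ∃ j, m = j + 2 := ⟨m - 2, by omega⟩
      have e : j + 2 - 1 = j + 1 := by omega
      rw [e] at hs
      have hlt : ∀ n, n % (j + 1) < j + 1 := fun n => Nat.mod_lt n (Nat.succ_pos j)
      have hc := fun n => ih (n % (j + 1)) (by have := hlt n; omega) (Sub.child hs n)
      have hinf : ∀ k, k ≤ j → {n | Hs T (cT k) (σ ++ [n])}.Infinite := fun k hk =>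
        (ga_inf_mod hk).mono fun n hn => ((hc n).1 k).2 (Or.inl (Eq.symm hn))
      have hle : ∀ k n, Hs T (cT k) (σ ++ [n]) → k ≤ j := fun k n hh => by
        have h1 := ((hc n).1 k).1 hh
        have h2 := hlt n
        omega
      have hR : ∀ a, 2 ≤ a → ¬ Hs T (cR a) σ := fun a ha hh => by
        rcases (hs_iff _).1 hh with ⟨y, hy, hp⟩ | ⟨n, hn⟩
        · obtain ⟨b, rfl⟩ : ∃ b, a = b + 1 := ⟨a - 1, by omega⟩
          rw [in_R] at hp
          rcases Nat.eq_zero_or_pos j with rfl | hj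
          · have h2 : In (cNI (1 + 1)) y := ga_ni_le (by omega) hp.1
            rw [in_NI_succ, hy.accIn] at h2
            obtain ⟨n, hn⟩ := h2.nonempty
            have h3 := Sub.child hs n
            have e0 : n % (0 + 1) = 0 := Nat.mod_one n
            rw [e0, tok, if_pos rfl] at h3
            exact (spec_table hT ga_spec_atom h3).2.2.2.1 hn
          · exact hp.2 ((hy.clIn _).2 (Or.inr (hinf 1 hj)))
        · exact (hc n).2 a ha hn
      have hno : ∀ y : XT T, IsPt σ y → ¬ In (cT (j + 1)) y := fun y hy hp => by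
        rcases j with _ | i
        · exact (in_perf y).1 hp ((hy.clIn _).2 (Or.inr (hinf 0 le_rfl)))
        · exact ((in_T y i).1 hp).2.1 ((hy.clIn _).2 (Or.inr (hinf _ le_rfl)))
      refine ⟨fun k => ⟨fun hh => ?_, fun hk => ?_⟩, hR⟩
      · rcases (hs_iff _).1 hh with ⟨y, hy, hp⟩ | ⟨n, hn⟩
        · by_contra hcon
          rcases (show k = j + 1 ∨ j + 3 ≤ k by omega) with rfl | hk
          · exact hno y hy hp
          · obtain ⟨i, rfl⟩ : ∃ i, k = i + 2 := ⟨k - 2, by omega⟩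
            have h2 := ((in_T y i).1 hp).1.1
            rw [hy.accIn] at h2
            obtain ⟨n, hn⟩ := h2.nonempty
            have := hle i n hn
            omega
        · have := hle k n hn
          omega
      · rcases hk with rfl | hk
        · obtain ⟨x, hx⟩ := exists_pt hT (Sub.root hs)
          refine ⟨x, hx.mem, (in_T x j).2 ⟨⟨(hx.accIn _).2 (hinf j le_rfl),
            (hx.accIn _).2 (hinf 0 (Nat.zero_le j))⟩, fun hcl => ?_,
            fun hcl => hR 2 le_rfl (hs_of_closure hx.mem hcl)⟩⟩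
          rcases (hx.clIn _).1 hcl with h2 | h2
          · exact hno x hx h2
          · obtain ⟨n, hn⟩ := h2.nonempty
            have := hle _ n hn
            omega
        · obtain ⟨n, hn⟩ := (hinf k (by omega)).nonempty
          exact (hs_iff _).2 (Or.inr ⟨n, hn⟩)

theorem tok_table (hT : PC T) {m : ℕ} (hs : Sub T σ (tok m)) :
    (∀ k, Hs T (cT k) σ ↔ k = m ∨ k + 2 ≤ m) ∧ (∀ a, 2 ≤ a → ¬ Hs T (cR a) σ) ∧
      ∀ i, ¬ Hs T (cTag i) σ := by
  obtain ⟨h1, h2⟩ := ga_tok_main hT m hs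
  refine ⟨h1, h2, fun i hh => ?_⟩
  obtain ⟨x, hx, hr⟩ := hh
  exact h2 2 le_rfl (hs_of_acc hx ((in_Tag x i).1 hr).1.1)

end Pool.Agent.P.MP_9f8894_lc
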