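import Mathlib
import Pool.Agent.P.MP_9f8894_lc.GadA

/-! Package GadB: classes in tags and tops. -/

set_option autoImplicit false
open Encodable Denumerable Filter TopologicalSpace
open scoped Classical

namespace Pool.Agent.P.MP_9f8894_lc

variable {T : Tree} {σ : List ℕ}

theorem pc_tag (i : ℕ) : PC (tag i) := by
  refine pc_lim fun n => ?_
  split_ifs
  · exact pc_spec spec_alpha2
  · exact pc_tok _

theorem pc_top (c L : ℕ) {f : ℕ → Tree} (h : ∀ k, PC (f k)) : PC (top c L f) := by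
  refine pc_lim fun n => ?_
  split_ifs
  · exact pc_tag _
  · exact pc_tok _
  · exact h _

/-- Without tags there are no tops. -/
theorem no_top_of_no_tag {c L : ℕ} (h : ¬ Hs T (cTag (c + 3)) σ) : ¬ Hs T (cTop c L) σ := by
  rintro ⟨x, hx, hin⟩
  exact h (hs_of_acc hx ((in_Top x c L).1 hin).1.1)

theorem gb_no_acc {c L : ℕ} (h : ¬ Hs T (cTop c L) σ) : ¬ Hs T (cAcc c L) σ := by
  rintro ⟨x, hx, hin⟩
  exact h (hs_of_acc hx ((in_Acc x c L).1 hin))

theorem gb_child {A : Cl} {k : ℕ} (h : Hs T A (σ ++ [k])) : Hs T A σ :=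
  h.mono (List.prefix_append _ _)

theorem gb_inf {S : Set ℕ} (a b : ℕ) (hb : 0 < b) (h : ∀ j, a + b * j ∈ S) : S.Infinite := by
  refine Set.infinite_of_injective_forall_mem (f := fun j : ℕ => a + b * j) ?_ h
  intro j k hjk
  have : b * j = b * k := by simpa using hjk
  exact Nat.eq_of_mul_eq_mul_left hb this

theorem gb_root {A : Cl} {x : XT T} (hx : IsPt σ x) (h : ∀ k, ¬ Hs T A (σ ++ [k])) :
    Hs T A σ ↔ In A x := by
  rw [hs_iff]
  constructor
  · rintro (⟨y, hy, hin⟩ | ⟨k, hk⟩)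
    · rwa [hx.unique hy]
    · exact (h k hk).elim
  · intro hin
    exact Or.inl ⟨x, hx, hin⟩

theorem gb_not_acc {A : Cl} {x : XT T} (hx : IsPt σ x) (h : ∀ k, ¬ Hs T A (σ ++ [k])) :
    ¬ AccPt x (𝓟 {y | In A y}) := by
  rw [hx.accIn]
  intro hinf
  obtain ⟨k, hk⟩ := hinf.nonempty
  exact h k hk

theorem gb_not_T {x : XT T} (hx : IsPt σ x) (h : {k | Hs T (cR 2) (σ ++ [k])}.Infinite)
    {m : ℕ} (hm : 2 ≤ m) : ¬ In (cT m) x := by
  obtain ⟨m, rfl⟩ : ∃ m', m = m' + 2 := ⟨m - 2, by omega⟩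
  rw [in_T]
  rintro ⟨-, -, h2⟩
  exact h2 ((hx.clIn _).2 (Or.inr h))

theorem gb_not_R {x : XT T} (hx : IsPt σ x) (h : {k | Hs T cPerf (σ ++ [k])}.Infinite)
    {a : ℕ} (ha : 1 ≤ a) : ¬ In (cR a) x := by
  obtain ⟨a, rfl⟩ : ∃ a', a = a' + 1 := ⟨a - 1, by omega⟩
  rw [in_R]
  rintro ⟨-, h2⟩
  exact h2 ((hx.clIn _).2 (Or.inr h))

theorem gb_tag_even {i : ℕ} (hs : Sub T σ (tag i)) {n : ℕ} (hn : n % 2 = 0) :
    Sub T (σ ++ [n]) alpha2 := by
  have := Sub.child (f := fun n => if n % 2 = 0 then alpha2 else tok (n / 2 % (i + 1))) hs n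
  simpa only [if_pos hn] using this

theorem gb_tag_odd {i : ℕ} (hs : Sub T σ (tag i)) {n : ℕ} (hn : ¬ n % 2 = 0) :
    Sub T (σ ++ [n]) (tok (n / 2 % (i + 1))) := by
  have := Sub.child (f := fun n => if n % 2 = 0 then alpha2 else tok (n / 2 % (i + 1))) hs n
  simpa only [if_neg hn] using this

theorem gb_tag_T (hT : PC T) {i : ℕ} (hs : Sub T σ (tag i)) {k : ℕ} (hk : k ≤ i) :
    {n | Hs T (cT k) (σ ++ [n])}.Infinite := by
  refine gb_inf (2 * k + 1) (2 * (i + 1)) (by omega) fun j => ?_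
  have e : 2 * k + 1 + 2 * (i + 1) * j = 2 * (k + (i + 1) * j) + 1 := by ring
  have h1 : ¬ (2 * k + 1 + 2 * (i + 1) * j) % 2 = 0 := by rw [e]; omega
  have h2 : (2 * k + 1 + 2 * (i + 1) * j) / 2 % (i + 1) = k := by
    have : (2 * k + 1 + 2 * (i + 1) * j) / 2 = k + (i + 1) * j := by rw [e]; omega
    rw [this, Nat.add_mul_mod_self_left, Nat.mod_eq_of_lt (by omega)]
  have h3 := gb_tag_odd hs h1
  rw [h2] at h3
  exact ((tok_table hT h3).1 k).2 (Or.inl rfl)

theorem gb_tag_R (hT : PC T) {i : ℕ} (hs : Sub T σ (tag i)) :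
    {n | Hs T (cR 2) (σ ++ [n])}.Infinite := by
  refine gb_inf 0 2 (by omega) fun j => ?_
  have h3 := gb_tag_even hs (n := 0 + 2 * j) (by omega)
  exact ((spec_R hT spec_alpha2 h3).1 (by omega)).2 trivial

theorem tag_table (hT : PC T) {i : ℕ} (hi : 3 ≤ i) (hs : Sub T σ (tag i)) :
    (∀ k, 3 ≤ k → (Hs T (cT k) σ ↔ k ≤ i)) ∧ Hs T (cR 2) σ ∧ Hs T cPerf σ ∧
      (∀ a, 3 ≤ a → ¬ Hs T (cR a) σ) ∧ (∀ i', 3 ≤ i' → (Hs T (cTag i') σ ↔ i' = i)) ∧
      ∀ c L, ¬ Hs T (cTop c L) σ := by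
  obtain ⟨x, hx⟩ := exists_pt hT (Sub.root
    (f := fun n => if n % 2 = 0 then alpha2 else tok (n / 2 % (i + 1))) hs)
  have hR := gb_tag_R hT hs
  have hP : {n | Hs T cPerf (σ ++ [n])}.Infinite := gb_tag_T hT hs (k := 1) (by omega)
  have h1 : ∀ k, 3 ≤ k → (Hs T (cT k) σ ↔ k ≤ i) := by
    intro k hk
    constructor
    · intro h
      rcases (hs_iff _).1 h with ⟨y, hy, hin⟩ | ⟨n, hn⟩
      · exact (gb_not_T hy hR (by omega) hin).elim
      · by_cases h2 : n % 2 = 0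
        · exact ((spec_table hT spec_alpha2 (gb_tag_even hs h2)).2.2.2.2 k hk hn).elim
        · have h3 := ((tok_table hT (gb_tag_odd hs h2)).1 k).1 hn
          have h4 := Nat.mod_lt (n / 2) (show 0 < i + 1 by omega)
          omega
    · intro h
      obtain ⟨n, hn⟩ := (gb_tag_T hT hs h).nonempty
      exact gb_child hn
  have hnt : ∀ i', 3 ≤ i' → ∀ n, ¬ Hs T (cTag i') (σ ++ [n]) := by
    intro i' hi' n
    by_cases h2 : n % 2 = 0
    · exact (spec_R hT spec_alpha2 (gb_tag_even hs h2)).2.2 i' hi'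
    · exact (tok_table hT (gb_tag_odd hs h2)).2.2 i'
  refine ⟨h1, ?_, ?_, ?_, ?_, ?_⟩
  · obtain ⟨n, hn⟩ := hR.nonempty
    exact gb_child hn
  · obtain ⟨n, hn⟩ := hP.nonempty
    exact gb_child hn
  · intro a ha h
    rcases (hs_iff _).1 h with ⟨y, hy, hin⟩ | ⟨n, hn⟩
    · exact gb_not_R hy hP (by omega) hin
    · by_cases h2 : n % 2 = 0
      · exact (spec_R hT spec_alpha2 (gb_tag_even hs h2)).2.1 a (by omega) hn
      · exact (tok_table hT (gb_tag_odd hs h2)).2.1 a (by omega) hn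
  · intro i' hi'
    rw [gb_root hx (hnt i' hi'), in_Tag]
    constructor
    · rintro ⟨⟨-, h2⟩, h3⟩
      have h4 := (h1 i' hi').1 (hs_of_acc hx.mem h2)
      by_contra hne
      exact h3 ((hx.clIn _).2 (Or.inr (gb_tag_T hT hs (by omega))))
    · rintro rfl
      refine ⟨⟨(hx.accIn _).2 hR, (hx.accIn _).2 (gb_tag_T hT hs le_rfl)⟩, fun h => ?_⟩
      have := (h1 (i' + 1) (by omega)).1 (hs_of_closure hx.mem h)
      omega
  · intro c L
    rw [gb_root hx fun n => no_top_of_no_tag (hnt (c + 3) (by omega) n), in_Top]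
    rintro ⟨⟨h2, -⟩, -⟩
    exact gb_not_acc hx (hnt (c + 3) (by omega)) h2

theorem gb_top_zero {c L : ℕ} {f : ℕ → Tree} (hs : Sub T σ (top c L f)) {n : ℕ}
    (hn : n % 3 = 0) : Sub T (σ ++ [n]) (tag (c + 3)) := by
  have := Sub.child (f := fun n => if n % 3 = 0 then tag (c + 3)
    else if n % 3 = 1 then tok (n / 3 % (L - 5)) else f (n / 3)) hs n
  simpa only [if_pos hn] using this

theorem gb_top_one {c L : ℕ} {f : ℕ → Tree} (hs : Sub T σ (top c L f)) {n : ℕ}
    (hn : n % 3 = 1) : Sub T (σ ++ [n]) (tok (n / 3 % (L - 5))) := by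
  have := Sub.child (f := fun n => if n % 3 = 0 then tag (c + 3)
    else if n % 3 = 1 then tok (n / 3 % (L - 5)) else f (n / 3)) hs n
  have h0 : ¬ n % 3 = 0 := by omega
  simpa only [if_neg h0, if_pos hn] using this

theorem gb_top_two {c L : ℕ} {f : ℕ → Tree} (hs : Sub T σ (top c L f)) {n : ℕ}
    (hn : n % 3 = 2) : Sub T (σ ++ [n]) (f (n / 3)) := by
  have := Sub.child (f := fun n => if n % 3 = 0 then tag (c + 3)
    else if n % 3 = 1 then tok (n / 3 % (L - 5)) else f (n / 3)) hs n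
  have h0 : ¬ n % 3 = 0 := by omega
  have h1 : ¬ n % 3 = 1 := by omega
  simpa only [if_neg h0, if_neg h1] using this

theorem top_table (hT : PC T) {c L : ℕ} {f : ℕ → Tree} {P : Prop} (hc : c ≤ 4) (hL : 16 ≤ L)
    (hf : Spec (L / 2) (lim f) (par L P)) (hs : Sub T σ (top c L f)) {c' L' : ℕ}
    (hc' : c' ≤ 4) (hL' : 16 ≤ L') :
    (Hs T (cTop c' L') σ ↔ c' = c ∧ L' = L ∧ P) ∧ ¬ Hs T (cAcc c' L') σ := by
  obtain ⟨a, ha⟩ : ∃ a, L / 2 = a + 1 := ⟨L / 2 - 1, by omega⟩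
  have ha7 : 7 ≤ a := by omega
  rw [ha] at hf
  obtain ⟨f', Q, hff, hQ, hPQ⟩ := hf
  have hfe : f = f' := by
    funext k τ
    exact congrFun hff (k :: τ)
  subst hfe
  obtain ⟨x, hx⟩ := exists_pt hT (Sub.root (f := fun n => if n % 3 = 0 then tag (c + 3)
    else if n % 3 = 1 then tok (n / 3 % (L - 5)) else f (n / 3)) hs)
  have hc3 : 3 ≤ c + 3 := by omega
  have t0 := fun (n : ℕ) (hn : n % 3 = 0) => tag_table hT hc3 (gb_top_zero hs hn)
  have t1 := fun (n : ℕ) (hn : n % 3 = 1) => tok_table hT (gb_top_one hs hn)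
  have t2 := fun (n : ℕ) (hn : n % 3 = 2) => spec_table hT (hQ (n / 3)) (gb_top_two hs hn)
  have t3 := fun (n : ℕ) (hn : n % 3 = 2) => spec_R hT (hQ (n / 3)) (gb_top_two hs hn)
  have tri : ∀ n : ℕ, n % 3 = 0 ∨ n % 3 = 1 ∨ n % 3 = 2 := fun n => by omega
  have hnt : ∀ n, ¬ Hs T (cTop c' L') (σ ++ [n]) := by
    intro n
    rcases tri n with h | h | h
    · exact (t0 n h).2.2.2.2.2 c' L'
    · exact no_top_of_no_tag ((t1 n h).2.2 _)
    · exact no_top_of_no_tag ((t3 n h).2.2 _ (by omega))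
  have hR2 : {n | Hs T (cR 2) (σ ++ [n])}.Infinite :=
    gb_inf 0 3 (by omega) fun j => (t0 (0 + 3 * j) (by omega)).2.1
  have hPf : {n | Hs T cPerf (σ ++ [n])}.Infinite :=
    gb_inf 0 3 (by omega) fun j => (t0 (0 + 3 * j) (by omega)).2.2.1
  have hTag : AccPt x (𝓟 {y | In (cTag (c' + 3)) y}) ↔ c' = c := by
    constructor
    · intro h
      obtain ⟨n, hn⟩ := ((hx.accIn _).1 h).nonempty
      rcases tri n with h | h | h
      · have := ((t0 n h).2.2.2.2.1 (c' + 3) (by omega)).1 hn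
        omega
      · exact ((t1 n h).2.2 _ hn).elim
      · exact ((t3 n h).2.2 _ (by omega) hn).elim
    · intro h
      refine (hx.accIn _).2 (gb_inf 0 3 (by omega) fun j => ?_)
      exact ((t0 (0 + 3 * j) (by omega)).2.2.2.2.1 (c' + 3) (by omega)).2 (by omega)
  have hTk : ∀ k, 10 ≤ k → ({n | Hs T (cT k) (σ ++ [n])}.Infinite ↔ k + 6 ≤ L) := by
    intro k hk
    constructor
    · intro h
      obtain ⟨n, hn⟩ := h.nonempty
      rcases tri n with h | h | h
      · have := ((t0 n h).1 k (by omega)).1 hn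
        omega
      · have h3 := ((t1 n h).1 k).1 hn
        have h4 := Nat.mod_lt (n / 3) (show 0 < L - 5 by omega)
        omega
      · exact ((t2 n h).2.2.2.2 k (by omega) hn).elim
    · intro h
      refine gb_inf (3 * k + 1) (3 * (L - 5)) (by omega) fun j => ?_
      have e : 3 * k + 1 + 3 * (L - 5) * j = 3 * (k + (L - 5) * j) + 1 := by ring
      have h1 : (3 * k + 1 + 3 * (L - 5) * j) % 3 = 1 := by rw [e]; omega
      have h2 : (3 * k + 1 + 3 * (L - 5) * j) / 3 % (L - 5) = k := by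
        have : (3 * k + 1 + 3 * (L - 5) * j) / 3 = k + (L - 5) * j := by rw [e]; omega
        rw [this, Nat.add_mul_mod_self_left, Nat.mod_eq_of_lt (by omega)]
      exact ((t1 _ h1).1 k).2 (Or.inl h2.symm)
  have hRa : {n | Hs T (cR a) (σ ++ [n])}.Infinite ↔ par L P := by
    rw [hPQ]
    constructor
    · intro h
      by_contra hfin
      apply h
      have hfin' : {n | Q n}.Finite := Set.not_infinite.1 hfin
      refine (hfin'.image fun n => 3 * n + 2).subset fun n hn => ?_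
      rcases tri n with h | h | h
      · exact ((t0 n h).2.2.2.1 a (by omega) hn).elim
      · exact ((t1 n h).2.1 a (by omega) hn).elim
      · exact ⟨n / 3, ((t3 n h).1 (by omega)).1 hn, by simp only; omega⟩
    · intro h
      have hinj : Function.Injective fun n : ℕ => 3 * n + 2 := by
        intro u v huv
        simp only at huv
        omega
      refine (h.image hinj.injOn).mono ?_
      rintro _ ⟨n, hn, rfl⟩
      have e : (3 * n + 2) / 3 = n := by omega
      refine ((t3 (3 * n + 2) (by omega)).1 (by omega)).2 ?_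
      rw [e]
      exact hn
  refine ⟨?_, ?_⟩
  · rw [gb_root hx hnt, in_Top, hTag, hx.accIn, hx.clIn, hTk _ (by omega), hTk _ (by omega)]
    have hnT : ¬ In (cT (L' - 5)) x := gb_not_T hx hR2 (by omega)
    have hnR : ¬ In (cR a) x := gb_not_R hx hPf (by omega)
    have e : L / 2 - 1 = a := by omega
    have key : (if L % 2 = 1 then AccPt x (𝓟 {y | In (cR (L / 2 - 1)) y})
        else x ∉ closure {y | In (cR (L / 2 - 1)) y}) ↔ P := by
      rw [e, hx.accIn, hx.clIn, hRa]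
      unfold par
      by_cases h : L % 2 = 1
      · simp only [if_pos h]
      · simp only [if_neg h, hnR, false_or, not_not]
    constructor
    · rintro ⟨⟨h1, h2⟩, h3, h4⟩
      have h5 : L' = L := by
        have : ¬ (L' - 5 + 6 ≤ L) := fun h => h3 (Or.inr h)
        omega
      subst h5
      exact ⟨h1, rfl, key.1 h4⟩
    · rintro ⟨h1, h5, h4⟩
      subst h5
      refine ⟨⟨h1, by omega⟩, ?_, key.2 h4⟩
      rintro (h | h)
      · exact hnT h
      · omega
  · rw [gb_root hx fun n => gb_no_acc (hnt n), in_Acc]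
    exact gb_not_acc hx hnt

theorem tok_top (hT : PC T) {m : ℕ} (hs : Sub T σ (tok m)) (c L : ℕ) :
    ¬ Hs T (cTop c L) σ ∧ ¬ Hs T (cAcc c L) σ := by
  have h := no_top_of_no_tag (L := L) ((tok_table hT hs).2.2 (c + 3))
  exact ⟨h, gb_no_acc h⟩

end Pool.Agent.P.MP_9f8894_lc
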