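import Mathlib
import Pool.Agent.P.MP_9f8894_lc.Defs

/-! Package HasSem: the meaning of the formulas for a correct index. -/

set_option autoImplicit false
open Encodable Denumerable Filter TopologicalSpace
open scoped Classical

namespace Pool.Agent.P.MP_9f8894_lc

variable {Ω : Type} [TopologicalSpace Ω] {f : ℕ ≃ Clopens Ω} {e : ℕ}

theorem GoodIdx.hsem_val (h : GoodIdx f e) {x y s v : ℕ} (hv : mev e x y s = some v) :
    v = f.symm (f x ⊓ f y) := by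
  have h1 := Nat.Partrec.Code.evaln_sound (Option.mem_def.2 hv)
  rw [h.1 x y] at h1
  exact Part.mem_some_iff.1 h1

theorem GoodIdx.hsem_ex (h : GoodIdx f e) (x y : ℕ) :
    ∃ s, mev e x y s = some (f.symm (f x ⊓ f y)) := by
  have h1 : f.symm (f x ⊓ f y) ∈ (ofNat Nat.Partrec.Code e.unpair.1).eval (Nat.pair x y) := by
    rw [h.1 x y]
    exact Part.mem_some _
  obtain ⟨s, hs⟩ := Nat.Partrec.Code.evaln_complete.1 h1
  exact ⟨s, Option.mem_def.1 hs⟩

theorem GoodIdx.hsem_S (h : GoodIdx f e) (x y v : ℕ) :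
    (∃ s, mev e x y s = some v) ↔ f x ⊓ f y = f v := by
  constructor
  · rintro ⟨s, hs⟩
    rw [h.hsem_val hs, Equiv.apply_symm_apply]
  · intro h1
    obtain ⟨s, hs⟩ := h.hsem_ex x y
    rw [h1, Equiv.symm_apply_apply] at hs
    exact ⟨s, hs⟩

theorem GoodIdx.hsem_P (h : GoodIdx f e) (x y u : ℕ) :
    (∀ s v, mev e x y s = some v → v = u) ↔ f x ⊓ f y = f u := by
  constructor
  · intro h1
    obtain ⟨s, hs⟩ := h.hsem_ex x y
    rw [← h1 s _ hs, Equiv.apply_symm_apply]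
  · intro h1 s v hs
    rw [h.hsem_val hs, h1, Equiv.symm_apply_apply]

theorem GoodIdx.leS_iff (h : GoodIdx f e) (x y : ℕ) : leS e x y ↔ f x ≤ f y := by
  rw [leS, h.hsem_S, inf_eq_left]

theorem GoodIdx.leP_iff (h : GoodIdx f e) (x y : ℕ) : leP e x y ↔ f x ≤ f y := by
  rw [leP, h.hsem_P, inf_eq_left]

theorem GoodIdx.djS_iff (h : GoodIdx f e) (x y : ℕ) : djS e x y ↔ Disjoint (f x) (f y) := by
  rw [djS, h.hsem_S, h.2, disjoint_iff]

theorem GoodIdx.djP_iff (h : GoodIdx f e) (x y : ℕ) : djP e x y ↔ Disjoint (f x) (f y) := by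
  rw [djP, h.hsem_P, h.2, disjoint_iff]

theorem hsem_le_iff {U V : Clopens Ω} : U ≤ V ↔ ∀ x ∈ U, x ∈ V := Iff.rfl

theorem hsem_bot_iff {U : Clopens Ω} : U = ⊥ ↔ ∀ x, x ∉ U := by
  constructor
  · rintro rfl x hx
    exact hx
  · intro h
    exact SetLike.ext fun x => ⟨fun hx => h x hx, fun hx => hx.elim⟩

theorem hsem_disjoint_iff {U V : Clopens Ω} : Disjoint U V ↔ ∀ x ∈ U, x ∉ V := by
  rw [disjoint_iff, hsem_bot_iff]
  exact ⟨fun h x h1 h2 => h x ⟨h1, h2⟩, fun h x hx => h x hx.1 hx.2⟩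

theorem GoodIdx.hsem_bot (h : GoodIdx f e) (y : ℕ) : y = e.unpair.2 ↔ ∀ x, x ∉ f y := by
  rw [← hsem_bot_iff, ← h.2, f.injective.eq_iff]

theorem GoodIdx.hsem_cov (h : GoodIdx f e) (z : ℕ) (l : List ℕ) :
    covP e z l ↔ (∀ w ∈ l, f w ≤ f z) ∧ ∀ x ∈ f z, ∃ w ∈ l, x ∈ f w := by
  unfold covP
  refine and_congr (forall₂_congr fun w _ => h.leP_iff w z) ?_
  constructor
  · intro h1 x hx
    by_contra hn
    have hc : IsClopen (⋃ w ∈ {w | w ∈ l}, (f w : Set Ω)) :=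
      (List.finite_toSet l).isClopen_biUnion fun w _ => (f w).isClopen
    let V : Clopens Ω := ⟨(f z : Set Ω) ∩ (⋃ w ∈ {w | w ∈ l}, (f w : Set Ω))ᶜ,
      (f z).isClopen.inter hc.compl⟩
    have h2 := h1 (f.symm V) (by
      rw [h.leS_iff, Equiv.apply_symm_apply]
      exact fun u hu => hu.1) (fun w hw => by
      rw [h.djS_iff, Equiv.apply_symm_apply, hsem_disjoint_iff]
      intro u hu hw'
      exact hu.2 (Set.mem_biUnion (s := {w | w ∈ l}) hw hw'))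
    rw [h.hsem_bot, Equiv.apply_symm_apply] at h2
    refine h2 x ⟨hx, fun hx' => hn ?_⟩
    obtain ⟨w, hw, hxw⟩ := Set.mem_iUnion₂.1 hx'
    exact ⟨w, hw, hxw⟩
  · intro h1 v hv hd
    rw [h.hsem_bot]
    intro x hx
    obtain ⟨w, hw, hxw⟩ := h1 x ((h.leS_iff v z).1 hv hx)
    exact hsem_disjoint_iff.1 ((h.djS_iff v w).1 (hd w hw)) x hx hxw

theorem hsem_nhds [CompactSpace Ω] [T2Space Ω] [TotallyDisconnectedSpace Ω] {x : Ω} {U : Set Ω}
    (hU : U ∈ nhds x) : ∃ V : Clopens Ω, x ∈ V ∧ ∀ u ∈ V, u ∈ U := by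
  obtain ⟨V, hV, hx, hs⟩ := isTopologicalBasis_isClopen.mem_nhds_iff.1 hU
  exact ⟨⟨V, hV⟩, hx, hs⟩

theorem GoodIdx.hsem_one [CompactSpace Ω] [T2Space Ω] [TotallyDisconnectedSpace Ω]
    (h : GoodIdx f e) (P : ℕ → Prop) (S : Ω → Prop) (hP : ∀ y, P y ↔ ∀ x ∈ f y, ¬ S x) (w : ℕ) :
    (∀ w₁ w₂, leS e w₁ w → leS e w₂ w → djS e w₁ w₂ → P w₁ ∨ P w₂) ↔
      ∀ a ∈ f w, ∀ b ∈ f w, S a → S b → a = b := by
  constructor
  · intro h1 a ha b hb hsa hsb
    by_contra hab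
    obtain ⟨V, haV, hV⟩ := hsem_nhds (compl_singleton_mem_nhds hab)
    have h2 := h1 (f.symm (f w ⊓ V)) (f.symm (f w ⊓ Vᶜ))
      (by rw [h.leS_iff, Equiv.apply_symm_apply]; exact inf_le_left)
      (by rw [h.leS_iff, Equiv.apply_symm_apply]; exact inf_le_left)
      (by
        rw [h.djS_iff, Equiv.apply_symm_apply, Equiv.apply_symm_apply, hsem_disjoint_iff]
        exact fun u hu hu' => hu'.2 hu.2)
    rw [hP, hP, Equiv.apply_symm_apply, Equiv.apply_symm_apply] at h2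
    rcases h2 with h2 | h2
    · exact h2 a ⟨ha, haV⟩ hsa
    · exact h2 b ⟨hb, fun hbV => hV b hbV rfl⟩ hsb
  · intro h1 w₁ w₂ h2 h3 h4
    rw [h.leS_iff] at h2 h3
    rw [h.djS_iff, hsem_disjoint_iff] at h4
    rw [hP, hP]
    by_contra hn
    simp only [not_or, not_forall, not_not] at hn
    obtain ⟨⟨a, ha, hsa⟩, b, hb, hsb⟩ := hn
    have h5 := h1 a (h2 ha) b (h3 hb) hsa hsb
    exact h4 a ha (h5 ▸ hb)

theorem GoodIdx.hsem_atom [CompactSpace Ω] [T2Space Ω] [TotallyDisconnectedSpace Ω]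
    (h : GoodIdx f e) (y : ℕ) :
    (∀ z, leS e z y → z = e.unpair.2 ∨ ∃ w, leS e w z ∧ w ≠ e.unpair.2 ∧ w ≠ z) ↔
      ∀ x ∈ f y, ¬ IsOpen ({x} : Set Ω) := by
  constructor
  · intro h1 x hx ho
    let V : Clopens Ω := ⟨{x}, isClosed_singleton, ho⟩
    have hV : ∀ u, u ∈ V ↔ u = x := fun u => Iff.rfl
    rcases h1 (f.symm V) (by
      rw [h.leS_iff, Equiv.apply_symm_apply]
      intro u hu
      rw [(hV u).1 hu]
      exact hx) with h2 | ⟨w, h2, h3, h4⟩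
    · rw [h.hsem_bot, Equiv.apply_symm_apply] at h2
      exact h2 x ((hV x).2 rfl)
    · rw [h.leS_iff, Equiv.apply_symm_apply] at h2
      rw [Ne, h.hsem_bot] at h3
      simp only [not_forall, not_not] at h3
      obtain ⟨u, hu⟩ := h3
      apply h4
      rw [Equiv.eq_symm_apply]
      refine le_antisymm h2 fun u' hu' => ?_
      rw [(hV u').1 hu', ← (hV u).1 (h2 hu)]
      exact hu
  · intro h1 z hz
    rw [h.leS_iff] at hz
    by_cases hb : z = e.unpair.2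
    · exact Or.inl hb
    refine Or.inr ?_
    rw [h.hsem_bot] at hb
    simp only [not_forall, not_not] at hb
    obtain ⟨x, hx⟩ := hb
    have h2 : ∃ x' ∈ f z, x ≠ x' := by
      by_contra hn
      apply h1 x (hz hx)
      have h3 : (f z : Set Ω) = {x} := by
        refine Set.eq_singleton_iff_unique_mem.2 ⟨hx, fun u hu => ?_⟩
        by_contra h4
        exact hn ⟨u, hu, fun h5 => h4 h5.symm⟩
      rw [← h3]
      exact (f z).isOpen
    obtain ⟨x', hx', hne⟩ := h2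
    obtain ⟨V, hxV, hV⟩ := hsem_nhds (compl_singleton_mem_nhds hne)
    refine ⟨f.symm (f z ⊓ V), ?_, ?_, ?_⟩
    · rw [h.leS_iff, Equiv.apply_symm_apply]
      exact inf_le_left
    · rw [Ne, h.hsem_bot, Equiv.apply_symm_apply]
      exact fun h3 => h3 x ⟨hx, hxV⟩
    · rw [Ne, Equiv.symm_apply_eq]
      intro h3
      rw [← h3] at hx'
      exact hV x' hx'.2 rfl

theorem GoodIdx.hsem_step [CompactSpace Ω] [T2Space Ω] [TotallyDisconnectedSpace Ω]
    (h : GoodIdx f e) (lp ln : List Cl) (P : Cl → ℕ → Prop) (S : Cl → Ω → Prop)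
    (hp : ∀ B ∈ lp, ∀ y, P B y ↔ ∀ x ∈ f y, ¬ S B x)
    (hn : ∀ B ∈ ln, ∀ y, P B y ↔ ∀ x ∈ f y, ¬ S B x) (y : ℕ) :
    (∀ z, leS e z y → (∀ B (_ : B ∈ ln), P B z) →
      ∃ l : List ℕ, covP e z l ∧ ∀ w ∈ l, ∃ B, ∃ (_ : B ∈ lp),
        ∀ w₁ w₂, leS e w₁ w → leS e w₂ w → djS e w₁ w₂ → P B w₁ ∨ P B w₂) ↔
      ∀ x ∈ f y, ¬ ((∀ B (_ : B ∈ lp), AccPt x (𝓟 {y | S B y})) ∧
        ∀ B (_ : B ∈ ln), x ∉ closure {y | S B y}) := by
  constructor
  · rintro h1 x hx ⟨ha, hc⟩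
    have h2 : (⋂ B ∈ {B | B ∈ ln}, (closure {y | S B y})ᶜ) ∈ nhds x :=
      (Filter.biInter_mem (List.finite_toSet ln)).2 fun B hB =>
        isClosed_closure.isOpen_compl.mem_nhds (hc B hB)
    obtain ⟨V, hxV, hV⟩ := hsem_nhds h2
    obtain ⟨l, hl, hl'⟩ := h1 (f.symm (f y ⊓ V))
      (by rw [h.leS_iff, Equiv.apply_symm_apply]; exact inf_le_left) (fun B hB => by
        rw [hn B hB, Equiv.apply_symm_apply]
        intro u hu hS
        exact Set.mem_iInter₂.1 (hV u hu.2) B hB (subset_closure hS))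
    rw [h.hsem_cov, Equiv.apply_symm_apply] at hl
    obtain ⟨w, hw, hxw⟩ := hl.2 x ⟨hx, hxV⟩
    obtain ⟨B, hB, h3⟩ := hl' w hw
    rw [h.hsem_one (P B) (S B) (hp B hB)] at h3
    have h4 := accPt_iff_nhds.1 (ha B hB)
    have h5 : (f w : Set Ω) ∈ nhds x := (f w).isOpen.mem_nhds hxw
    obtain ⟨a, ha1, ha2⟩ := h4 _ h5
    obtain ⟨b, hb1, -⟩ := h4 _ (inter_mem h5 (compl_singleton_mem_nhds ha2.symm))
    exact hb1.1.2 (h3 b hb1.1.1 a ha1.1 hb1.2 ha1.2)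
  · intro h1 z hz hB
    rw [h.leS_iff] at hz
    have h2 : ∀ x ∈ (f z : Set Ω), ∃ w, x ∈ f w ∧ f w ≤ f z ∧ ∃ B, ∃ (_ : B ∈ lp),
        ∀ a ∈ f w, ∀ b ∈ f w, S B a → S B b → a = b := by
      intro x hx
      have h3 := h1 x (hz hx)
      have h4 : ∀ B (_ : B ∈ ln), x ∉ closure {y | S B y} := by
        intro B hB' hcl
        obtain ⟨u, hu1, hu2⟩ := mem_closure_iff.1 hcl _ (f z).isOpen hx
        exact (hn B hB' z).1 (hB B hB') u hu1 hu2
      have h5 : ∃ B, ∃ (_ : B ∈ lp), ¬ AccPt x (𝓟 {y | S B y}) := by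
        by_contra h6
        exact h3 ⟨fun B hB' => by_contra fun h7 => h6 ⟨B, hB', h7⟩, h4⟩
      obtain ⟨B, hB', h6⟩ := h5
      rw [accPt_iff_nhds] at h6
      simp only [not_forall, not_exists, not_and, not_not] at h6
      obtain ⟨U, hU, h7⟩ := h6
      obtain ⟨V, hxV, hV⟩ := hsem_nhds hU
      refine ⟨f.symm (f z ⊓ V), ?_, ?_, B, hB', ?_⟩
      · rw [Equiv.apply_symm_apply]
        exact ⟨hx, hxV⟩
      · rw [Equiv.apply_symm_apply]
        exact inf_le_left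
      · rw [Equiv.apply_symm_apply]
        intro a ha b hb hsa hsb
        rw [h7 a ⟨hV a ha.2, hsa⟩, h7 b ⟨hV b hb.2, hsb⟩]
    choose! W hW using h2
    obtain ⟨t, ht, ht'⟩ := (f z).isClosed.isCompact.elim_nhds_subcover
      (fun x => (f (W x) : Set Ω)) fun x hx => (f (W x)).isOpen.mem_nhds (hW x hx).1
    refine ⟨t.toList.map W, (h.hsem_cov _ _).2 ⟨fun w hw => ?_, fun x hx => ?_⟩, fun w hw => ?_⟩
    · obtain ⟨x, hx, rfl⟩ := List.mem_map.1 hw
      exact (hW x (ht x (Finset.mem_toList.1 hx))).2.1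
    · obtain ⟨u, hu, hxu⟩ := Set.mem_iUnion₂.1 (ht' hx)
      exact ⟨W u, List.mem_map.2 ⟨u, Finset.mem_toList.2 hu, rfl⟩, hxu⟩
    · obtain ⟨x, hx, rfl⟩ := List.mem_map.1 hw
      obtain ⟨B, hB', h3⟩ := (hW x (ht x (Finset.mem_toList.1 hx))).2.2
      exact ⟨B, hB', (h.hsem_one (P B) (S B) (hp B hB') _).2 h3⟩

theorem GoodIdx.nH_iff [CompactSpace Ω] [T2Space Ω] [TotallyDisconnectedSpace Ω]
    (h : GoodIdx f e) (A : Cl) (y : ℕ) : nH e A y ↔ ∀ x ∈ f y, ¬ In A x := by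
  induction hn : lev A using Nat.strong_induction_on generalizing A y with
  | _ n ih =>
    subst hn
    rw [nH]
    by_cases h0 : A.1 = 0
    · rw [if_pos h0, h.hsem_bot]
      refine forall_congr' fun x => ?_
      rw [In, if_pos h0]
      simp
    by_cases h1 : A.1 = 1
    · rw [if_neg h0, if_pos h1, h.hsem_atom]
      refine forall₂_congr fun x _ => ?_
      rw [In, if_neg h0, if_pos h1]
    rw [if_neg h0, if_neg h1, h.hsem_step (posC A) (negC A) (nH e) In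
      (fun B hB y => ih _ (by have := lev_pos hB; omega) B y rfl)
      (fun B hB y => ih _ (by have := lev_neg hB; omega) B y rfl)]
    refine forall₂_congr fun x _ => ?_
    rw [In, if_neg h0, if_neg h1]

/-- A computable copy has an index. -/
theorem exists_goodIdx (f : ℕ ≃ Clopens Ω)
    (hf : Computable₂ fun a b : ℕ => f.symm (f a ⊓ f b)) : ∃ e, GoodIdx f e := by
  have h1 : Computable fun n : ℕ => f.symm (f n.unpair.1 ⊓ f n.unpair.2) :=
    hf.comp (Computable.fst.comp Computable.unpair) (Computable.snd.comp Computable.unpair)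
  obtain ⟨c, hc⟩ := Nat.Partrec.Code.exists_code.1 (Partrec.nat_iff.1 h1)
  refine ⟨Nat.pair (encode c) (f.symm ⊥), fun x y => ?_, ?_⟩
  · rw [Nat.unpair_pair, ofNat_encode, hc]
    simp
  · rw [Nat.unpair_pair, Equiv.apply_symm_apply]

end Pool.Agent.P.MP_9f8894_lc
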