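import Mathlib
import Pool.Agent.P.MP_9f8894_lc.Num

/-! The clopen algebra of a space of chains through a tree is computable in the tree. -/

set_option autoImplicit false
set_option backward.isDefEq.respectTransparency false
open TopologicalSpace
open scoped symmDiff

namespace Pool.Agent.P.MP_9f8894_lc.Inv

open Pool.Agent.P.MP_ef7593_lc

/-- A family of clopen sets that is closed under the Boolean operations and separates the points
of a compact space contains every clopen set. -/
theorem all_clopens {X : Type} [TopologicalSpace X] [CompactSpace X] (P : Clopens X → Prop)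
    (hb : P ⊥) (hs : ∀ a b, P a → P b → P (a ⊔ b)) (hc : ∀ a, P a → P aᶜ)
    (hsep : ∀ x y : X, x ≠ y → ∃ a, P a ∧ ¬ (x ∈ a ↔ y ∈ a)) (U : Clopens X) : P U := by
  classical
  have hfin : ∀ {ι : Type} (t : Finset ι) (f : ι → Clopens X), (∀ i, P (f i)) → P (t.sup f) :=
    fun t f hf => Finset.sup_induction hb (fun a ha b hb' => hs a b ha hb') fun i _ => hf i
  have hmem : ∀ {ι : Type} (t : Finset ι) (f : ι → Clopens X) (x : X),
      x ∈ t.sup f ↔ ∃ i ∈ t, x ∈ f i := fun t f x => by
    rw [← SetLike.mem_coe, Clopens.coe_finset_sup]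
    simp
  have cover : ∀ (V : Clopens X), (∀ y ∈ V, ∃ a, P a ∧ y ∈ a) → ∀ Q : Clopens X → Prop,
      Q ⊥ → (∀ a b, Q a → Q b → Q (a ⊔ b)) → (∀ y ∈ V, ∃ a, P a ∧ Q a ∧ y ∈ a) →
      ∃ a, P a ∧ Q a ∧ V ≤ a := fun V _ Q q0 q1 h => by
    choose f hf using fun y : V => h y.1 y.2
    obtain ⟨t, ht⟩ := V.isClosed.isCompact.elim_finite_subcover (fun y : V => (f y : Set X))
      (fun y => (f y).isOpen) fun y hy => Set.mem_iUnion.2 ⟨⟨y, hy⟩, (hf _).2.2⟩
    refine ⟨t.sup f, hfin t f fun i => (hf i).1,
      Finset.sup_induction q0 (fun a ha b hb' => q1 a b ha hb') fun i _ => (hf i).2.1,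
      fun y hy => (hmem t f y).2 ?_⟩
    simpa using ht hy
  have htop : ∀ y : X, ∃ a, P a ∧ y ∈ a := fun y => ⟨⊥ᶜ, hc _ hb, fun h => h⟩
  have h1 : ∀ x ∈ U, ∃ a, P a ∧ a ≤ U ∧ x ∈ a := fun x hx => by
    obtain ⟨a, ha, hxa, hU⟩ := cover Uᶜ (fun y _ => htop y) (fun a => x ∉ a) (fun h => h)
      (fun a b ha hb' h => h.elim ha hb') fun y hy => by
        obtain ⟨a, ha, h⟩ := hsep x y fun h => hy (h ▸ hx)
        by_cases hxa : x ∈ a
        · exact ⟨aᶜ, hc _ ha, fun h' => h' hxa, fun h' => h ⟨fun _ => h', fun _ => hxa⟩⟩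
        · exact ⟨a, ha, hxa, by_contra fun h' => h ⟨fun h2 => (hxa h2).elim, fun h2 => (h' h2).elim⟩⟩
    exact ⟨aᶜ, hc _ ha, compl_le_iff_compl_le.1 hU, hxa⟩
  obtain ⟨a, ha, h2, h3⟩ := cover U (fun y _ => htop y) (fun a => a ≤ U) bot_le
    (fun a b => sup_le) h1
  exact le_antisymm h2 h3 ▸ ha

section

variable {S : Type}

/-- Parity of the number of entries that pass a test. -/
def par (p : S → Bool) (l : List S) : Bool := l.foldr (fun s b => xor (p s) b) false

@[simp] theorem par_nil (p : S → Bool) : par p [] = false := rfl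

@[simp] theorem par_cons (p : S → Bool) (s : S) (l : List S) :
    par p (s :: l) = xor (p s) (par p l) := rfl

theorem par_append (p : S → Bool) (l m : List S) : par p (l ++ m) = xor (par p l) (par p m) := by
  induction l with
  | nil => simp
  | cons s l ih => simp [ih]

theorem par_congr {p q : S → Bool} {l : List S} (h : ∀ s ∈ l, p s = q s) : par p l = par q l := by
  induction l with
  | nil => rfl
  | cons s l ih =>
    rw [par_cons, par_cons, h s (by simp), ih fun t ht => h t (by simp [ht])]

theorem exists_of_par {p : S → Bool} {l : List S} (h : par p l = true) : ∃ s ∈ l, p s = true := by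
  by_contra hn
  push Not at hn
  rw [par_congr (q := fun _ => false) (by simpa using hn)] at h
  clear hn
  induction l with
  | nil => simp at h
  | cons s l ih => exact ih (by simpa using h)

/-- The product of two generators. -/
def prd (le : S → S → Bool) (s t : S) : List S :=
  bif le s t then [t] else bif le t s then [s] else []

/-- The product of two sums of generators. -/
def mulL (le : S → S → Bool) (l m : List S) : List S := l.flatMap fun s => m.flatMap (prd le s)

theorem par_prd {le : S → S → Bool} {p : S → Bool} {s t : S}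
    (a1 : p s = true → p t = true → le s t = true ∨ le t s = true)
    (a2 : le s t = true → p t = true → p s = true) (a3 : le t s = true → p s = true → p t = true) :
    par p (prd le s t) = (p s && p t) := by
  unfold prd
  cases h1 : le s t <;> cases h2 : le t s <;> cases h3 : p s <;> cases h4 : p t <;> simp_all

theorem par_mulL {le : S → S → Bool} {p : S → Bool}
    (h : ∀ s t, par p (prd le s t) = (p s && p t)) (l m : List S) :
    par p (mulL le l m) = (par p l && par p m) := by
  have h1 : ∀ s, par p (m.flatMap (prd le s)) = (p s && par p m) := fun s => by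
    induction m with
    | nil => simp
    | cons t m ih =>
      rw [List.flatMap_cons, par_append, ih, h, par_cons]
      cases p s <;> simp
  induction l with
  | nil => simp [mulL]
  | cons s l ih =>
    rw [mulL] at ih ⊢
    rw [List.flatMap_cons, par_append, ih, h1, par_cons]
    cases par p m <;> simp

variable [Primcodable S]

theorem prim_mulL {le : S → S → Bool} (hle : Primrec₂ le) : Primrec₂ (mulL le) := by
  have h1 : Primrec₂ (prd le) :=
    Primrec.cond hle (Primrec.list_cons.comp Primrec.snd (Primrec.const []))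
      (Primrec.cond (hle.comp Primrec.snd Primrec.fst)
        (Primrec.list_cons.comp Primrec.fst (Primrec.const [])) (Primrec.const []))
  exact Primrec.list_flatMap Primrec.fst (Primrec.list_flatMap (Primrec.snd.comp Primrec.fst)
    (h1.comp (Primrec.snd.comp Primrec.fst) Primrec.snd).to₂).to₂

theorem prim_par {le : S → S → Bool} (hle : Primrec₂ le) :
    Primrec₂ fun (l : List S) (s : S) => par (fun t => le t s) l :=
  Primrec.list_foldr (h := fun (a : List S × S) (q : S × Bool) => xor (le q.1 a.2) q.2)
    Primrec.fst (Primrec.const false)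
    ((Primrec.dom_bool₂ xor).comp (hle.comp (Primrec.fst.comp Primrec.snd)
      (Primrec.snd.comp Primrec.fst)) (Primrec.snd.comp Primrec.snd)).to₂

end

/-- `X` is a compact space of chains through the tree `T`, with cylinders `cyl`; `le` is the
order of the tree. Then the algebra of clopen sets is computable in `T`. -/
theorem clopens_presentation {O : Set (ℕ →. ℕ)} {S X : Type} [Primcodable S]
    [TopologicalSpace X] [CompactSpace X] [Infinite (Clopens X)]
    {le : S → S → Bool} (hle : Primrec₂ le) (root : S) {T : S → Bool} (hT : ComputableIn O T)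
    (cyl : S → Clopens X) (h_root : ∀ x, x ∈ cyl root)
    (h_chain : ∀ x s t, x ∈ cyl s → x ∈ cyl t → le s t = true ∨ le t s = true)
    (h_down : ∀ x s t, le s t = true → x ∈ cyl t → x ∈ cyl s)
    (h_T : ∀ x s, x ∈ cyl s → T s = true)
    (h_pt : ∀ s, T s = true → ∃ x, ∀ t, x ∈ cyl t ↔ le t s = true)
    (h_sep : ∀ x y : X, (∀ s, x ∈ cyl s ↔ y ∈ cyl s) → x = y) :
    ∃ e : ℕ ≃ Clopens X, (ComputableIn₂ O fun a b : ℕ => e.symm (e a ⊔ e b)) ∧
      (ComputableIn₂ O fun a b : ℕ => e.symm (e a ⊓ e b)) ∧
      ComputableIn O fun a : ℕ => e.symm (e a)ᶜ := by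
  classical
  let φ : List S → Clopens X := fun l => l.foldr (fun s b => cyl s ∆ b) ⊥
  let ev : X → S → Bool := fun x s => decide (x ∈ cyl s)
  have hφ : ∀ l x, x ∈ φ l ↔ par (ev x) l = true := fun l x => by
    induction l with
    | nil => exact ⟨fun h => h.elim, fun h => by simp at h⟩
    | cons s l ih =>
      change (x ∈ cyl s ∧ x ∉ φ l) ∨ (x ∈ φ l ∧ x ∉ cyl s) ↔ _
      rw [ih, par_cons]
      by_cases h : x ∈ cyl s <;> simp [ev, h]
  have hprd : ∀ x s t, par (ev x) (prd le s t) = (ev x s && ev x t) := fun x s t => by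
    have a1 : ev x s = true → ev x t = true → le s t = true ∨ le t s = true := fun h h' =>
      h_chain x s t (of_decide_eq_true h) (of_decide_eq_true h')
    have a2 : ∀ s t, le s t = true → ev x t = true → ev x s = true := fun s t h h' =>
      decide_eq_true (h_down x s t h (of_decide_eq_true h'))
    exact par_prd a1 (a2 s t) (a2 t s)
  have e_inf : ∀ l m, φ (mulL le l m) = φ l ⊓ φ m := fun l m => SetLike.ext fun x => by
    change _ ↔ x ∈ φ l ∧ x ∈ φ m
    rw [hφ, hφ, hφ, par_mulL (hprd x), Bool.and_eq_true]
  have e_sup : ∀ l m, φ (l ++ m ++ mulL le l m) = φ l ⊔ φ m := fun l m => SetLike.ext fun x => by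
    change _ ↔ x ∈ φ l ∨ x ∈ φ m
    rw [hφ, hφ, hφ, par_append, par_append, par_mulL (hprd x)]
    cases par (ev x) l <;> cases par (ev x) m <;> simp
  have e_cpl : ∀ l, φ (root :: l) = (φ l)ᶜ := fun l => SetLike.ext fun x => by
    change _ ↔ x ∉ φ l
    rw [hφ, hφ, par_cons]
    simp [ev, h_root]
  have hsurj : Function.Surjective φ := by
    refine all_clopens (fun a => ∃ l, φ l = a) ⟨[], rfl⟩ ?_ ?_ fun x y hxy => ?_
    · rintro _ _ ⟨l, rfl⟩ ⟨m, rfl⟩
      exact ⟨_, e_sup l m⟩
    · rintro _ ⟨l, rfl⟩
      exact ⟨_, e_cpl l⟩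
    · by_contra hn
      refine hxy (h_sep x y fun s => by_contra fun h => hn ⟨φ [s], ⟨_, rfl⟩, ?_⟩)
      rw [hφ, hφ]
      simpa [ev] using h
  have hmax : ∀ (x : X) (l : List S), (∃ s ∈ l, x ∈ cyl s) →
      ∃ s, s ∈ l ∧ x ∈ cyl s ∧ ∀ t ∈ l, x ∈ cyl t → le t s = true := fun x l => by
    induction l with
    | nil => simp
    | cons a l ih =>
      intro hex
      by_cases h1 : ∃ s ∈ l, x ∈ cyl s
      · obtain ⟨s, hs, hx, hm⟩ := ih h1
        by_cases h2 : x ∈ cyl a ∧ le s a = true
        · obtain ⟨y, hy⟩ := h_pt a (h_T x a h2.1)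
          refine ⟨a, by simp, h2.1, fun t ht hxt => ?_⟩
          rcases List.mem_cons.1 ht with rfl | ht
          · exact (h_chain x t t hxt hxt).elim id id
          · exact (hy t).1 (h_down y t s (hm t ht hxt) ((hy s).2 h2.2))
        · refine ⟨s, by simp [hs], hx, fun t ht hxt => ?_⟩
          rcases List.mem_cons.1 ht with rfl | ht
          · exact (h_chain x t s hxt hx).elim id fun h => (h2 ⟨hxt, h⟩).elim
          · exact hm t ht hxt
      · obtain ⟨s, hs, hx⟩ := hex
        rcases List.mem_cons.1 hs with rfl | hs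
        · refine ⟨s, by simp, hx, fun t ht hxt => ?_⟩
          rcases List.mem_cons.1 ht with rfl | ht
          · exact (h_chain x t t hxt hxt).elim id id
          · exact (h1 ⟨t, ht, hxt⟩).elim
        · exact (h1 ⟨s, hs, hx⟩).elim
  let tst : List S → S → Bool := fun l s => !(T s && par (fun t => le t s) l)
  have hzero : ∀ l : List S, (∀ i < l.length, tst l (l.getD i root) = true) ↔
      ∀ x, par (ev x) l = false := fun l => by
    constructor
    · intro h x
      by_contra hx
      rw [Bool.not_eq_false] at hx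
      obtain ⟨s, hs, hxs, hm⟩ := hmax x l (by simpa [ev] using exists_of_par hx)
      obtain ⟨i, hi, rfl⟩ := List.getElem_of_mem hs
      have h1 := h i hi
      rw [List.getD_eq_getElem _ _ hi] at h1
      have h2 : par (fun t => le t l[i]) l = par (ev x) l := par_congr fun t ht => by
        rw [Bool.eq_iff_iff]
        simp only [ev, decide_eq_true_eq]
        exact ⟨fun h => h_down x _ _ h hxs, hm t ht⟩
      simp [tst, h_T x _ hxs, h2, hx] at h1
    · intro h i _
      simp only [tst, Bool.not_eq_true', Bool.and_eq_false_imp]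
      intro hTs
      obtain ⟨y, hy⟩ := h_pt _ hTs
      rw [← h y]
      refine par_congr fun t _ => ?_
      rw [Bool.eq_iff_iff]
      simp [ev, hy]
  have hg : Primrec fun r : List S × ℕ => r.1.getD r.2 root := Primrec.list_getD root
  have h0 := ci_comp (Primrec.dom_finite fun b : Bool × Bool => !(b.1 && b.2)).computableIn
    (ci_pair (ci_comp hT hg.computableIn) ((prim_par hle).comp Primrec.fst hg).computableIn)
  have h1 : ComputableIn₂ O fun (l : List S) (i : ℕ) => tst l (l.getD i root) :=
    ci_of_eq h0 fun _ => rfl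
  have h2 := ci_comp (ci_ball h1 Primrec.list_length.computableIn)
    (Primrec.list_append (α := S)).computableIn
  refine exists_presentation φ hsurj
    (q := fun l m => decide (∀ i < (l ++ m).length, tst (l ++ m) ((l ++ m).getD i root) = true))
    (ci_of_eq h2 fun _ => rfl) (fun l m => ?_)
    (u := fun l m => l ++ m ++ mulL le l m) (v := mulL le) (w := fun l => root :: l)
    (Primrec.list_append.comp Primrec.list_append (prim_mulL hle)).computableIn
    (prim_mulL hle).computableIn₂
    (Primrec.list_cons.comp (Primrec.const root) Primrec.id).computableIn e_sup e_inf e_cpl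
  rw [decide_eq_true_eq, hzero, SetLike.ext_iff]
  refine forall_congr' fun x => ?_
  rw [hφ, hφ, par_append]
  cases par (ev x) l <;> cases par (ev x) m <;> simp

end Pool.Agent.P.MP_9f8894_lc.Inv
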