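import Mathlib
import Pool.Agent.P.MP_9f8894_lc.JumpA
import Pool.Agent.P.MP_9f8894_lc.Pres
import Pool.Agent.P.MP_9f8894_lc.TreeB

/-! Package PresT: the clopen algebra of a decidable tree is computable. -/

set_option autoImplicit false
open Encodable Denumerable Filter TopologicalSpace
open scoped Classical

namespace Pool.Agent.P.MP_9f8894_lc

theorem exists_pres {Y : Orc} {T : Tree} (hT : PC T) (hinf : {σ | T σ}.Infinite)
    (hc : CI Y fun σ => decide (T σ)) : ∃ e : ℕ ≃ Clopens (XT T),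
      (ComputableIn₂ {chi Y} fun a b : ℕ => e.symm (e a ⊔ e b)) ∧
      (ComputableIn₂ {chi Y} fun a b : ℕ => e.symm (e a ⊓ e b)) ∧
      ComputableIn {chi Y} fun a : ℕ => e.symm (e a)ᶜ := by
  have hpt : ∀ σ, T σ → ∃ x : XT T, IsPt σ x := fun σ h => exists_pt hT h
  haveI : Infinite (Clopens (XT T)) := by
    haveI := hinf.to_subtype
    refine Infinite.of_injective (fun σ : {σ | T σ} => cylC T σ.1) fun σ τ h => ?_
    obtain ⟨x, hx⟩ := hpt σ.1 σ.2
    obtain ⟨y, hy⟩ := hpt τ.1 τ.2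
    have h' : cylC T σ.1 = cylC T τ.1 := h
    have h1 : x ∈ cylC T τ.1 := h' ▸ (mem_cylC x).2 hx.mem
    have h2 : y ∈ cylC T σ.1 := h' ▸ (mem_cylC y).2 hy.mem
    have h3 := (hx _).1 ((mem_cylC x).1 h1)
    have h4 := (hy _).1 ((mem_cylC y).1 h2)
    exact Subtype.ext (h4.eq_of_length_le h3.length_le)
  have hle : Primrec₂ fun σ τ : List ℕ => decide (τ.take σ.length = σ) :=
    (Primrec.eq.decide.comp (Primrec.list_take.comp (Primrec.list_length.comp Primrec.fst)
      Primrec.snd) Primrec.fst).to₂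
  have hl : ∀ σ τ : List ℕ, decide (τ.take σ.length = σ) = true ↔ σ <+: τ := fun σ τ => by
    rw [decide_eq_true_iff, List.prefix_iff_eq_take, eq_comm]
  refine Inv.clopens_presentation hle [] hc (cylC T) (fun x => x.2.1) ?_ ?_ ?_ ?_ ?_
  · intro x s t hs ht
    rw [hl, hl]
    exact x.2.2.2.2 s t hs ht
  · intro x s t h ht
    exact x.2.2.2.1 s t ((hl _ _).1 h) ht
  · intro x s hs
    simpa using x.2.2.1 s hs
  · intro s hs
    obtain ⟨x, hx⟩ := hpt s (by simpa using hs)
    exact ⟨x, fun t => by rw [hl]; exact hx t⟩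
  · intro x y h
    refine Subtype.ext (funext fun s => ?_)
    rw [Bool.eq_iff_iff]
    exact h s

end Pool.Agent.P.MP_9f8894_lc
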