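import Mathlib
import Pool.Agent.P.MP_9f8894_lc.GadB
import Pool.Agent.P.MP_9f8894_lc.Cst

/-! Package SkelA: the skeleton points. -/

set_option autoImplicit false
open Encodable Denumerable Filter TopologicalSpace
open scoped Classical

namespace Pool.Agent.P.MP_9f8894_lc

/-- The address of a node. -/
def addr (e : ℕ) : Node → List ℕ
  | [] => [2 * e]
  | st :: s => addr e s ++ [3 * encode st]

/-- The address of a skeleton point. -/
def addrP : Pt → List ℕ
  | none => []
  | some (e, s) => addr e s

/-- The skeleton point exists. -/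
def ValidP : Pt → Prop
  | none => True
  | some (e, s) => s.length ≤ e + 2

variable {Sw : TI → Prop} {S : TI → Tree}

namespace SkA

/-- The children of a node. -/
def ch (S : TI → Tree) (e t : ℕ) (s : Node) (n : ℕ) : Tree :=
  if n % 3 = 0 then (if t = 0 then emp else sk S e (t - 1) (ofNat Step (n / 3) :: s))
  else if n % 3 = 1 then topAt S e s (n / 3) else tok (n / 3)

theorem sk_eq (S : TI → Tree) (e t : ℕ) (s : Node) : sk S e t s = lim (ch S e t s) := by
  cases t <;> rfl

theorem pc_emp : PC emp := fun _ _ _ h => h

theorem spec_lim {a : ℕ} {T : Tree} {P : Prop} (ha : 1 ≤ a) (h : Spec a T P) :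
    Spec a (lim fun k τ => T (k :: τ)) P := by
  obtain ⟨b, rfl⟩ : ∃ b, a = b + 1 := ⟨a - 1, by omega⟩
  obtain ⟨f, Q, rfl, h1, h2⟩ := h
  exact ⟨f, Q, rfl, h1, h2⟩

theorem pc_topAt (h : SwTree Sw S) (e : ℕ) (s : Node) (n : ℕ) : PC (topAt S e s n) := by
  unfold topAt
  split_ifs with hc
  · exact pc_top _ _ fun k σ τ hστ => pc_spec (h (e, s, ofNat (ℕ × ℕ × ℕ) n) hc.1 hc.2) _ _
      (List.cons_prefix_cons.2 ⟨rfl, hστ⟩)
  · exact pc_emp

theorem pc_sk (h : SwTree Sw S) (e t : ℕ) : ∀ s, PC (sk S e t s) := by
  induction t with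
  | zero =>
    refine fun s => pc_lim fun n => ?_
    split_ifs
    exacts [pc_emp, pc_topAt h _ _ _, pc_tok _]
  | succ t ih =>
    refine fun s => pc_lim fun n => ?_
    split_ifs
    exacts [ih _, pc_topAt h _ _ _, pc_tok _]

theorem length_addr (e : ℕ) (s : Node) : (addr e s).length = s.length + 1 := by
  induction s with
  | nil => rfl
  | cons st s ih => simp only [addr, List.length_append, ih, List.length_cons, List.length_nil]

theorem addr_inj (e : ℕ) : ∀ s s' : Node, s.length = s'.length → addr e s = addr e s' → s = s'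
  | [], [], _, _ => rfl
  | [], _ :: _, hl, _ => by simp at hl
  | _ :: _, [], hl, _ => by simp at hl
  | st :: s, st' :: s', hl, h => by
    obtain ⟨h1, h2⟩ := List.append_inj' h rfl
    have h3 : encode st = encode st' := by
      have := List.singleton_injective h2
      omega
    rw [encode_injective h3, addr_inj e s s' (by simpa using hl) h1]

theorem sub_root (S : TI → Tree) (n : ℕ) :
    Sub (bigT S) [n] (if n % 2 = 0 then sk S (n / 2) (n / 2 + 2) [] else tok (n / 2)) :=
  Sub.child (f := fun n => if n % 2 = 0 then sk S (n / 2) (n / 2 + 2) [] else tok (n / 2))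
    (sub_nil (bigT S)) n

theorem sub_tok (S : TI → Tree) (m : ℕ) : Sub (bigT S) [2 * m + 1] (tok m) := by
  have := sub_root S (2 * m + 1)
  rwa [if_neg (by omega), show (2 * m + 1) / 2 = m by omega] at this

theorem not_hs_emp {T : Tree} {σ : List ℕ} (h : Sub T σ emp) (A : Cl) : ¬ Hs T A σ := fun hs =>
  (h []).1 (by simpa using hs.mem)

end SkA

open SkA

theorem pc_bigT (h : SwTree Sw S) : PC (bigT S) := by
  refine pc_lim fun n => ?_
  split_ifs
  exacts [pc_sk h _ _ _, pc_tok _]

theorem sub_sk (S : TI → Tree) (e : ℕ) (s : Node) (hs : s.length ≤ e + 2) :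
    Sub (bigT S) (addr e s) (sk S e (e + 2 - s.length) s) := by
  induction s with
  | nil =>
    have := sub_root S (2 * e)
    rwa [if_pos (by omega), show 2 * e / 2 = e by omega] at this
  | cons st s ih =>
    rw [List.length_cons] at hs ⊢
    have := ih (by omega)
    rw [sk_eq] at this
    have := this.child (3 * encode st)
    rwa [ch, if_pos (by omega), if_neg (by omega), show 3 * encode st / 3 = encode st by omega,
      show ofNat Step (encode st) = st from ofNat_encode st] at this

theorem bigT_addrP (S : TI → Tree) {P : Pt} (hP : ValidP P) : bigT S (addrP P) := by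
  rcases P with _ | ⟨e, s⟩
  · trivial
  · have := sub_sk S e s hP
    rw [sk_eq] at this
    exact this.root

theorem addr_incomp (e : ℕ) {s s' : Node} (hl : s.length = s'.length) (hne : s ≠ s') :
    ¬ addr e s <+: addr e s' := by
  exact fun h => hne (addr_inj e s s' hl (h.eq_of_length (by rw [length_addr, length_addr, hl])))

theorem infinite_bigT (S : TI → Tree) : {σ | bigT S σ}.Infinite := by
  refine Set.infinite_of_injective_forall_mem (f := fun m : ℕ => [2 * m + 1]) (fun a b h => ?_)
    fun m => ?_
  · have := List.singleton_injective h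
    omega
  · simpa using (sub_tok S m []).2 (tok_nil m)

/-- Skeleton points are not tops. -/
theorem skel_not_top (h : SwTree Sw S) {P : Pt} (hP : ValidP P) {x : XT (bigT S)}
    (hx : IsPt (addrP P) x) {c L : ℕ} (hL : 16 ≤ L) : ¬ In (cTop c L) x := by
  intro ht
  refine ((in_Top x c L).1 ht).2.1 ((hx.clIn _).2 (Or.inr ?_))
  rcases P with _ | ⟨e, s⟩
  · refine Set.infinite_of_injective_forall_mem (f := fun m : ℕ => 2 * (m + L) + 1)
      (fun a b h => by dsimp only at h; omega) fun m => ?_
    exact ((tok_table (pc_bigT h) (sub_tok S (m + L))).1 _).2 (Or.inr (by omega))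
  · refine Set.infinite_of_injective_forall_mem (f := fun m : ℕ => 3 * (m + L) + 2)
      (fun a b h => by dsimp only at h; omega) fun m => ?_
    have := sub_sk S e s hP
    rw [sk_eq] at this
    have := this.child (3 * (m + L) + 2)
    rw [ch, if_neg (by omega), if_neg (by omega),
      show (3 * (m + L) + 2) / 3 = m + L by omega] at this
    exact ((tok_table (pc_bigT h) this).1 _).2 (Or.inr (by omega))

/-- Limits of special tops are skeleton points. -/
theorem acc_skel (h : SwTree Sw S) {x : XT (bigT S)} {c L : ℕ} (hc : c ≤ 4) (hL : 16 ≤ L)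
    (hx : In (cAcc c L) x) : ∃ P, ValidP P ∧ IsPt (addrP P) x := by
  have hT := pc_bigT h
  have key : ∀ (e t : ℕ) (s : Node), s.length + t = e + 2 → x.1 (addr e s) = true →
      ∃ P, ValidP P ∧ IsPt (addrP P) x := by
    intro e t
    induction t using Nat.strong_induction_on with
    | _ t ih =>
      intro s hs hxs
      rcases split_pt hxs with hp | ⟨n, hn⟩
      · exact ⟨some (e, s), show s.length ≤ e + 2 by omega, hp⟩
      have hh : Hs (bigT S) (cAcc c L) (addr e s ++ [n]) := ⟨x, hn, hx⟩
      have := sub_sk S e s (by omega)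
      rw [sk_eq, show e + 2 - s.length = t by omega] at this
      have := this.child n
      unfold ch at this
      split_ifs at this with h0 ht h1
      · exact absurd hh (not_hs_emp this _)
      · refine ih (t - 1) (by omega) (ofNat Step (n / 3) :: s) (by rw [List.length_cons]; omega) ?_
        rwa [addr, show encode (ofNat Step (n / 3)) = n / 3 from encode_ofNat _,
          show 3 * (n / 3) = n by omega]
      · unfold topAt at this
        split_ifs at this with hv
        · exact absurd hh (top_table hT hv.1 hv.2 (spec_lim (by omega)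
            (h (e, s, ofNat (ℕ × ℕ × ℕ) (n / 3)) hv.1 hv.2)) this hc hL).2
        · exact absurd hh (not_hs_emp this _)
      · exact absurd hh (tok_top hT this c L).2
  rcases split_pt x.2.1 with hp | ⟨n, hn⟩
  · exact ⟨none, trivial, hp⟩
  have := sub_root S n
  split_ifs at this with h0
  · exact key (n / 2) (n / 2 + 2) [] (by simp) (by rwa [addr, show 2 * (n / 2) = n by omega])
  · exact absurd ⟨x, hn, hx⟩ (tok_top hT this c L).2

end Pool.Agent.P.MP_9f8894_lc
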