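import Mathlib
import Pool.Agent.P.MP_9f8894_lc.SkelA

/-! Package SkelC: limits of special tops. -/

set_option autoImplicit false
open Encodable Denumerable Filter TopologicalSpace
open scoped Classical

namespace Pool.Agent.P.MP_9f8894_lc

variable {Sw : TI → Prop} {S : TI → Tree}

theorem sc_addr_mono (e : ℕ) {s s' : Node} (h : s <:+ s') : addr e s <+: addr e s' := by
  obtain ⟨t, rfl⟩ := h
  induction t with
  | nil => exact List.prefix_refl _
  | cons st t ih => exact ih.trans (List.prefix_append _ _)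

theorem sc_emp {T : Tree} {σ : List ℕ} (h : Sub T σ emp) (A : Cl) : ¬ Hs T A σ := fun h' => by
  have := (h []).1 (by simpa using h'.mem)
  exact this

theorem sc_lim {a : ℕ} {R : Tree} {P : Prop} (ha : 1 ≤ a) (h : Spec a R P) :
    (lim fun k τ => R (k :: τ)) = R := by
  obtain ⟨a, rfl⟩ : ∃ b, a = b + 1 := ⟨a - 1, by omega⟩
  obtain ⟨f, Q, rfl, -, -⟩ := h
  rfl

theorem sc_topAt (h : SwTree Sw S) {e : ℕ} {s : Node} {n : ℕ} {σ : List ℕ}
    (hs : Sub (bigT S) σ (topAt S e s n)) {c L : ℕ} (hc : c ≤ 4) (hL : 16 ≤ L) :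
    Hs (bigT S) (cTop c L) σ ↔ ∃ x, n = encode (c, L, x) ∧ Sw (e, s, c, L, x) := by
  obtain ⟨⟨c', L', x⟩, rfl⟩ : ∃ q : ℕ × ℕ × ℕ, n = encode q :=
    ⟨ofNat _ n, (Denumerable.encode_ofNat n).symm⟩
  have e1 : (∃ y, encode (c', L', x) = encode (c, L, y) ∧ Sw (e, s, c, L, y)) ↔
      c = c' ∧ L = L' ∧ Sw (e, s, c', L', x) := by
    constructor
    · rintro ⟨y, h1, h2⟩
      obtain ⟨rfl, rfl, rfl⟩ : c' = c ∧ L' = L ∧ x = y := by
        simpa using encode_injective h1
      exact ⟨rfl, rfl, h2⟩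
    · rintro ⟨rfl, rfl, h2⟩
      exact ⟨x, rfl, h2⟩
  rw [e1]
  unfold topAt at hs
  rw [Denumerable.ofNat_encode] at hs
  dsimp only at hs
  split_ifs at hs with h1
  · have h2 := h (e, s, c', L', x) h1.1 h1.2
    dsimp only at h2
    rw [← sc_lim (by omega) h2] at h2
    exact (top_table (pc_bigT h) h1.1 h1.2 h2 hs hc hL).1
  · refine iff_of_false (sc_emp hs _) ?_
    rintro ⟨rfl, rfl, -⟩
    exact h1 ⟨hc, hL⟩

theorem sc_child (h : SwTree Sw S) {e : ℕ} {s : Node} (hs : s.length ≤ e + 2) {c L : ℕ}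
    (hc : c ≤ 4) (hL : 16 ≤ L) (n : ℕ) : Hs (bigT S) (cTop c L) (addr e s ++ [n]) ↔
      (∃ st : Step, n = 3 * encode st ∧ s.length < e + 2 ∧
        Hs (bigT S) (cTop c L) (addr e (st :: s))) ∨
      ∃ x, n = 3 * encode (c, L, x) + 1 ∧ Sw (e, s, c, L, x) := by
  have h0 := sub_sk S e s hs
  have key : ∃ f : ℕ → Tree, Sub (bigT S) (addr e s) (lim fun n =>
      if n % 3 = 0 then f n else if n % 3 = 1 then topAt S e s (n / 3) else tok (n / 3)) ∧
      (s.length = e + 2 → ∀ n, f n = emp) := by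
    rcases ht : e + 2 - s.length with _ | t
    · rw [ht] at h0
      exact ⟨fun _ => emp, h0, fun _ _ => rfl⟩
    · rw [ht] at h0
      exact ⟨fun n => sk S e t (ofNat Step (n / 3) :: s), h0, fun h1 => by omega⟩
  obtain ⟨f, h1, h2⟩ := key
  have h3 := h1.child n
  by_cases n0 : n % 3 = 0
  · rw [if_pos n0] at h3
    have e1 : n = 3 * encode (ofNat Step (n / 3)) := by
      rw [Denumerable.encode_ofNat]; omega
    constructor
    · intro h4
      refine Or.inl ⟨ofNat Step (n / 3), e1, ?_, ?_⟩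
      · refine lt_of_le_of_ne hs fun h5 => ?_
        rw [h2 h5] at h3
        exact sc_emp h3 _ h4
      · rw [addr, ← e1]
        exact h4
    · rintro (⟨st, rfl, -, h4⟩ | ⟨x, h4, -⟩)
      · exact h4
      · omega
  · rw [if_neg n0] at h3
    by_cases n1 : n % 3 = 1
    · rw [if_pos n1] at h3
      rw [sc_topAt h h3 hc hL]
      constructor
      · rintro ⟨x, h4, h5⟩
        exact Or.inr ⟨x, by omega, h5⟩
      · rintro (⟨st, h4, -⟩ | ⟨x, h4, h5⟩)
        · omega
        · exact ⟨x, by omega, h5⟩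
    · rw [if_neg n1] at h3
      refine iff_of_false (tok_top (pc_bigT h) h3 c L).1 ?_
      rintro (⟨st, h4, -⟩ | ⟨x, h4, -⟩) <;> omega

theorem hs_top_addr (h : SwTree Sw S) {e : ℕ} {s : Node} (hs : s.length ≤ e + 2) {c L : ℕ}
    (hc : c ≤ 4) (hL : 16 ≤ L) : Hs (bigT S) (cTop c L) (addr e s) ↔
      ∃ s', s <:+ s' ∧ s'.length ≤ e + 2 ∧ SomeAt Sw e s' c L := by
  constructor
  · obtain ⟨t, ht⟩ : ∃ t, e + 2 - s.length = t := ⟨_, rfl⟩
    induction t using Nat.strong_induction_on generalizing s with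
    | _ t ih =>
    intro h1
    rcases (hs_iff _).1 h1 with ⟨x, hx, hx'⟩ | ⟨k, hk⟩
    · exact absurd hx' (skel_not_top h (P := some (e, s)) hs hx hL)
    · rcases (sc_child h hs hc hL k).1 hk with ⟨st, -, h2, h3⟩ | ⟨x, -, h2⟩
      · obtain ⟨s', a1, a2⟩ := ih (e + 2 - (st :: s).length)
          (by rw [List.length_cons]; omega) (s := st :: s) h2 rfl h3
        exact ⟨s', (List.suffix_cons st s).trans a1, a2⟩
      · exact ⟨s, List.suffix_refl s, hs, x, h2⟩
  · rintro ⟨s', h1, h2, x, hx⟩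
    exact ((sc_child h h2 hc hL _).2 (Or.inr ⟨x, rfl, hx⟩)).mono
      ((sc_addr_mono e h1).trans (List.prefix_append _ _))

theorem skel_acc_iff (h : SwTree Sw S) {P : Pt} (hP : ValidP P) {x : XT (bigT S)}
    (hx : IsPt (addrP P) x) {c L : ℕ} (hc : c ≤ 4) (hL : 16 ≤ L) :
    In (cAcc c L) x ↔ AccP Sw c L P := by
  rw [in_Acc, hx.accIn]
  rcases P with _ | ⟨e, s⟩
  · have e1 : {k | Hs (bigT S) (cTop c L) (addrP none ++ [k])} = (fun e => 2 * e) ''
        {e | ∃ s : Node, s.length ≤ e + 2 ∧ SomeAt Sw e s c L} := by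
      ext k
      have h1 : ∀ e, Hs (bigT S) (cTop c L) [2 * e] ↔
          ∃ s : Node, s.length ≤ e + 2 ∧ SomeAt Sw e s c L := fun e => by
        simpa [addr] using hs_top_addr h (e := e) (s := []) (by simp) hc hL
      constructor
      · intro h2
        by_cases k0 : k % 2 = 0
        · obtain ⟨e, rfl⟩ : ∃ e, k = 2 * e := ⟨k / 2, by omega⟩
          exact ⟨e, (h1 e).1 h2, rfl⟩
        · have h3 := Sub.child (sub_nil (bigT S)) k
          rw [if_neg k0] at h3
          exact absurd h2 (tok_top (pc_bigT h) h3 c L).1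
      · rintro ⟨e, h2, rfl⟩
        exact (h1 e).2 h2
    rw [e1]
    exact Set.infinite_image_iff fun a _ b _ hab => by simpa using hab
  · have hs : s.length ≤ e + 2 := hP
    have e1 : {k | Hs (bigT S) (cTop c L) (addrP (some (e, s)) ++ [k])} =
        (fun x : ℕ => 3 * encode (c, L, x) + 1) '' {x | Sw (e, s, c, L, x)} ∪
        (fun st : Step => 3 * encode st) ''
          {st : Step | ∃ s', st :: s <:+ s' ∧ s'.length ≤ e + 2 ∧ SomeAt Sw e s' c L} := by
      ext k
      refine (sc_child h hs hc hL k).trans ?_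
      constructor
      · rintro (⟨st, rfl, h1, h2⟩ | ⟨y, rfl, h1⟩)
        · exact Or.inr ⟨st, (hs_top_addr h (s := st :: s) h1 hc hL).1 h2, rfl⟩
        · exact Or.inl ⟨y, h1, rfl⟩
      · rintro (⟨y, h1, rfl⟩ | ⟨st, ⟨s', h1, h2⟩, rfl⟩)
        · exact Or.inr ⟨y, rfl, h1⟩
        · have h3 : (st :: s).length ≤ e + 2 := h1.length_le.trans h2.1
          exact Or.inl ⟨st, rfl, h3, (hs_top_addr h h3 hc hL).2 ⟨s', h1, h2⟩⟩
    rw [e1, Set.infinite_union, Set.infinite_image_iff, Set.infinite_image_iff]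
    · rfl
    · intro a _ b _ hab
      exact encode_injective (by simpa using hab)
    · intro a _ b _ hab
      have : encode (c, L, a) = encode (c, L, b) := by
        dsimp only at hab
        omega
      simpa using encode_injective this

end Pool.Agent.P.MP_9f8894_lc
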