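import Mathlib
import Pool.Agent.P.MP_9f8894_lc.SkelC
import Pool.Agent.P.MP_9f8894_lc.HasSem

/-! Package SkelB: a correct index gives a model. -/

set_option autoImplicit false
open Encodable Denumerable Filter TopologicalSpace
open scoped Classical

namespace Pool.Agent.P.MP_9f8894_lc

theorem skb_sup {Ω : Type} [TopologicalSpace Ω] (f : ℕ → Clopens Ω) (l : List ℕ) :
    ∃ V : Clopens Ω, ∀ x, x ∈ V ↔ ∃ y ∈ l, x ∈ f y := by
  induction l with
  | nil => exact ⟨⊥, fun x => by simp [← SetLike.mem_coe]⟩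
  | cons a l ih =>
    obtain ⟨V, hV⟩ := ih
    refine ⟨f a ⊔ V, fun x => ?_⟩
    have : x ∈ f a ⊔ V ↔ x ∈ f a ∨ x ∈ V := Iff.rfl
    simp [this, hV]

theorem skb_dj {Ω : Type} [TopologicalSpace Ω] {U V : Clopens Ω} (h : Disjoint U V) {x : Ω}
    (hU : x ∈ U) (hV : x ∈ V) : False := by
  have : x ∈ U ⊓ V := ⟨hU, hV⟩
  rw [h.eq_bot] at this
  exact this

theorem exists_model {Sw : TI → Prop} {S : TI → Tree} (h : SwTree Sw S)
    (f : ℕ ≃ Clopens (XT (bigT S))) {e : ℕ} (he : GoodIdx f e) : Nonempty (Model Sw e) := by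
  have hc : ∀ s, f (f.symm (cylC (bigT S) (addr e s))) = cylC (bigT S) (addr e s) :=
    fun s => f.apply_symm_apply _
  refine ⟨{
    pts := fun y => {P | ValidP P ∧ ∃ x : XT (bigT S), IsPt (addrP P) x ∧ x ∈ f y}
    cyl := fun s => f.symm (cylC (bigT S) (addr e s))
    valid := fun y e' s hP => hP.1
    le_refl := fun y => (he.leP_iff _ _).2 le_rfl
    le_trans := fun x y z h1 h2 =>
      (he.leP_iff _ _).2 (((he.leP_iff _ _).1 h1).trans ((he.leP_iff _ _).1 h2))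
    pts_mono := ?_
    nT_mono := fun c L y z h1 h2 =>
      (he.nH_iff _ _).2 fun x hx => (he.nH_iff _ _).1 h2 x ((he.leP_iff _ _).1 h1 hx)
    dj_pts := ?_
    dj_mono := fun y y' z z' h1 h2 h3 => (he.djP_iff _ _).2
      (((he.djP_iff _ _).1 h3).mono ((he.leP_iff _ _).1 h1) ((he.leP_iff _ _).1 h2))
    hA_iff := ?_
    nT_acc := ?_
    cyl_fin := ?_
    cyl_mem := ?_
    cyl_le := ?_
    cyl_dj := ?_
    cyl_nT := ?_
    union := ?_
    shrink := ?_ }⟩
  · rintro y z h1 P ⟨hP, x, hx, hy⟩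
    exact ⟨hP, x, hx, (he.leP_iff _ _).1 h1 hy⟩
  · intro y z h1
    refine Set.disjoint_left.2 ?_
    rintro P ⟨-, x, hx, hy⟩ ⟨-, x', hx', hz⟩
    rw [← hx.unique hx'] at hz
    exact skb_dj ((he.djP_iff _ _).1 h1) hy hz
  · intro c L y hc' hL
    rw [hA, he.nH_iff]
    constructor
    · intro h1
      by_contra h2
      refine h1 fun x hx hin => ?_
      obtain ⟨P, hP, hxP⟩ := acc_skel h hc' hL hin
      exact h2 ⟨P, ⟨hP, x, hxP, hx⟩, (skel_acc_iff h hP hxP hc' hL).1 hin⟩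
    · rintro ⟨P, ⟨hP, x, hxP, hx⟩, ha⟩ h1
      exact h1 x hx ((skel_acc_iff h hP hxP hc' hL).2 ha)
  · rintro c L y P hc' hL h1 ⟨hP, x, hxP, hx⟩ ha
    have h2 := (in_Acc x c L).1 ((skel_acc_iff h hP hxP hc' hL).2 ha)
    obtain ⟨z, ⟨hz, hz'⟩, -⟩ := accPt_iff_nhds.1 h2 (f y) ((f y).isOpen.mem_nhds hx)
    exact (he.nH_iff _ _).1 h1 z hz hz'
  · rintro y s ⟨-, x, hxP, hx⟩ -
    have h1 := hxP.nbhd (f y).isOpen hx
    have hi : Function.Injective fun st : Step => 3 * encode st := fun a b hab =>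
      encode_injective (by simpa using hab)
    refine (h1.preimage hi.injOn).subset fun st hst h2 => hst ?_
    rw [he.leP_iff, hc]
    exact fun z hz => h2 z hz
  · intro s hs
    obtain ⟨x, hx⟩ := exists_pt (pc_bigT h) (bigT_addrP S (P := some (e, s)) hs)
    refine ⟨hs, x, hx, ?_⟩
    rw [hc]
    exact hx.mem
  · intro st s
    rw [he.leP_iff, hc, hc]
    exact cylC_mono (List.prefix_append _ _)
  · intro s s' hl hne
    rw [he.djP_iff, hc, hc]
    exact cylC_disjoint (addr_incomp e hl hne) (addr_incomp e hl.symm hne.symm)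
  · intro c L s hc' hL hs h1
    rw [nT, he.nH_iff, hc]
    intro x hx hin
    obtain ⟨s', h2, h3, h4⟩ := (hs_top_addr h hs hc' hL).1 ⟨x, hx, hin⟩
    exact h1 s' h2 h3 h4
  · intro l
    obtain ⟨V, hV⟩ := skb_sup f l
    refine ⟨f.symm V, fun y hy => ?_, fun z hz => ?_, fun c L h1 => ?_⟩
    · rw [he.leP_iff, f.apply_symm_apply]
      exact fun x hx => (hV x).2 ⟨y, hy, hx⟩
    · rw [he.leP_iff, f.apply_symm_apply]
      intro x hx
      obtain ⟨y, hy, hx'⟩ := (hV x).1 hx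
      exact (he.leP_iff _ _).1 (hz y hy) hx'
    · rw [nT, he.nH_iff, f.apply_symm_apply]
      intro x hx
      obtain ⟨y, hy, hx'⟩ := (hV x).1 hx
      exact (he.nH_iff _ _).1 (h1 y hy) x hx'
  · rintro c L y P hc' hL ⟨hP, x, hxP, hx⟩ ha
    have h1 : x ∉ closure {z : XT (bigT S) | In (cTop c L) z} := by
      rw [closure_eq_self_union_derivedSet]
      rintro (h2 | h2)
      · exact skel_not_top h hP hxP hL h2
      · exact ha ((skel_acc_iff h hP hxP hc' hL).1 ((in_Acc x c L).2 h2))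
    obtain ⟨V, hV, hxV, hVU⟩ := compact_exists_isClopen_in_isOpen
      ((f y).isOpen.inter isClosed_closure.isOpen_compl) (⟨hx, h1⟩ : x ∈ (f y : Set _) ∩ _ᶜ)
    refine ⟨f.symm ⟨V, hV⟩, ?_, ⟨hP, x, hxP, ?_⟩, ?_⟩
    · rw [he.leP_iff, f.apply_symm_apply]
      exact fun z hz => (hVU hz).1
    · rw [f.apply_symm_apply]
      exact hxV
    · rw [nT, he.nH_iff, f.apply_symm_apply]
      exact fun z hz hin => (hVU hz).2 (subset_closure hin)

end Pool.Agent.P.MP_9f8894_lc
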