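import Mathlib
import Pool.Agent.P.MP_9f8894_lc.BaseCx
import Pool.Agent.P.MP_9f8894_lc.Post

/-! Package RecCx: complexity of the recursive definitions. -/

set_option autoImplicit false
open Encodable Denumerable Filter TopologicalSpace
open scoped Classical

namespace Pool.Agent.P.MP_9f8894_lc

variable {W : Wit} {B : Bot}

/-- The called families. The tag is `0` LW, `1` Cert, `2` not Cert, `3` F1W, `4` not F1W,
`5` not Good; the last number codes the remaining data. -/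
def envR (W : Wit) (B : Bot) : Env (ℕ × (ℕ × ℕ × Path) × ℕ) where
  pr := fun a =>
    if a.1 = 0 then LW W B a.2.1.1 a.2.1.2.1 a.2.1.2.2 (ofNat (Hist × ℕ) a.2.2).1
      (ofNat (Hist × ℕ) a.2.2).2
    else if a.1 = 1 then Cert W B a.2.1.1 a.2.1.2.1 a.2.1.2.2 (ofNat Hist a.2.2)
    else if a.1 = 2 then ¬ Cert W B a.2.1.1 a.2.1.2.1 a.2.1.2.2 (ofNat Hist a.2.2)
    else if a.1 = 3 then F1W W B a.2.1.1 a.2.1.2.1 a.2.1.2.2 a.2.2
    else if a.1 = 4 then ¬ F1W W B a.2.1.1 a.2.1.2.1 a.2.1.2.2 a.2.2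
    else ¬ Good W B a.2.1.1 a.2.1.2.1 a.2.1.2.2 (ofNat RAdr a.2.2)
  lv := fun a => if a.1 = 0 then 20 + a.2.1.2.1 else 21 + a.2.1.2.1
  rk := fun a => if a.1 = 0 then 3 * a.2.1.2.1 else if a.1 ≤ 4 then 3 * a.2.1.2.1 + 1
    else 3 * a.2.1.2.1 + 2

/-- Substitution, padding and change of presentation in one step. -/
theorem rc_use {X : Orc} {α β γ : Type} [Primcodable α] [Primcodable β] [Primcodable γ]
    {E : Env α} {ρ ℓ : β → ℕ} {D : β → Prop} (h : URel X E ρ ℓ D) (hl : Primrec ℓ) {f : γ → β}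
    (hf : Primrec f) {ρ' ℓ' : γ → ℕ} {D' : γ → Prop} (hρ : ∀ c, ρ (f c) ≤ ρ' c)
    (hℓ : ∀ c, ℓ (f c) ≤ ℓ' c) (hD : ∀ c, D (f c) ↔ D' c) : URel X E ρ' ℓ' D' :=
  ((h.comp hf.computableIn).pad (hl.comp hf).computableIn hℓ).congr hρ (fun _ => rfl) hD

theorem rc_call {γ : Type} [Primcodable γ] (t : ℕ) {g : γ → ℕ} (hg : Primrec g) :
    URel zero (envR W B) (fun p : (ℕ × ℕ × Path) × γ => (envR W B).rk (t, p.1, g p.2) + 1)
      (fun p => (envR W B).lv (t, p.1, g p.2)) fun p => (envR W B).pr (t, p.1, g p.2) :=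
  (URel.call zero (envR W B)).comp (f := fun p : (ℕ × ℕ × Path) × γ => (t, p.1, g p.2))
    ((Primrec.const t).pair (Primrec.fst.pair (hg.comp Primrec.snd))).computableIn

/-- The procedure number is primitive recursive. -/
theorem rc_j {γ : Type} [Primcodable γ] : Primrec fun p : (ℕ × ℕ × Path) × γ => p.1.2.1 :=
  Primrec.fst.comp (Primrec.snd.comp Primrec.fst)

theorem rc_lv {γ : Type} [Primcodable γ] (n : ℕ) :
    Primrec fun p : (ℕ × ℕ × Path) × γ => n + p.1.2.1 :=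
  Primrec.nat_add.comp (Primrec.const n) rc_j

theorem rc_lv0 (n : ℕ) : Primrec fun p : ℕ × ℕ × Path => n + p.2.1 :=
  Primrec.nat_add.comp (Primrec.const n) (Primrec.fst.comp Primrec.snd)

/-- The test whether the procedure number is zero. -/
theorem rc_j0 {γ : Type} [Primcodable γ] :
    CI zero fun p : (ℕ × ℕ × Path) × γ => decide (p.1.2.1 = 0) :=
  ci_of_eq (ci_pred (X := zero) (Primrec.eq.comp rc_j (Primrec.const 0))) fun _ => by congr

/-- One procedure down. -/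
theorem rc_dn : Primrec fun a : ℕ × ℕ × Path => ((a.1, a.2.1 - 1, a.2.2) : ℕ × ℕ × Path) :=
  Primrec.fst.pair ((Primrec.nat_sub.comp (Primrec.fst.comp Primrec.snd) (Primrec.const 1)).pair
    (Primrec.snd.comp Primrec.snd))

/-- One more session on the path. -/
theorem rc_push {γ : Type} [Primcodable γ] {a : γ → ℕ × ℕ × Path} {L : γ → Hist}
    (ha : Primrec a) (hL : Primrec L) :
    Primrec fun c => (((a c).1, (a c).2.1, L c :: (a c).2.2) : ℕ × ℕ × Path) :=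
  (Primrec.fst.comp ha).pair ((Primrec.fst.comp (Primrec.snd.comp ha)).pair
    (Primrec.list_cons.comp hL (Primrec.snd.comp (Primrec.snd.comp ha))))

theorem call_LW : URel zero (envR W B) (fun p : (ℕ × ℕ × Path) × Hist × ℕ => 3 * p.1.2.1 + 1)
    (fun p => 20 + p.1.2.1) fun p => LW W B p.1.1 p.1.2.1 p.1.2.2 p.2.1 p.2.2 := by
  refine (rc_call (γ := Hist × ℕ) 0 Primrec.encode).congr (fun p => ?_) (fun p => ?_) fun p => ?_
  · simp [envR]
  · simp [envR]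
  · have h : ofNat (Hist × ℕ) (encode p.2) = p.2 := Denumerable.ofNat_encode p.2
    simp only [envR, if_true, h]

theorem call_Cert : URel zero (envR W B) (fun p : (ℕ × ℕ × Path) × Hist => 3 * p.1.2.1 + 2)
    (fun p => 21 + p.1.2.1) fun p => Cert W B p.1.1 p.1.2.1 p.1.2.2 p.2 := by
  refine (rc_call (γ := Hist) 1 Primrec.encode).congr (fun p => ?_) (fun p => ?_) fun p => ?_
  · simp [envR]
  · simp [envR]
  · have h : ofNat Hist (encode p.2) = p.2 := Denumerable.ofNat_encode p.2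
    simp [envR, h]

theorem call_nCert : URel zero (envR W B) (fun p : (ℕ × ℕ × Path) × Hist => 3 * p.1.2.1 + 2)
    (fun p => 21 + p.1.2.1) fun p => ¬ Cert W B p.1.1 p.1.2.1 p.1.2.2 p.2 := by
  refine (rc_call (γ := Hist) 2 Primrec.encode).congr (fun p => ?_) (fun p => ?_) fun p => ?_
  · simp [envR]
  · simp [envR]
  · have h : ofNat Hist (encode p.2) = p.2 := Denumerable.ofNat_encode p.2
    simp [envR, h]

theorem call_F1W : URel zero (envR W B) (fun p : (ℕ × ℕ × Path) × ℕ => 3 * p.1.2.1 + 2)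
    (fun p => 21 + p.1.2.1) fun p => F1W W B p.1.1 p.1.2.1 p.1.2.2 p.2 := by
  refine (rc_call (γ := ℕ) 3 Primrec.id).congr (fun p => ?_) (fun p => ?_) fun p => ?_
  · simp [envR]
  · simp [envR]
  · simp [envR]

theorem call_nF1W : URel zero (envR W B) (fun p : (ℕ × ℕ × Path) × ℕ => 3 * p.1.2.1 + 2)
    (fun p => 21 + p.1.2.1) fun p => ¬ F1W W B p.1.1 p.1.2.1 p.1.2.2 p.2 := by
  refine (rc_call (γ := ℕ) 4 Primrec.id).congr (fun p => ?_) (fun p => ?_) fun p => ?_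
  · simp [envR]
  · simp [envR]
  · simp [envR]

theorem call_nGood : URel zero (envR W B) (fun p : (ℕ × ℕ × Path) × RAdr => 3 * p.1.2.1 + 3)
    (fun p => 21 + p.1.2.1) fun p => ¬ Good W B p.1.1 p.1.2.1 p.1.2.2 p.2 := by
  refine (rc_call (γ := RAdr) 5 Primrec.encode).congr (fun p => ?_) (fun p => ?_) fun p => ?_
  · simp [envR]
  · simp [envR]
  · have h : ofNat RAdr (encode p.2) = p.2 := Denumerable.ofNat_encode p.2
    simp [envR, h]

theorem upi_notKT (hb : BotCx B) : UPi zero (fun p : ℕ × ℕ × Path => 21 + p.2.1)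
    fun p => ¬ KT B p.1 p.2.1 p.2.2 := by
  have hd : CI (Jn zero 20) fun q : (ℕ × ℕ × Path) × ℕ => !decide (B.Dn q.1.1 q.1.2.2 q.2) :=
    ci_not (ci_of_eq (ci_comp hb.dn (f := fun p : (ℕ × Path) × ℕ => decide (B.Dn p.1.1 p.1.2 p.2))
      (g := fun q : (ℕ × ℕ × Path) × ℕ => ((q.1.1, q.1.2.2), q.2))
      (((Primrec.fst.comp Primrec.fst).pair
        (Primrec.snd.comp (Primrec.snd.comp Primrec.fst))).pair Primrec.snd).computableIn)
      fun _ => rfl)
  have h1 := UPi.all (ℓ := fun _ : ℕ × ℕ × Path => 20 + 1) (dec_upi hd) fun _ => by omega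
  have h2 := UPi.nex (ℓ := fun p : ℕ × ℕ × Path => 21 + (p.2.1 - 1))
    (upi_notKref.comp (f := fun q : (ℕ × ℕ × Path) × ℕ =>
      (((q.1.1, q.1.2.1 - 1, q.1.2.2) : ℕ × ℕ × Path), q.2))
      ((rc_dn.comp Primrec.fst).pair Primrec.snd).computableIn)
  have hj : CI zero fun p : ℕ × ℕ × Path => decide (p.2.1 = 0) :=
    ci_of_eq (ci_pred (X := zero)
      (Primrec.eq.comp (Primrec.fst.comp Primrec.snd) (Primrec.const 0))) fun _ => by congr
  refine UPi.cases hj h1 h2 ?_ ?_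
  · rintro ⟨e, j, π⟩ hp
    have hj0 : j = 0 := by simpa using hp
    subst hj0
    refine ⟨rfl, ?_⟩
    simp [KT]
  · rintro ⟨e, j, π⟩ hp
    have hj0 : j ≠ 0 := by simpa using hp
    obtain ⟨j, rfl⟩ := Nat.exists_eq_succ_of_ne_zero hj0
    refine ⟨by simp only [Nat.succ_eq_add_one]; omega, ?_⟩
    simp [KT]

/-- Never leaving. -/
theorem rc_nLeave : URel zero (envR W B) (fun p : (ℕ × ℕ × Path) × Hist => 3 * p.1.2.1 + 1)
    (fun p => 21 + p.1.2.1) fun p => ¬ Leave W B p.1.1 p.1.2.1 p.1.2.2 p.2 := by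
  have h := URel.nex (ρ := fun p : (ℕ × ℕ × Path) × Hist => 3 * p.1.2.1 + 1)
    (ℓ := fun p => 20 + p.1.2.1)
    ((call_LW (W := W) (B := B)).comp
      (f := fun q : ((ℕ × ℕ × Path) × Hist) × ℕ => (q.1.1, q.1.2, q.2))
      ((Primrec.fst.comp Primrec.fst).pair
        ((Primrec.snd.comp Primrec.fst).pair Primrec.snd)).computableIn)
  refine h.congr (fun _ => le_rfl) (fun p => by omega) fun p => ?_
  simp [Leave]

/-- The finishing witnesses. -/
theorem rc_FW : URel zero (envR W B) (fun p : (ℕ × ℕ × Path) × ℕ => 3 * p.1.2.1)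
    (fun p => 20 + p.1.2.1) fun p => FW W B p.1.1 p.1.2.1 p.1.2.2 p.2 := by
  have hy : Primrec fun p : (ℕ × ℕ × Path) × ℕ => ofNat (Hist × ℕ) p.2 :=
    (Primrec.ofNat _).comp Primrec.snd
  have ha : Primrec fun p : (ℕ × ℕ × Path) × ℕ =>
      ((p.1.1, p.1.2.1 - 1, p.1.2.2) : ℕ × ℕ × Path) := rc_dn.comp Primrec.fst
  have h0 : URel zero (envR W B) (fun p : (ℕ × ℕ × Path) × ℕ => 3 * p.1.2.1)
      (fun p => 20 + p.1.2.1) fun _ => true = true :=
    URel.dec (p := fun _ => true) (ComputableIn.const _) _ _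
  have h1 : URel zero (envR W B) (fun p : (ℕ × ℕ × Path) × ℕ => 3 * (p.1.2.1 - 1) + 2)
      (fun p => 21 + (p.1.2.1 - 1))
      fun p => Cert W B p.1.1 (p.1.2.1 - 1) p.1.2.2 (ofNat (Hist × ℕ) p.2).1 :=
    rc_use call_Cert (rc_lv 21) (ha.pair (Primrec.fst.comp hy)) (fun _ => le_rfl)
      (fun _ => le_rfl) fun _ => Iff.rfl
  have h2 : URel zero (envR W B) (fun p : (ℕ × ℕ × Path) × ℕ => 3 * (p.1.2.1 - 1) + 2)
      (fun p => 21 + (p.1.2.1 - 1))
      fun p => ¬ Leave W B p.1.1 (p.1.2.1 - 1) p.1.2.2 (ofNat (Hist × ℕ) p.2).1 :=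
    rc_use rc_nLeave (rc_lv 21) (ha.pair (Primrec.fst.comp hy)) (fun _ => Nat.le_succ _)
      (fun _ => le_rfl) fun _ => Iff.rfl
  have h3 : URel zero (envR W B) (fun p : (ℕ × ℕ × Path) × ℕ => 3 * (p.1.2.1 - 1) + 2)
      (fun p => 21 + (p.1.2.1 - 1))
      fun p => F1W W B p.1.1 (p.1.2.1 - 1) ((ofNat (Hist × ℕ) p.2).1 :: p.1.2.2)
        (ofNat (Hist × ℕ) p.2).2 :=
    rc_use call_F1W (rc_lv 21) ((rc_push ha (Primrec.fst.comp hy)).pair (Primrec.snd.comp hy))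
      (fun _ => le_rfl) (fun _ => le_rfl) fun _ => Iff.rfl
  refine URel.cases rc_j0 h0 (h1.and (h2.and h3 fun _ => by omega) fun _ => by omega) ?_ ?_
  · rintro ⟨⟨e, j, π⟩, y⟩ hp
    have hj0 : j = 0 := by simpa using hp
    subst hj0
    exact ⟨le_rfl, rfl, iff_of_true rfl (FW_zero W B e π y)⟩
  · rintro ⟨⟨e, j, π⟩, y⟩ hp
    have hj0 : j ≠ 0 := by simpa using hp
    obtain ⟨j, rfl⟩ := Nat.exists_eq_add_one_of_ne_zero hj0
    refine ⟨by dsimp only; omega, by dsimp only; omega, ?_⟩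
    simp only [Nat.add_sub_cancel]
    exact (FW_succ W B e j π y).symm

theorem body_LW (hc : WitCx W) :
    URel zero (envR W B) (fun p : (ℕ × ℕ × Path) × Hist × ℕ => 3 * p.1.2.1)
      (fun p => 20 + p.1.2.1) fun p => LW W B p.1.1 p.1.2.1 p.1.2.2 p.2.1 p.2.2 := by
  have hL : Primrec fun p : (ℕ × ℕ × Path) × Hist × ℕ => p.2.1 := Primrec.fst.comp Primrec.snd
  have hw : Primrec fun p : (ℕ × ℕ × Path) × Hist × ℕ => p.2.2 := Primrec.snd.comp Primrec.snd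
  have hw2 : Primrec fun p : (ℕ × ℕ × Path) × Hist × ℕ => p.2.2 / 2 :=
    Primrec.nat_div.comp hw (Primrec.const 2)
  have hu : Primrec fun p : (ℕ × ℕ × Path) × Hist × ℕ => (p.2.2 / 2).unpair.1.unpair :=
    Primrec.unpair.comp (Primrec.fst.comp (Primrec.unpair.comp hw2))
  have hev : CI zero fun p : (ℕ × ℕ × Path) × Hist × ℕ => decide (p.2.2 % 2 = 0) :=
    ci_of_eq (ci_pred (X := zero) (Primrec.eq.comp
      (Primrec.nat_mod.comp hw (Primrec.const 2)) (Primrec.const 0))) fun _ => by congr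
  have h1 : URel zero (envR W B) (fun p : (ℕ × ℕ × Path) × Hist × ℕ => 3 * p.1.2.1)
      (fun p => 20 + p.1.2.1)
      fun p => W.KW p.1.1 p.1.2.1 p.1.2.2 (idx p.2.1).1 (p.2.2 / 2) :=
    rc_use (hc.kw.urel _ fun _ => 0) (rc_lv 20)
      (Primrec.fst.pair ((Primrec.fst.comp (primrec_idx.comp hL)).pair hw2))
      (fun _ => Nat.zero_le _) (fun _ => le_rfl) fun _ => Iff.rfl
  have h2 : URel zero (envR W B) (fun p : (ℕ × ℕ × Path) × Hist × ℕ => 3 * p.1.2.1)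
      (fun p => 20 + p.1.2.1)
      fun p => W.NV p.1.1 p.1.2.1 p.1.2.2 p.2.1 (p.2.2 / 2).unpair.1.unpair.1 :=
    rc_use (hc.nv.urel _ fun _ => 0) (rc_lv 20)
      (Primrec.fst.pair (hL.pair (Primrec.fst.comp hu)))
      (fun _ => Nat.zero_le _) (fun _ => le_rfl) fun _ => Iff.rfl
  have h3 : URel zero (envR W B) (fun p : (ℕ × ℕ × Path) × Hist × ℕ => 3 * p.1.2.1)
      (fun p => 20 + p.1.2.1)
      fun p => W.NX p.1.1 p.1.2.1 p.2.1 (p.2.2 / 2).unpair.1.unpair.1 :=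
    rc_use (hc.nx.urel _ fun _ => 0)
      (Primrec.nat_add.comp (Primrec.const 20) (Primrec.snd.comp Primrec.fst))
      (((Primrec.fst.comp Primrec.fst).pair rc_j).pair (hL.pair (Primrec.fst.comp hu)))
      (fun _ => Nat.zero_le _) (fun _ => le_rfl) fun _ => Iff.rfl
  have h4 : URel zero (envR W B) (fun p : (ℕ × ℕ × Path) × Hist × ℕ => 3 * p.1.2.1)
      (fun p => 20 + p.1.2.1)
      fun p => FW W B p.1.1 p.1.2.1 (p.2.1 :: p.1.2.2) (p.2.2 / 2).unpair.1.unpair.2 :=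
    rc_use rc_FW (rc_lv 20) ((rc_push Primrec.fst hL).pair (Primrec.snd.comp hu))
      (fun _ => le_rfl) (fun _ => le_rfl) fun _ => Iff.rfl
  have hle : PrimrecPred fun p : (ℕ × ℕ × Path) × Hist × ℕ => (idx p.2.1).2 ≤ p.2.2 :=
    Primrec.nat_le.comp (Primrec.snd.comp (primrec_idx.comp hL)) hw
  refine URel.cases hev h1
    (URel.andp hle (h2.or (h3.and h4 fun _ => by omega) fun _ => by omega)) ?_ ?_
  · intro p hp
    have h : p.2.2 % 2 = 0 := by simpa using hp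
    refine ⟨le_rfl, rfl, ?_⟩
    rw [LW_iff, if_pos h]
  · intro p hp
    have h : ¬ p.2.2 % 2 = 0 := by simpa using hp
    refine ⟨le_rfl, rfl, ?_⟩
    rw [LW_iff, if_neg h]

theorem body_F1W (hb : BotCx B) :
    URel zero (envR W B) (fun p : (ℕ × ℕ × Path) × ℕ => 3 * p.1.2.1 + 1)
      (fun p => 21 + p.1.2.1) (fun p => F1W W B p.1.1 p.1.2.1 p.1.2.2 p.2) ∧
    URel zero (envR W B) (fun p : (ℕ × ℕ × Path) × ℕ => 3 * p.1.2.1 + 1)
      (fun p => 21 + p.1.2.1) fun p => ¬ F1W W B p.1.1 p.1.2.1 p.1.2.2 p.2 := by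
  have hd : CI (Jn zero 20) fun q : (ℕ × ℕ × Path) × ℕ => decide (B.Dn q.1.1 q.1.2.2 q.2) :=
    ci_of_eq (ci_comp hb.dn (f := fun p : (ℕ × Path) × ℕ => decide (B.Dn p.1.1 p.1.2 p.2))
      (g := fun q : (ℕ × ℕ × Path) × ℕ => ((q.1.1, q.1.2.2), q.2))
      (((Primrec.fst.comp Primrec.fst).pair
        (Primrec.snd.comp (Primrec.snd.comp Primrec.fst))).pair Primrec.snd).computableIn)
      fun _ => rfl
  have hz : Primrec fun p : (ℕ × ℕ × Path) × ℕ => ofNat Hist p.2 :=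
    (Primrec.ofNat _).comp Primrec.snd
  have ha : Primrec fun p : (ℕ × ℕ × Path) × ℕ =>
      ((p.1.1, p.1.2.1 - 1, p.1.2.2) : ℕ × ℕ × Path) := rc_dn.comp Primrec.fst
  have hl22 : ∀ {γ : Type} [Primcodable γ],
      Primrec fun p : (ℕ × ℕ × Path) × γ => 21 + p.1.2.1 + 1 :=
    Primrec.succ.comp (rc_lv 21)
  have p0 := (dec_upi hd).urel (envR W B) fun _ => 0
  have n0 := (dec_upi (ci_not hd)).urel (envR W B) fun _ => 0
  have p1 : URel zero (envR W B) (fun p : (ℕ × ℕ × Path) × ℕ => 3 * (p.1.2.1 - 1) + 2)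
      (fun p => 21 + (p.1.2.1 - 1) + 1)
      fun p => Cert W B p.1.1 (p.1.2.1 - 1) p.1.2.2 (ofNat Hist p.2) :=
    rc_use call_Cert (rc_lv 21) (ha.pair hz) (fun _ => le_rfl) (fun _ => Nat.le_succ _)
      fun _ => Iff.rfl
  have n1 : URel zero (envR W B) (fun p : (ℕ × ℕ × Path) × ℕ => 3 * (p.1.2.1 - 1) + 2)
      (fun p => 21 + (p.1.2.1 - 1) + 1)
      fun p => ¬ Cert W B p.1.1 (p.1.2.1 - 1) p.1.2.2 (ofNat Hist p.2) :=
    rc_use call_nCert (rc_lv 21) (ha.pair hz) (fun _ => le_rfl) (fun _ => Nat.le_succ _)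
      fun _ => Iff.rfl
  have p2 : URel zero (envR W B) (fun p : (ℕ × ℕ × Path) × ℕ => 3 * (p.1.2.1 - 1) + 2)
      (fun p => 21 + (p.1.2.1 - 1) + 1)
      fun p => ¬ Leave W B p.1.1 (p.1.2.1 - 1) p.1.2.2 (ofNat Hist p.2) :=
    rc_use rc_nLeave (rc_lv 21) (ha.pair hz) (fun _ => Nat.le_succ _) (fun _ => Nat.le_succ _)
      fun _ => Iff.rfl
  have n2 : URel zero (envR W B) (fun p : (ℕ × ℕ × Path) × ℕ => 3 * (p.1.2.1 - 1) + 2)
      (fun p => 21 + (p.1.2.1 - 1) + 1)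
      fun p => ¬ ¬ Leave W B p.1.1 (p.1.2.1 - 1) p.1.2.2 (ofNat Hist p.2) :=
    rc_use rc_nLeave.neg hl22 (ha.pair hz) (fun _ => Nat.le_succ _) (fun _ => le_rfl)
      fun _ => Iff.rfl
  have p3 : URel zero (envR W B) (fun p : (ℕ × ℕ × Path) × ℕ => 3 * (p.1.2.1 - 1) + 2)
      (fun p => 21 + (p.1.2.1 - 1) + 1)
      fun p => KT B p.1.1 (p.1.2.1 - 1) (ofNat Hist p.2 :: p.1.2.2) :=
    rc_use ((upi_notKT hb).neg.urel _ fun _ => 0) (Primrec.succ.comp (rc_lv0 21)) (rc_push ha hz)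
      (fun _ => Nat.zero_le _) (fun _ => le_rfl) fun _ => not_not
  have n3 : URel zero (envR W B) (fun p : (ℕ × ℕ × Path) × ℕ => 3 * (p.1.2.1 - 1) + 2)
      (fun p => 21 + (p.1.2.1 - 1) + 1)
      fun p => ¬ KT B p.1.1 (p.1.2.1 - 1) (ofNat Hist p.2 :: p.1.2.2) :=
    rc_use ((upi_notKT hb).urel _ fun _ => 0) (rc_lv0 21) (rc_push ha hz)
      (fun _ => Nat.zero_le _) (fun _ => Nat.le_succ _) fun _ => Iff.rfl
  constructor
  · refine URel.cases rc_j0 p0 (p1.and (p2.and p3 fun _ => by omega) fun _ => by omega) ?_ ?_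
    · rintro ⟨⟨e, j, π⟩, z⟩ hp
      have hj0 : j = 0 := by simpa using hp
      subst hj0
      refine ⟨Nat.zero_le _, rfl, ?_⟩
      simp [F1W_zero]
    · rintro ⟨⟨e, j, π⟩, z⟩ hp
      have hj0 : j ≠ 0 := by simpa using hp
      obtain ⟨j, rfl⟩ := Nat.exists_eq_add_one_of_ne_zero hj0
      refine ⟨by dsimp only; omega, by dsimp only; omega, ?_⟩
      simp only [Nat.add_sub_cancel]
      exact (F1W_succ W B e j π z).symm
  · refine URel.cases rc_j0 n0 (n1.or (n2.or n3 fun _ => by omega) fun _ => by omega) ?_ ?_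
    · rintro ⟨⟨e, j, π⟩, z⟩ hp
      have hj0 : j = 0 := by simpa using hp
      subst hj0
      refine ⟨Nat.zero_le _, rfl, ?_⟩
      simp [F1W_zero]
    · rintro ⟨⟨e, j, π⟩, z⟩ hp
      have hj0 : j ≠ 0 := by simpa using hp
      obtain ⟨j, rfl⟩ := Nat.exists_eq_add_one_of_ne_zero hj0
      refine ⟨by dsimp only; omega, by dsimp only; omega, ?_⟩
      simp only [Nat.add_sub_cancel]
      rw [F1W_succ, not_and_or, not_and_or]

end Pool.Agent.P.MP_9f8894_lc
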