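import Mathlib
import Pool.Agent.P.MP_9f8894_lc.RecCx

/-! Package RecCxB: complexity of the recursive definitions, part 2. -/

set_option autoImplicit false
open Encodable Denumerable Filter TopologicalSpace
open scoped Classical

namespace Pool.Agent.P.MP_9f8894_lc

variable {W : Wit} {B : Bot}

theorem rb_nodup {α : Type} [Primcodable α] : PrimrecPred fun l : List α => l.Nodup := by
  have h1 : PrimrecRel fun (k : ℕ) (y : List α × ℕ) => ¬ y.1[k]? = y.1[y.2]? :=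
    PrimrecPred.not (Primrec.eq.comp
      (Primrec.list_getElem?.comp (Primrec.fst.comp Primrec.snd) Primrec.fst)
      (Primrec.list_getElem?.comp (Primrec.fst.comp Primrec.snd) (Primrec.snd.comp Primrec.snd)))
  have h2 : PrimrecRel fun (i : ℕ) (l : List α) => ∀ k ∈ List.range i, ¬ l[k]? = l[i]? := by
    have h := h1.forall_mem_list.comp (Primrec.list_range.comp (Primrec.fst (α := ℕ) (β := List α)))
      ((Primrec.snd (α := ℕ) (β := List α)).pair Primrec.fst)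
    exact h
  refine (h2.forall_mem_list.comp (Primrec.list_range.comp Primrec.list_length)
    Primrec.id).of_eq fun l => ?_
  simp only [List.mem_range, id]
  rw [List.nodup_iff_getElem?_ne_getElem?]
  exact ⟨fun h i j hij hj => h j hj i hij, fun h j hj i hij => h i j hij hj⟩

theorem rb_certOf (lw bd : Hist → ℕ → Prop) (L : Hist) : certOf lw bd L ↔
    ∀ m < L.length,
      (lw (L.drop (m + 1)) (L.getD m (0, 0)).1 ∧
        ∀ w < (L.getD m (0, 0)).1, ¬ lw (L.drop (m + 1)) w) ∧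
      (bd (L.drop (m + 1)) (L.getD m (0, 0)).2 ∧
        ∀ b < (L.getD m (0, 0)).2, ¬ bd (L.drop (m + 1)) b) := by
  induction L with
  | nil => simp [certOf]
  | cons q L ih =>
    rw [certOf, ih, List.length_cons, Nat.forall_lt_succ_left]
    simp only [List.getD_cons_zero, List.getD_cons_succ, List.drop_succ_cons, List.drop_zero,
      Nat.zero_add]
    exact and_comm

/-- No long list of good addresses. -/
theorem rb_R : URel zero (envR W B)
    (fun p : (ℕ × ℕ × Path) × Hist × ℕ => 3 * (p.1.2.1 - 1) + 3) (fun p => 21 + (p.1.2.1 - 1))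
    fun p => ∀ l : List RAdr, l.Nodup → l.length = p.2.2 + 1 →
      ∃ ρ ∈ l, ¬ Good W B p.1.1 (p.1.2.1 - 1) (p.2.1 :: p.1.2.2) ρ := by
  have ha : Primrec fun q : (((ℕ × ℕ × Path) × Hist × ℕ) × List RAdr) × RAdr =>
      ((q.1.1.1.1, q.1.1.1.2.1 - 1, q.1.1.1.2.2) : ℕ × ℕ × Path) :=
    rc_dn.comp (Primrec.fst.comp (Primrec.fst.comp Primrec.fst))
  have hL : Primrec fun q : (((ℕ × ℕ × Path) × Hist × ℕ) × List RAdr) × RAdr => q.1.1.2.1 :=
    Primrec.fst.comp (Primrec.snd.comp (Primrec.fst.comp Primrec.fst))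
  have h1 : URel zero (envR W B)
      (fun q : (((ℕ × ℕ × Path) × Hist × ℕ) × List RAdr) × RAdr => 3 * (q.1.1.1.2.1 - 1) + 3)
      (fun q => 21 + (q.1.1.1.2.1 - 1))
      fun q => ¬ Good W B q.1.1.1.1 (q.1.1.1.2.1 - 1) (q.1.1.2.1 :: q.1.1.1.2.2) q.2 :=
    rc_use call_nGood (rc_lv 21) ((rc_push ha hL).pair Primrec.snd) (fun _ => le_rfl)
      (fun _ => le_rfl) fun _ => Iff.rfl
  have h2 := URel.bex
    (ρ := fun q : ((ℕ × ℕ × Path) × Hist × ℕ) × List RAdr => 3 * (q.1.1.2.1 - 1) + 3)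
    (ℓ := fun q => 21 + (q.1.1.2.1 - 1)) (l := fun q => q.2) Primrec.snd.computableIn h1
    fun _ => by omega
  have hn : PrimrecPred fun q : ((ℕ × ℕ × Path) × Hist × ℕ) × List RAdr => q.2.Nodup :=
    rb_nodup.comp Primrec.snd
  have hl : PrimrecPred fun q : ((ℕ × ℕ × Path) × Hist × ℕ) × List RAdr =>
      q.2.length = q.1.2.2 + 1 :=
    Primrec.eq.comp (Primrec.list_length.comp Primrec.snd)
      (Primrec.succ.comp (Primrec.snd.comp (Primrec.snd.comp Primrec.fst)))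
  exact URel.all (ρ := fun p : (ℕ × ℕ × Path) × Hist × ℕ => 3 * (p.1.2.1 - 1) + 3)
    (ℓ := fun p => 21 + (p.1.2.1 - 1)) (URel.imp hn (URel.imp hl h2)) fun _ => by omega

/-- The bound condition and its negation. -/
theorem rb_Bnd :
    URel zero (envR W B) (fun p : (ℕ × ℕ × Path) × Hist × ℕ => 3 * p.1.2.1 + 1)
      (fun p => 21 + p.1.2.1) (fun p => Bnd W B p.1.1 p.1.2.1 p.1.2.2 p.2.1 p.2.2) ∧
    URel zero (envR W B) (fun p : (ℕ × ℕ × Path) × Hist × ℕ => 3 * p.1.2.1 + 1)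
      (fun p => 21 + p.1.2.1) fun p => ¬ Bnd W B p.1.1 p.1.2.1 p.1.2.2 p.2.1 p.2.2 := by
  have hf : Primrec fun p : (ℕ × ℕ × Path) × Hist × ℕ => (p.1, p.2.1) :=
    Primrec.fst.pair (Primrec.fst.comp Primrec.snd)
  have hl : Primrec fun p : (ℕ × ℕ × Path) × Hist × ℕ => 21 + (p.1.2.1 - 1) :=
    Primrec.nat_add.comp (Primrec.const 21) (Primrec.nat_sub.comp rc_j (Primrec.const 1))
  have p0 : URel zero (envR W B) (fun p : (ℕ × ℕ × Path) × Hist × ℕ => 3 * p.1.2.1 + 1)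
      (fun p => 21 + p.1.2.1) fun _ => true = true :=
    URel.dec (p := fun _ => true) (ComputableIn.const _) _ _
  have n0 : URel zero (envR W B) (fun p : (ℕ × ℕ × Path) × Hist × ℕ => 3 * p.1.2.1 + 1)
      (fun p => 21 + p.1.2.1) fun _ => false = true :=
    URel.dec (p := fun _ => false) (ComputableIn.const _) _ _
  have w1 : URel zero (envR W B) (fun p : (ℕ × ℕ × Path) × Hist × ℕ => 3 * (p.1.2.1 - 1) + 3)
      (fun p => 21 + (p.1.2.1 - 1) + 1) fun p => Wval p.1.1 p.1.2.1 p.1.2.2 p.2.1 :=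
    rc_use (upi_Wval.urel _ fun _ => 0) (rc_lv 20) hf (fun _ => Nat.zero_le _)
      (fun p => by dsimp only; omega) fun _ => Iff.rfl
  have w2 : URel zero (envR W B) (fun p : (ℕ × ℕ × Path) × Hist × ℕ => 3 * (p.1.2.1 - 1) + 3)
      (fun p => 21 + (p.1.2.1 - 1) + 1) fun p => ¬ Wval p.1.1 p.1.2.1 p.1.2.2 p.2.1 :=
    rc_use (upi_Wval.neg.urel _ fun _ => 0) (Primrec.succ.comp (rc_lv 20)) hf
      (fun _ => Nat.zero_le _) (fun p => by dsimp only; omega) fun _ => Iff.rfl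
  have r1 := (rb_R (W := W) (B := B)).pad (ℓ' := fun p => 21 + (p.1.2.1 - 1) + 1)
    hl.computableIn fun _ => Nat.le_succ _
  have r2 := (rb_R (W := W) (B := B)).neg
  constructor
  · refine URel.cases rc_j0 p0 (w2.or r1 fun _ => by omega) ?_ ?_
    · rintro ⟨⟨e, j, π⟩, L, b⟩ hp
      have hj0 : j = 0 := by simpa using hp
      subst hj0
      exact ⟨le_rfl, rfl, iff_of_true rfl (Bnd_zero W B e π L b)⟩
    · rintro ⟨⟨e, j, π⟩, L, b⟩ hp
      have hj0 : j ≠ 0 := by simpa using hp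
      obtain ⟨j, rfl⟩ := Nat.exists_eq_add_one_of_ne_zero hj0
      refine ⟨by dsimp only; omega, by dsimp only; omega, ?_⟩
      simp only [Nat.add_sub_cancel]
      rw [Bnd_succ]
      exact imp_iff_not_or.symm
  · refine URel.cases rc_j0 n0 (w1.and r2 fun _ => by omega) ?_ ?_
    · rintro ⟨⟨e, j, π⟩, L, b⟩ hp
      have hj0 : j = 0 := by simpa using hp
      subst hj0
      exact ⟨le_rfl, rfl, iff_of_false Bool.false_ne_true fun h => h (Bnd_zero W B e π L b)⟩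
    · rintro ⟨⟨e, j, π⟩, L, b⟩ hp
      have hj0 : j ≠ 0 := by simpa using hp
      obtain ⟨j, rfl⟩ := Nat.exists_eq_add_one_of_ne_zero hj0
      refine ⟨by dsimp only; omega, by dsimp only; omega, ?_⟩
      simp only [Nat.add_sub_cancel]
      rw [Bnd_succ]
      exact Classical.not_imp.symm

/-- Least witnesses of a condition given with its negation. -/
theorem rb_least {D : (ℕ × ℕ × Path) × Hist × ℕ → Prop}
    (hp : URel zero (envR W B) (fun p : (ℕ × ℕ × Path) × Hist × ℕ => 3 * p.1.2.1 + 1)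
      (fun p => 21 + p.1.2.1) D)
    (hn : URel zero (envR W B) (fun p : (ℕ × ℕ × Path) × Hist × ℕ => 3 * p.1.2.1 + 1)
      (fun p => 21 + p.1.2.1) fun p => ¬ D p) :
    URel zero (envR W B) (fun p : (ℕ × ℕ × Path) × Hist × ℕ => 3 * p.1.2.1 + 1)
      (fun p => 21 + p.1.2.1) (fun p => D p ∧ ∀ w < p.2.2, ¬ D (p.1, p.2.1, w)) ∧
    URel zero (envR W B) (fun p : (ℕ × ℕ × Path) × Hist × ℕ => 3 * p.1.2.1 + 1)
      (fun p => 21 + p.1.2.1) fun p => ¬ (D p ∧ ∀ w < p.2.2, ¬ D (p.1, p.2.1, w)) := by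
  have hf : Primrec fun q : ((ℕ × ℕ × Path) × Hist × ℕ) × ℕ => (q.1.1, q.1.2.1, q.2) :=
    (Primrec.fst.comp Primrec.fst).pair
      ((Primrec.fst.comp (Primrec.snd.comp Primrec.fst)).pair Primrec.snd)
  have hw : CI zero fun p : (ℕ × ℕ × Path) × Hist × ℕ => p.2.2 :=
    (Primrec.snd.comp Primrec.snd).computableIn
  have hn' : URel zero (envR W B)
      (fun q : ((ℕ × ℕ × Path) × Hist × ℕ) × ℕ => 3 * q.1.1.2.1 + 1) (fun q => 21 + q.1.1.2.1)
      fun q => ¬ D (q.1.1, q.1.2.1, q.2) :=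
    rc_use hn (rc_lv 21) hf (fun _ => le_rfl) (fun _ => le_rfl) fun _ => Iff.rfl
  have hp' : URel zero (envR W B)
      (fun q : ((ℕ × ℕ × Path) × Hist × ℕ) × ℕ => 3 * q.1.1.2.1 + 1) (fun q => 21 + q.1.1.2.1)
      fun q => D (q.1.1, q.1.2.1, q.2) :=
    rc_use hp (rc_lv 21) hf (fun _ => le_rfl) (fun _ => le_rfl) fun _ => Iff.rfl
  have h1 := URel.balllt (ρ := fun p : (ℕ × ℕ × Path) × Hist × ℕ => 3 * p.1.2.1 + 1)
    (ℓ := fun p => 21 + p.1.2.1) hw hn' fun _ => by omega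
  have h2 := URel.bexlt (ρ := fun p : (ℕ × ℕ × Path) × Hist × ℕ => 3 * p.1.2.1 + 1)
    (ℓ := fun p => 21 + p.1.2.1) hw hp' fun _ => by omega
  refine ⟨hp.and h1 fun _ => by omega,
    (hn.or h2 fun _ => by omega).congr (fun _ => le_rfl) (fun _ => rfl) fun p => ?_⟩
  rw [not_and_or]
  refine or_congr Iff.rfl ?_
  simp

theorem body_Cert :
    URel zero (envR W B) (fun p : (ℕ × ℕ × Path) × Hist => 3 * p.1.2.1 + 1)
      (fun p => 21 + p.1.2.1) (fun p => Cert W B p.1.1 p.1.2.1 p.1.2.2 p.2) ∧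
    URel zero (envR W B) (fun p : (ℕ × ℕ × Path) × Hist => 3 * p.1.2.1 + 1)
      (fun p => 21 + p.1.2.1) fun p => ¬ Cert W B p.1.1 p.1.2.1 p.1.2.2 p.2 := by
  have lp : URel zero (envR W B) (fun p : (ℕ × ℕ × Path) × Hist × ℕ => 3 * p.1.2.1 + 1)
      (fun p => 21 + p.1.2.1) fun p => LW W B p.1.1 p.1.2.1 p.1.2.2 p.2.1 p.2.2 :=
    call_LW.pad (rc_lv 20).computableIn fun _ => by omega
  have ln : URel zero (envR W B) (fun p : (ℕ × ℕ × Path) × Hist × ℕ => 3 * p.1.2.1 + 1)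
      (fun p => 21 + p.1.2.1) fun p => ¬ LW W B p.1.1 p.1.2.1 p.1.2.2 p.2.1 p.2.2 :=
    call_LW.neg.congr (fun _ => le_rfl) (fun _ => by omega) fun _ => Iff.rfl
  obtain ⟨a1, a2⟩ := rb_least lp ln
  obtain ⟨b1, b2⟩ := rb_least (rb_Bnd (W := W) (B := B)).1 rb_Bnd.2
  have hd : Primrec fun q : ((ℕ × ℕ × Path) × Hist) × ℕ => q.1.2.drop (q.2 + 1) :=
    Primrec.list_drop.comp (Primrec.succ.comp Primrec.snd) (Primrec.snd.comp Primrec.fst)
  have hg : Primrec fun q : ((ℕ × ℕ × Path) × Hist) × ℕ => q.1.2.getD q.2 (0, 0) :=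
    (Primrec.list_getD (0, 0)).comp (Primrec.snd.comp Primrec.fst) Primrec.snd
  have f1 : Primrec fun q : ((ℕ × ℕ × Path) × Hist) × ℕ =>
      (q.1.1, q.1.2.drop (q.2 + 1), (q.1.2.getD q.2 (0, 0)).1) :=
    (Primrec.fst.comp Primrec.fst).pair (hd.pair (Primrec.fst.comp hg))
  have f2 : Primrec fun q : ((ℕ × ℕ × Path) × Hist) × ℕ =>
      (q.1.1, q.1.2.drop (q.2 + 1), (q.1.2.getD q.2 (0, 0)).2) :=
    (Primrec.fst.comp Primrec.fst).pair (hd.pair (Primrec.snd.comp hg))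
  have hlen : CI zero fun p : (ℕ × ℕ × Path) × Hist => p.2.length :=
    (Primrec.list_length.comp Primrec.snd).computableIn
  have use : ∀ {D : (ℕ × ℕ × Path) × Hist × ℕ → Prop} {g : ((ℕ × ℕ × Path) × Hist) × ℕ → Hist × ℕ},
      URel zero (envR W B) (fun p : (ℕ × ℕ × Path) × Hist × ℕ => 3 * p.1.2.1 + 1)
        (fun p => 21 + p.1.2.1) D → (Primrec fun q => (q.1.1, g q)) →
      URel zero (envR W B) (fun q : ((ℕ × ℕ × Path) × Hist) × ℕ => 3 * q.1.1.2.1 + 1)
        (fun q => 21 + q.1.1.2.1) fun q => D (q.1.1, g q) := fun h hg =>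
    rc_use h (rc_lv 21) hg (fun _ => le_rfl) (fun _ => le_rfl) fun _ => Iff.rfl
  have c1 := (use a1 f1).and (use b1 f2) fun _ => by omega
  have c2 := (use a2 f1).or (use b2 f2) fun _ => by omega
  have h1 := URel.balllt (ρ := fun p : (ℕ × ℕ × Path) × Hist => 3 * p.1.2.1 + 1)
    (ℓ := fun p => 21 + p.1.2.1) hlen c1 fun _ => by omega
  have h2 := URel.bexlt (ρ := fun p : (ℕ × ℕ × Path) × Hist => 3 * p.1.2.1 + 1)
    (ℓ := fun p => 21 + p.1.2.1) hlen c2 fun _ => by omega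
  constructor
  · refine h1.congr (fun _ => le_rfl) (fun _ => rfl) fun p => ?_
    rw [Cert_eq, rb_certOf]
  · refine h2.congr (fun _ => le_rfl) (fun _ => rfl) fun p => ?_
    rw [Cert_eq, rb_certOf]
    constructor
    · rintro ⟨m, hm, h⟩ H
      exact h.elim (fun h => h (H m hm).1) fun h => h (H m hm).2
    · intro H
      by_contra hc
      refine H fun m hm => ?_
      by_contra hm'
      exact hc ⟨m, hm, not_and_or.1 hm'⟩

end Pool.Agent.P.MP_9f8894_lc
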