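import Mathlib
import Pool.Agent.P.MP_9f8894_lc.RecCxB

/-! Package RecCxC: complexity of the recursive definitions, part 3. -/

set_option autoImplicit false
open Encodable Denumerable Filter TopologicalSpace
open scoped Classical

namespace Pool.Agent.P.MP_9f8894_lc

variable {W : Wit} {B : Bot}

namespace RCC

/-- Composition with a primitive recursive map, with padding. -/
theorem rcomp {α β γ : Type} [Primcodable α] [Primcodable β] [Primcodable γ] {E : Env α}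
    {ρ ℓ : β → ℕ} {D : β → Prop} (h : URel zero E ρ ℓ D) {f : γ → β} (hf : Primrec f)
    (hℓ : Primrec ℓ) {ρ' ℓ' : γ → ℕ} {D' : γ → Prop} (hρ : ∀ c, ρ (f c) ≤ ρ' c)
    (hl : ∀ c, ℓ (f c) ≤ ℓ' c) (hD : ∀ c, D (f c) ↔ D' c) : URel zero E ρ' ℓ' D' :=
  ((h.comp hf.computableIn).pad (hℓ.comp hf).computableIn hl).congr hρ (fun _ => rfl) hD

theorem ucomp {α β γ : Type} [Primcodable α] [Primcodable β] [Primcodable γ] {E : Env α}
    {ℓ : β → ℕ} {D : β → Prop} (h : UPi zero ℓ D) {f : γ → β} (hf : Primrec f)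
    (hℓ : Primrec ℓ) {ρ' ℓ' : γ → ℕ} {D' : γ → Prop}
    (hl : ∀ c, ℓ (f c) ≤ ℓ' c) (hD : ∀ c, D (f c) ↔ D' c) : URel zero E ρ' ℓ' D' :=
  rcomp (h.urel E fun _ => 0) hf hℓ (fun _ => Nat.zero_le _) hl hD

abbrev A := ℕ × ℕ × Path

theorem lvp {δ : Type} [Primcodable δ] (c : ℕ) : Primrec fun p : A × δ => c + p.1.2.1 :=
  Primrec.nat_add.comp (Primrec.const c) (Primrec.fst.comp (Primrec.snd.comp Primrec.fst))

theorem pe : Primrec fun a : A => a.1 := Primrec.fst
theorem pj : Primrec fun a : A => a.2.1 := Primrec.fst.comp Primrec.snd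
theorem pp : Primrec fun a : A => a.2.2 := Primrec.snd.comp Primrec.snd

theorem jz {δ : Type} [Primcodable δ] : CI zero fun p : A × δ => decide (p.1.2.1 = 0) :=
  ci_of_eq (ci_pred (X := zero) (Primrec.eq.comp (pj.comp (Primrec.fst (β := δ)))
    (Primrec.const 0))) fun _ => by congr

/-- The negation of a predicate decided by the twentieth jump. -/
theorem upi_not {β : Type} [Primcodable β] {P : β → Prop}
    (h : CI (Jn zero 20) fun b => decide (P b)) : UPi zero (fun _ => 21) fun b => ¬ P b :=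
  (dec_upi (ci_not h)).congr (fun _ => rfl) fun b => by simp

theorem notUp_iff (e j : ℕ) (π : Path) (n : ℕ) : ¬ Up W e j π n ↔
    π ≠ [] ∧ ∃ w < n, W.KW e (j + 1) π.tail (idx π.headI).1 w := by
  unfold Up
  cases π with
  | nil => simp
  | cons L π' => simp

abbrev PP := A × Hist × ℕ

theorem p_re (hb : BotCx B) : URel zero (envR W B) (fun p : PP => 3 * p.1.2.1 + 2)
    (fun p => 21 + p.1.2.1) fun p => ¬ B.Re p.1.1 p.1.2.2 p.2.1 p.2.2 :=
  ucomp (upi_not hb.re) (f := fun p : PP => ((p.1.1, p.1.2.2), p.2))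
    (((pe.comp Primrec.fst).pair (pp.comp Primrec.fst)).pair Primrec.snd) (Primrec.const 21)
    (fun _ => Nat.le_add_right _ _) fun _ => Iff.rfl

theorem p_cert : URel zero (envR W B) (fun p : PP => 3 * p.1.2.1 + 2)
    (fun p => 21 + p.1.2.1) fun p => ¬ Cert W B p.1.1 p.1.2.1 p.1.2.2 p.2.1 :=
  rcomp call_nCert (f := fun p : PP => (p.1, p.2.1))
    (Primrec.fst.pair (Primrec.fst.comp Primrec.snd)) (lvp 21)
    (fun _ => le_rfl) (fun _ => le_rfl) fun _ => Iff.rfl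

theorem p_wval : URel zero (envR W B) (fun p : PP => 3 * p.1.2.1 + 2)
    (fun p => 21 + p.1.2.1) fun p => ¬ Wval p.1.1 p.1.2.1 p.1.2.2 p.2.1 :=
  ucomp upi_Wval.neg (f := fun p : PP => (p.1, p.2.1))
    (Primrec.fst.pair (Primrec.fst.comp Primrec.snd)) (Primrec.succ.comp (lvp 20))
    (fun _ => by simp only; omega) fun _ => Iff.rfl

theorem p_lw : URel zero (envR W B) (fun p : PP => 3 * p.1.2.1 + 2)
    (fun p => 21 + p.1.2.1) fun p => ∃ w < p.2.2, LW W B p.1.1 p.1.2.1 p.1.2.2 p.2.1 w := by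
  have h : URel zero (envR W B) (fun q : PP × ℕ => 3 * q.1.1.2.1 + 2)
      (fun q => 21 + q.1.1.2.1) fun q => LW W B q.1.1.1 q.1.1.2.1 q.1.1.2.2 q.1.2.1 q.2 :=
    rcomp call_LW (f := fun q : PP × ℕ => (q.1.1, q.1.2.1, q.2))
      ((Primrec.fst.comp Primrec.fst).pair
        ((Primrec.fst.comp (Primrec.snd.comp Primrec.fst)).pair Primrec.snd)) (lvp 20)
      (fun _ => by simp only; omega) (fun _ => by simp only; omega) fun _ => Iff.rfl
  exact URel.bexlt (ρ := fun p : PP => 3 * p.1.2.1 + 2) (ℓ := fun p => 21 + p.1.2.1)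
    (n := fun p : PP => p.2.2) (Primrec.snd.comp Primrec.snd).computableIn h
    fun _ => by omega

theorem p_up (hc : WitCx W) : URel zero (envR W B) (fun p : PP => 3 * p.1.2.1 + 2)
    (fun p => 21 + p.1.2.1) fun p => ¬ Up W p.1.1 p.1.2.1 p.1.2.2 (p.2.1.length + p.2.2) := by
  have a1 : Primrec fun q : PP × ℕ => q.1.1 := Primrec.fst.comp Primrec.fst
  have f1 : Primrec fun q : PP × ℕ =>
      (((q.1.1.1, q.1.1.2.1 + 1, q.1.1.2.2.tail), (idx q.1.1.2.2.headI).1, q.2) : A × ℕ × ℕ) :=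
    ((pe.comp a1).pair ((Primrec.succ.comp (pj.comp a1)).pair
      (Primrec.list_tail.comp (pp.comp a1)))).pair
      ((Primrec.fst.comp (primrec_idx.comp (Primrec.list_headI.comp (pp.comp a1)))).pair
        Primrec.snd)
  have h : URel zero (envR W B) (fun q : PP × ℕ => 3 * q.1.1.2.1 + 2)
      (fun q => 21 + q.1.1.2.1) fun q =>
        W.KW q.1.1.1 (q.1.1.2.1 + 1) q.1.1.2.2.tail (idx q.1.1.2.2.headI).1 q.2 :=
    ucomp hc.kw f1 (lvp 20) (fun _ => by simp only; omega) fun _ => Iff.rfl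
  have h2 := URel.bexlt (ρ := fun p : PP => 3 * p.1.2.1 + 2) (ℓ := fun p => 21 + p.1.2.1)
    (n := fun p : PP => p.2.1.length + p.2.2)
    (Primrec.nat_add.comp (Primrec.list_length.comp (Primrec.fst.comp Primrec.snd))
      (Primrec.snd.comp Primrec.snd)).computableIn h fun _ => by omega
  have h3 : PrimrecPred fun p : PP => p.1.2.2 ≠ [] :=
    (Primrec.eq.comp (pp.comp Primrec.fst) (Primrec.const [])).not
  exact (URel.andp h3 h2).congr (fun _ => le_rfl) (fun _ => rfl) fun p =>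
    (notUp_iff (W := W) p.1.1 p.1.2.1 p.1.2.2 (p.2.1.length + p.2.2)).symm

theorem p_kref : URel zero (envR W B) (fun p : PP => 3 * p.1.2.1 + 2)
    (fun p => 21 + p.1.2.1) fun p =>
      ∃ i < p.2.2, ¬ Kref p.1.1 (p.1.2.1 - 1) (p.2.1 :: p.1.2.2) i := by
  have a1 : Primrec fun q : PP × ℕ => q.1.1 := Primrec.fst.comp Primrec.fst
  have f1 : Primrec fun q : PP × ℕ =>
      (((q.1.1.1, q.1.1.2.1 - 1, q.1.2.1 :: q.1.1.2.2), q.2) : A × ℕ) :=
    ((pe.comp a1).pair ((Primrec.nat_sub.comp (pj.comp a1) (Primrec.const 1)).pair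
      (Primrec.list_cons.comp (Primrec.fst.comp (Primrec.snd.comp Primrec.fst))
        (pp.comp a1)))).pair Primrec.snd
  have h : URel zero (envR W B) (fun q : PP × ℕ => 3 * q.1.1.2.1 + 2)
      (fun q => 21 + q.1.1.2.1) fun q =>
        ¬ Kref q.1.1.1 (q.1.1.2.1 - 1) (q.1.2.1 :: q.1.1.2.2) q.2 :=
    ucomp upi_notKref f1 (lvp 21) (fun _ => by simp only; omega) fun _ => Iff.rfl
  exact URel.bexlt (ρ := fun p : PP => 3 * p.1.2.1 + 2) (ℓ := fun p => 21 + p.1.2.1)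
    (n := fun p : PP => p.2.2) (Primrec.snd.comp Primrec.snd).computableIn h
    fun _ => by omega

end RCC

open RCC in
theorem rel_nPrd (hc : WitCx W) (hb : BotCx B) :
    URel zero (envR W B) (fun p : (ℕ × ℕ × Path) × Hist × ℕ => 3 * p.1.2.1 + 2)
      (fun p => 21 + p.1.2.1) fun p => ¬ Prd W B p.1.1 p.1.2.1 p.1.2.2 p.2.1 p.2.2 := by
  have h2 : ∀ b : PP, 2 ≤ 21 + b.1.2.1 := fun _ => by omega
  have hs := (p_cert (W := W) (B := B)).or ((p_wval).or ((p_lw).or ((p_up hc).or p_kref h2) h2)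
    h2) h2
  refine URel.cases jz (p_re hb) hs (fun b hb => ⟨le_rfl, rfl, ?_⟩)
    fun b hb => ⟨le_rfl, rfl, ?_⟩
  · obtain ⟨⟨e, j, π⟩, L, k⟩ := b
    obtain rfl : j = 0 := by simpa using hb
    exact Iff.rfl
  · obtain ⟨⟨e, j, π⟩, L, k⟩ := b
    have hj : j ≠ 0 := by simpa using hb
    obtain ⟨j, rfl⟩ := Nat.exists_eq_succ_of_ne_zero hj
    simp only [Nat.succ_eq_add_one, Nat.add_sub_cancel]
    rw [Prd_succ]
    simp only [not_and_or, not_forall, not_not, exists_prop]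

open RCC in
theorem rel_Cov : URel zero (envR W B) (fun p : (ℕ × ℕ × Path) × Hist => 3 * p.1.2.1 + 2)
    (fun p => 21 + p.1.2.1) fun p => ¬ NCov W B p.1.1 p.1.2.1 p.1.2.2 p.2 := by
  have a1 : Primrec fun q : (A × Hist) × ℕ => q.1.1 := Primrec.fst.comp Primrec.fst
  have h1 : URel zero (envR W B) (fun q : (A × Hist) × ℕ => 3 * q.1.1.2.1 + 2)
      (fun q => 20 + q.1.1.2.1) fun q => LW W B q.1.1.1 q.1.1.2.1 q.1.1.2.2 q.1.2 q.2 :=
    rcomp call_LW (f := fun q : (A × Hist) × ℕ => (q.1.1, q.1.2, q.2))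
      (a1.pair ((Primrec.snd.comp Primrec.fst).pair Primrec.snd)) (lvp 20)
      (fun _ => by simp only; omega) (fun _ => le_rfl) fun _ => Iff.rfl
  have h1' := (URel.nex (ρ := fun p : A × Hist => 3 * p.1.2.1 + 2)
    (ℓ := fun p => 20 + p.1.2.1) h1).congr (ρ' := fun p => 3 * p.1.2.1 + 2)
    (ℓ' := fun p => 21 + p.1.2.1) (fun _ => le_rfl) (fun _ => by omega)
    fun _ => Iff.rfl
  have f2 : Primrec fun q : (A × Hist) × ℕ =>
      (((q.1.1.1, q.1.1.2.1, q.1.2 :: q.1.1.2.2), q.2) : A × ℕ) :=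
    ((pe.comp a1).pair ((pj.comp a1).pair
      (Primrec.list_cons.comp (Primrec.snd.comp Primrec.fst) (pp.comp a1)))).pair Primrec.snd
  have h2 : URel zero (envR W B) (fun q : (A × Hist) × ℕ => 3 * q.1.1.2.1 + 2)
      (fun q => 21 + q.1.1.2.1) fun q =>
        ¬ F1W W B q.1.1.1 q.1.1.2.1 (q.1.2 :: q.1.1.2.2) q.2 :=
    rcomp call_nF1W f2 (lvp 21) (fun _ => le_rfl) (fun _ => le_rfl) fun _ => Iff.rfl
  have h2' := URel.all (ρ := fun p : A × Hist => 3 * p.1.2.1 + 2)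
    (ℓ := fun p => 21 + p.1.2.1) h2 fun _ => by omega
  refine (h1'.and h2' fun _ => by omega).congr (fun _ => le_rfl) (fun _ => rfl) fun p => ?_
  simp only [NCov, Leave, Fin1, not_or, not_exists]

namespace RCC

theorem nGood_zero (e : ℕ) (π : Path) (ρ : RAdr) : ¬ Good W B e 0 π ρ ↔
    ¬ Prd W B e 0 π ρ.headI.1 ρ.headI.2 ∨ (ρ.length ≠ 1 ∧
      ((ρ.length = 2 ∧ ρ.tail.headI.1 = []) → (¬ NCov W B e 0 π ρ.headI.1 ∨
        ¬ B.Act e π ρ.headI.1 ρ.headI.2 ρ.tail.headI.2))) := by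
  rw [Good_zero, Prd_zero]
  rcases ρ with _ | ⟨⟨L, k⟩, _ | ⟨⟨L', n⟩, _ | ⟨c, ρ⟩⟩⟩
  · simp
  · simp
  · simp only [List.headI_cons, List.tail_cons, List.length_cons, List.length_nil]
    constructor
    · intro h
      by_contra h'
      push Not at h'
      obtain ⟨h1, h2⟩ := h'
      obtain ⟨⟨-, h3⟩, h4, h5⟩ := h2 (by omega)
      subst h3
      exact h ⟨L, k, h1, Or.inr ⟨n, rfl, h4, h5⟩⟩
    · rintro h ⟨L1, k1, h1, h2 | ⟨n1, h2, h3, h4⟩⟩
      · simp at h2
      · simp only [List.cons.injEq, Prod.mk.injEq, and_true] at h2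
        obtain ⟨⟨rfl, rfl⟩, rfl, rfl⟩ := h2
        rcases h with h | ⟨-, h⟩
        · exact h h1
        · rcases h ⟨by simp, rfl⟩ with h | h
          · exact h h3
          · exact h h4
  · simp

theorem nGood_succ (e j : ℕ) (π : Path) (ρ : RAdr) : ¬ Good W B e (j + 1) π ρ ↔
    (ρ ≠ [] → (¬ Prd W B e (j + 1) π ρ.headI.1 ρ.headI.2 ∨ (ρ.tail ≠ [] ∧
      (¬ NCov W B e (j + 1) π ρ.headI.1 ∨ ¬ Good W B e j (ρ.headI.1 :: π) ρ.tail)))) := by
  rw [Good_succ]
  rcases ρ with _ | ⟨⟨L, k⟩, ρ⟩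
  · simp
  · simp only [List.headI_cons, List.tail_cons]
    constructor
    · intro h _
      by_contra h'
      push Not at h'
      obtain ⟨h1, h2⟩ := h'
      refine h ⟨L, k, ρ, rfl, h1, ?_⟩
      by_cases h3 : ρ = []
      · exact Or.inl h3
      · exact Or.inr (h2 h3)
    · rintro h ⟨L1, k1, ρ1, h0, h1, h2⟩
      simp only [List.cons.injEq, Prod.mk.injEq] at h0
      obtain ⟨⟨rfl, rfl⟩, rfl⟩ := h0
      rcases h (List.cons_ne_nil _ _) with h | ⟨h3, h⟩
      · exact h h1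
      · rcases h2 with h2 | ⟨h4, h5⟩
        · exact h3 h2
        · rcases h with h | h
          · exact h h4
          · exact h h5

abbrev PG := A × RAdr

theorem ghead : Primrec fun p : PG => p.2.headI := Primrec.list_headI.comp Primrec.snd

theorem g_prd (hc : WitCx W) (hb : BotCx B) (r : PG → ℕ) (hr : ∀ p, 3 * p.1.2.1 + 2 ≤ r p) :
    URel zero (envR W B) r (fun p => 21 + p.1.2.1)
      fun p => ¬ Prd W B p.1.1 p.1.2.1 p.1.2.2 p.2.headI.1 p.2.headI.2 :=
  rcomp (rel_nPrd hc hb) (f := fun p : PG => (p.1, p.2.headI)) (Primrec.fst.pair ghead)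
    (lvp 21) hr (fun _ => le_rfl) fun _ => Iff.rfl

theorem g_cov (r : PG → ℕ) (hr : ∀ p, 3 * p.1.2.1 + 2 ≤ r p) :
    URel zero (envR W B) r (fun p => 21 + p.1.2.1)
      fun p => ¬ NCov W B p.1.1 p.1.2.1 p.1.2.2 p.2.headI.1 :=
  rcomp rel_Cov (f := fun p : PG => (p.1, p.2.headI.1))
    (Primrec.fst.pair (Primrec.fst.comp ghead)) (lvp 21) hr (fun _ => le_rfl) fun _ => Iff.rfl

theorem g_act (hb : BotCx B) (r : PG → ℕ) :
    URel zero (envR W B) r (fun p => 21 + p.1.2.1)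
      fun p => ¬ B.Act p.1.1 p.1.2.2 p.2.headI.1 p.2.headI.2 p.2.tail.headI.2 := by
  have f1 : Primrec fun p : PG =>
      ((((p.1.1, p.1.2.2), p.2.headI), p.2.tail.headI.2) : ((ℕ × Path) × Hist × ℕ) × ℕ) :=
    (((pe.comp Primrec.fst).pair (pp.comp Primrec.fst)).pair ghead).pair
      (Primrec.snd.comp (Primrec.list_headI.comp (Primrec.list_tail.comp Primrec.snd)))
  exact ucomp (upi_not hb.act) f1 (Primrec.const 21) (fun _ => Nat.le_add_right _ _)
    fun _ => Iff.rfl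

theorem g_good : URel zero (envR W B) (fun p : PG => 3 * (p.1.2.1 - 1) + 5)
    (fun p => 21 + p.1.2.1)
      fun p => ¬ Good W B p.1.1 (p.1.2.1 - 1) (p.2.headI.1 :: p.1.2.2) p.2.tail := by
  have f1 : Primrec fun p : PG =>
      (((p.1.1, p.1.2.1 - 1, p.2.headI.1 :: p.1.2.2), p.2.tail) : PG) :=
    ((pe.comp Primrec.fst).pair ((Primrec.nat_sub.comp (pj.comp Primrec.fst)
      (Primrec.const 1)).pair (Primrec.list_cons.comp (Primrec.fst.comp ghead)
        (pp.comp Primrec.fst)))).pair (Primrec.list_tail.comp Primrec.snd)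
  exact rcomp call_nGood f1 (lvp 21) (fun _ => by simp only; omega)
    (fun _ => by simp only; omega) fun _ => Iff.rfl

end RCC

open RCC in
theorem body_nGood (hc : WitCx W) (hb : BotCx B) :
    URel zero (envR W B) (fun p : (ℕ × ℕ × Path) × RAdr => 3 * p.1.2.1 + 2)
      (fun p => 21 + p.1.2.1) fun p => ¬ Good W B p.1.1 p.1.2.1 p.1.2.2 p.2 := by
  have h2 : ∀ b : PG, 2 ≤ 21 + b.1.2.1 := fun _ => by omega
  have hlen : Primrec fun p : PG => p.2.length := Primrec.list_length.comp Primrec.snd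
  have c1 : PrimrecPred fun p : PG => p.2.length ≠ 1 :=
    (Primrec.eq.comp hlen (Primrec.const 1)).not
  have c2 : PrimrecPred fun p : PG => p.2.length = 2 ∧ p.2.tail.headI.1 = [] :=
    (Primrec.eq.comp hlen (Primrec.const 2)).and (Primrec.eq.comp
      (Primrec.fst.comp (Primrec.list_headI.comp (Primrec.list_tail.comp Primrec.snd)))
      (Primrec.const []))
  have c3 : PrimrecPred fun p : PG => p.2 ≠ [] :=
    (Primrec.eq.comp Primrec.snd (Primrec.const [])).not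
  have c4 : PrimrecPred fun p : PG => p.2.tail ≠ [] :=
    (Primrec.eq.comp (Primrec.list_tail.comp Primrec.snd) (Primrec.const [])).not
  have z := (g_prd hc hb (fun p => 3 * p.1.2.1 + 2) fun _ => le_rfl).or
    (URel.andp c1 (URel.imp c2 ((g_cov (fun p => 3 * p.1.2.1 + 2) fun _ => le_rfl).or
      (g_act hb _) h2))) h2
  have s := URel.imp c3 ((g_prd hc hb (fun p => 3 * (p.1.2.1 - 1) + 5) fun _ => by omega).or
    (URel.andp c4 ((g_cov (fun p => 3 * (p.1.2.1 - 1) + 5) fun _ => by omega).or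
      g_good h2)) h2)
  refine URel.cases jz z s (fun b hb => ⟨le_rfl, rfl, ?_⟩) fun b hb => ?_
  · obtain ⟨⟨e, j, π⟩, ρ⟩ := b
    obtain rfl : j = 0 := by simpa using hb
    exact (nGood_zero e π ρ).symm
  · obtain ⟨⟨e, j, π⟩, ρ⟩ := b
    have hj : j ≠ 0 := by simpa using hb
    obtain ⟨j, rfl⟩ := Nat.exists_eq_succ_of_ne_zero hj
    refine ⟨by simp only; omega, rfl, ?_⟩
    exact (nGood_succ e j π ρ).symm

namespace RCC

abbrev EA := ℕ × A × ℕ

theorem tagp (t : ℕ) : CI zero fun a : EA => decide (a.1 = t) :=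
  ci_of_eq (ci_pred (X := zero) (Primrec.eq.comp (Primrec.fst (β := A × ℕ))
    (Primrec.const t))) fun _ => by congr

theorem dec_map (δ : Type) [Denumerable δ] :
    Primrec fun a : EA => ((a.2.1, ofNat δ a.2.2) : A × δ) :=
  (Primrec.fst.comp Primrec.snd).pair ((Primrec.ofNat δ).comp (Primrec.snd.comp Primrec.snd))

theorem rk_prim : Primrec (envR W B).rk := by
  have hj : Primrec fun a : EA => 3 * a.2.1.2.1 :=
    Primrec.nat_mul.comp (Primrec.const 3) (pj.comp (Primrec.fst.comp Primrec.snd))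
  exact Primrec.ite (Primrec.eq.comp Primrec.fst (Primrec.const 0)) hj
    (Primrec.ite (Primrec.nat_le.comp Primrec.fst (Primrec.const 4))
      (Primrec.nat_add.comp hj (Primrec.const 1)) (Primrec.nat_add.comp hj (Primrec.const 2)))

end RCC

open RCC in
theorem upi_envR (hc : WitCx W) (hb : BotCx B) : UPi zero (envR W B).lv (envR W B).pr := by
  refine URel.fix rk_prim.computableIn ?_
  have h0 := (body_LW (B := B) hc).comp (dec_map (Hist × ℕ)).computableIn
  have h1 := (body_Cert (W := W) (B := B)).1.comp (dec_map Hist).computableIn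
  have h2 := (body_Cert (W := W) (B := B)).2.comp (dec_map Hist).computableIn
  have h3 := (body_F1W (W := W) hb).1.comp (Primrec.snd (α := ℕ) (β := A × ℕ)).computableIn
  have h4 := (body_F1W (W := W) hb).2.comp (Primrec.snd (α := ℕ) (β := A × ℕ)).computableIn
  have h5 := (body_nGood hc hb).comp (dec_map RAdr).computableIn
  have k4 : URel zero (envR W B)
      (fun a : EA => if a.1 = 4 then 3 * a.2.1.2.1 + 1 else 3 * a.2.1.2.1 + 2)
      (fun a => 21 + a.2.1.2.1) fun a =>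
        if a.1 = 4 then ¬ F1W W B a.2.1.1 a.2.1.2.1 a.2.1.2.2 a.2.2
        else ¬ Good W B a.2.1.1 a.2.1.2.1 a.2.1.2.2 (ofNat RAdr a.2.2) := by
    refine URel.cases (tagp 4) h4 h5 (fun b hb => ?_) fun b hb => ?_
    · have e : b.1 = 4 := by simpa using hb
      exact ⟨by rw [if_pos e], rfl, by rw [if_pos e]⟩
    · have e : ¬ b.1 = 4 := by simpa using hb
      exact ⟨by rw [if_neg e], rfl, by rw [if_neg e]⟩
  have k3 : URel zero (envR W B)
      (fun a : EA => if a.1 = 3 ∨ a.1 = 4 then 3 * a.2.1.2.1 + 1 else 3 * a.2.1.2.1 + 2)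
      (fun a => 21 + a.2.1.2.1) fun a =>
        if a.1 = 3 then F1W W B a.2.1.1 a.2.1.2.1 a.2.1.2.2 a.2.2
        else if a.1 = 4 then ¬ F1W W B a.2.1.1 a.2.1.2.1 a.2.1.2.2 a.2.2
        else ¬ Good W B a.2.1.1 a.2.1.2.1 a.2.1.2.2 (ofNat RAdr a.2.2) := by
    refine URel.cases (tagp 3) h3 k4 (fun b hb => ?_) fun b hb => ?_
    · have e : b.1 = 3 := by simpa using hb
      exact ⟨by rw [if_pos (Or.inl e)], rfl, by rw [if_pos e]⟩
    · have e : ¬ b.1 = 3 := by simpa using hb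
      exact ⟨by simp only [e, false_or, le_refl], rfl, by rw [if_neg e]⟩
  have k2 : URel zero (envR W B)
      (fun a : EA => if a.1 = 2 ∨ a.1 = 3 ∨ a.1 = 4 then 3 * a.2.1.2.1 + 1
        else 3 * a.2.1.2.1 + 2)
      (fun a => 21 + a.2.1.2.1) fun a =>
        if a.1 = 2 then ¬ Cert W B a.2.1.1 a.2.1.2.1 a.2.1.2.2 (ofNat Hist a.2.2)
        else if a.1 = 3 then F1W W B a.2.1.1 a.2.1.2.1 a.2.1.2.2 a.2.2
        else if a.1 = 4 then ¬ F1W W B a.2.1.1 a.2.1.2.1 a.2.1.2.2 a.2.2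
        else ¬ Good W B a.2.1.1 a.2.1.2.1 a.2.1.2.2 (ofNat RAdr a.2.2) := by
    refine URel.cases (tagp 2) h2 k3 (fun b hb => ?_) fun b hb => ?_
    · have e : b.1 = 2 := by simpa using hb
      exact ⟨by rw [if_pos (Or.inl e)], rfl, by rw [if_pos e]⟩
    · have e : ¬ b.1 = 2 := by simpa using hb
      exact ⟨by simp only [e, false_or, le_refl], rfl, by rw [if_neg e]⟩
  have k1 : URel zero (envR W B)
      (fun a : EA => if a.1 = 1 ∨ a.1 = 2 ∨ a.1 = 3 ∨ a.1 = 4 then 3 * a.2.1.2.1 + 1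
        else 3 * a.2.1.2.1 + 2)
      (fun a => 21 + a.2.1.2.1) fun a =>
        if a.1 = 1 then Cert W B a.2.1.1 a.2.1.2.1 a.2.1.2.2 (ofNat Hist a.2.2)
        else if a.1 = 2 then ¬ Cert W B a.2.1.1 a.2.1.2.1 a.2.1.2.2 (ofNat Hist a.2.2)
        else if a.1 = 3 then F1W W B a.2.1.1 a.2.1.2.1 a.2.1.2.2 a.2.2
        else if a.1 = 4 then ¬ F1W W B a.2.1.1 a.2.1.2.1 a.2.1.2.2 a.2.2
        else ¬ Good W B a.2.1.1 a.2.1.2.1 a.2.1.2.2 (ofNat RAdr a.2.2) := by
    refine URel.cases (tagp 1) h1 k2 (fun b hb => ?_) fun b hb => ?_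
    · have e : b.1 = 1 := by simpa using hb
      exact ⟨by rw [if_pos (Or.inl e)], rfl, by rw [if_pos e]⟩
    · have e : ¬ b.1 = 1 := by simpa using hb
      exact ⟨by simp only [e, false_or, le_refl], rfl, by rw [if_neg e]⟩
  refine URel.cases (tagp 0) h0 k1 (fun b hb => ?_) fun b hb => ?_
  · have e : b.1 = 0 := by simpa using hb
    simp only [envR]
    exact ⟨by rw [if_pos e], by rw [if_pos e], by rw [if_pos e]⟩
  · have e : ¬ b.1 = 0 := by simpa using hb
    simp only [envR]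
    refine ⟨?_, by rw [if_neg e], by rw [if_neg e]⟩
    rw [if_neg e]
    split_ifs <;> omega

theorem upi_nPrd (hc : WitCx W) (hb : BotCx B) :
    UPi zero (fun p : (ℕ × ℕ × Path) × Hist × ℕ => 21 + p.1.2.1)
      fun p => ¬ Prd W B p.1.1 p.1.2.1 p.1.2.2 p.2.1 p.2.2 :=
  (rel_nPrd hc hb).close (upi_envR hc hb)

theorem upi_Cov (hc : WitCx W) (hb : BotCx B) :
    UPi zero (fun p : (ℕ × ℕ × Path) × Hist => 21 + p.1.2.1)
      fun p => ¬ NCov W B p.1.1 p.1.2.1 p.1.2.2 p.2 :=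
  rel_Cov.close (upi_envR hc hb)

end Pool.Agent.P.MP_9f8894_lc
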