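import Mathlib
import Pool.Agent.P.MP_9f8894_lc.RecCxC

/-! Package RlEx: real steps and active sites. -/

set_option autoImplicit false
open Encodable Denumerable Filter TopologicalSpace
open scoped Classical

namespace Pool.Agent.P.MP_9f8894_lc

/-- The complexity of real steps and active sites. -/
structure RlCx (Y : Orc) (R : Rl) : Prop where
  rs : UPi Y (fun p : (ℕ × ℕ × Path) × Step => 21 + (p.1.2.1 - 1))
    fun p => R.RS p.1.1 p.1.2.1 p.1.2.2 p.2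
  nrs : ∃ Q : ((ℕ × ℕ × Path) × Step) × ℕ → Prop, UPi Y (fun p => 19 + p.1.1.2.1) Q ∧
    ∀ e j π st, ¬ R.RS e j π st ↔ ∃ x, Q (((e, j, π), st), x)
  aw : UPi Y (fun _ : ((ℕ × Path) × Hist × ℕ) × ℕ × ℕ => 19)
    fun p => R.AW p.1.1.1 p.1.1.2 p.1.2.1 p.1.2.2 p.2.1 p.2.2

/-- Unique witnesses for the bits of `G`. -/
theorem rl_gw {G Y : Orc} (hY : CI (Jn Y 19) G) :
    ∃ GW : ℕ × ℕ → Prop, UPi Y (fun _ => 19) GW ∧ (∀ n, G n = true ↔ ∃ w, GW (n, w)) ∧
      ∀ n w w', GW (n, w) → GW (n, w') → w = w' := by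
  have h1 : UPi Y (fun _ : ℕ => 19 + 1) fun n => (!G n) = true := dec_upi (ci_not hY)
  obtain ⟨Q, hQ, hQe⟩ := UPi.wit (ℓ := fun _ : ℕ => 19) h1
  obtain ⟨Q', hQ', he, hu⟩ := UPi.uniq (ℓ := fun _ : ℕ => 18) (Q := Q) hQ
    (Primrec.const 18).computableIn
  refine ⟨Q', hQ', fun n => ?_, hu⟩
  rw [← he, ← hQe]
  simp

/-- Unique witnesses for production. -/
theorem rl_pw {W : Wit} {B : Bot} (hc : WitCx W) (hb : BotCx B) (Y : Orc) :
    ∃ Q : ((ℕ × ℕ × Path) × Hist × ℕ) × ℕ → Prop, UPi Y (fun p => 19 + p.1.1.2.1 + 1) Q ∧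
      (∀ b : (ℕ × ℕ × Path) × Hist × ℕ,
        Prd W B b.1.1 b.1.2.1 b.1.2.2 b.2.1 b.2.2 ↔ ∃ v, Q (b, v)) ∧
      ∀ b v v', Q (b, v) → Q (b, v') → v = v' := by
  have h1 : UPi Y (fun p : (ℕ × ℕ × Path) × Hist × ℕ => 19 + p.1.2.1 + 1 + 1)
      fun p => ¬ Prd W B p.1.1 p.1.2.1 p.1.2.2 p.2.1 p.2.2 :=
    ((upi_nPrd hc hb).mono (ci_zero Y)).congr (fun b => by omega) fun _ => Iff.rfl
  obtain ⟨Q, hQ, hQe⟩ :=
    UPi.wit (ℓ := fun p : (ℕ × ℕ × Path) × Hist × ℕ => 19 + p.1.2.1 + 1) h1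
  have hl : Primrec fun p : (ℕ × ℕ × Path) × Hist × ℕ => 19 + p.1.2.1 :=
    Primrec.nat_add.comp (Primrec.const 19)
      (Primrec.fst.comp (Primrec.snd.comp Primrec.fst))
  obtain ⟨Q', hQ', he, hu⟩ :=
    UPi.uniq (ℓ := fun p : (ℕ × ℕ × Path) × Hist × ℕ => 19 + p.1.2.1) (Q := Q) hQ
      hl.computableIn
  refine ⟨Q', hQ', fun b => ?_, hu⟩
  rw [← he, ← hQe, not_not]

theorem rl_bitF : Primrec fun p : (((ℕ × Path) × Hist) × ℕ) × ℕ => bitF p.1 p.2 :=
  Primrec₂.natPair.comp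
    (Primrec.nat_mul.comp (Primrec.const 2) (Primrec.encode.comp Primrec.fst)) Primrec.snd

theorem rl_bitA : Primrec fun p : (((ℕ × Path) × Hist) × ℕ) × ℕ => bitA p.1 p.2 :=
  Primrec₂.natPair.comp
    (Primrec.succ.comp
      (Primrec.nat_mul.comp (Primrec.const 2) (Primrec.encode.comp Primrec.fst))) Primrec.snd

theorem rl_j0 {Y : Orc} :
    CI Y fun p : (ℕ × ℕ × Path) × Step => decide (p.1.2.1 = 0) := by
  have hp : PrimrecPred fun p : (ℕ × ℕ × Path) × Step => p.1.2.1 = 0 :=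
    Primrec.eq.comp (Primrec.fst.comp (Primrec.snd.comp Primrec.fst)) (Primrec.const 0)
  have h := ci_pred (X := Y) hp
  exact ci_of_eq h fun _ => by simp

theorem rl_shape : Primrec fun p : (ℕ × ℕ × Path) × Step =>
    ((p.1, p.2.1, p.2.2.1), p.2.2.2) :=
  (Primrec.fst.pair ((Primrec.fst.comp Primrec.snd).pair
    (Primrec.fst.comp (Primrec.snd.comp Primrec.snd)))).pair
    (Primrec.snd.comp (Primrec.snd.comp Primrec.snd))

theorem rl_pos : Primrec fun p : (ℕ × ℕ × Path) × Step =>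
    (((p.1.1, p.1.2.2), p.2.1), p.2.2.1) :=
  (((Primrec.fst.comp Primrec.fst).pair (Primrec.snd.comp (Primrec.snd.comp Primrec.fst))).pair
    (Primrec.fst.comp Primrec.snd)).pair (Primrec.fst.comp (Primrec.snd.comp Primrec.snd))

theorem rl_v0 : PrimrecPred fun p : (ℕ × ℕ × Path) × Step => p.2.2.2 = 0 :=
  Primrec.eq.comp (Primrec.snd.comp (Primrec.snd.comp Primrec.snd)) (Primrec.const 0)

theorem rl_re {B : Bot} (hb : BotCx B) (Y : Orc) :
    UPi Y (fun _ : (ℕ × ℕ × Path) × Step => 21)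
      fun p => p.2.2.2 = 0 ∧ B.Re p.1.1 p.1.2.2 p.2.1 p.2.2.1 := by
  have h1 := (dec_upi hb.re).mono (ci_zero Y)
  have hf : Primrec fun p : (ℕ × ℕ × Path) × Step =>
      (((p.1.1, p.1.2.2), p.2.1, p.2.2.1) : (ℕ × Path) × Hist × ℕ) :=
    ((Primrec.fst.comp Primrec.fst).pair (Primrec.snd.comp (Primrec.snd.comp Primrec.fst))).pair
      ((Primrec.fst.comp Primrec.snd).pair (Primrec.fst.comp (Primrec.snd.comp Primrec.snd)))
  have h2 := h1.comp (X := Y) hf.computableIn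
  have h3 : UPi Y (fun _ : (ℕ × ℕ × Path) × Step => 21)
      fun p => B.Re p.1.1 p.1.2.2 p.2.1 p.2.2.1 :=
    h2.congr (fun _ => rfl) fun _ => by simp
  exact UPi.andp rl_v0 h3

theorem rl_fake {Y : Orc} {GW : ℕ × ℕ → Prop} (h : UPi Y (fun _ => 19) GW) :
    UPi Y (fun _ : ((ℕ × ℕ × Path) × Step) × ℕ => 19)
      fun p => p.1.2.2.2 = 0 → GW (bitF (((p.1.1.1, p.1.1.2.2), p.1.2.1), p.1.2.2.1)
        p.2.unpair.1, p.2.unpair.2) := by
  have hf : Primrec fun p : ((ℕ × ℕ × Path) × Step) × ℕ =>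
      (bitF (((p.1.1.1, p.1.1.2.2), p.1.2.1), p.1.2.2.1) p.2.unpair.1, p.2.unpair.2) :=
    (rl_bitF.comp ((rl_pos.comp Primrec.fst).pair
      (Primrec.fst.comp (Primrec.unpair.comp Primrec.snd)))).pair
      (Primrec.snd.comp (Primrec.unpair.comp Primrec.snd))
  exact UPi.imp (rl_v0.comp Primrec.fst) (h.comp hf.computableIn)

theorem rl_act {Y : Orc} {GW : ℕ × ℕ → Prop} (h : UPi Y (fun _ => 19) GW) :
    UPi Y (fun _ : ((ℕ × Path) × Hist × ℕ) × ℕ × ℕ => 19)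
      fun p => GW (bitA ((p.1.1, p.1.2.1), p.1.2.2) p.2.1, p.2.2) := by
  have hf : Primrec fun p : ((ℕ × Path) × Hist × ℕ) × ℕ × ℕ =>
      (bitA ((p.1.1, p.1.2.1), p.1.2.2) p.2.1, p.2.2) :=
    (rl_bitA.comp ((((Primrec.fst.comp Primrec.fst).pair
      (Primrec.fst.comp (Primrec.snd.comp Primrec.fst))).pair
      (Primrec.snd.comp (Primrec.snd.comp Primrec.fst))).pair
      (Primrec.fst.comp Primrec.snd))).pair (Primrec.snd.comp Primrec.snd)
  exact h.comp hf.computableIn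

theorem exists_rl {W : Wit} {B : Bot} {G Y : Orc} (hc : WitCx W) (hb : BotCx B) (hg : BotG B G)
    (hY : CI (Jn Y 19) G) : ∃ R : Rl, RlSem W B R ∧ RlCx Y R := by
  obtain ⟨GW, hGW, hGe, hGu⟩ := rl_gw hY
  obtain ⟨Q, hQ, hQe, hQu⟩ := rl_pw hc hb Y
  have hQ1 := hQ.comp (X := Y) rl_shape.computableIn
  obtain ⟨N, hN, hNe⟩ := UPi.wit (ℓ := fun p : (ℕ × ℕ × Path) × Step => 19 + p.1.2.1) hQ1
  refine ⟨⟨fun e j π st => if j = 0 then st.2.2 = 0 ∧ B.Re e π st.1 st.2.1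
      else Q (((e, j, π), st.1, st.2.1), st.2.2),
    fun e π L k n w => GW (bitA (((e, π), L), k) n, w)⟩, ⟨?_, ?_, ?_, ?_⟩, ⟨?_, ?_, ?_⟩⟩
  · intro e j π L k
    by_cases hj : j = 0
    · subst hj
      simp [Prd]
    · simp only [hj, if_false]
      exact hQe ((e, j, π), L, k)
  · intro e j π L k v v' h h'
    by_cases hj : j = 0
    · simp only [hj, if_true] at h h'
      rw [h.1, h'.1]
    · simp only [hj, if_false] at h h'
      exact hQu _ _ _ h h'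
  · intro e π L k n
    rw [hg.act]
    exact hGe _
  · intro e π L k n w w' h h'
    exact hGu _ _ _ h h'
  · refine UPi.cases rl_j0 (rl_re hb Y) hQ1 (fun b hb' => ?_) fun b hb' => ?_
    · have hj : b.1.2.1 = 0 := by simpa using hb'
      simp [hj]
    · have hj : b.1.2.1 ≠ 0 := by simpa using hb'
      refine ⟨by simp only; omega, by simp [hj]⟩
  · refine ⟨fun p => if p.1.1.2.1 = 0 then (p.1.2.2.2 = 0 →
        GW (bitF (((p.1.1.1, p.1.1.2.2), p.1.2.1), p.1.2.2.1) p.2.unpair.1, p.2.unpair.2))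
        else N p, ?_, ?_⟩
    · have h0 := ci_comp (rl_j0 (Y := Y))
        (Primrec.fst (α := (ℕ × ℕ × Path) × Step) (β := ℕ)).computableIn
      refine UPi.cases h0 (rl_fake hGW) hN (fun b hb' => ?_) fun b hb' => ?_
      · have hj : b.1.1.2.1 = 0 := by simpa using hb'
        simp [hj]
      · have hj : b.1.1.2.1 ≠ 0 := by simpa using hb'
        simp [hj]
    · intro e j π st
      by_cases hj : j = 0
      · simp only [hj, if_true]
        constructor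
        · intro h
          by_cases hv : st.2.2 = 0
          · obtain ⟨n, hn⟩ := (hg.fake e π st.1 st.2.1).1 fun hr => h ⟨hv, hr⟩
            obtain ⟨w, hw⟩ := (hGe _).1 hn
            exact ⟨Nat.pair n w, fun _ => by simpa using hw⟩
          · exact ⟨0, fun h0 => absurd h0 hv⟩
        · rintro ⟨x, hx⟩ ⟨hv, hr⟩
          exact (hg.fake e π st.1 st.2.1).2 ⟨_, (hGe _).2 ⟨_, hx hv⟩⟩ hr
      · simp only [hj, if_false]
        exact hNe ((e, j, π), st)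
  · exact rl_act hGW

end Pool.Agent.P.MP_9f8894_lc
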