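import Mathlib
import Pool.Agent.P.MP_9f8894_lc.FmA
import Pool.Agent.P.MP_9f8894_lc.JumpA

/-! Package Switch: trees whose rank follows a formula. -/

set_option autoImplicit false
open Encodable Denumerable Filter TopologicalSpace
open scoped Classical

namespace Pool.Agent.P.MP_9f8894_lc

namespace SwitchP

/-- Lists of unique witnesses: one for each length, or finitely many in all. -/
theorem inf_iff {γ : Type} [Denumerable (List γ)] (d : γ) (A : ℕ → γ → Prop)
    (hA : ∀ j x y, A j x → A j y → x = y) :
    (∀ j, ∃ x, A j x) ↔ {c : ℕ | ∀ j < (ofNat (List γ) c).length,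
      A j ((ofNat (List γ) c).getD j d)}.Infinite := by
  constructor
  · intro h
    choose f hf using h
    refine Set.infinite_of_injective_forall_mem (f := fun n => encode ((List.range n).map f))
      (fun n m hnm => ?_) fun n => ?_
    · simpa using congrArg List.length (encode_injective hnm)
    · intro j hj
      rw [ofNat_encode] at hj ⊢
      have hj' : j < n := by simpa using hj
      simpa [List.getD_eq_getElem?_getD, hj'] using hf j
  · intro h j
    by_contra hj
    refine h (Set.Finite.of_injOn (f := fun c => (ofNat (List γ) c).length) (t := Set.Iic j)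
      (fun c hc => ?_) (fun c hc c' hc' hcc => ?_) (Set.finite_Iic j))
    · by_contra h1
      exact hj ⟨_, hc j (by simpa using h1)⟩
    · have hcc' : (ofNat (List γ) c).length = (ofNat (List γ) c').length := hcc
      have : ofNat (List γ) c = ofNat (List γ) c' := by
        refine List.ext_getElem hcc' fun i h1 h2 => ?_
        have := hA i _ _ (hc i h1) (hc' i h2)
        rwa [List.getD_eq_getElem _ _ h1, List.getD_eq_getElem _ _ h2] at this
      rw [← encode_ofNat (α := List γ) c, this, encode_ofNat]

/-- `vs` lists the least refutations of the numbers below the least `k` without refutation. -/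
def Wit (W : ℕ → ℕ → Prop) (vs : List ℕ) : Prop :=
  (∀ k v, k ≤ vs.length → v < (vs[k]?).getD (v + 1) → ¬ W k v) ∧
    ∀ k < vs.length, W k (vs.getD k 0)

theorem wit_uniq {W : ℕ → ℕ → Prop} {x y : List ℕ} (hx : Wit W x) (hy : Wit W y) : x = y := by
  have h1 : ∀ {x y : List ℕ}, Wit W x → Wit W y → ¬ x.length < y.length := fun hx hy h =>
    hx.1 _ _ le_rfl (by simp) (hy.2 _ h)
  have h2 : ∀ {x y : List ℕ}, Wit W x → Wit W y → ∀ i (h1 : i < x.length) (h2 : i < y.length),
      ¬ x[i] < y[i] := fun hx hy i h1 h2 h => by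
    have := hx.2 i h1
    rw [List.getD_eq_getElem _ _ h1] at this
    exact hy.1 i _ h2.le (by simpa [h2] using h) this
  refine List.ext_getElem (le_antisymm (not_lt.1 (h1 hy hx)) (not_lt.1 (h1 hx hy))) fun i a b => ?_
  exact le_antisymm (not_lt.1 (h2 hy hx i b a)) (not_lt.1 (h2 hx hy i a b))

theorem wit_ex (W : ℕ → ℕ → Prop) : (∃ k, ∀ v, ¬ W k v) ↔ ∃ vs, Wit W vs := by
  constructor
  · intro h
    have h1 : ∀ k, ∃ v, k < Nat.find h → W k v ∧ ∀ v' < v, ¬ W k v' := by
      intro k
      by_cases hk : k < Nat.find h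
      · have h2 : ∃ v, W k v := by simpa using Nat.find_min h hk
        exact ⟨Nat.find h2, fun _ => ⟨Nat.find_spec h2, fun v' hv => Nat.find_min h2 hv⟩⟩
      · exact ⟨0, fun h => absurd h hk⟩
    choose f hf using h1
    refine ⟨(List.range (Nat.find h)).map f, fun k v hk hv => ?_, fun k hk => ?_⟩
    · have hk' : k ≤ Nat.find h := by simpa using hk
      rcases hk'.lt_or_eq with h2 | h2
      · exact (hf k h2).2 v (by simpa [h2] using hv)
      · exact h2 ▸ Nat.find_spec h v
    · have hk' : k < Nat.find h := by simpa using hk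
      simpa [List.getD_eq_getElem?_getD, hk'] using (hf k hk').1
  · rintro ⟨vs, h⟩
    exact ⟨vs.length, fun v => h.1 _ v le_rfl (by simp)⟩

/-- A constant or a signed place of the matrix. -/
abbrev Rt := Bool × Option (List ℕ)

def app (M : List ℕ → Bool) (q : Rt) : Bool :=
  cond q.2.isSome (xor q.1 (M (q.2.getD []))) q.1

def rt' (L : List (List ℕ)) (x : ℕ × ℕ × ℕ × ℕ) (l : List ℕ) : Rt :=
  if x.2.1 < L.length ∧ x.1 = 0 ∧ x.2.2.1 ≤ (L.getD x.2.1 []).length ∧
      x.2.2.2 < ((L.getD x.2.1 [])[x.2.2.1]?).getD (x.2.2.2 + 1) then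
    (false, some (x.2.1 :: x.2.2.1 :: x.2.2.2 :: l))
  else if x.2.1 < L.length ∧ ¬ x.1 = 0 ∧ x.2.2.1 < (L.getD x.2.1 []).length then
    (true, some (x.2.1 :: x.2.2.1 :: (L.getD x.2.1 []).getD x.2.2.1 0 :: x.2.2.2 ::
      l.take (l.length - 1)))
  else (true, none)

def rt (d : ℕ) (l : List ℕ) : Rt :=
  rt' (ofNat (List (List ℕ)) d) (ofNat (ℕ × ℕ × ℕ × ℕ) l.headI) l.tail

def step (d : ℕ) (M : List ℕ → Bool) (l : List ℕ) : Bool := app M (rt d l)

def comp (d : ℕ) (q : Rt) : Rt :=
  cond q.2.isSome (xor q.1 (rt d (q.2.getD [])).1, (rt d (q.2.getD [])).2) q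

theorem app_step (d : ℕ) (M : List ℕ → Bool) (q : Rt) : app (step d M) q = app M (comp d q) := by
  obtain ⟨s, _ | l⟩ := q
  · rfl
  · simp only [app, comp, step, Option.isSome_some, cond_true, Option.getD_some]
    cases (rt d l).2.isSome <;> simp

def steps (τ : List ℕ) (M : List ℕ → Bool) (l : List ℕ) : Bool :=
  app M (τ.foldr comp (false, some l))

theorem steps_cons (d : ℕ) (τ : List ℕ) (M : List ℕ → Bool) :
    steps (d :: τ) M = steps τ (step d M) := by
  funext l
  rw [steps, steps, app_step, List.foldr_cons]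

theorem steps_nil (M : List ℕ → Bool) : steps [] M = M := by
  funext l
  simp [steps, app]

theorem not_tr_true (a : ℕ) : ¬ Tr (2 * a + 1) fun _ => true := by
  induction a with
  | zero => exact fun h => h 0 rfl
  | succ a ih => exact fun h => h 0 fun _ => ih

theorem tr_flip (n : ℕ) (M : List ℕ → Bool) :
    Tr (n + 1) (fun l => xor true (M (l.take (l.length - 1)))) ↔ Tr n M := by
  rw [← tr_pad n 1 M]
  exact tr_congr _ fun l hl => by simp [hl]

theorem tr_step (a d : ℕ) (M : List ℕ → Bool) :
    Tr (2 * a + 2) (step d M) ↔ ∀ j < (ofNat (List (List ℕ)) d).length,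
      Wit (fun k v => Tr (2 * a + 1) fun l => M (j :: k :: v :: l))
        ((ofNat (List (List ℕ)) d).getD j []) := by
  set L := ofNat (List (List ℕ)) d with hL
  have h1 : Tr (2 * a + 2) (step d M) ↔
      ∀ x : ℕ × ℕ × ℕ × ℕ, ¬ Tr (2 * a + 1) fun l => app M (rt' L x l) := by
    constructor
    · intro h x
      have := h (encode x)
      simpa only [step, rt, List.headI_cons, List.tail_cons, ofNat_encode] using this
    · intro h i
      have := h (ofNat _ i)
      simpa only [step, rt, List.headI_cons, List.tail_cons] using this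
  rw [h1]
  constructor
  · intro h j hj
    refine ⟨fun k v hk hv => ?_, fun k hk u => ?_⟩
    · have := h (0, j, k, v)
      simp only [rt', hj, hk, hv, and_self, if_true] at this
      simpa [app] using this
    · have := h (1, j, k, u)
      simp only [rt', hj, hk, one_ne_zero, false_and, and_false, if_false, not_false_eq_true,
        and_self, if_true] at this
      rw [← tr_flip]
      exact this
  · rintro h ⟨t, j, k, v⟩
    simp only [rt']
    split_ifs with c1 c2
    · simpa [app] using (h j c1.1).1 k v c1.2.2.1 c1.2.2.2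
    · have := (h j c2.1).2 k c2.2.2 v
      rw [← tr_flip] at this
      exact this
    · exact not_tr_true a

theorem step_inf (a : ℕ) (M : List ℕ → Bool) :
    Tr (2 * a + 4) M ↔ {d | Tr (2 * a + 2) (step d M)}.Infinite := by
  simp only [tr_step]
  rw [← inf_iff [] (fun j => Wit fun k v => Tr (2 * a + 1) fun l => M (j :: k :: v :: l))
    fun _ _ _ => wit_uniq]
  refine forall_congr' fun j => ?_
  rw [← wit_ex]
  exact not_forall_not

/-- The last step: `c` codes a list of least witnesses. -/
noncomputable def last (c : ℕ) (M : List ℕ → Bool) : Bool :=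
  decide (∀ j < (ofNat (List ℕ) c).length,
    decide (∀ k < (ofNat (List ℕ) c).getD j 0 + 1,
      (M [j, k] == decide (k = (ofNat (List ℕ) c).getD j 0)) = true) = true)

theorem last_inf (M : List ℕ → Bool) : Tr 2 M ↔ {c | last c M = true}.Infinite := by
  simp only [last, decide_eq_true_eq]
  rw [← inf_iff 0 (fun j x => ∀ k < x + 1, (M [j, k] == decide (k = x)) = true)]
  · refine forall_congr' fun j => ?_
    refine (not_forall_not (p := fun k => M [j, k] = true)).trans ⟨fun h => ⟨Nat.find h, ?_⟩, ?_⟩
    · intro k hk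
      rcases (Nat.lt_succ_iff.1 hk).lt_or_eq with h2 | h2
      · simpa [h2.ne] using Nat.find_min h h2
      · simpa [h2] using Nat.find_spec h
    · rintro ⟨x, hx⟩
      exact ⟨x, by simpa using hx x (Nat.lt_succ_self x)⟩
  · have key : ∀ j x y, (∀ k < x + 1, (M [j, k] == decide (k = x)) = true) →
        (∀ k < y + 1, (M [j, k] == decide (k = y)) = true) → ¬ x < y := fun j x y hx hy h => by
      have h1 := hx x (Nat.lt_succ_self x)
      have h2 := hy x (by omega)
      simp [h.ne] at h1 h2
      simp [h1] at h2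
    exact fun j x y hx hy => le_antisymm (not_lt.1 (key j y x hy hx)) (not_lt.1 (key j x y hx hy))

noncomputable def tree (a : ℕ) (M : List ℕ → Bool) (τ : List ℕ) : Bool :=
  if τ.length < a then true else if a < τ.length then false else if a = 0 then M [] else
    last (τ.getD (a - 1) 0) (steps (τ.take (a - 1)) M)

theorem spec_zero (M : List ℕ → Bool) : Spec 0 (fun τ => tree 0 M τ = true) (M [] = true) := by
  constructor <;> intro h <;> funext τ <;> cases τ <;> simp [tree, atom, lim, emp, h]

theorem spec_tree (a : ℕ) (M : List ℕ → Bool) :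
    Spec a (fun τ => tree a M τ = true) (Tr (2 * a) M) := by
  rcases a with _ | a
  · exact spec_zero M
  induction a generalizing M with
  | zero =>
    refine ⟨fun c τ => tree 0 (fun _ => last c M) τ = true, fun c => last c M = true, ?_,
      fun c => spec_zero _, last_inf M⟩
    funext τ
    rcases τ with _ | ⟨c, _ | ⟨c', τ⟩⟩ <;> simp [tree, lim, steps_nil]
  | succ a ih =>
    refine ⟨fun d τ => tree (a + 1) (step d M) τ = true, fun d => Tr (2 * (a + 1)) (step d M), ?_,
      fun d => ih _, step_inf a M⟩
    funext τ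
    rcases τ with _ | ⟨d, τ⟩ <;> simp [tree, lim, steps_cons]

theorem prim_rt' : Primrec fun p : List (List ℕ) × (ℕ × ℕ × ℕ × ℕ) × List ℕ =>
    rt' p.1 p.2.1 p.2.2 := by
  have hx : Primrec fun p : List (List ℕ) × (ℕ × ℕ × ℕ × ℕ) × List ℕ => p.2.1 :=
    Primrec.fst.comp Primrec.snd
  have hl : Primrec fun p : List (List ℕ) × (ℕ × ℕ × ℕ × ℕ) × List ℕ => p.2.2 :=
    Primrec.snd.comp Primrec.snd
  have ht := Primrec.fst.comp hx
  have hj := Primrec.fst.comp (Primrec.snd.comp hx)
  have hk := Primrec.fst.comp (Primrec.snd.comp (Primrec.snd.comp hx))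
  have hv := Primrec.snd.comp (Primrec.snd.comp (Primrec.snd.comp hx))
  have hvs := (Primrec.list_getD ([] : List ℕ)).comp Primrec.fst hj
  have c0 := Primrec.nat_lt.comp hj (Primrec.list_length.comp Primrec.fst)
  have c1 := Primrec.eq.comp ht (Primrec.const 0)
  have c2 := Primrec.nat_le.comp hk (Primrec.list_length.comp hvs)
  have c3 := Primrec.nat_lt.comp hv (Primrec.option_getD.comp (Primrec.list_getElem?.comp hvs hk)
    (Primrec.succ.comp hv))
  have c4 := Primrec.nat_lt.comp hk (Primrec.list_length.comp hvs)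
  have r1 := (Primrec.const false).pair (Primrec.option_some.comp
    (Primrec.list_cons.comp hj (Primrec.list_cons.comp hk (Primrec.list_cons.comp hv hl))))
  have r2 := (Primrec.const true).pair (Primrec.option_some.comp
    (Primrec.list_cons.comp hj (Primrec.list_cons.comp hk (Primrec.list_cons.comp
      ((Primrec.list_getD 0).comp hvs hk) (Primrec.list_cons.comp hv (Primrec.list_take.comp
        (Primrec.nat_sub.comp (Primrec.list_length.comp hl) (Primrec.const 1)) hl))))))
  exact (Primrec.ite (c0.and (c1.and (c2.and c3))) r1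
    (Primrec.ite (c0.and (c1.not.and c4)) r2 (Primrec.const (true, none)))).of_eq fun _ => rfl

theorem prim_rt : Primrec₂ rt :=
  (prim_rt'.comp (((Primrec.ofNat _).comp Primrec.fst).pair
    (((Primrec.ofNat _).comp (Primrec.list_headI.comp Primrec.snd)).pair
      (Primrec.list_tail.comp Primrec.snd)))).of_eq fun _ => rfl

theorem prim_comp : Primrec₂ comp := by
  have h2 : Primrec fun p : ℕ × Rt => p.2.2 := Primrec.snd.comp Primrec.snd
  have h3 := prim_rt.comp Primrec.fst (Primrec.option_getD.comp h2 (Primrec.const []))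
  exact (Primrec.cond (Primrec.option_isSome.comp h2)
    (((Primrec.dom_bool₂ xor).comp (Primrec.fst.comp Primrec.snd) (Primrec.fst.comp h3)).pair
      (Primrec.snd.comp h3)) Primrec.snd).of_eq fun _ => rfl

variable {X : Orc} {β γ : Type} [Primcodable β] [Primcodable γ] {M : β → List ℕ → Bool}

theorem ci_app (hM : CI X fun p : β × List ℕ => M p.1 p.2) :
    CI X fun p : β × Rt => app (M p.1) p.2 := by
  have h2 : Primrec fun p : β × Rt => p.2.2 := Primrec.snd.comp Primrec.snd
  have h1 : Primrec fun p : β × Rt => p.2.1 := Primrec.fst.comp Primrec.snd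
  have h3 := ci_comp hM
    (Primrec.fst.pair (Primrec.option_getD.comp h2 (Primrec.const []))).computableIn
  have h4 := ci_comp (f := fun r : Bool × Bool => xor r.1 r.2)
    (Primrec.dom_bool₂ xor).computableIn (ci_pair h1.computableIn h3)
  exact ci_of_eq (ci_cond (Primrec.option_isSome.comp h2).computableIn h4 h1.computableIn)
    fun _ => rfl

theorem ci_steps (hM : CI X fun p : β × List ℕ => M p.1 p.2) :
    CI X fun p : (β × List ℕ) × List ℕ => steps p.1.2 (M p.1.1) p.2 := by
  have h1 : Primrec fun p : (β × List ℕ) × List ℕ => p.1.2.foldr comp (false, some p.2) :=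
    (Primrec.list_foldr (Primrec.snd.comp Primrec.fst)
      ((Primrec.const false).pair (Primrec.option_some.comp Primrec.snd))
      (prim_comp.comp (Primrec.fst.comp Primrec.snd) (Primrec.snd.comp Primrec.snd)).to₂).of_eq
      fun _ => rfl
  exact ci_of_eq (ci_comp (ci_app hM) ((Primrec.fst.comp Primrec.fst).pair h1).computableIn)
    fun _ => rfl

theorem ci_last (hM : CI X fun p : β × List ℕ => M p.1 p.2) :
    CI X fun p : β × ℕ => last p.2 (M p.1) := by
  have hc : Primrec fun p : β × ℕ => ofNat (List ℕ) p.2 := (Primrec.ofNat _).comp Primrec.snd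
  have hg : Primrec fun p : (β × ℕ) × ℕ => (ofNat (List ℕ) p.1.2).getD p.2 0 :=
    (Primrec.list_getD 0).comp (hc.comp Primrec.fst) Primrec.snd
  have h1 : CI X fun p : ((β × ℕ) × ℕ) × ℕ => M p.1.1.1 [p.1.2, p.2] :=
    ci_of_eq (ci_comp hM ((Primrec.fst.comp (Primrec.fst.comp Primrec.fst)).pair
      (Primrec.list_cons.comp (Primrec.snd.comp Primrec.fst)
        (Primrec.list_cons.comp Primrec.snd (Primrec.const [])))).computableIn) fun _ => rfl
  have h2 : CI X fun p : ((β × ℕ) × ℕ) × ℕ =>
      decide (p.2 = (ofNat (List ℕ) p.1.1.2).getD p.1.2 0) :=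
    ci_of_eq (ci_pred (Primrec.eq.comp Primrec.snd (hg.comp Primrec.fst))) fun _ => by congr
  have h3 := ci_comp (f := fun r : Bool × Bool => r.1 == r.2)
    (Primrec.dom_bool₂ fun a b => a == b).computableIn (ci_pair h1 h2)
  have h4 := ci_ball h3 (Primrec.succ.comp hg).computableIn
  have h5 := ci_ball h4 (Primrec.list_length.comp hc).computableIn
  exact ci_of_eq h5 fun _ => by unfold last; congr

theorem ci_tree (hM : CI X fun p : β × List ℕ => M p.1 p.2) {a : β → ℕ} (ha : CI X a) :
    CI X fun p : β × List ℕ => tree (a p.1) (M p.1) p.2 := by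
  have h0 : CI X fun p : β × List ℕ => (p, a p.1) :=
    ci_pair ComputableIn.id (ci_comp ha ComputableIn.fst)
  have hτ : Primrec fun q : (β × List ℕ) × ℕ => q.1.2 := Primrec.snd.comp Primrec.fst
  have hb : Primrec fun q : (β × List ℕ) × ℕ => q.1.1 := Primrec.fst.comp Primrec.fst
  have hs : Primrec fun q : (β × List ℕ) × ℕ => q.2 - 1 :=
    Primrec.nat_sub.comp Primrec.snd (Primrec.const 1)
  have h1 := ci_comp (ci_last (M := fun q : β × List ℕ => steps q.2 (M q.1)) (ci_steps hM))
    ((hb.pair (Primrec.list_take.comp hs hτ)).pair ((Primrec.list_getD 0).comp hτ hs)).computableIn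
  have h2 := ci_comp hM (hb.pair (Primrec.const [])).computableIn
  have h3 := ci_ite (ci_pred (Primrec.eq.comp Primrec.snd (Primrec.const 0))) h2 h1
  have h4 := ci_ite (ci_pred (Primrec.nat_lt.comp Primrec.snd (Primrec.list_length.comp hτ)))
    (ComputableIn.const false) h3
  have h5 := ci_ite (ci_pred (Primrec.nat_lt.comp (Primrec.list_length.comp hτ) Primrec.snd))
    (ComputableIn.const true) h4
  exact ci_of_eq (ci_comp h5 h0) fun _ => by unfold tree; congr

end SwitchP

theorem exists_switch {X : Orc} {β : Type} [Primcodable β] {a : β → ℕ} {P : β → Prop}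
    (h : UPi X (fun b => 2 * a b) P) (ha : CI X a) :
    ∃ S : β → List ℕ → Bool, CI X (fun p : β × List ℕ => S p.1 p.2) ∧
      ∀ b, Spec (a b) (fun τ => S b τ = true) (P b) := by
  obtain ⟨M, hM, hP⟩ := h
  refine ⟨fun b => SwitchP.tree (a b) (M b), SwitchP.ci_tree hM ha, fun b => ?_⟩
  rw [propext (hP b)]
  exact SwitchP.spec_tree _ _

end Pool.Agent.P.MP_9f8894_lc
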