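import Mathlib
import Pool.Agent.P.MP_9f8894_lc.RlEx
import Pool.Agent.P.MP_9f8894_lc.Switch

/-! Package SwEx: the switches. -/

set_option autoImplicit false
open Encodable Denumerable Filter TopologicalSpace
open scoped Classical

namespace Pool.Agent.P.MP_9f8894_lc

namespace SwE

/-- A default step. -/
def d0 : Step := ([], 0, 0)

/-- The step of `s` which has `m` steps above it. -/
def stepAt (s : Node) (m : ℕ) : Step := s.getD (s.length - m - 1) d0

/-- The last `m` steps of `s`. -/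
def above (s : Node) (m : ℕ) : Node := s.drop (s.length - m)

theorem stepAt_eq (s₁ : Node) (st : Step) (s₀ : Node) :
    stepAt (s₁ ++ st :: s₀) s₀.length = st := by
  have h : (s₁ ++ st :: s₀).length - s₀.length - 1 = s₁.length := by
    simp only [List.length_append, List.length_cons]; omega
  rw [stepAt, h]
  simp

theorem above_eq (s₁ s₀ : Node) : above (s₁ ++ s₀) s₀.length = s₀ := by
  have h : (s₁ ++ s₀).length - s₀.length = s₁.length := by
    simp only [List.length_append]; omega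
  rw [above, h]
  simp

theorem above_length {s : Node} {m : ℕ} (h : m ≤ s.length) : (above s m).length = m := by
  simp only [above, List.length_drop]; omega

theorem above_succ {s : Node} {m : ℕ} (h : m < s.length) :
    above s (m + 1) = stepAt s m :: above s m := by
  have h1 : s.length - (m + 1) < s.length := by omega
  have h2 : s.length - m - 1 = s.length - (m + 1) := by omega
  have h3 : s.length - (m + 1) + 1 = s.length - m := by omega
  rw [above, stepAt, above, List.drop_eq_getElem_cons h1, h2, h3, List.getD_eq_getElem _ _ h1]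

theorem split (s : Node) (m : ℕ) : s = s.take (s.length - m) ++ above s m :=
  (List.take_append_drop _ _).symm

theorem hasFake_iff (R : Rl) (e : ℕ) (s : Node) (j : ℕ) : HasFake R e s j ↔
    (j ≤ e ∧ e - j < s.length) ∧ ¬ R.RS e j (path (above s (e - j))) (stepAt s (e - j)) := by
  constructor
  · rintro ⟨s₁, st, s₀, rfl, hl, h⟩
    have he : e - j = s₀.length := by omega
    have h2 : above (s₁ ++ st :: s₀) s₀.length = s₀ := by
      have := above_eq (s₁ ++ [st]) s₀
      simpa using this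
    rw [he, stepAt_eq, h2]
    refine ⟨⟨by omega, ?_⟩, h⟩
    simp only [List.length_append, List.length_cons]; omega
  · rintro ⟨⟨h1, h2⟩, h⟩
    refine ⟨s.take (s.length - (e - j + 1)), stepAt s (e - j), above s (e - j), ?_, ?_, h⟩
    · rw [← above_succ h2]; exact split s _
    · rw [above_length h2.le]; omega

theorem hasCov_iff (W : Wit) (B : Bot) (R : Rl) (e : ℕ) (s : Node) (j : ℕ) :
    HasCov W B R e s j ↔ (j + 1 ≤ e ∧ e - j < s.length) ∧
      R.RS e j (path (above s (e - j))) (stepAt s (e - j)) ∧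
      R.RS e (j + 1) (path (above s (e - (j + 1)))) (stepAt s (e - (j + 1))) ∧
      ¬ NCov W B e j (path (above s (e - j))) (stepAt s (e - j)).1 := by
  constructor
  · rintro ⟨s₁, st, st', s₀, rfl, hl, h1, h2, h3⟩
    have he : e - j = (st' :: s₀).length := by simp only [List.length_cons]; omega
    have he' : e - (j + 1) = s₀.length := by omega
    have a1 : above (s₁ ++ st :: st' :: s₀) (st' :: s₀).length = st' :: s₀ := by
      have := above_eq (s₁ ++ [st]) (st' :: s₀)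
      simpa using this
    have a2 : above (s₁ ++ st :: st' :: s₀) s₀.length = s₀ := by
      have := above_eq (s₁ ++ [st, st']) s₀
      simpa using this
    have a3 : stepAt (s₁ ++ st :: st' :: s₀) s₀.length = st' := by
      have := stepAt_eq (s₁ ++ [st]) st' s₀
      simpa using this
    rw [he', he, stepAt_eq, a1, a2, a3]
    refine ⟨⟨by omega, ?_⟩, h1, h2, h3⟩
    simp only [List.length_append, List.length_cons]; omega
  · rintro ⟨⟨h1, h2⟩, h3, h4, h5⟩
    have he : e - j = e - (j + 1) + 1 := by omega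
    have h6 : e - (j + 1) < s.length := by omega
    have a1 : above s (e - j) = stepAt s (e - (j + 1)) :: above s (e - (j + 1)) := by
      rw [he, above_succ h6]
    refine ⟨s.take (s.length - (e - j + 1)), stepAt s (e - j), stepAt s (e - (j + 1)),
      above s (e - (j + 1)), ?_, ?_, ?_, h4, ?_⟩
    · rw [← a1, ← above_succ h2]; exact split s _
    · rw [above_length h6.le]; omega
    · rw [← a1]; exact h3
    · rw [← a1]; exact h5

theorem actNode_iff (R : Rl) (e : ℕ) (s : Node) : ActNode R e s ↔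
    (s.length = e + 2 ∧ (stepAt s (e + 1)).1 = []) ∧
      R.AW e (path (above s e)) (stepAt s e).1 (stepAt s e).2.1 (stepAt s (e + 1)).2.1
        (stepAt s (e + 1)).2.2 := by
  constructor
  · rintro ⟨n, w, L, k, v, s₀, rfl, rfl, h⟩
    have a1 : stepAt (([], n, w) :: (L, k, v) :: s₀) (s₀.length + 1) = ([], n, w) := by
      have := stepAt_eq [] ([], n, w) ((L, k, v) :: s₀)
      simpa using this
    have a2 : stepAt (([], n, w) :: (L, k, v) :: s₀) s₀.length = (L, k, v) := by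
      have := stepAt_eq [([], n, w)] (L, k, v) s₀
      simpa using this
    have a3 : above (([], n, w) :: (L, k, v) :: s₀) s₀.length = s₀ := by
      have := above_eq [([], n, w), (L, k, v)] s₀
      simpa using this
    rw [a1, a2, a3]
    exact ⟨⟨rfl, rfl⟩, h⟩
  · rintro ⟨⟨h1, h2⟩, h⟩
    refine ⟨(stepAt s (e + 1)).2.1, (stepAt s (e + 1)).2.2, (stepAt s e).1, (stepAt s e).2.1,
      (stepAt s e).2.2, above s e, ?_, above_length (by omega), h⟩
    have a0 : above s (e + 2) = s := by simp [above, h1]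
    have a1 := above_succ (s := s) (m := e + 1) (by omega)
    have a2 := above_succ (s := s) (m := e) (by omega)
    rw [← h2]
    calc s = above s (e + 1 + 1) := a0.symm
      _ = _ := by rw [a1, a2]

theorem prim_stepAt : Primrec₂ stepAt := by
  have h : Primrec fun p : Node × ℕ => p.1.getD (p.1.length - p.2 - 1) d0 :=
    (Primrec.list_getD d0).comp Primrec.fst
      (Primrec.nat_sub.comp (Primrec.nat_sub.comp (Primrec.list_length.comp Primrec.fst)
        Primrec.snd) (Primrec.const 1))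
  exact h

theorem prim_above : Primrec₂ above := by
  have h : Primrec fun p : Node × ℕ => p.1.drop (p.1.length - p.2) :=
    Primrec.list_drop.comp (Primrec.nat_sub.comp (Primrec.list_length.comp Primrec.fst)
      Primrec.snd) Primrec.fst
  exact h

theorem prim_path : Primrec path := by
  have h : Primrec fun s : Node => s.map ((fun (_ : Node) (st : Step) => st.1) s) :=
    Primrec.list_map Primrec.id (Primrec.fst.comp Primrec.snd).to₂
  exact h

/-- The data of the step made by procedure `j`. -/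
def dat (p : ℕ × Node × ℕ) : (ℕ × ℕ × Path) × Step :=
  ((p.1, p.2.2, path (above p.2.1 (p.1 - p.2.2))), stepAt p.2.1 (p.1 - p.2.2))

theorem prim_dat : Primrec dat := by
  have h1 : Primrec fun p : ℕ × Node × ℕ => p.2.1 := Primrec.fst.comp Primrec.snd
  have h2 : Primrec fun p : ℕ × Node × ℕ => p.2.2 := Primrec.snd.comp Primrec.snd
  have h3 : Primrec fun p : ℕ × Node × ℕ => p.1 - p.2.2 := Primrec.nat_sub.comp Primrec.fst h2
  have h4 := (Primrec.fst.pair (h2.pair (prim_path.comp (prim_above.comp h1 h3)))).pair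
    (prim_stepAt.comp h1 h3)
  exact h4.of_eq fun _ => rfl

theorem p_e : Primrec fun q : TI => q.1 := Primrec.fst
theorem p_s : Primrec fun q : TI => q.2.1 := Primrec.fst.comp Primrec.snd
theorem p_c : Primrec fun q : TI => q.2.2.1 := Primrec.fst.comp (Primrec.snd.comp Primrec.snd)
theorem p_L : Primrec fun q : TI => q.2.2.2.1 :=
  Primrec.fst.comp (Primrec.snd.comp (Primrec.snd.comp Primrec.snd))
theorem p_x : Primrec fun q : TI => q.2.2.2.2 :=
  Primrec.snd.comp (Primrec.snd.comp (Primrec.snd.comp Primrec.snd))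

variable {W : Wit} {B : Bot} {R : Rl} {Y : Orc}

theorem upi_cov (hc : WitCx W) (hb : BotCx B) (hr : RlCx Y R) :
    UPi Y (fun p : ℕ × Node × ℕ => 21 + p.2.2) fun p => HasCov W B R p.1 p.2.1 p.2.2 := by
  have h1 : Primrec fun p : ℕ × Node × ℕ => p.2.1 := Primrec.fst.comp Primrec.snd
  have h2 : Primrec fun p : ℕ × Node × ℕ => p.2.2 := Primrec.snd.comp Primrec.snd
  have hg : PrimrecPred fun p : ℕ × Node × ℕ => p.2.2 + 1 ≤ p.1 ∧ p.1 - p.2.2 < p.2.1.length :=
    (Primrec.nat_le.comp (Primrec.succ.comp h2) Primrec.fst).and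
      (Primrec.nat_lt.comp (Primrec.nat_sub.comp Primrec.fst h2) (Primrec.list_length.comp h1))
  have hl : Primrec fun p : ℕ × Node × ℕ => 21 + (p.2.2 - 1) :=
    Primrec.nat_add.comp (Primrec.const 21) (Primrec.nat_sub.comp h2 (Primrec.const 1))
  have a1 : UPi Y (fun p : ℕ × Node × ℕ => 21 + p.2.2) fun p =>
      R.RS p.1 p.2.2 (path (above p.2.1 (p.1 - p.2.2))) (stepAt p.2.1 (p.1 - p.2.2)) := by
    have := hr.rs.comp (f := dat) prim_dat.computableIn
    exact UPi.pad (ℓ := fun p : ℕ × Node × ℕ => 21 + (p.2.2 - 1)) this hl.computableIn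
      fun p => by omega
  have hs : Primrec fun p : ℕ × Node × ℕ => dat (p.1, p.2.1, p.2.2 + 1) :=
    prim_dat.comp (Primrec.fst.pair (h1.pair (Primrec.succ.comp h2)))
  have a2 : UPi Y (fun p : ℕ × Node × ℕ => 21 + p.2.2) fun p =>
      R.RS p.1 (p.2.2 + 1) (path (above p.2.1 (p.1 - (p.2.2 + 1))))
        (stepAt p.2.1 (p.1 - (p.2.2 + 1))) := by
    have := hr.rs.comp (f := fun p : ℕ × Node × ℕ => dat (p.1, p.2.1, p.2.2 + 1)) hs.computableIn
    exact this.congr (fun p => by simp [dat]) fun p => Iff.rfl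
  have ht : Primrec fun p : ℕ × Node × ℕ => ((dat p).1, (dat p).2.1) :=
    (Primrec.fst.comp prim_dat).pair (Primrec.fst.comp (Primrec.snd.comp prim_dat))
  have a3 : UPi Y (fun p : ℕ × Node × ℕ => 21 + p.2.2) fun p =>
      ¬ NCov W B p.1 p.2.2 (path (above p.2.1 (p.1 - p.2.2))) (stepAt p.2.1 (p.1 - p.2.2)).1 := by
    have := ((upi_Cov hc hb).mono (ci_zero Y)).comp
      (f := fun p : ℕ × Node × ℕ => ((dat p).1, (dat p).2.1)) ht.computableIn
    exact this.congr (fun p => rfl) fun p => Iff.rfl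
  have a4 := UPi.andp hg (a1.and (a2.and a3 fun p => by omega) fun p => by omega)
  exact a4.congr (fun p => rfl) fun p => (hasCov_iff W B R p.1 p.2.1 p.2.2).symm

theorem upi_fake (hr : RlCx Y R) : ∃ Q : (ℕ × Node × ℕ) × ℕ → Prop,
    UPi Y (fun p => 19 + p.1.2.2) Q ∧ ∀ e s j, HasFake R e s j ↔ ∃ x, Q ((e, s, j), x) := by
  obtain ⟨Q, hQ, hs⟩ := hr.nrs
  have h1 : Primrec fun p : (ℕ × Node × ℕ) × ℕ => p.1.2.1 :=
    Primrec.fst.comp (Primrec.snd.comp Primrec.fst)
  have h2 : Primrec fun p : (ℕ × Node × ℕ) × ℕ => p.1.2.2 :=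
    Primrec.snd.comp (Primrec.snd.comp Primrec.fst)
  have h0 : Primrec fun p : (ℕ × Node × ℕ) × ℕ => p.1.1 := Primrec.fst.comp Primrec.fst
  have hg : PrimrecPred fun p : (ℕ × Node × ℕ) × ℕ =>
      p.1.2.2 ≤ p.1.1 ∧ p.1.1 - p.1.2.2 < p.1.2.1.length :=
    (Primrec.nat_le.comp h2 h0).and
      (Primrec.nat_lt.comp (Primrec.nat_sub.comp h0 h2) (Primrec.list_length.comp h1))
  have hs' : Primrec fun p : (ℕ × Node × ℕ) × ℕ => (dat p.1, p.2) :=
    (prim_dat.comp Primrec.fst).pair Primrec.snd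
  have a1 := UPi.andp hg (hQ.comp (f := fun p : (ℕ × Node × ℕ) × ℕ => (dat p.1, p.2))
    hs'.computableIn)
  refine ⟨_, a1.congr (fun p => rfl) fun p => Iff.rfl, fun e s j => ?_⟩
  rw [hasFake_iff, hs]
  constructor
  · rintro ⟨h, x, hx⟩; exact ⟨x, h, hx⟩
  · rintro ⟨x, h, hx⟩; exact ⟨h, x, hx⟩

theorem upi_act (hr : RlCx Y R) :
    UPi Y (fun _ : ℕ × Node => 16 + 3) fun p => ActNode R p.1 p.2 := by
  have h1 : Primrec fun p : ℕ × Node => stepAt p.2 (p.1 + 1) :=
    prim_stepAt.comp Primrec.snd (Primrec.succ.comp Primrec.fst)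
  have h2 : Primrec fun p : ℕ × Node => stepAt p.2 p.1 :=
    prim_stepAt.comp Primrec.snd Primrec.fst
  have h3 : Primrec fun p : ℕ × Node => path (above p.2 p.1) :=
    prim_path.comp (prim_above.comp Primrec.snd Primrec.fst)
  have hg : PrimrecPred fun p : ℕ × Node =>
      p.2.length = p.1 + 2 ∧ (stepAt p.2 (p.1 + 1)).1 = [] :=
    (Primrec.eq.comp (Primrec.list_length.comp Primrec.snd)
      (Primrec.nat_add.comp Primrec.fst (Primrec.const 2))).and
      (Primrec.eq.comp (Primrec.fst.comp h1) (Primrec.const []))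
  have hf : Primrec fun p : ℕ × Node => ((((p.1, path (above p.2 p.1)),
      ((stepAt p.2 p.1).1, (stepAt p.2 p.1).2.1)), (stepAt p.2 (p.1 + 1)).2) :
      ((ℕ × Path) × Hist × ℕ) × ℕ × ℕ) :=
    ((Primrec.fst.pair h3).pair ((Primrec.fst.comp h2).pair
      (Primrec.fst.comp (Primrec.snd.comp h2)))).pair (Primrec.snd.comp h1)
  have a1 := UPi.andp hg (hr.aw.comp hf.computableIn)
  exact a1.congr (fun p => rfl) fun p => (actNode_iff R p.1 p.2).symm

theorem inf_all {P : ℕ → Prop} (h : ∀ x, P x) : {x | P x}.Infinite := by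
  have : {x | P x} = Set.univ := Set.eq_univ_of_forall h
  rw [this]; exact Set.infinite_univ

theorem inf_pair {P : ℕ → Prop} {x : ℕ} (h : P x) : {y : ℕ | P y.unpair.1}.Infinite :=
  Set.infinite_of_injective_forall_mem (f := fun r : ℕ => Nat.pair x r)
    (fun a b hab => (Nat.pair_eq_pair.1 hab).2) fun r => by simpa using h

theorem upi_ite {β : Type} [Primcodable β] {p : β → Prop} (hp : PrimrecPred p) {ℓ₁ ℓ : β → ℕ}
    {P₁ P₂ : β → Prop} (h₁ : UPi Y ℓ₁ P₁) (h₂ : UPi Y ℓ P₂) (e₁ : ∀ b, p b → ℓ₁ b = ℓ b) :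
    UPi Y ℓ fun b => if p b then P₁ b else P₂ b := by
  refine UPi.cases (ci_pred hp) h₁ h₂ (fun b hb => ?_) fun b hb => ?_
  · have hb' : p b := by simpa using hb
    exact ⟨e₁ b hb', by rw [if_pos hb']⟩
  · have hb' : ¬ p b := by simpa using hb
    exact ⟨rfl, by rw [if_neg hb']⟩

/-- The switches. -/
def sw (Q₁ : (ℕ × Node × ℕ) × ℕ → Prop) (C : ℕ × Node × ℕ → Prop) (Q₀ : (ℕ × Node) × ℕ → Prop)
    (q : TI) : Prop :=
  if q.2.2.1 = 1 ∧ 20 ≤ q.2.2.2.1 then Q₁ ((q.1, q.2.1, q.2.2.2.1 - 20), q.2.2.2.2.unpair.1)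
  else if q.2.2.1 = 2 ∧ 22 ≤ q.2.2.2.1 then C (q.1, q.2.1, q.2.2.2.1 - 22)
  else if q.2.2.1 = 0 ∧ q.2.2.2.1 = 18 then Q₀ ((q.1, q.2.1), q.2.2.2.2)
  else (q.2.2.1 = 3 ∧ ¬ q.2.2.2.1 = 21 + q.1) ∨
    (q.2.2.1 = 4 ∧ q.2.1.length + q.2.2.2.1 = q.1 + 17)

theorem upi_sw {Q₁ : (ℕ × Node × ℕ) × ℕ → Prop} {C : ℕ × Node × ℕ → Prop}
    {Q₀ : (ℕ × Node) × ℕ → Prop} (h₁ : UPi Y (fun p => 19 + p.1.2.2) Q₁)
    (h₂ : UPi Y (fun p => 21 + p.2.2) C) (h₀ : UPi Y (fun _ => 16 + 1) Q₀) :
    UPi Y (fun q : TI => q.2.2.2.1 - 1) (sw Q₁ C Q₀) := by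
  have g1 : PrimrecPred fun q : TI => q.2.2.1 = 1 ∧ 20 ≤ q.2.2.2.1 :=
    (Primrec.eq.comp p_c (Primrec.const 1)).and (Primrec.nat_le.comp (Primrec.const 20) p_L)
  have g2 : PrimrecPred fun q : TI => q.2.2.1 = 2 ∧ 22 ≤ q.2.2.2.1 :=
    (Primrec.eq.comp p_c (Primrec.const 2)).and (Primrec.nat_le.comp (Primrec.const 22) p_L)
  have g0 : PrimrecPred fun q : TI => q.2.2.1 = 0 ∧ q.2.2.2.1 = 18 :=
    (Primrec.eq.comp p_c (Primrec.const 0)).and (Primrec.eq.comp p_L (Primrec.const 18))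
  have g3 : PrimrecPred fun q : TI => (q.2.2.1 = 3 ∧ ¬ q.2.2.2.1 = 21 + q.1) ∨
      (q.2.2.1 = 4 ∧ q.2.1.length + q.2.2.2.1 = q.1 + 17) :=
    ((Primrec.eq.comp p_c (Primrec.const 3)).and
      (Primrec.eq.comp p_L (Primrec.nat_add.comp (Primrec.const 21) p_e)).not).or
    ((Primrec.eq.comp p_c (Primrec.const 4)).and
      (Primrec.eq.comp (Primrec.nat_add.comp (Primrec.list_length.comp p_s) p_L)
        (Primrec.nat_add.comp p_e (Primrec.const 17))))
  have f1 : Primrec fun q : TI =>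
      (((q.1, q.2.1, q.2.2.2.1 - 20), q.2.2.2.2.unpair.1) : (ℕ × Node × ℕ) × ℕ) :=
    (p_e.pair (p_s.pair (Primrec.nat_sub.comp p_L (Primrec.const 20)))).pair
      (Primrec.fst.comp (Primrec.unpair.comp p_x))
  have f2 : Primrec fun q : TI => ((q.1, q.2.1, q.2.2.2.1 - 22) : ℕ × Node × ℕ) :=
    p_e.pair (p_s.pair (Primrec.nat_sub.comp p_L (Primrec.const 22)))
  have f0 : Primrec fun q : TI => (((q.1, q.2.1), q.2.2.2.2) : (ℕ × Node) × ℕ) :=
    (p_e.pair p_s).pair p_x
  have a3 := UPi.prim (X := Y) g3 fun q : TI => q.2.2.2.1 - 1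
  have a0 := upi_ite g0 (h₀.comp f0.computableIn) a3 fun q hq => by omega
  have a2 := upi_ite g2 (h₂.comp f2.computableIn) a0 fun q hq => by
    show 21 + (q.2.2.2.1 - 22) = _
    omega
  have a1 := upi_ite g1 (h₁.comp f1.computableIn) a2 fun q hq => by
    show 19 + (q.2.2.2.1 - 20) = _
    omega
  exact a1.congr (fun _ => rfl) fun q => by
    unfold sw
    split_ifs <;> rfl

end SwE

open SwE in
theorem exists_sw {W : Wit} {B : Bot} {R : Rl} {Y : Orc} (hc : WitCx W) (hb : BotCx B)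
    (hr : RlCx Y R) : ∃ Sw : TI → Prop, SwSem W B R Sw ∧
      UPi Y (fun q : TI => q.2.2.2.1 - 1) Sw := by
  obtain ⟨Q₁, h₁, s₁⟩ := upi_fake hr
  obtain ⟨Q₀, h₀, s₀⟩ := UPi.inf (ℓ := fun _ : ℕ × Node => 16) (upi_act hr)
    (ComputableIn.const 16)
  refine ⟨sw Q₁ (fun p => HasCov W B R p.1 p.2.1 p.2.2) Q₀, ?_, upi_sw h₁ (upi_cov hc hb hr) h₀⟩
  have e1 : ∀ e s j x, sw Q₁ (fun p => HasCov W B R p.1 p.2.1 p.2.2) Q₀ (e, s, 1, 20 + j, x) ↔
      Q₁ ((e, s, j), x.unpair.1) := fun e s j x => by simp [sw]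
  have e2 : ∀ e s L x, sw Q₁ (fun p => HasCov W B R p.1 p.2.1 p.2.2) Q₀ (e, s, 2, L, x) ↔
      22 ≤ L ∧ HasCov W B R e s (L - 22) := fun e s L x => by
    by_cases h : 22 ≤ L <;> simp [sw, h]
  have e3 : ∀ e s j x, sw Q₁ (fun p => HasCov W B R p.1 p.2.1 p.2.2) Q₀ (e, s, 3, 21 + j, x) ↔
      j ≠ e := fun e s j x => by simp [sw]
  have e4 : ∀ e s j x, sw Q₁ (fun p => HasCov W B R p.1 p.2.1 p.2.2) Q₀ (e, s, 4, 17 + j, x) ↔
      s.length + j = e := fun e s j x => by
    simp [sw]; omega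
  have e0 : ∀ e s x, sw Q₁ (fun p => HasCov W B R p.1 p.2.1 p.2.2) Q₀ (e, s, 0, 18, x) ↔
      Q₀ ((e, s), x) := fun e s x => by simp [sw]
  constructor
  · rintro e s j ⟨x, hx⟩
    exact (s₁ e s j).2 ⟨_, (e1 e s j x).1 hx⟩
  · intro e s j h
    obtain ⟨x, hx⟩ := (s₁ e s j).1 h
    simp only [DeclAt, e1]
    exact inf_pair (P := fun x => Q₁ ((e, s, j), x)) hx
  · rintro e s j ⟨x, hx⟩
    obtain ⟨h1, h2⟩ := (e2 e s _ x).1 hx
    exact ⟨21 + j - 22, by omega, h2⟩
  · intro e s j h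
    refine inf_all fun x => (e2 e s _ x).2 ⟨by omega, ?_⟩
    rwa [Nat.add_sub_cancel_left]
  · rintro e s j ⟨x, hx⟩
    exact (e3 e s j x).1 hx
  · intro e s j h
    exact inf_all fun x => (e3 e s j x).2 h
  · rintro e s j ⟨x, hx⟩
    exact (e4 e s j x).1 hx
  · intro e s j h
    exact inf_all fun x => (e4 e s j x).2 h
  · intro e s
    simp only [DeclAt, e0]
    exact (s₀ (e, s)).symm

open SwE in
theorem exists_swTree {Sw : TI → Prop} {Y : Orc} (h : UPi Y (fun q : TI => q.2.2.2.1 - 1) Sw) :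
    ∃ S : TI → List ℕ → Bool, CI Y (fun p : TI × List ℕ => S p.1 p.2) ∧
      SwTree Sw fun q τ => S q τ = true := by
  have g1 : PrimrecPred fun q : TI => q.2.2.2.1 % 2 = 1 :=
    Primrec.eq.comp (Primrec.nat_mod.comp p_L (Primrec.const 2)) (Primrec.const 1)
  have g2 : PrimrecPred fun q : TI => 16 ≤ q.2.2.2.1 :=
    Primrec.nat_le.comp (Primrec.const 16) p_L
  have g3 : PrimrecPred fun q : TI => ¬ q.2.2.2.1 % 2 = 1 ∧ 16 ≤ q.2.2.2.1 := g1.not.and g2
  have a0 := UPi.prim (X := Y) g2 fun q : TI => 2 * (q.2.2.2.1 / 2)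
  have a1 := upi_ite g3 h.neg a0 fun q hq => by omega
  have a2 := upi_ite g1 h a1 fun q hq => by omega
  have ha : Primrec fun q : TI => q.2.2.2.1 / 2 := Primrec.nat_div.comp p_L (Primrec.const 2)
  obtain ⟨S, hS, hs⟩ := exists_switch (a := fun q : TI => q.2.2.2.1 / 2) a2 ha.computableIn
  refine ⟨S, hS, fun q _ hq => ?_⟩
  have := hs q
  unfold par
  by_cases h1 : q.2.2.2.1 % 2 = 1
  · simp only [if_pos h1] at this ⊢
    exact this
  · simp only [if_neg h1, if_pos (And.intro h1 hq)] at this ⊢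
    exact this

end Pool.Agent.P.MP_9f8894_lc
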