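import Mathlib
import Pool.Agent.P.MP_9f8894_lc.Cst
import Pool.Agent.P.MP_9f8894_lc.JumpA

/-! Package TComp: the tree is computable. -/

set_option autoImplicit false
open Encodable Denumerable Filter TopologicalSpace
open scoped Classical

namespace Pool.Agent.P.MP_9f8894_lc

/-- Trees named by a small state: the empty tree, tokens, the two stages of `alpha2`, tags. -/
def tcDen (a : ℕ × ℕ) : Tree :=
  if a.1 = 1 then tok a.2
  else if a.1 = 2 then lim fun _ => atom
  else if a.1 = 3 then alpha2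
  else if a.1 = 4 then tag a.2
  else emp

/-- The small state of the subtree at a child. -/
def tcNx (a : ℕ × ℕ) (n : ℕ) : ℕ × ℕ :=
  if a.1 = 1 then (if a.2 = 0 then (0, 0) else if a.2 = 1 then (1, 1) else (1, n % (a.2 - 1)))
  else if a.1 = 2 then (1, 0)
  else if a.1 = 3 then (2, 0)
  else if a.1 = 4 then (if n % 2 = 0 then (3, 0) else (1, n / 2 % (a.2 + 1)))
  else (0, 0)

theorem tc_tok_zero : tok 0 = atom := by rw [tok]; simp

theorem tc_tok_one : tok 1 = perf := by rw [tok]; simp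

theorem tc_tok_nil (m : ℕ) : tok m [] := by
  rw [tok]
  split_ifs
  · exact trivial
  · exact trivial
  · exact trivial

theorem tc_den_nil (a : ℕ × ℕ) : tcDen a [] ↔ 1 ≤ a.1 ∧ a.1 ≤ 4 := by
  unfold tcDen
  split_ifs with h1 h2 h3 h4
  · exact iff_of_true (tc_tok_nil _) (by omega)
  · exact iff_of_true trivial (by omega)
  · exact iff_of_true trivial (by omega)
  · exact iff_of_true trivial (by omega)
  · exact iff_of_false (fun h => h) (by omega)

theorem tc_den_cons (a : ℕ × ℕ) (n : ℕ) (τ : List ℕ) :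
    tcDen a (n :: τ) ↔ tcDen (tcNx a n) τ := by
  obtain ⟨k, m⟩ := a
  by_cases h1 : k = 1
  · subst h1
    by_cases m0 : m = 0
    · subst m0
      simp [tcDen, tcNx, tc_tok_zero, atom, lim]
    by_cases m1 : m = 1
    · subst m1
      simp [tcDen, tcNx, tc_tok_one, perf]
    have e : tok m = lim fun n => tok (n % (m - 1)) := by rw [tok]; simp [m0, m1]
    simp [tcDen, tcNx, m0, m1, e, lim]
  by_cases h2 : k = 2
  · subst h2
    simp [tcDen, tcNx, tc_tok_zero, lim]
  by_cases h3 : k = 3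
  · subst h3
    simp [tcDen, tcNx, alpha2, lim]
  by_cases h4 : k = 4
  · subst h4
    by_cases hn : n % 2 = 0
    · simp [tcDen, tcNx, tag, lim, hn]
    · simp [tcDen, tcNx, tag, lim, hn]
  simp [tcDen, tcNx, h1, h2, h3, h4, emp]

theorem tc_den_fold (σ : List ℕ) : ∀ a : ℕ × ℕ,
    tcDen a σ ↔ 1 ≤ (σ.foldl tcNx a).1 ∧ (σ.foldl tcNx a).1 ≤ 4 := by
  induction σ with
  | nil => exact tc_den_nil
  | cons n τ ih => intro a; rw [tc_den_cons, ih, List.foldl_cons]

theorem tc_eqc {α : Type} [Primcodable α] {f : α → ℕ} (hf : Primrec f) (c : ℕ) :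
    PrimrecPred fun a => f a = c :=
  Primrec.eq.comp hf (Primrec.const c)

theorem tc_primrec_nx : Primrec₂ tcNx := by
  have k : Primrec fun p : (ℕ × ℕ) × ℕ => p.1.1 := Primrec.fst.comp Primrec.fst
  have m : Primrec fun p : (ℕ × ℕ) × ℕ => p.1.2 := Primrec.snd.comp Primrec.fst
  have n : Primrec fun p : (ℕ × ℕ) × ℕ => p.2 := Primrec.snd
  have a1 : Primrec fun p : (ℕ × ℕ) × ℕ => ((1 : ℕ), p.2 % (p.1.2 - 1)) :=
    (Primrec.const 1).pair (Primrec.nat_mod.comp n (Primrec.nat_sub.comp m (Primrec.const 1)))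
  have a2 : Primrec fun p : (ℕ × ℕ) × ℕ => ((1 : ℕ), p.2 / 2 % (p.1.2 + 1)) :=
    (Primrec.const 1).pair (Primrec.nat_mod.comp (Primrec.nat_div.comp n (Primrec.const 2))
      (Primrec.nat_add.comp m (Primrec.const 1)))
  have h := Primrec.ite (tc_eqc k 1)
    (Primrec.ite (tc_eqc m 0) (Primrec.const ((0 : ℕ), (0 : ℕ)))
      (Primrec.ite (tc_eqc m 1) (Primrec.const ((1 : ℕ), (1 : ℕ))) a1))
    (Primrec.ite (tc_eqc k 2) (Primrec.const ((1 : ℕ), (0 : ℕ)))
      (Primrec.ite (tc_eqc k 3) (Primrec.const ((2 : ℕ), (0 : ℕ)))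
        (Primrec.ite (tc_eqc k 4)
          (Primrec.ite (tc_eqc (Primrec.nat_mod.comp n (Primrec.const 2)) 0)
            (Primrec.const ((3 : ℕ), (0 : ℕ))) a2)
          (Primrec.const ((0 : ℕ), (0 : ℕ))))))
  exact h.of_eq fun _ => rfl

theorem tc_primrec_den : PrimrecPred fun p : (ℕ × ℕ) × List ℕ => tcDen p.1 p.2 := by
  have hf : Primrec fun p : (ℕ × ℕ) × List ℕ => p.2.foldl tcNx p.1 :=
    Primrec.list_foldl (h := fun _ (q : (ℕ × ℕ) × ℕ) => tcNx q.1 q.2) Primrec.snd Primrec.fst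
      (tc_primrec_nx.comp (Primrec.fst.comp Primrec.snd) (Primrec.snd.comp Primrec.snd)).to₂
  have h1 : Primrec fun p : (ℕ × ℕ) × List ℕ => (p.2.foldl tcNx p.1).1 := Primrec.fst.comp hf
  have h := (Primrec.nat_le.comp (Primrec.const 1) h1).and (Primrec.nat_le.comp h1 (Primrec.const 4))
  exact h.of_eq fun p => (tc_den_fold p.2 p.1).symm

theorem primrec_tok : PrimrecPred fun p : ℕ × List ℕ => tok p.1 p.2 := by
  have h := tc_primrec_den.comp (f := fun p : ℕ × List ℕ => (((1 : ℕ), p.1), p.2))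
    (((Primrec.const 1).pair Primrec.fst).pair Primrec.snd)
  exact h.of_eq fun p => by simp [tcDen]

theorem primrec_tag : PrimrecPred fun p : ℕ × List ℕ => tag p.1 p.2 := by
  have h := tc_primrec_den.comp (f := fun p : ℕ × List ℕ => (((4 : ℕ), p.1), p.2))
    (((Primrec.const 4).pair Primrec.fst).pair Primrec.snd)
  exact h.of_eq fun p => by simp [tcDen]

/-- Large states: a small state, the index of a top, and an address. -/
abbrev TcSt := (ℕ × ℕ) × TI × List ℕ

/-- Trees named by a large state. -/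
def tcDenB (S : TI → Tree) (a : TcSt) : Tree :=
  if a.1.1 = 5 then top a.2.1.2.2.1 a.2.1.2.2.2.1 fun k τ => S a.2.1 (k :: τ)
  else if a.1.1 = 6 then fun τ => S a.2.1 (a.2.2 ++ τ)
  else if a.1.1 = 7 then sk S a.2.1.1 a.1.2 a.2.1.2.1
  else if a.1.1 = 8 then bigT S
  else tcDen a.1

def tcTop (a : TcSt) (n : ℕ) : TcSt :=
  if n % 3 = 0 then ((4, a.2.1.2.2.1 + 3), a.2)
  else if n % 3 = 1 then ((1, n / 3 % (a.2.1.2.2.2.1 - 5)), a.2)
  else ((6, 0), a.2.1, [n / 3])

def tcAt (a : TcSt) (n : ℕ) : TcSt :=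
  if (ofNat (ℕ × ℕ × ℕ) n).1 ≤ 4 ∧ 16 ≤ (ofNat (ℕ × ℕ × ℕ) n).2.1 then
    ((5, 0), (a.2.1.1, a.2.1.2.1, ofNat (ℕ × ℕ × ℕ) n), a.2.2)
  else ((0, 0), a.2)

def tcDown (a : TcSt) (n : ℕ) : TcSt :=
  if a.1.2 = 0 then ((0, 0), a.2)
  else ((7, a.1.2 - 1), (a.2.1.1, ofNat Step n :: a.2.1.2.1, a.2.1.2.2), a.2.2)

def tcSk (a : TcSt) (n : ℕ) : TcSt :=
  if n % 3 = 0 then tcDown a (n / 3)
  else if n % 3 = 1 then tcAt a (n / 3)
  else ((1, n / 3), a.2)

def tcBig (a : TcSt) (n : ℕ) : TcSt :=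
  if n % 2 = 0 then ((7, n / 2 + 2), (n / 2, [], a.2.1.2.2), a.2.2)
  else ((1, n / 2), a.2)

/-- The large state of the subtree at a child. -/
def tcNxB (a : TcSt) (n : ℕ) : TcSt :=
  if a.1.1 = 5 then tcTop a n
  else if a.1.1 = 6 then (a.1, a.2.1, a.2.2 ++ [n])
  else if a.1.1 = 7 then tcSk a n
  else if a.1.1 = 8 then tcBig a n
  else (tcNx a.1 n, a.2)

theorem tc_nx_le (a : ℕ × ℕ) (n : ℕ) : (tcNx a n).1 ≤ 4 := by
  unfold tcNx
  split_ifs <;> simp

theorem tc_denB_small (S : TI → Tree) (a : TcSt) (h : a.1.1 ≤ 4) : tcDenB S a = tcDen a.1 := by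
  unfold tcDenB
  rw [if_neg (by omega), if_neg (by omega), if_neg (by omega), if_neg (by omega)]

theorem tc_denB_at (S : TI → Tree) (a : TcSt) (n : ℕ) :
    tcDenB S (tcAt a n) = topAt S a.2.1.1 a.2.1.2.1 n := by
  unfold tcAt topAt
  split_ifs with h
  · simp [tcDenB]
  · simp [tcDenB, tcDen]

theorem tc_denB_nil (S : TI → Tree) (a : TcSt) :
    tcDenB S a [] ↔ if a.1.1 = 6 then S a.2.1 a.2.2 else 1 ≤ a.1.1 ∧ a.1.1 ≤ 8 := by
  unfold tcDenB
  split_ifs with h5 h6 h6 h7 h8
  · omega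
  · exact iff_of_true trivial (by omega)
  · simp
  · refine iff_of_true ?_ (by omega)
    cases a.1.2 <;> exact trivial
  · exact iff_of_true trivial (by omega)
  · rw [tc_den_nil]; omega

theorem tc_denB_cons (S : TI → Tree) (a : TcSt) (n : ℕ) (τ : List ℕ) :
    tcDenB S a (n :: τ) ↔ tcDenB S (tcNxB a n) τ := by
  obtain ⟨⟨k, m⟩, q, l⟩ := a
  by_cases h5 : k = 5
  · subst h5
    by_cases n0 : n % 3 = 0
    · simp [tcDenB, tcNxB, tcTop, tcDen, top, lim, n0]
    by_cases n1 : n % 3 = 1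
    · simp [tcDenB, tcNxB, tcTop, tcDen, top, lim, n1]
    simp [tcDenB, tcNxB, tcTop, top, lim, n0, n1]
  by_cases h6 : k = 6
  · subst h6
    simp [tcDenB, tcNxB]
  by_cases h7 : k = 7
  · subst h7
    have e : tcNxB ((7, m), q, l) n = tcSk ((7, m), q, l) n := by simp [tcNxB]
    have e' : tcDenB S ((7, m), q, l) = sk S q.1 m q.2.1 := by simp [tcDenB]
    rw [e, e']
    by_cases n0 : n % 3 = 0
    · cases m with
      | zero => simp [tcSk, tcDown, tcDenB, tcDen, sk, lim, n0]
      | succ m => simp [tcSk, tcDown, tcDenB, sk, lim, n0]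
    by_cases n1 : n % 3 = 1
    · have e2 : tcSk ((7, m), q, l) n = tcAt ((7, m), q, l) (n / 3) := by simp [tcSk, n1]
      rw [e2, tc_denB_at]
      cases m <;> simp [sk, lim, n1]
    cases m <;> simp [tcSk, tcDenB, tcDen, sk, lim, n0, n1]
  by_cases h8 : k = 8
  · subst h8
    by_cases n0 : n % 2 = 0
    · simp [tcDenB, tcNxB, tcBig, bigT, lim, n0]
    · simp [tcDenB, tcNxB, tcBig, tcDen, bigT, lim, n0]
  have e : tcNxB ((k, m), q, l) n = (tcNx (k, m) n, q, l) := by simp [tcNxB, h5, h6, h7, h8]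
  have e' : tcDenB S ((k, m), q, l) = tcDen (k, m) := by simp [tcDenB, h5, h6, h7, h8]
  rw [e, e', tc_denB_small S _ (tc_nx_le _ _), tc_den_cons]

theorem tc_denB_fold (S : TI → Tree) (σ : List ℕ) : ∀ a : TcSt,
    tcDenB S a σ ↔ tcDenB S (σ.foldl tcNxB a) [] := by
  induction σ with
  | nil => exact fun _ => Iff.rfl
  | cons n τ ih => intro a; rw [tc_denB_cons, ih, List.foldl_cons]

section
variable {α : Type} [Primcodable α] {a : α → TcSt} {n : α → ℕ}

theorem tc_modc (hn : Primrec n) (c : ℕ) : Primrec fun x => n x % c :=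
  Primrec.nat_mod.comp hn (Primrec.const c)

theorem tc_divc (hn : Primrec n) (c : ℕ) : Primrec fun x => n x / c :=
  Primrec.nat_div.comp hn (Primrec.const c)

theorem tc_primrec_top (ha : Primrec a) (hn : Primrec n) : Primrec fun x => tcTop (a x) (n x) := by
  have r := Primrec.snd.comp ha
  have q := Primrec.fst.comp r
  have t := Primrec.snd.comp (Primrec.snd.comp q)
  have c := Primrec.fst.comp t
  have L := Primrec.fst.comp (Primrec.snd.comp t)
  have h := Primrec.ite (tc_eqc (tc_modc hn 3) 0)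
    (((Primrec.const (4 : ℕ)).pair (Primrec.nat_add.comp c (Primrec.const 3))).pair r)
    (Primrec.ite (tc_eqc (tc_modc hn 3) 1)
      (((Primrec.const (1 : ℕ)).pair (Primrec.nat_mod.comp (tc_divc hn 3)
        (Primrec.nat_sub.comp L (Primrec.const 5)))).pair r)
      ((Primrec.const ((6 : ℕ), (0 : ℕ))).pair
        (q.pair (Primrec.list_cons.comp (tc_divc hn 3) (Primrec.const [])))))
  exact h.of_eq fun _ => rfl

theorem tc_primrec_at (ha : Primrec a) (hn : Primrec n) : Primrec fun x => tcAt (a x) (n x) := by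
  have r := Primrec.snd.comp ha
  have q := Primrec.fst.comp r
  have o := (Primrec.ofNat (ℕ × ℕ × ℕ)).comp hn
  have hc := (Primrec.nat_le.comp (Primrec.fst.comp o) (Primrec.const 4)).and
    (Primrec.nat_le.comp (Primrec.const 16) (Primrec.fst.comp (Primrec.snd.comp o)))
  have h := Primrec.ite hc
    ((Primrec.const ((5 : ℕ), (0 : ℕ))).pair
      (((Primrec.fst.comp q).pair ((Primrec.fst.comp (Primrec.snd.comp q)).pair o)).pair
        (Primrec.snd.comp r)))
    ((Primrec.const ((0 : ℕ), (0 : ℕ))).pair r)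
  exact h.of_eq fun _ => rfl

theorem tc_primrec_down (ha : Primrec a) (hn : Primrec n) :
    Primrec fun x => tcDown (a x) (n x) := by
  have r := Primrec.snd.comp ha
  have q := Primrec.fst.comp r
  have m := Primrec.snd.comp (Primrec.fst.comp ha)
  have o : Primrec fun x => ofNat Step (n x) := (Primrec.ofNat Step).comp hn
  have s := Primrec.list_cons.comp o (Primrec.fst.comp (Primrec.snd.comp q))
  have h := Primrec.ite (tc_eqc m 0)
    ((Primrec.const ((0 : ℕ), (0 : ℕ))).pair r)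
    (((Primrec.const (7 : ℕ)).pair (Primrec.nat_sub.comp m (Primrec.const 1))).pair
      (((Primrec.fst.comp q).pair (s.pair (Primrec.snd.comp (Primrec.snd.comp q)))).pair
        (Primrec.snd.comp r)))
  exact h.of_eq fun _ => rfl

theorem tc_primrec_sk (ha : Primrec a) (hn : Primrec n) : Primrec fun x => tcSk (a x) (n x) := by
  have h := Primrec.ite (tc_eqc (tc_modc hn 3) 0) (tc_primrec_down ha (tc_divc hn 3))
    (Primrec.ite (tc_eqc (tc_modc hn 3) 1) (tc_primrec_at ha (tc_divc hn 3))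
      (((Primrec.const (1 : ℕ)).pair (tc_divc hn 3)).pair (Primrec.snd.comp ha)))
  exact h.of_eq fun _ => rfl

theorem tc_primrec_big (ha : Primrec a) (hn : Primrec n) : Primrec fun x => tcBig (a x) (n x) := by
  have r := Primrec.snd.comp ha
  have q := Primrec.fst.comp r
  have h := Primrec.ite (tc_eqc (tc_modc hn 2) 0)
    (((Primrec.const (7 : ℕ)).pair (Primrec.nat_add.comp (tc_divc hn 2) (Primrec.const 2))).pair
      (((tc_divc hn 2).pair ((Primrec.const ([] : Node)).pair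
        (Primrec.snd.comp (Primrec.snd.comp q)))).pair (Primrec.snd.comp r)))
    (((Primrec.const (1 : ℕ)).pair (tc_divc hn 2)).pair r)
  exact h.of_eq fun _ => rfl

theorem tc_primrec_nxB (ha : Primrec a) (hn : Primrec n) :
    Primrec fun x => tcNxB (a x) (n x) := by
  have r := Primrec.snd.comp ha
  have k := Primrec.fst.comp (Primrec.fst.comp ha)
  have h := Primrec.ite (tc_eqc k 5) (tc_primrec_top ha hn)
    (Primrec.ite (tc_eqc k 6)
      ((Primrec.fst.comp ha).pair ((Primrec.fst.comp r).pair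
        (Primrec.list_append.comp (Primrec.snd.comp r)
          (Primrec.list_cons.comp hn (Primrec.const [])))))
      (Primrec.ite (tc_eqc k 7) (tc_primrec_sk ha hn)
        (Primrec.ite (tc_eqc k 8) (tc_primrec_big ha hn)
          ((tc_primrec_nx.comp (Primrec.fst.comp ha) hn).pair r))))
  exact h.of_eq fun _ => rfl

end

/-- The start state. -/
def tcInit : TcSt := ((8, 0), (0, [], 0, 0, 0), [])

theorem tc_primrec_run : Primrec fun σ : List ℕ => σ.foldl tcNxB tcInit :=
  Primrec.list_foldl (h := fun _ (q : TcSt × ℕ) => tcNxB q.1 q.2) Primrec.id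
    (Primrec.const tcInit)
    (tc_primrec_nxB (Primrec.fst.comp Primrec.snd) (Primrec.snd.comp Primrec.snd)).to₂

theorem ci_bigT {Y : Orc} {S : TI → List ℕ → Bool}
    (hS : CI Y fun p : TI × List ℕ => S p.1 p.2) :
    CI Y fun σ => decide (bigT (fun q τ => S q τ = true) σ) := by
  have k := Primrec.fst.comp (Primrec.fst.comp tc_primrec_run)
  have h1 := ci_comp hS (Primrec.snd.comp tc_primrec_run).computableIn
  have h2 := ci_pred (X := Y) ((Primrec.nat_le.comp (Primrec.const 1) k).and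
    (Primrec.nat_le.comp k (Primrec.const 8)))
  have h := ci_ite (ci_pred (X := Y) (tc_eqc k 6)) h1 h2
  refine ci_of_eq h fun σ => ?_
  have e : bigT (fun q τ => S q τ = true) = tcDenB (fun q τ => S q τ = true) tcInit := by
    simp [tcDenB, tcInit]
  rw [e, Bool.eq_iff_iff, decide_eq_true_iff, tc_denB_fold, tc_denB_nil]
  by_cases h6 : (σ.foldl tcNxB tcInit).1.1 = 6
  · simp [h6]
  · simp [h6]

end Pool.Agent.P.MP_9f8894_lc
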