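import Mathlib
import Pool.Agent.P.MP_9f8894_lc.VChain

/-! Package VGood: finiteness of the uncovered leftovers. -/

set_option autoImplicit false
open Encodable Denumerable Filter TopologicalSpace
open scoped Classical

namespace Pool.Agent.P.MP_9f8894_lc

variable {W : Wit} {B : Bot} {e : ℕ}

theorem vg_cert_finite (j : ℕ) (p : Path) (n : ℕ) :
    {L | Cert W B e j p L ∧ L.length ≤ n}.Finite := by
  rw [Cert_eq]; exact certOf_finite

/-- Finitely many first steps. -/
theorem vg_first (hW : WitSem W) (hB : BotSem W B) (j : ℕ) (π : Path) (L : Hist)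
    (h : Kref e (j + 1) π (idx L).1 ∨ Fin1 W B e (j + 1) (L :: π)) :
    {q : Hist × ℕ | Prd W B e j (L :: π) q.1 q.2}.Finite := by
  rcases h with h | h
  · cases j with
    | zero => exact hB.fam_fin e L π h
    | succ j =>
      obtain ⟨w0, hw0⟩ := (hW.kw e _ π _).1 h
      refine ((vg_cert_finite (W := W) (B := B) (e := e) (j + 1) (L :: π) w0).prod
        (Set.finite_le_nat w0)).subset ?_
      rintro ⟨L', k⟩ hq
      obtain ⟨hc, -, -, hup, -⟩ := (Prd_succ W B e j (L :: π) L' k).1 hq
      have hle : L'.length + k ≤ w0 := by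
        by_contra hlt
        exact hup L π rfl w0 (by omega) hw0
      exact ⟨⟨hc, by change L'.length ≤ w0; omega⟩, by change k ≤ w0; omega⟩
  · obtain ⟨L1, hc1, hn1, hk1⟩ := (fin1_succ j (L :: π)).1 h
    have hbelow : ∀ L', Cert W B e j (L :: π) L' → L' = L1 ∨ ∃ q, q :: L' <:+ L1 := by
      intro L' hc
      rw [Cert_eq] at hc hc1
      exact certOf_below hc1 hn1 hc
    have hlw : ∀ (L' : Hist) (q : ℕ × ℕ), q :: L' <:+ L1 → LW W B e j (L :: π) L' q.1 := by
      intro L' q hs
      rw [Cert_eq] at hc1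
      exact (certOf_of_cons hc1 hs).1.1
    have hfib : ∀ L', {k | Prd W B e j (L :: π) L' k}.Finite := by
      intro L'
      by_cases hc : Cert W B e j (L :: π) L'
      · rcases hbelow L' hc with rfl | ⟨q, hs⟩
        · cases j with
          | zero => exact hB.re_fin e (L :: π) L' (Or.inr hk1)
          | succ j =>
            obtain ⟨i, hi⟩ := hk1
            refine (Set.finite_le_nat i).subset fun k hk => ?_
            obtain ⟨-, -, -, -, hr⟩ := (Prd_succ W B e j (L :: π) L' k).1 hk
            by_contra hlt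
            exact hi (hr i (not_le.1 hlt))
        · have hw := hlw L' q hs
          cases j with
          | zero => exact hB.re_fin e (L :: π) L' (Or.inl ⟨q.1, hw⟩)
          | succ j =>
            refine (Set.finite_le_nat q.1).subset fun k hk => ?_
            obtain ⟨-, -, hr, -, -⟩ := (Prd_succ W B e j (L :: π) L' k).1 hk
            by_contra hlt
            exact hr q.1 (not_le.1 hlt) hw
      · refine Set.finite_empty.subset fun k hk => ?_
        exact absurd (prd_cert hB hk).1 hc
    refine ((vg_cert_finite (W := W) (B := B) (e := e) j (L :: π) L1.length).biUnion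
      fun L' _ => (hfib L').image fun k => (L', k)).subset ?_
    rintro ⟨L', k⟩ hq
    have hc : Cert W B e j (L :: π) L' := (prd_cert hB hq).1
    refine Set.mem_biUnion (x := L') ⟨hc, ?_⟩ ⟨k, hq, rfl⟩
    rcases hbelow L' hc with rfl | ⟨q, hs⟩
    · exact le_rfl
    · have := hs.length_le
      simp only [List.length_cons] at this
      omega

/-- A left attempt with a valid candidate satisfies the hypothesis of `finite_good`. -/
theorem vg_hyp (hW : WitSem W) {j : ℕ} {π : Path} {L : Hist} (hv : Wval e (j + 1) π L)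
    (hl : Leave W B e (j + 1) π L) :
    Kref e (j + 1) π (idx L).1 ∨ Fin1 W B e (j + 1) (L :: π) := by
  rcases (leave_iff hW _ _ _).1 hl with h | h | h
  · exact Or.inl h
  · exact absurd hv h
  · exact Or.inr (fin1_of_fin2 hW h.2)

theorem finite_good (hW : WitSem W) (hB : BotSem W B) (j : ℕ) (π : Path) (L : Hist)
    (h : Kref e (j + 1) π (idx L).1 ∨ Fin1 W B e (j + 1) (L :: π)) :
    {ρ | Good W B e j (L :: π) ρ}.Finite := by
  induction j generalizing π L with
  | zero =>
    have hF := vg_first hW hB 0 π L h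
    have hfib : ∀ q ∈ {q : Hist × ℕ | Prd W B e 0 (L :: π) q.1 q.2},
        {n | NCov W B e 0 (L :: π) q.1 ∧ B.Act e (L :: π) q.1 q.2 n}.Finite := by
      intro q hq
      by_cases hc : NCov W B e 0 (L :: π) q.1
      · exact (hB.act_fin e (L :: π) q.1 q.2 hq hc).subset fun n hn => hn.2
      · exact Set.finite_empty.subset fun n hn => absurd hn.1 hc
    refine ((hF.image fun q => [q]).union (hF.biUnion fun q hq =>
      (hfib q hq).image fun n => [q, (([] : Hist), n)])).subset ?_
    intro ρ hρ
    obtain ⟨L', k, hre, h1 | ⟨n, h1, h2, h3⟩⟩ := (Good_zero W B e (L :: π) ρ).1 hρ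
    · exact Or.inl ⟨(L', k), hre, h1.symm⟩
    · exact Or.inr (Set.mem_biUnion (x := (L', k)) hre ⟨n, ⟨h2, h3⟩, h1.symm⟩)
  | succ j ih =>
    have hF := vg_first hW hB (j + 1) π L h
    have hfib : ∀ q ∈ {q : Hist × ℕ | Prd W B e (j + 1) (L :: π) q.1 q.2},
        {ρ' | NCov W B e (j + 1) (L :: π) q.1 ∧ Good W B e j (q.1 :: L :: π) ρ'}.Finite := by
      intro q hq
      by_cases hc : NCov W B e (j + 1) (L :: π) q.1
      · refine (ih (L :: π) q.1 ?_).subset fun ρ' hρ' => hρ'.2
        rcases hc with hc | hc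
        · have hq' : Prd W B e (j + 1) (L :: π) q.1 q.2 := hq
          exact vg_hyp hW (prd_cert hB hq').2 hc
        · exact Or.inr hc
      · exact Set.finite_empty.subset fun n hn => absurd hn.1 hc
    refine ((hF.image fun q => [q]).union (hF.biUnion fun q hq =>
      (hfib q hq).image fun ρ' => q :: ρ')).subset ?_
    intro ρ hρ
    obtain ⟨L', k, ρ', h0, hp, h1 | ⟨h2, h3⟩⟩ := (Good_succ W B e j (L :: π) ρ).1 hρ
    · subst h1
      exact Or.inl ⟨(L', k), hp, h0.symm⟩
    · exact Or.inr (Set.mem_biUnion (x := (L', k)) hp ⟨ρ', ⟨h2, h3⟩, h0.symm⟩)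

theorem vg_encard_le {α : Type} (S : Set α) (b : ℕ) :
    (∀ l : List α, l.Nodup → l.length = b + 1 → ∃ ρ ∈ l, ρ ∉ S) ↔ S.encard ≤ (b : ℕ∞) := by
  constructor
  · intro h
    by_contra hlt
    have h1 : ((b + 1 : ℕ) : ℕ∞) ≤ S.encard := by
      push_cast
      exact Order.add_one_le_of_lt (not_le.1 hlt)
    obtain ⟨t, hts, ht⟩ := Set.exists_subset_encard_eq h1
    have hfin : t.Finite := Set.finite_of_encard_eq_coe ht
    have hcard : hfin.toFinset.card = b + 1 := by
      have := hfin.encard_eq_coe_toFinset_card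
      rw [ht] at this
      exact_mod_cast this.symm
    obtain ⟨ρ, hρ, hn⟩ := h hfin.toFinset.toList (Finset.nodup_toList _)
      (by rw [Finset.length_toList, hcard])
    exact hn (hts (by simpa using hρ))
  · intro h l hl hlen
    by_contra hall
    push Not at hall
    have hsub : (l.toFinset : Set α) ⊆ S := fun x hx => hall x (by simpa using hx)
    have h1 := (Set.encard_le_encard hsub).trans h
    rw [Set.encard_coe_eq_coe_finsetCard, List.toFinset_card_of_nodup hl, hlen] at h1
    have h2 : b + 1 ≤ b := by exact_mod_cast h1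
    omega

theorem bnd_iff (j : ℕ) (π : Path) (L : Hist) (b : ℕ) : Bnd W B e (j + 1) π L b ↔
    (Wval e (j + 1) π L → {ρ | Good W B e j (L :: π) ρ}.encard ≤ (b : ℕ∞)) := by
  rw [Bnd_succ, ← vg_encard_le]
  rfl

theorem cert_extend (hW : WitSem W) (hB : BotSem W B) {j : ℕ} {π : Path} {L : Hist}
    (h : Cert W B e j π L) (hl : Leave W B e j π L) : ∃ q, Cert W B e j π (q :: L) := by
  have hb : ∃ b, Bnd W B e j π L b := by
    cases j with
    | zero => exact ⟨0, Bnd_zero W B e π L 0⟩
    | succ j =>
      by_cases hv : Wval e (j + 1) π L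
      · have hfin := finite_good hW hB j π L (vg_hyp hW hv hl)
        refine ⟨hfin.toFinset.card, (bnd_iff j π L _).2 fun _ => ?_⟩
        exact hfin.encard_eq_coe_toFinset_card.le
      · exact ⟨0, (bnd_iff j π L _).2 fun h' => absurd h' hv⟩
  have hl' : ∃ w, LW W B e j π L w := hl
  refine ⟨(Nat.find hl', Nat.find hb), (Cert_cons W B e j π _ L).2
    ⟨h, ⟨Nat.find_spec hl', fun w hw => Nat.find_min hl' hw⟩,
      Nat.find_spec hb, fun b hb' => Nat.find_min hb hb'⟩⟩

end Pool.Agent.P.MP_9f8894_lc
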