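import Mathlib
import Pool.Agent.P.MP_9f8894_lc.VGood

/-! Package VChainB: infinite chains of attempts and good paths. -/

set_option autoImplicit false
open Encodable Denumerable Filter TopologicalSpace
open scoped Classical

namespace Pool.Agent.P.MP_9f8894_lc

variable {W : Wit} {B : Bot} {e : ℕ}

theorem vcb_odd (hW : WitSem W) {j : ℕ} {π : Path} {L : Hist} {q : ℕ × ℕ}
    (h : Cert W B e j π (q :: L)) (hi : ¬ Kref e j π (idx L).1) :
    idx (q :: L) = ((idx L).1, (idx L).2 + 1) := by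
  have h1 := ((Cert_cons W B e j π q L).1 h).2.1.1
  rw [LW_iff] at h1
  by_cases hq : q.1 % 2 = 0
  · rw [if_pos hq] at h1
    exact absurd ((hW.kw e j π _).2 ⟨_, h1⟩) hi
  · simp only [idx, if_neg hq]

theorem vcb_next (hW : WitSem W) (hB : BotSem W B) {j : ℕ} {π : Path} {a : ℕ}
    (hall : ∀ L, Cert W B e j π L → Leave W B e j π L) (ha : Kref e j π a) {L : Hist}
    (hL : Cert W B e j π L) (hLa : (idx L).1 = a) :
    ∃ L', Cert W B e j π L' ∧ idx L' = (a + 1, 0) := by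
  obtain ⟨w₀, hw₀⟩ := (hW.kw e j π a).1 ha
  have key : ∀ d L, Cert W B e j π L → (idx L).1 = a → 2 * w₀ + 1 ≤ (idx L).2 + d →
      ∃ L', Cert W B e j π L' ∧ idx L' = (a + 1, 0) := by
    intro d
    induction d with
    | zero =>
      intro L hL hLa hd
      obtain ⟨q, hq⟩ := cert_extend hW hB hL (hall L hL)
      obtain ⟨-, ⟨h1, h2⟩, -⟩ := (Cert_cons W B e j π q L).1 hq
      by_cases hq2 : q.1 % 2 = 0
      · exact ⟨_, hq, by simp only [idx, if_pos hq2, hLa]⟩
      · rw [LW_iff, if_neg hq2] at h1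
        refine absurd ?_ (h2 (2 * w₀) (by omega))
        rw [LW_iff, if_pos (by omega), hLa, Nat.mul_div_cancel_left _ two_pos]
        exact hw₀
    | succ d ih =>
      intro L hL hLa hd
      obtain ⟨q, hq⟩ := cert_extend hW hB hL (hall L hL)
      by_cases hq2 : q.1 % 2 = 0
      · exact ⟨_, hq, by simp only [idx, if_pos hq2, hLa]⟩
      · refine ih _ hq ?_ ?_
        · simp only [idx, if_neg hq2, hLa]
        · simp only [idx, if_neg hq2]; omega
  exact key (2 * w₀ + 1) L hL hLa (by omega)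

theorem chain_all (hW : WitSem W) (hB : BotSem W B) {j : ℕ} {π : Path} {i : ℕ}
    (hall : ∀ L, Cert W B e j π L → Leave W B e j π L) (hi : ¬ Kref e j π i)
    (hlt : ∀ i' < i, Kref e j π i') :
    (∀ i', ∃ L, Cert W B e j π L ∧ idx L = (i, i')) ∧
      {L | Cert W B e j π L ∧ (idx L).1 ≠ i}.Finite := by
  have h0 : ∀ a ≤ i, ∃ L, Cert W B e j π L ∧ idx L = (a, 0) := by
    intro a
    induction a with
    | zero => exact fun _ => ⟨[], Cert_nil W B e j π, rfl⟩
    | succ a ih =>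
      intro ha
      obtain ⟨L, h1, h2⟩ := ih (by omega)
      exact vcb_next hW hB hall (hlt a (by omega)) h1 (by rw [h2])
  obtain ⟨L₀, hL₀, hidx⟩ := h0 i le_rfl
  have h1 : ∀ k, ∃ L, Cert W B e j π L ∧ idx L = (i, k) ∧ L.length = L₀.length + k := by
    intro k
    induction k with
    | zero => exact ⟨L₀, hL₀, hidx, rfl⟩
    | succ k ih =>
      obtain ⟨L, a1, a2, a3⟩ := ih
      obtain ⟨q, hq⟩ := cert_extend hW hB a1 (hall L a1)
      refine ⟨_, hq, ?_, by rw [List.length_cons, a3, Nat.add_assoc]⟩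
      rw [vcb_odd hW hq (by rw [a2]; exact hi), a2]
  refine ⟨fun i' => (h1 i').imp fun L h => ⟨h.1, h.2.1⟩, ?_⟩
  refine (certOf_finite (lw := LW W B e j π) (bd := Bnd W B e j π) (n := L₀.length)).subset ?_
  rintro L ⟨a1, a2⟩
  refine ⟨by rwa [← Cert_eq], ?_⟩
  by_contra hlen
  obtain ⟨L', b1, b2, b3⟩ := h1 (L.length - L₀.length)
  rw [Cert_eq] at a1 b1
  have hl : L'.length = L.length := by omega
  have := (certOf_cmp a1 b1 hl.le).eq_of_length hl
  rw [← this, b2] at a2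
  exact a2 rfl

theorem Gd.length {j : ℕ} {π : Path} (h : Gd W B e j π) : π.length + j = e := by
  induction π generalizing j with
  | nil => simpa [Gd] using h
  | cons L π ih =>
    have := ih h.1
    rw [List.length_cons]; omega

theorem Gd.suffix {j : ℕ} {π π' : Path} {L : Hist} (h : Gd W B e j π) (hs : L :: π' <:+ π) :
    ∃ j', j < j' ∧ π'.length + j' = e ∧ Gd W B e j' π' ∧ Cert W B e j' π' L ∧
      ¬ Leave W B e j' π' L := by
  induction π generalizing j with
  | nil => simp at hs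
  | cons L₁ π₁ ih =>
    rcases List.suffix_cons_iff.1 hs with h1 | h1
    · obtain ⟨rfl, rfl⟩ := List.cons.inj h1
      exact ⟨j + 1, by omega, Gd.length h.1, h.1, h.2.1, h.2.2⟩
    · obtain ⟨j', a1, a2⟩ := ih h.1 h1
      exact ⟨j', by omega, a2⟩

theorem vcb_kt (hW : WitSem W) {j : ℕ} {π : Path} {L : Hist} (h : Gd W B e j (L :: π)) :
    KT B e (j + 2) π := ⟨_, fun hk => h.2.2 (leave_of_kref hW hk)⟩

theorem vcb_fin1 {j : ℕ} {π : Path} {L : Hist} (h : Gd W B e j (L :: π))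
    (hk : KT B e (j + 1) (L :: π)) : Fin1 W B e (j + 2) π :=
  (fin1_succ (j + 1) π).2 ⟨L, h.2.1, h.2.2, hk⟩

theorem vcb_fin2 {j : ℕ} {π : Path} {L : Hist} (h : Gd W B e j (L :: π))
    (hk : Fin1 W B e (j + 1) (L :: π)) : Fin2 W B e (j + 2) π :=
  (fin2_succ (j + 1) π).2 ⟨L, h.2.1, h.2.2, hk⟩

theorem vcb_step {j m : ℕ} {π : Path} {L : Hist} (h : Gd W B e j (L :: π))
    (h1 : m ≤ j + 1 → XP e (j + 1) L) (h2 : XPs e (max m (j + 2)) π) : XPs e m (L :: π) := by
  intro L' π' j' hs hlen hm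
  have hl := Gd.length h.1
  rcases List.suffix_cons_iff.1 hs with h3 | h3
  · obtain ⟨rfl, rfl⟩ := List.cons.inj h3
    obtain rfl : j' = j + 1 := by omega
    exact h1 hm
  · have h4 := h3.length_le
    rw [List.length_cons] at h4
    exact h2 L' π' j' h3 hlen (max_le hm (by omega))

theorem vcb_nil (m : ℕ) : XPs e m [] := fun _ _ _ hs => by simp at hs

theorem vcb_xp3 (hW : WitSem W) {j : ℕ} {π : Path} (h : Gd W B e j π)
    (h1 : Fin2 W B e (j + 1) π) (h2 : Fin1 W B e (j + 1) π) (h3 : KT B e (j + 1) π) :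
    XPs e (j + 1) π := by
  induction π generalizing j with
  | nil => exact vcb_nil _
  | cons L π ih =>
    refine vcb_step h (fun _ => ?_) ?_
    · by_contra hx
      exact h.2.2 ((leave_iff hW _ _ _).2 (Or.inr (Or.inr ⟨hx, h1⟩)))
    · rw [max_eq_right (by omega)]
      exact ih h.1 (vcb_fin2 h h2) (vcb_fin1 h h3) (vcb_kt hW h)

theorem vcb_xp2 (hW : WitSem W) {j : ℕ} {π : Path} (h : Gd W B e j π)
    (h2 : Fin1 W B e (j + 1) π) (h3 : KT B e (j + 1) π) : XPs e (j + 2) π := by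
  cases π with
  | nil => exact vcb_nil _
  | cons L π =>
    refine vcb_step h (fun hm => by omega) ?_
    rw [max_self]
    exact vcb_xp3 hW h.1 (vcb_fin2 h h2) (vcb_fin1 h h3) (vcb_kt hW h)

theorem xps_of_notKref (hW : WitSem W) {j i : ℕ} {π : Path} (h : Gd W B e j π)
    (hi : ¬ Kref e j π i) : XPs e (j + 3) π := by
  cases π with
  | nil => exact vcb_nil _
  | cons L π =>
    refine vcb_step h (fun hm => by omega) ?_
    rw [max_eq_left (by omega)]
    exact vcb_xp2 hW h.1 (vcb_fin1 h ⟨i, hi⟩) (vcb_kt hW h)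

theorem xps_of_done (hW : WitSem W) {π : Path} {L : Hist} (h : Gd W B e 0 π)
    (hc : Cert W B e 0 π L) (hn : ¬ Leave W B e 0 π L) (hd : ∃ z, B.Dn e (L :: π) z) :
    XPs e 1 π := by
  exact vcb_xp3 hW h ((fin2_succ 0 π).2 ⟨L, hc, hn, hd⟩) ((fin1_succ 0 π).2 ⟨L, hc, hn, hd⟩)
    ⟨_, fun hk => hn (leave_of_kref hW hk)⟩

end Pool.Agent.P.MP_9f8894_lc
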