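import Mathlib
import Pool.Agent.P.MP_9f8894_lc.VChainB

/-! Package VCount: counting members and absorbers. -/

set_option autoImplicit false
open Encodable Denumerable Filter TopologicalSpace
open scoped Classical

namespace Pool.Agent.P.MP_9f8894_lc

variable {W : Wit} {B : Bot} {R : Rl} {e : ℕ}

namespace VCount

/-- Counting along a relation which is injective in its first argument. -/
theorem encard_le_of_rel {α β : Type} {S : Set α} {T : Set β} (Φ : α → β → Prop)
    (h1 : ∀ a ∈ S, ∃ b ∈ T, Φ a b)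
    (h2 : ∀ a ∈ S, ∀ a' ∈ S, ∀ b, Φ a b → Φ a' b → a = a') : S.encard ≤ T.encard := by
  choose f hf using h1
  let g : S ↪ T := ⟨fun a => ⟨f a.1 a.2, (hf a.1 a.2).1⟩, fun a a' h => by
    have h' : f a.1 a.2 = f a'.1 a'.2 := congrArg Subtype.val h
    refine Subtype.ext (h2 a.1 a.2 a'.1 a'.2 (f a.1 a.2) (hf a.1 a.2).2 ?_)
    rw [h']
    exact (hf a'.1 a'.2).2⟩
  exact g.encard_le

theorem encard_Iic (n : ℕ) : (Set.Iic n).encard = ((n + 1 : ℕ) : ℕ∞) := by
  have : Set.Iic n = ((Finset.range (n + 1) : Finset ℕ) : Set ℕ) := by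
    ext k; simp
  rw [this, Set.encard_coe_eq_coe_finsetCard, Finset.card_range]

/-- A step without its witness. -/
def red (st : Step) : Hist × ℕ := (st.1, st.2.1)

theorem path_cons (st : Step) (s : Node) : path (st :: s) = st.1 :: path s := rfl

theorem path_length (s : Node) : (path s).length = s.length := by simp [path]

theorem path_append (s t : Node) : path (s ++ t) = path s ++ path t := by simp [path]

theorem nofake_suffix {s₁ s : Node} (h : ∀ j, ¬ HasFake R e (s₁ ++ s) j) (j : ℕ) :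
    ¬ HasFake R e s j := by
  rintro ⟨a, st, s₀, rfl, h1, h2⟩
  exact h j ⟨s₁ ++ a, st, s₀, by simp, h1, h2⟩

theorem rs_of_nofake {s₁ s₀ : Node} {st : Step} {j : ℕ}
    (h : ∀ j, ¬ HasFake R e (s₁ ++ st :: s₀) j) (hj : s₀.length + j = e) :
    R.RS e j (path s₀) st := by
  by_contra hn
  exact h j ⟨s₁, st, s₀, rfl, hj, hn⟩

theorem allReal_suffix {s₁ s : Node} (h : AllReal R e (s₁ ++ s)) (hl : s.length ≤ e + 1) :
    AllReal R e s :=
  ⟨by omega, nofake_suffix h.2.1, fun h' => by omega⟩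

theorem inj_short (hR : RlSem W B R) : ∀ s t : Node, s.length ≤ e + 1 →
    (∀ j, ¬ HasFake R e s j) → (∀ j, ¬ HasFake R e t j) → s.map red = t.map red → s = t
  | [], [], _, _, _, _ => rfl
  | [], _ :: _, _, _, _, h => by simp at h
  | _ :: _, [], _, _, _, h => by simp at h
  | (L, k, v) :: s, (L', k', v') :: t, hl, hs, ht, h => by
    simp only [List.map_cons, List.cons.injEq, red, Prod.mk.injEq] at h
    obtain ⟨⟨rfl, rfl⟩, h⟩ := h
    simp only [List.length_cons] at hl
    obtain rfl : s = t := inj_short hR s t (by omega) (nofake_suffix (s₁ := [(L, k, v)]) hs)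
      (nofake_suffix (s₁ := [(L, k, v')]) ht) h
    have h1 := rs_of_nofake (s₁ := []) (j := e - s.length) hs (by omega)
    have h2 := rs_of_nofake (s₁ := []) (j := e - s.length) ht (by omega)
    rw [hR.rs_uniq _ _ _ _ _ _ _ h1 h2]

theorem real_inj (hR : RlSem W B R) {s t : Node} (hs : AllReal R e s) (ht : AllReal R e t)
    (h : s.map red = t.map red) : s = t := by
  have hlen : s.length = t.length := by simpa using congrArg List.length h
  by_cases hl : s.length ≤ e + 1
  · exact inj_short hR s t hl hs.2.1 ht.2.1 h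
  · have hl1 : s.length = e + 2 := by have := hs.1; omega
    obtain ⟨n, w, L, k, v, s₀, rfl, h1, h2⟩ := hs.2.2 hl1
    obtain ⟨n', w', L', k', v', t₀, rfl, h1', h2'⟩ := ht.2.2 (hlen ▸ hl1)
    rw [List.map_cons, List.map_cons (l := _ :: t₀), List.cons.injEq] at h
    have h3 := inj_short hR ((L, k, v) :: s₀) ((L', k', v') :: t₀) (by simp; omega)
      (nofake_suffix (s₁ := [([], n, w)]) hs.2.1) (nofake_suffix (s₁ := [([], n', w')]) ht.2.1) h.2
    simp only [List.cons.injEq, Prod.mk.injEq] at h3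
    obtain ⟨⟨rfl, rfl, rfl⟩, rfl⟩ := h3
    have h4 := h.1
    simp only [red, Prod.mk.injEq, true_and] at h4
    subst h4
    rw [hR.aw_uniq _ _ _ _ _ _ _ h2 h2']

theorem ncov_of_unc {s₁ s' : Node} {st : Step} {j : ℕ} (h1 : s₁ ≠ []) (h2 : s' ≠ [])
    (hj : s'.length + j = e) (hr : AllReal R e (s₁ ++ st :: s'))
    (hu : Unc W B R e (s₁ ++ st :: s')) : NCov W B e j (path s') st.1 := by
  obtain ⟨st', s₀, rfl⟩ := List.exists_cons_of_ne_nil h2
  have hl : 0 < s₁.length := List.length_pos_iff.2 h1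
  simp only [List.length_cons] at hj
  by_contra hn
  refine hu j (by simp; omega) ⟨s₁, st, st', s₀, rfl, by omega, ?_, ?_, hn⟩
  · exact rs_of_nofake hr.2.1 (by simp; omega)
  · refine rs_of_nofake (s₁ := s₁ ++ [st]) ?_ (by omega)
    simpa using hr.2.1

theorem good_of_unc (hR : RlSem W B R) : ∀ (j : ℕ) (s₁ s' : Node), s₁ ≠ [] → s' ≠ [] →
    s'.length + j = e → AllReal R e (s₁ ++ s') → Unc W B R e (s₁ ++ s') →
    Good W B e j (path s') (s₁.map red).reverse := by
  intro j
  induction j with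
  | zero =>
    intro s₁ s' h1 h2 hj hr hu
    obtain ⟨s₂, ⟨L, k, v⟩, rfl⟩ : ∃ a st, s₁ = a ++ [st] :=
      ⟨_, _, (List.dropLast_append_getLast h1).symm⟩
    rw [List.append_assoc, List.singleton_append] at hr hu
    have hp : Prd W B e 0 (path s') L k := (hR.rs _ _ _ _ _).2 ⟨v, rs_of_nofake hr.2.1 hj⟩
    rw [Good_zero]
    refine ⟨L, k, hp, ?_⟩
    by_cases h3 : s₂ = []
    · left; simp [h3, red]
    · right
      have hc := ncov_of_unc h3 h2 hj hr hu
      have hl : 0 < s₂.length := List.length_pos_iff.2 h3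
      have hl2 := hr.1
      simp only [List.length_append, List.length_cons] at hl2
      obtain ⟨n, w, L', k', v', s₀, h4, h5, h6⟩ := hr.2.2 (by simp; omega)
      obtain ⟨a, rfl⟩ : ∃ a, s₂ = [a] := List.length_eq_one_iff.1 (by omega)
      simp only [List.cons_append, List.nil_append, List.cons.injEq, Prod.mk.injEq] at h4
      obtain ⟨rfl, ⟨rfl, rfl, rfl⟩, rfl⟩ := h4
      exact ⟨n, by simp [red], hc, (hR.aw _ _ _ _ _).2 ⟨w, h6⟩⟩
  | succ j ih =>
    intro s₁ s' h1 h2 hj hr hu
    obtain ⟨s₂, ⟨L, k, v⟩, rfl⟩ : ∃ a st, s₁ = a ++ [st] :=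
      ⟨_, _, (List.dropLast_append_getLast h1).symm⟩
    rw [List.append_assoc, List.singleton_append] at hr hu
    have hp : Prd W B e (j + 1) (path s') L k :=
      (hR.rs _ _ _ _ _).2 ⟨v, rs_of_nofake hr.2.1 hj⟩
    rw [Good_succ]
    refine ⟨L, k, (s₂.map red).reverse, by simp [red], hp, ?_⟩
    by_cases h3 : s₂ = []
    · left; simp [h3]
    · right
      exact ⟨ncov_of_unc h3 h2 hj hr hu,
        ih s₂ ((L, k, v) :: s') h3 (by simp) (by simp; omega) hr hu⟩

/-- The relative addresses of the leftovers of the attempts before `L`. -/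
def Left (W : Wit) (B : Bot) (e j : ℕ) (π : Path) (L : Hist) : Set (Hist × ℕ × RAdr) :=
  {p | ∃ q, q :: p.1 <:+ L ∧ Wval e (j + 1) π p.1 ∧ p.2.1 ≤ q.1 ∧
    (p.2.2 = [] ∨ Good W B e j (p.1 :: π) p.2.2)}

theorem left_card {j : ℕ} {π : Path} : ∀ L : Hist, Cert W B e (j + 1) π L →
    (Left W B e j π L).encard ≤ (sumL L : ℕ∞)
  | [], _ => by
    have : Left W B e j π [] = ∅ := by
      ext p; simp [Left]
    simp [this]
  | q :: L, h => by
    rw [Cert_cons] at h
    have ih := left_card L h.1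
    let S : Set (Hist × ℕ × RAdr) := {p | p.1 = L ∧ Wval e (j + 1) π L ∧ p.2.1 ≤ q.1 ∧
      (p.2.2 = [] ∨ Good W B e j (L :: π) p.2.2)}
    have hsub : Left W B e j π (q :: L) ⊆ S ∪ Left W B e j π L := by
      rintro ⟨L', k, ρ⟩ ⟨q', h1, h2, h3, h4⟩
      rcases List.suffix_cons_iff.1 h1 with h5 | h5
      · simp only [List.cons.injEq] at h5
        obtain ⟨rfl, rfl⟩ := h5
        exact Or.inl ⟨rfl, h2, h3, h4⟩
      · exact Or.inr ⟨q', h5, h2, h3, h4⟩
    have hS : S.encard ≤ (((q.1 + 1) * (1 + q.2) : ℕ) : ℕ∞) := by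
      by_cases hv : Wval e (j + 1) π L
      · have hb := (bnd_iff j π L q.2).1 h.2.2.1 hv
        have h1 : S.encard ≤
            (Set.Iic q.1 ×ˢ insert [] {ρ | Good W B e j (L :: π) ρ}).encard := by
          refine encard_le_of_rel (fun p r => p.2 = r) ?_ ?_
          · rintro ⟨L', k, ρ⟩ ⟨-, -, h3, h4⟩
            exact ⟨(k, ρ), ⟨h3, h4⟩, rfl⟩
          · rintro ⟨L', r⟩ h1 ⟨L'', r'⟩ h2 b h3 h4
            exact Prod.ext (h1.1.trans h2.1.symm) (h3.trans h4.symm)
        refine h1.trans ?_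
        rw [Set.encard_prod, encard_Iic]
        push_cast
        refine mul_le_mul_right ?_ _
        refine (Set.encard_insert_le _ _).trans ?_
        rw [add_comm]
        exact add_le_add_right hb _
      · have : S = ∅ := by
          ext p; simp only [S, Set.mem_ofPred_eq, Set.mem_empty_iff_false, iff_false]
          exact fun h => hv h.2.1
        simp [this]
    refine (Set.encard_le_encard hsub).trans ((Set.encard_union_le _ _).trans ?_)
    rw [sumL]
    push_cast at hS ⊢
    exact add_le_add hS ih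

theorem split_suffix {π : Path} {s : Node} (h : π <:+ path s) :
    ∃ s₁ s₀, s = s₁ ++ s₀ ∧ path s₀ = π := by
  obtain ⟨a, ha⟩ := h
  unfold path at ha
  obtain ⟨s₁, s₀, h1, -, h3⟩ := List.map_eq_append_iff.1 ha.symm
  exact ⟨s₁, s₀, h1, h3⟩

end VCount

open VCount

theorem mem_card (hW : WitSem W) (hR : RlSem W B R) {j i : ℕ} {π : Path} (h : Gd W B e j π)
    (hi : ¬ Kref e j π i) : (Mem R e π).encard ≤ ((gP π * (i + 1) : ℕ) : ℕ∞) := by
  induction π generalizing j i with
  | nil =>
    have h1 : Mem R e [] ⊆ {[]} := by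
      rintro s ⟨hs, -⟩
      simpa [path] using hs
    refine (Set.encard_le_encard h1).trans ?_
    rw [Set.encard_singleton]
    exact_mod_cast (by simp [gP] : 1 ≤ gP [] * (i + 1))
  | cons L π ih =>
    have hlen := Gd.length h
    obtain ⟨h1, -, h3⟩ := h
    have h4 := ih h1 fun hk => h3 (leave_of_kref hW hk)
    simp only [List.length_cons] at hlen
    have h5 : (Mem R e (L :: π)).encard ≤ (Mem R e π ×ˢ Set.Iic i).encard := by
      refine encard_le_of_rel (fun s r => ∃ v, s = (L, r.2, v) :: r.1) ?_ ?_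
      · rintro s ⟨hs, hr⟩
        cases s with
        | nil => simp [path] at hs
        | cons st s₀ =>
          obtain ⟨L', k, v⟩ := st
          rw [path_cons, List.cons.injEq] at hs
          obtain ⟨rfl, rfl⟩ := hs
          rw [path_length] at hlen
          have hp : Prd W B e (j + 1) (path s₀) L' k :=
            (hR.rs _ _ _ _ _).2 ⟨v, rs_of_nofake (s₁ := []) hr.2.1 (by omega)⟩
          have hm : AllReal R e s₀ := allReal_suffix (s₁ := [(L', k, v)]) hr (by omega)
          refine ⟨(s₀, k), ⟨⟨rfl, hm⟩, ?_⟩, v, rfl⟩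
          by_contra hk
          exact hi (((Prd_succ _ _ _ _ _ _ _).1 hp).2.2.2.2 i (not_le.1 hk))
      · rintro s hs s' hs' b ⟨v, rfl⟩ ⟨v', rfl⟩
        exact real_inj hR hs.2 hs'.2 (by simp [red])
    refine h5.trans ?_
    rw [Set.encard_prod, encard_Iic]
    rw [Nat.cast_mul]
    exact mul_le_mul_left h4 _

theorem abs_card (hW : WitSem W) (hB : BotSem W B) (hR : RlSem W B R) {j : ℕ} {π : Path}
    (h : Gd W B e j π) : (Abs W B R e π).encard ≤ (aP π : ℕ∞) := by
  have _ := hB
  induction π generalizing j with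
  | nil =>
    have : Abs W B R e [] = ∅ := by
      ext s; simp [Abs]
    simp [this]
  | cons L π ih =>
    have hlen := Gd.length h
    obtain ⟨h1, h2, h3⟩ := h
    have h4 := ih h1
    have h5 := mem_card hW hR h1 fun hk => h3 (leave_of_kref hW hk)
    simp only [List.length_cons] at hlen
    let S : Set Node := {s | s ∈ Abs W B R e (L :: π) ∧ π <:+ path s}
    have hsub : Abs W B R e (L :: π) ⊆ Abs W B R e π ∪ S := by
      intro s hs
      by_cases hp : π <:+ path s
      · exact Or.inr ⟨hs, hp⟩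
      · refine Or.inl ⟨?_, hs.2.1, hs.2.2.1, hp⟩
        have := hs.1
        simp only [List.length_cons] at this
        omega
    have hS : S.encard ≤ (Mem R e π ×ˢ Left W B e j π L).encard := by
      refine encard_le_of_rel (fun s r => ∃ s₁ v, s = s₁ ++ (r.2.1, r.2.2.1, v) :: r.1 ∧
        r.2.2.2 = (s₁.map red).reverse) ?_ ?_
      · rintro s ⟨⟨hl, hr, hu, hn⟩, hp⟩
        obtain ⟨s₂, s₀, rfl, rfl⟩ := split_suffix hp
        rw [path_length] at hlen
        have hne : s₂ ≠ [] := by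
          rintro rfl
          simp [path_length] at hl
        obtain ⟨s₁, ⟨L', k, v⟩, rfl⟩ : ∃ a st, s₂ = a ++ [st] :=
          ⟨_, _, (List.dropLast_append_getLast hne).symm⟩
        rw [List.append_assoc, List.singleton_append] at hr hu hn ⊢
        have hp : Prd W B e (j + 1) (path s₀) L' k :=
          (hR.rs _ _ _ _ _).2 ⟨v, rs_of_nofake hr.2.1 (by omega)⟩
        obtain ⟨hc, hv, hg, -⟩ := (Prd_succ _ _ _ _ _ _ _).1 hp
        rw [Cert_eq] at h2 hc
        have hm : s₀ ∈ Mem R e (path s₀) := by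
          refine ⟨rfl, allReal_suffix (s₁ := s₁ ++ [(L', k, v)]) ?_ (by omega)⟩
          simpa using hr
        rcases certOf_below h2 h3 hc with rfl | ⟨q, hq⟩
        · exact absurd ⟨path s₁, by rw [path_append, path_cons]⟩ hn
        · refine ⟨(s₀, L', k, (s₁.map red).reverse), ⟨hm, q, hq, hv, ?_, ?_⟩, s₁, v, rfl, rfl⟩
          · by_contra hk
            exact hg q.1 (not_le.1 hk) (certOf_of_cons h2 hq).1.1
          · by_cases h6 : s₁ = []
            · left; simp [h6]
            · right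
              exact good_of_unc hR j s₁ ((L', k, v) :: s₀) h6 (by simp) (by simp; omega) hr hu
      · rintro s hs s' hs' b ⟨s₁, v, rfl, h6⟩ ⟨s₁', v', rfl, h7⟩
        refine real_inj hR hs.1.2.1 hs'.1.2.1 ?_
        have h8 : s₁.map red = s₁'.map red := List.reverse_injective (h6.symm.trans h7)
        simp [red, h8]
    refine (Set.encard_le_encard hsub).trans ((Set.encard_union_le _ _).trans ?_)
    rw [aP, Nat.cast_add]
    refine add_le_add h4 (hS.trans ?_)
    rw [Set.encard_prod, Nat.cast_mul]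
    exact mul_le_mul' h5 (left_card L h2)

theorem done_card (hW : WitSem W) (hR : RlSem W B R) {π : Path} {L : Hist} {n : ℕ}
    (h : Gd W B e 0 π) (hn : ¬ Leave W B e 0 π L)
    (hq : {q : Hist × ℕ × Option ℕ | B.Re e π q.1 q.2.1 ∧
      ∀ m ∈ q.2.2, B.Act e π q.1 q.2.1 m}.encard ≤ (n : ℕ∞)) :
    {s : Node | e + 1 ≤ s.length ∧ AllReal R e s ∧ π <:+ path s}.encard ≤
      ((gP (L :: π) * n : ℕ) : ℕ∞) := by
  have hlen := Gd.length h
  have h5 := mem_card hW hR h fun hk => hn (leave_of_kref hW hk)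
  have hS : {s : Node | e + 1 ≤ s.length ∧ AllReal R e s ∧ π <:+ path s}.encard ≤
      (Mem R e π ×ˢ {q : Hist × ℕ × Option ℕ | B.Re e π q.1 q.2.1 ∧
        ∀ m ∈ q.2.2, B.Act e π q.1 q.2.1 m}).encard := by
    refine encard_le_of_rel (fun s r => s.map red =
      (r.2.2.2.toList.map fun m => (([] : Hist), m)) ++ (r.2.1, r.2.2.1) :: r.1.map red) ?_ ?_
    · rintro s ⟨hl, hr, hp⟩
      obtain ⟨s₂, s₀, rfl, rfl⟩ := split_suffix hp
      rw [path_length] at hlen
      have hne : s₂ ≠ [] := by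
        rintro rfl
        simp at hl
        omega
      obtain ⟨s₁, ⟨L', k, v⟩, rfl⟩ : ∃ a st, s₂ = a ++ [st] :=
        ⟨_, _, (List.dropLast_append_getLast hne).symm⟩
      rw [List.append_assoc, List.singleton_append] at hr ⊢
      have hp' : Prd W B e 0 (path s₀) L' k :=
        (hR.rs _ _ _ _ _).2 ⟨v, rs_of_nofake hr.2.1 hlen⟩
      have hm : s₀ ∈ Mem R e (path s₀) := by
        refine ⟨rfl, allReal_suffix (s₁ := s₁ ++ [(L', k, v)]) ?_ (by omega)⟩
        simpa using hr
      by_cases h3 : s₁ = []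
      · exact ⟨(s₀, L', k, none), ⟨hm, hp', by simp⟩, by simp [h3, red]⟩
      · have hl1 : 0 < s₁.length := List.length_pos_iff.2 h3
        have hl2 := hr.1
        simp only [List.length_append, List.length_cons] at hl2
        obtain ⟨m, w, L'', k', v', t₀, h4, -, h6⟩ := hr.2.2 (by simp; omega)
        obtain ⟨a, rfl⟩ : ∃ a, s₁ = [a] := List.length_eq_one_iff.1 (by omega)
        simp only [List.cons_append, List.nil_append, List.cons.injEq, Prod.mk.injEq] at h4
        obtain ⟨rfl, ⟨rfl, rfl, rfl⟩, rfl⟩ := h4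
        refine ⟨(s₀, L', k, some m), ⟨hm, hp', ?_⟩, by simp [red]⟩
        intro m' hm'
        obtain rfl : m = m' := by simpa using hm'
        exact (hR.aw _ _ _ _ _).2 ⟨w, h6⟩
    · intro s hs s' hs' b h6 h7
      exact real_inj hR hs.2.1 hs'.2.1 (h6.trans h7.symm)
  refine hS.trans ?_
  rw [Set.encard_prod, Nat.cast_mul]
  exact mul_le_mul' h5 hq

end Pool.Agent.P.MP_9f8894_lc
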