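import Mathlib
import Pool.Agent.P.MP_9f8894_lc.VChainB

/-! Package VPure: points of pure nodes. -/

set_option autoImplicit false
open Encodable Denumerable Filter TopologicalSpace
open scoped Classical

namespace Pool.Agent.P.MP_9f8894_lc

variable {W : Wit} {B : Bot} {R : Rl} {Sw : TI → Prop} {e : ℕ}

theorem vp_some {s : Node} {c L : ℕ} (h : DeclAt Sw e s c L) : SomeAt Sw e s c L :=
  Set.Infinite.nonempty h

theorem vp_fakes (hR : RlSem W B R) (j : ℕ) (π : Path) :
    {v : ℕ | ¬ R.RS e j π ([], 0, v)}.Infinite := by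
  have hs : {v : ℕ | R.RS e j π ([], 0, v)}.Subsingleton :=
    fun v hv v' hv' => hR.rs_uniq e j π [] 0 v v' hv hv'
  exact hs.finite.infinite_compl

theorem vp_xps_mono {m m' : ℕ} {π : Path} (h : XPs e m π) (hm : m ≤ m') : XPs e m' π :=
  fun L π' j hs hl hj => h L π' j hs hl (hm.trans hj)

theorem vp_pure (hW : WitSem W) (M : Model Sw e) (π : Path) :
    ∀ {j i y : ℕ}, Gd W B e j π → ¬ Kref e j π i → leP e y (cand i).1 →
      nT e 3 (21 + e) y ∧ (∀ j', j ≤ j' → j' ≤ e → nT e 1 (21 + j') y) ∧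
        ∀ L π', L :: π' <:+ π → leP e y (cand (idx L).2).1 := by
  induction π with
  | nil =>
    intro j i y h hi hy
    have hj : j = e := h
    subst hj
    obtain ⟨_, hp⟩ := not_not.1 hi
    refine ⟨M.nT_mono _ _ _ _ hy (hp.2 rfl), fun j' h1 h2 => ?_, fun L π' hs => ?_⟩
    · obtain rfl : j' = j := le_antisymm h2 h1
      exact M.nT_mono _ _ _ _ hy hp.1
    · simp at hs
  | cons L π ih =>
    intro j i y h hi hy
    obtain ⟨hg, _, hl⟩ := h
    obtain ⟨hv, hp⟩ := not_not.1 hi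
    rw [leave_iff hW] at hl
    have hk : ¬ Kref e (j + 1) π (idx L).1 := fun hk => hl (Or.inl hk)
    have hw : Wval e (j + 1) π L := by
      by_contra hw
      exact hl (Or.inr (Or.inl hw))
    have h1 : leP e y (cand (idx L).2).1 := M.le_trans _ _ _ hy (hv.1 L π rfl)
    obtain ⟨a1, a2, a3⟩ := ih hg hk (M.le_trans _ _ _ h1 hw.1)
    refine ⟨a1, fun j' h2 h3 => ?_, fun L' π' hs => ?_⟩
    · rcases h2.eq_or_lt with rfl | h2
      · exact M.nT_mono _ _ _ _ hy hp.1
      · exact a2 j' h2 h3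
    · rcases List.suffix_cons_iff.1 hs with hs | hs
      · obtain ⟨rfl, _⟩ := List.cons.inj hs
        exact h1
      · exact a3 L' π' hs

theorem vp_suffix (π : Path) {n : ℕ} (hn : n < π.length) :
    ∃ L π', L :: π' <:+ π ∧ π'.length = n := by
  induction π with
  | nil => simp at hn
  | cons L π ih =>
    rcases (Nat.lt_succ_iff.1 hn).eq_or_lt with h | h
    · exact ⟨L, π, List.suffix_refl _, h.symm⟩
    · obtain ⟨L', π', h1, h2⟩ := ih h
      exact ⟨L', π', h1.trans (List.suffix_cons _ _), h2⟩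

/-- Nodes above the level reached by procedure `j` are limits of fake potentials. -/
theorem accP_fake (hR : RlSem W B R) (hS : SwSem W B R Sw) {j : ℕ} {s : Node}
    (h : s.length + j ≤ e) : AccP Sw 1 (20 + j) (some (e, s)) := by
  refine Or.inr ?_
  rcases h.eq_or_lt with h | h
  · refine Set.Infinite.mono ?_ ((vp_fakes (e := e) hR j (path s)).image
      (f := fun v : ℕ => (([], 0, v) : Step)) fun v _ v' _ hv => by simpa using hv)
    rintro _ ⟨v, hv, rfl⟩
    refine ⟨_ :: s, List.suffix_refl _, by simp; omega, vp_some (hS.f_decl _ _ _ ?_)⟩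
    exact ⟨[], _, s, rfl, h, hv⟩
  · refine Set.Infinite.mono ?_ (Set.infinite_univ (α := Step))
    intro st _
    obtain ⟨v, hv⟩ := (vp_fakes (e := e) hR j
      (path (List.replicate (e - j - s.length - 1) st ++ st :: s))).nonempty
    refine ⟨([], 0, v) :: (List.replicate (e - j - s.length - 1) st ++ st :: s),
      (List.suffix_append _ _).trans (List.suffix_cons _ _), by simp; omega,
      vp_some (hS.f_decl _ _ _ ?_)⟩
    exact ⟨[], _, _, rfl, by simp; omega, hv⟩

theorem accP_marker (hS : SwSem W B R Sw) {P : Pt} (h : ∀ s, P ≠ some (e, s)) :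
    AccP Sw 3 (21 + e) P := by
  rcases P with _ | ⟨e', s⟩
  · refine Set.Infinite.mono ?_ (Set.finite_singleton e).infinite_compl
    intro e' he
    exact ⟨[], by simp, vp_some (hS.m_decl e' [] e fun h' => he h'.symm)⟩
  · refine Or.inl (hS.m_decl e' s e ?_)
    rintro rfl
    exact h s rfl

theorem pure_point (hW : WitSem W) (hR : RlSem W B R) (hS : SwSem W B R Sw) (M : Model Sw e)
    {j i y : ℕ} {π : Path} {P : Pt} (h : Gd W B e j π) (hi : ¬ Kref e j π i)
    (hy : leP e y (cand i).1) (hP : P ∈ M.pts y) :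
    ∃ s, P = some (e, s) ∧ e ≤ s.length + j ∧ s.length ≤ e + 2 ∧
      (∀ j', j < j' → ¬ HasFake R e s j') ∧
      ∀ j', j ≤ j' → XPs e (j' + 1) π → ¬ HasCov W B R e s j' := by
  obtain ⟨a1, a2, a3⟩ := vp_pure hW M π h hi hy
  have hlen := h.length
  have hex : ∃ s, P = some (e, s) := by
    by_contra hc
    exact M.nT_acc 3 (21 + e) y P (by omega) (by omega) a1 hP
      (accP_marker hS fun s hs => hc ⟨s, hs⟩)
  obtain ⟨s, rfl⟩ := hex
  refine ⟨s, rfl, ?_, M.valid y e s hP, fun j' hj hf => ?_, fun j' hj hx hc => ?_⟩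
  · by_contra hc
    have h1 := accP_fake (e := e) hR hS (j := j + 1) (s := s) (by omega)
    rw [show 20 + (j + 1) = 21 + j by omega] at h1
    exact M.nT_acc 1 (21 + j) y _ (by omega) (by omega) (a2 j le_rfl (by omega)) hP h1
  · have h1 := hS.f_decl _ _ _ hf
    obtain ⟨s₁, st, s₀, _, h2, _⟩ := hf
    rw [show 20 + j' = 21 + (j' - 1) by omega] at h1
    exact M.nT_acc 1 (21 + (j' - 1)) y _ (by omega) (by omega)
      (a2 (j' - 1) (by omega) (by omega)) hP (Or.inl h1)
  · have h1 := hS.x_decl _ _ _ hc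
    obtain ⟨s₁, st, st', s₀, _, h2, _⟩ := hc
    obtain ⟨L, π', h3, h4⟩ := vp_suffix π (n := e - (j' + 1)) (by omega)
    have h5 : nT e 2 (21 + (j' + 1)) y :=
      M.nT_mono _ _ _ _ (a3 L π' h3) (hx L π' (j' + 1) h3 (by omega) le_rfl)
    rw [show 22 + j' = 21 + (j' + 1) by omega] at h1
    exact M.nT_acc 2 (21 + (j' + 1)) y _ (by omega) (by omega) h5 hP (Or.inl h1)

theorem line_point (hW : WitSem W) (hR : RlSem W B R) (hS : SwSem W B R Sw) (M : Model Sw e)
    {j i y : ℕ} {π : Path} (h : Gd W B e j π) (hi : ¬ Kref e j π i)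
    (hy : leP e y (cand i).1) (hl : hA e 4 (17 + j) y) :
    ∃ s, some (e, s) ∈ M.pts y ∧ (s ∈ Mem R e π ∨ s ∈ Abs W B R e π) := by
  obtain ⟨P, hP, hacc⟩ := (M.hA_iff 4 (17 + j) y (by omega) (by omega)).1 hl
  obtain ⟨s, rfl, h1, h2, h3, h4⟩ := pure_point hW hR hS M h hi hy hP
  have hlen := h.length
  have h5 : s.length + j = e := by
    rcases hacc with hd | hd
    · exact hS.t_some _ _ _ (vp_some hd)
    · obtain ⟨st, s', h6, _, h7⟩ := hd.nonempty
      have h8 := hS.t_some _ _ _ h7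
      have h9 := h6.length_le
      simp at h9
      omega
  have hr : AllReal R e s := by
    refine ⟨h2, fun j' hf => ?_, fun h6 => by omega⟩
    refine h3 j' ?_ hf
    obtain ⟨s₁, st, s₀, h6, h7, _⟩ := hf
    have h8 := congrArg List.length h6
    simp at h8
    omega
  refine ⟨s, hP, ?_⟩
  by_cases hp : path s = π
  · exact Or.inl ⟨hp, hr⟩
  · refine Or.inr ⟨by omega, hr, fun j' hj => h4 j' (by omega)
      (vp_xps_mono (xps_of_notKref hW h hi) (by omega)), fun hs => hp ?_⟩
    refine (hs.eq_of_length ?_).symm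
    simp [path]
    omega

theorem k_point (hW : WitSem W) (hR : RlSem W B R) (hS : SwSem W B R Sw) (M : Model Sw e)
    {i y : ℕ} {π : Path} (h : Gd W B e 0 π) (hi : ¬ Kref e 0 π i) (hx : XPs e 1 π)
    (hy : leP e y (cand i).1) (hf : nT e 1 20 y) (hk : hA e 0 18 y) :
    ∃ s, some (e, s) ∈ M.pts y ∧ e + 1 ≤ s.length ∧ AllReal R e s ∧ Unc W B R e s := by
  obtain ⟨P, hP, hacc⟩ := (M.hA_iff 0 18 y (by omega) (by omega)).1 hk
  obtain ⟨s, rfl, h1, h2, h3, h4⟩ := pure_point hW hR hS M h hi hy hP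
  have hn : ¬ AccP Sw 1 20 (some (e, s)) := M.nT_acc 1 20 y _ (by omega) (by omega) hf hP
  refine ⟨s, hP, ?_, ⟨h2, fun j' hf' => ?_, fun h5 => ?_⟩,
    fun j' _ => h4 j' (Nat.zero_le _) (vp_xps_mono hx (by omega))⟩
  · by_contra hc
    exact hn (accP_fake (e := e) hR hS (j := 0) (s := s) (by omega))
  · rcases Nat.eq_zero_or_pos j' with rfl | hj
    · exact hn (Or.inl (hS.f_decl _ _ _ hf'))
    · exact h3 j' hj hf'
  · rcases hacc with hd | hd
    · exact (hS.eta e s).1 hd
    · obtain ⟨st, s', h6, h7, _⟩ := hd.nonempty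
      have h9 := h6.length_le
      simp at h9
      omega

/-- Disjoint nodes contain different points. -/
theorem many_le (M : Model Sw e) {l : List ℕ} (hl : l.Pairwise (djP e)) {S : Set Node}
    (h : ∀ y ∈ l, ∃ s ∈ S, some (e, s) ∈ M.pts y) : (l.length : ℕ∞) ≤ S.encard := by
  induction l generalizing S with
  | nil => simp
  | cons y l ih =>
    obtain ⟨h1, h2⟩ := List.pairwise_cons.1 hl
    obtain ⟨s, hs, hy⟩ := h y (by simp)
    have h3 := ih h2 (S := S \ {s}) fun z hz => by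
      obtain ⟨s', hs', hz'⟩ := h z (by simp [hz])
      refine ⟨s', ⟨hs', ?_⟩, hz'⟩
      rintro rfl
      exact Set.disjoint_left.1 (M.dj_pts y z (h1 z hz)) hy hz'
    rw [← Set.encard_sdiff_singleton_add_one hs, List.length_cons]
    push_cast
    gcongr

/-- Cylinders of different nodes of one level form a candidate list. -/
theorem many_cyl (M : Model Sw e) {c L n U : ℕ} (hc : c ≤ 4) (hL : 16 ≤ L) {l : List Node}
    (hn : l.Nodup) (hlen : l.length = n) {m : ℕ} (hm : m ≤ e + 2)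
    (h : ∀ s ∈ l, s.length = m ∧ leP e (M.cyl s) U ∧ DeclAt Sw e s c L) :
    Many e c L U n (l.map M.cyl) := by
  refine ⟨by simpa using hlen, ?_, fun y hy => ?_⟩
  · rw [List.pairwise_map]
    refine List.Pairwise.imp_of_mem ?_ hn
    intro s s' hs hs' hne
    exact M.cyl_dj s s' ((h s hs).1.trans (h s' hs').1.symm) hne
  · obtain ⟨s, hs, rfl⟩ := List.mem_map.1 hy
    obtain ⟨h1, h2, h3⟩ := h s hs
    exact ⟨h2, (M.hA_iff c L _ hc hL).2 ⟨_, M.cyl_mem s (by omega), Or.inl h3⟩⟩

end Pool.Agent.P.MP_9f8894_lc
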