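import Mathlib
import Pool.Agent.P.MP_9f8894_lc.VCount
import Pool.Agent.P.MP_9f8894_lc.VPure

/-! Package VStopA: the outcomes in which a search never ends. -/

set_option autoImplicit false
open Encodable Denumerable Filter TopologicalSpace
open scoped Classical

namespace Pool.Agent.P.MP_9f8894_lc

variable {W : Wit} {B : Bot} {R : Rl} {Sw : TI → Prop} {e : ℕ}

theorem sa_list {α : Type} {S : Set α} (h : S.Infinite) (n : ℕ) :
    ∃ l : List α, l.Nodup ∧ l.length = n ∧ ∀ x ∈ l, x ∈ S := by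
  obtain ⟨t, ht, hc⟩ := h.exists_subset_card_eq n
  refine ⟨t.toList, t.nodup_toList, by rw [Finset.length_toList, hc], fun x hx => ?_⟩
  exact ht (Finset.mem_coe.2 (Finset.mem_toList.1 hx))

theorem sa_cand (U : ℕ) (l : List ℕ) : cand (encode (U, l)) = (U, l) := by
  unfold cand
  exact ofNat_encode _

theorem sa_path_length (s : Node) : (path s).length = s.length := by
  simp [path]

/-- Below a real step there is no fake potential of the level of this step. -/
theorem sa_not_fake {j : ℕ} {st : Step} {s s' : Node} (hl : s.length + j = e)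
    (hr : R.RS e j (path s) st) (hs : st :: s <:+ s') : ¬ HasFake R e s' j := by
  rintro ⟨s₁, st', s₀, rfl, h₀, hn⟩
  have h1 : st' :: s₀ <:+ s₁ ++ st' :: s₀ := List.suffix_append _ _
  have h2 : st :: s <:+ st' :: s₀ :=
    List.suffix_of_suffix_length_le hs h1 (by simp only [List.length_cons]; omega)
  have h3 : st :: s = st' :: s₀ :=
    h2.eq_of_length (by simp only [List.length_cons]; omega)
  obtain ⟨rfl, rfl⟩ := List.cons.inj h3
  exact hn hr

theorem sa_cyl_nT (hS : SwSem W B R Sw) (M : Model Sw e) {j : ℕ} {st : Step} {s : Node}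
    (hl : s.length + j = e) (hr : R.RS e j (path s) st) : nT e 1 (20 + j) (M.cyl (st :: s)) := by
  refine M.cyl_nT 1 (20 + j) _ (by omega) (by omega) (by simp only [List.length_cons]; omega) ?_
  intro s' hs _ hsome
  exact sa_not_fake hl hr hs (hS.f_some e s' j hsome)

theorem sa_notKref (hW : WitSem W) {j : ℕ} {π : Path} {L : Hist} (hn : ¬ Leave W B e j π L) :
    ¬ Kref e j π (idx L).1 := fun h => hn (leave_of_kref hW h)

theorem sa_wval (hW : WitSem W) {j : ℕ} {π : Path} {L : Hist} (hn : ¬ Leave W B e j π L) :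
    Wval e j π L := by
  by_contra h
  exact hn ((leave_iff hW j π L).2 (Or.inr (Or.inl h)))

/-- Infinitely many produced children give infinitely many real steps inside a node. -/
theorem sa_steps (hR : RlSem W B R) (M : Model Sw e) {j y : ℕ} {π : Path} {L : Hist} {s : Node}
    (hy : some (e, s) ∈ M.pts y) (hl : s.length < e + 2)
    (hinf : {k | Prd W B e j π L k}.Infinite) :
    {st : Step | st.1 = L ∧ Prd W B e j π L st.2.1 ∧ R.RS e j π st ∧
      leP e (M.cyl (st :: s)) y}.Infinite := by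
  have h1 : {st : Step | st.1 = L ∧ Prd W B e j π L st.2.1 ∧ R.RS e j π st}.Infinite := by
    refine Set.Infinite.of_image (fun st : Step => st.2.1) (hinf.mono ?_)
    intro k hk
    obtain ⟨v, hv⟩ := (hR.rs e j π L k).1 hk
    exact ⟨(L, k, v), ⟨rfl, hk, hv⟩, rfl⟩
  refine (h1.sdiff (M.cyl_fin y s hy hl)).mono ?_
  rintro st ⟨⟨a, b, c⟩, d⟩
  exact ⟨a, b, c, not_not.1 d⟩

/-- The context node of a never left attempt contains a member of the group. -/
theorem exists_member (hW : WitSem W) (hB : BotSem W B) (hR : RlSem W B R) (hS : SwSem W B R Sw)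
    (M : Model Sw e) {j : ℕ} {π : Path} {L : Hist} (h : Gd W B e j π)
    (hn : ¬ Leave W B e j π L) : ∃ s ∈ Mem R e π, some (e, s) ∈ M.pts (cand (idx L).2).1 := by
  obtain ⟨hle, hlen, hpw, hall⟩ := sa_wval hW hn
  by_contra hno
  have h1 : ∀ y ∈ (cand (idx L).2).2, ∃ s ∈ Abs W B R e π, some (e, s) ∈ M.pts y := by
    intro y hy
    obtain ⟨hy1, hy2⟩ := hall y hy
    obtain ⟨s, hs, hm | ha⟩ := line_point hW hR hS M h (sa_notKref hW hn)
      (M.le_trans _ _ _ hy1 hle) hy2
    · exact absurd ⟨s, hm, M.pts_mono _ _ hy1 hs⟩ hno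
    · exact ⟨s, ha, hs⟩
  have h2 := (many_le M hpw h1).trans (abs_card hW hB hR h)
  rw [hlen] at h2
  have h3 : aP π + 1 ≤ aP π := by exact_mod_cast h2
  omega

theorem stop_top (hS : SwSem W B R Sw) (M : Model Sw e) : ∃ i, ¬ Kref e e [] i := by
  refine ⟨encode (M.cyl [], [M.cyl []]), not_not.2 ⟨⟨?_, ?_⟩, ?_, ?_⟩⟩
  · intro L π' h
    cases h
  · rw [sa_cand]
    refine ⟨rfl, List.pairwise_singleton _ _, fun y hy => ?_⟩
    obtain rfl := List.mem_singleton.1 hy
    refine ⟨M.le_refl _, (M.hA_iff 4 (17 + e) _ le_rfl (by omega)).2 ?_⟩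
    exact ⟨some (e, []), M.cyl_mem [] (by simp), Or.inl (hS.t_decl e [] e (by simp))⟩
  · rw [sa_cand]
    refine M.cyl_nT 1 (21 + e) [] (by omega) (by omega) (by simp) ?_
    intro s' _ _ hsome
    have h1 : 21 + e = 20 + (e + 1) := by omega
    rw [h1] at hsome
    obtain ⟨s₁, st, s₀, -, h₀, -⟩ := hS.f_some e s' (e + 1) hsome
    omega
  · intro _
    rw [sa_cand]
    refine M.cyl_nT 3 (21 + e) [] (by omega) (by omega) (by simp) ?_
    intro s' _ _ hsome
    exact hS.m_some e s' e hsome rfl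

theorem stop_K (hW : WitSem W) (hB : BotSem W B) (hR : RlSem W B R) (hS : SwSem W B R Sw)
    (M : Model Sw e) {j : ℕ} {π : Path} {L : Hist} (h : Gd W B e j (L :: π)) :
    ∃ i, ¬ Kref e j (L :: π) i := by
  obtain ⟨hg, hc, hn⟩ := h
  by_contra hno
  have hk : ∀ i, Kref e j (L :: π) i := fun i => by
    by_contra h'
    exact hno ⟨i, h'⟩
  obtain ⟨s, ⟨hp, -⟩, hs⟩ := exists_member hW hB hR hS M hg hn
  have hlen : s.length + (j + 1) = e := by
    rw [← sa_path_length, hp]; exact hg.length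
  have hprd : ∀ k, Prd W B e (j + 1) π L k := by
    intro k
    rw [Prd_succ]
    refine ⟨hc, sa_wval hW hn, fun w _ hw => hn ⟨w, hw⟩, ?_, fun i _ => hk i⟩
    rintro L₀ π₀ rfl w _ hw
    exact sa_notKref hW hg.2.2 ((hW.kw _ _ _ _).2 ⟨w, hw⟩)
  have hinf : {k | Prd W B e (j + 1) π L k}.Infinite :=
    Set.infinite_univ.mono fun k _ => hprd k
  obtain ⟨l, hnd, hl, hmem⟩ :=
    sa_list (sa_steps hR M hs (by omega) hinf) (2 * aP (L :: π) + 1)
  obtain ⟨U, hU1, hU2, hU3⟩ := M.union ((l.map fun st => st :: s).map M.cyl)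
  refine hk (encode (U, (l.map fun st => st :: s).map M.cyl)) ⟨⟨?_, ?_⟩, ?_, ?_⟩
  · intro L' π' hL
    obtain ⟨rfl, rfl⟩ := List.cons.inj hL
    rw [sa_cand]
    refine hU2 _ fun y hy => ?_
    obtain ⟨s', hs', rfl⟩ := List.mem_map.1 hy
    obtain ⟨st, hst, rfl⟩ := List.mem_map.1 hs'
    exact (hmem st hst).2.2.2
  · rw [sa_cand]
    refine many_cyl M le_rfl (by omega) (m := s.length + 1)
      (hnd.map fun a b hab => (List.cons.inj hab).1) (by rw [List.length_map, hl]) (by omega) ?_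
    intro s' hs'
    refine ⟨?_, hU1 _ (List.mem_map.2 ⟨s', hs', rfl⟩), ?_⟩
    · obtain ⟨st, -, rfl⟩ := List.mem_map.1 hs'
      rfl
    · obtain ⟨st, -, rfl⟩ := List.mem_map.1 hs'
      exact hS.t_decl e _ j (by simp only [List.length_cons]; omega)
  · rw [sa_cand]
    refine hU3 1 (21 + j) fun y hy => ?_
    obtain ⟨s', hs', rfl⟩ := List.mem_map.1 hy
    obtain ⟨st, hst, rfl⟩ := List.mem_map.1 hs'
    have h1 : 21 + j = 20 + (j + 1) := by omega
    rw [h1]
    exact sa_cyl_nT hS M hlen (by rw [hp]; exact (hmem st hst).2.2.1)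
  · intro h'
    cases h'

theorem stop_open (hW : WitSem W) (hB : BotSem W B) (hR : RlSem W B R) (hS : SwSem W B R Sw)
    (M : Model Sw e) {π : Path} {L : Hist} (h : Gd W B e 0 π) (hc : Cert W B e 0 π L)
    (hn : ¬ Leave W B e 0 π L) : ∃ z, B.Dn e (L :: π) z := by
  by_contra hno
  have hpar : ∀ L₀ π₀, π = L₀ :: π₀ → ¬ Kref e 1 π₀ (idx L₀).1 := by
    rintro L₀ π₀ rfl
    exact sa_notKref hW h.2.2
  obtain ⟨hinf, hact, hwin⟩ := hB.forever e π L hc (sa_wval hW hn) hn hno hpar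
  obtain ⟨s, ⟨hp, -⟩, hs⟩ := exists_member hW hB hR hS M h hn
  have hlen : s.length + 0 = e := by
    rw [← sa_path_length, hp]; exact h.length
  obtain ⟨⟨L', k, v⟩, hL, hre, hrs, hle⟩ :=
    (sa_steps (j := 0) (π := π) (L := L) hR M hs (by omega) hinf).nonempty
  obtain rfl : L' = L := hL
  refine hwin ⟨M.cyl ((L', k, v) :: s), fun n => ⟨hle, ?_, ?_⟩⟩
  · exact sa_cyl_nT (j := 0) hS M hlen (by rw [hp]; exact hrs)
  · have h1 : {st : Step | st.1 = [] ∧ R.AW e π L' k st.2.1 st.2.2}.Infinite := by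
      refine Set.Infinite.of_image (fun st : Step => st.2.1) ((hact k hre).mono ?_)
      intro m hm
      obtain ⟨w, hw⟩ := (hR.aw e π L' k m).1 hm
      exact ⟨([], m, w), ⟨rfl, hw⟩, rfl⟩
    obtain ⟨l, hnd, hl, hmem⟩ := sa_list h1 (aP π + gP (L' :: π) * n + 1)
    refine ⟨(l.map fun st => st :: (L', k, v) :: s).map M.cyl, ?_⟩
    refine many_cyl M (by omega) (by omega) (m := s.length + 2)
      (hnd.map fun a b hab => (List.cons.inj hab).1) (by rw [List.length_map, hl]) (by omega) ?_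
    intro s' hs'
    obtain ⟨⟨L₁, m, w⟩, hst, rfl⟩ := List.mem_map.1 hs'
    obtain ⟨h₁, h₂⟩ := hmem _ hst
    obtain rfl : L₁ = [] := h₁
    refine ⟨rfl, M.cyl_le _ _, (hS.eta e _).2 ⟨m, w, L', k, v, s, rfl, by omega, ?_⟩⟩
    rw [hp]; exact h₂

end Pool.Agent.P.MP_9f8894_lc
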