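import Mathlib
import Pool.Agent.P.MP_9f8894_lc.VCount
import Pool.Agent.P.MP_9f8894_lc.VPure

/-! Package VStopB: the second search ends. -/

set_option autoImplicit false
open Encodable Denumerable Filter TopologicalSpace
open scoped Classical

namespace Pool.Agent.P.MP_9f8894_lc

variable {W : Wit} {B : Bot} {R : Rl} {Sw : TI → Prop} {e : ℕ}

theorem member_not_accX (hW : WitSem W) (hB : BotSem W B) (hR : RlSem W B R)
    (hS : SwSem W B R Sw) {j i : ℕ} {π : Path} (h : Gd W B e j π)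
    (hall : ∀ L, Cert W B e j π L → Leave W B e j π L) (hi : ¬ Kref e j π i)
    (hlt : ∀ i' < i, Kref e j π i') {s : Node} (hs : path s = π) :
    ¬ AccP Sw 2 (21 + j) (some (e, s)) := by
  have hlen : s.length + j = e := by
    have h1 := h.length
    rw [← hs, path, List.length_map] at h1
    exact h1
  have hfin := (chain_all hW hB hall hi hlt).2
  rintro (hd | hinf)
  · obtain ⟨x, hx⟩ := hd.nonempty
    obtain ⟨j', rfl, s₁, st, st', s₀, h1, h2, -⟩ := hS.x_some e s j ⟨x, hx⟩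
    have h3 := congrArg List.length h1
    simp only [List.length_append, List.length_cons] at h3
    omega
  · refine hinf ?_
    have hw : ∀ L, ∃ w, Cert W B e j π L → LW W B e j π L w := fun L => by
      by_cases hc : Cert W B e j π L
      · obtain ⟨w, hw⟩ := hall L hc
        exact ⟨w, fun _ => hw⟩
      · exact ⟨0, fun h' => absurd h' hc⟩
    choose w hw using hw
    have hF : (⋃ L ∈ {L | Cert W B e j π L ∧ (idx L).1 ≠ i}, ⋃ k ∈ Set.Iic (w L),
        {st : Step | st.1 = L ∧ st.2.1 = k ∧ R.RS e j π st}).Finite := by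
      refine hfin.biUnion fun L _ => (Set.finite_Iic _).biUnion fun k _ =>
        Set.Subsingleton.finite ?_
      rintro ⟨L₁, k₁, v₁⟩ ⟨rfl, rfl, h1⟩ ⟨L₂, k₂, v₂⟩ ⟨h2, h3, h4⟩
      dsimp only at h2 h3
      subst h2 h3
      rw [hR.rs_uniq _ _ _ _ _ _ _ h1 h4]
    refine hF.subset ?_
    rintro st ⟨s', hsuf, -, hsome⟩
    obtain ⟨j', rfl, s₁, st₁, st₂, s₀, h1, h2, h3, h4, h5⟩ := hS.x_some e s' j hsome
    have h6 : st₂ :: s₀ <:+ s' := ⟨s₁ ++ [st₁], by rw [h1]; simp⟩
    have h7 : st :: s = st₂ :: s₀ :=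
      (List.suffix_of_suffix_length_le hsuf h6 (by simp only [List.length_cons]; omega)).eq_of_length
        (by simp only [List.length_cons]; omega)
    obtain ⟨rfl, rfl⟩ := List.cons.inj h7
    obtain ⟨L, k, v⟩ := st
    obtain ⟨L', k', v'⟩ := st₁
    have hp : path ((L, k, v) :: s) = L :: π := by rw [← hs]; rfl
    rw [hp] at h3 h5
    rw [hs] at h4
    have hP := (hR.rs e (j' + 1) π L k).2 ⟨v, h4⟩
    have hP' := (hR.rs e j' (L :: π) L' k').2 ⟨v', h3⟩
    obtain ⟨hc, hv, hk, -, -⟩ := (Prd_succ W B e j' π L k).1 hP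
    have hc' := (prd_cert hB hP').1
    have hne : (idx L).1 ≠ i := by
      intro hL
      rcases (leave_iff hW (j' + 1) π L).1 (hall L hc) with h8 | h8 | ⟨-, h8⟩
      · exact hi (hL ▸ h8)
      · exact h8 hv
      · obtain ⟨L'', hc'', hn'', hf''⟩ := (fin2_succ j' (L :: π)).1 h8
        rw [Cert_eq] at hc' hc''
        rcases certOf_below hc'' hn'' hc' with rfl | ⟨q, hq⟩
        · exact h5 (Or.inr hf'')
        · exact h5 (Or.inl ⟨q.1, (certOf_of_cons hc'' hq).1.1⟩)
    simp only [Set.mem_iUnion, Set.mem_ofPred_eq, Set.mem_Iic]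
    exact ⟨L, ⟨hc, hne⟩, k, not_lt.1 fun hlt' => hk _ hlt' (hw L hc), rfl, rfl, h4⟩

theorem stop_W (hW : WitSem W) (hB : BotSem W B) (hR : RlSem W B R) (hS : SwSem W B R Sw)
    (M : Model Sw e) {j : ℕ} {π : Path} (h : Gd W B e j π) (hi : ∃ i, ¬ Kref e j π i) :
    ∃ L, Cert W B e j π L ∧ ¬ Leave W B e j π L := by
  by_contra hcon
  have hall : ∀ L, Cert W B e j π L → Leave W B e j π L := fun L hc => by
    by_contra hn
    exact hcon ⟨L, hc, hn⟩
  have hi0 : ¬ Kref e j π (Nat.find hi) := Nat.find_spec hi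
  have hlt : ∀ i' < Nat.find hi, Kref e j π i' := fun i' hi' => not_not.1 (Nat.find_min hi hi')
  generalize Nat.find hi = i at hi0 hlt
  obtain ⟨⟨-, hl1, hl2, hl3⟩, -⟩ : Kval e j π i ∧ Kpure e j π i := not_not.1 hi0
  let p : ℕ → Prop := fun y => ∃ s ∈ Mem R e π, some (e, s) ∈ M.pts y
  have hA' : (((cand i).2.filter fun y => !decide (p y)).length : ℕ∞) ≤ (aP π : ℕ∞) := by
    refine (many_le M (hl2.sublist List.filter_sublist) fun y hy => ?_).trans
      (abs_card hW hB hR h)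
    obtain ⟨hy1, hy2⟩ := List.mem_filter.1 hy
    obtain ⟨s, hs1, hs2⟩ := line_point hW hR hS M h hi0 (hl3 y hy1).1 (hl3 y hy1).2
    rcases hs2 with hs2 | hs2
    · have hy3 : ¬ p y := by simpa only [Bool.not_eq_true', decide_eq_false_iff_not] using hy2
      exact absurd ⟨s, hs2, hs1⟩ hy3
    · exact ⟨s, hs2, hs1⟩
  have hA2 : ((cand i).2.filter fun y => !decide (p y)).length ≤ aP π := by exact_mod_cast hA'
  have hsum := List.length_eq_length_filter_add (l := (cand i).2) fun y => decide (p y)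
  have hg : ∀ y, ∃ y', p y → leP e y' y ∧ hA e 4 (17 + j) y' ∧ nT e 2 (21 + j) y' := fun y => by
    by_cases hy : p y
    · obtain ⟨s, hs1, hs2⟩ := hy
      obtain ⟨y', h1, h2, h3⟩ := M.shrink 2 (21 + j) y _ (by omega) (by omega) hs2
        (member_not_accX hW hB hR hS h hall hi0 hlt hs1.1)
      refine ⟨y', fun _ => ⟨h1, (M.hA_iff 4 (17 + j) y' le_rfl (by omega)).2 ⟨_, h2, Or.inl ?_⟩, h3⟩⟩
      refine hS.t_decl e s j ?_
      have h4 := h.length
      rw [← hs1.1, path, List.length_map] at h4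
      exact h4
    · exact ⟨0, fun h' => absurd h' hy⟩
  choose g hg using hg
  let l₁ : List ℕ := ((cand i).2.filter fun y => decide (p y)).take (aP π + 1)
  have hsub : l₁.Sublist (cand i).2 := (List.take_sublist _ _).trans List.filter_sublist
  have hp₁ : ∀ y ∈ l₁, p y := fun y hy => by
    simpa using (List.mem_filter.1 (List.mem_of_mem_take hy)).2
  have hlen₁ : l₁.length = aP π + 1 := by
    rw [List.length_take]
    omega
  obtain ⟨U, hU1, hU2, hU3⟩ := M.union (l₁.map g)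
  obtain ⟨L, hc, hL⟩ := (chain_all hW hB hall hi0 hlt).1 (encode (U, l₁.map g))
  have hcand : cand (idx L).2 = (U, l₁.map g) := by
    rw [hL]
    exact Denumerable.ofNat_encode _
  have hi1 : (idx L).1 = i := by rw [hL]
  rcases (leave_iff hW j π L).1 (hall L hc) with h1 | h1 | ⟨h1, -⟩
  · exact hi0 (hi1 ▸ h1)
  · refine h1 ⟨?_, ?_⟩
    · rw [hcand, hi1]
      refine hU2 _ fun y hy => ?_
      obtain ⟨z, hz, rfl⟩ := List.mem_map.1 hy
      exact M.le_trans _ _ _ (hg z (hp₁ z hz)).1 (hl3 z (hsub.subset hz)).1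
    · rw [hcand]
      refine ⟨by rw [List.length_map, hlen₁], ?_, fun y hy => ⟨hU1 y hy, ?_⟩⟩
      · rw [List.pairwise_map]
        exact (hl2.sublist hsub).imp_of_mem fun {a b} ha hb hab =>
          M.dj_mono a _ b _ (hg a (hp₁ a ha)).1 (hg b (hp₁ b hb)).1 hab
      · obtain ⟨z, hz, rfl⟩ := List.mem_map.1 hy
        exact (hg z (hp₁ z hz)).2.1
  · refine h1 ?_
    rw [XP, hcand]
    refine hU3 _ _ fun y hy => ?_
    obtain ⟨z, hz, rfl⟩ := List.mem_map.1 hy
    exact (hg z (hp₁ z hz)).2.2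

end Pool.Agent.P.MP_9f8894_lc
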