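import Mathlib
import Pool.Agent.P.MP_9f8894_lc.VStopA
import Pool.Agent.P.MP_9f8894_lc.VStopB

/-! Package VFin: no index is correct. -/

set_option autoImplicit false
open Encodable Denumerable Filter TopologicalSpace
open scoped Classical

namespace Pool.Agent.P.MP_9f8894_lc

variable {W : Wit} {B : Bot} {R : Rl} {Sw : TI → Prop} {e : ℕ}

theorem stop_done (hW : WitSem W) (hB : BotSem W B) (hR : RlSem W B R) (hS : SwSem W B R Sw)
    (M : Model Sw e) {π : Path} {L : Hist} (h : Gd W B e 0 π) (hc : Cert W B e 0 π L)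
    (hn : ¬ Leave W B e 0 π L) : ¬ ∃ z, B.Dn e (L :: π) z := by
  intro hd
  obtain ⟨y, n, ⟨hy, hf, l, hlen, hpw, hl⟩, hq⟩ := hB.done e π L hc hn hd
  have hn' := hn
  rw [leave_iff hW] at hn'
  push Not at hn'
  obtain ⟨hk, hv, -⟩ := hn'
  have hx := xps_of_done hW h hc hn hd
  have hlen0 : π.length = e := by simpa using h.length
  have h1 := many_le M hpw (S := Abs W B R e π ∪
      {s : Node | e + 1 ≤ s.length ∧ AllReal R e s ∧ π <:+ path s}) fun z hz => by
    obtain ⟨hz1, hz2⟩ := hl z hz
    obtain ⟨s, hs, h1, h2, h3⟩ := k_point hW hR hS M h hk hx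
      (M.le_trans _ _ _ (M.le_trans _ _ _ hz1 hy) hv.1) (M.nT_mono _ _ _ _ hz1 hf) hz2
    refine ⟨s, ?_, hs⟩
    by_cases hp : π <:+ path s
    · exact Or.inr ⟨h1, h2, hp⟩
    · exact Or.inl ⟨by omega, h2, h3, hp⟩
  have h2 := (h1.trans (Set.encard_union_le _ _)).trans
    (add_le_add (abs_card hW hB hR h) (done_card hW hR h hn hq))
  rw [hlen] at h2
  have h3 : aP π + gP (L :: π) * n + 1 ≤ aP π + gP (L :: π) * n := by exact_mod_cast h2
  omega

theorem no_model (hW : WitSem W) (hB : BotSem W B) (hR : RlSem W B R) (hS : SwSem W B R Sw)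
    (M : Model Sw e) : False := by
  have key : ∀ j π, Gd W B e j π → False := by
    intro j
    induction j with
    | zero =>
      intro π h
      have hi : ∃ i, ¬ Kref e 0 π i := by
        cases π with
        | nil => obtain rfl : 0 = e := h; exact stop_top hS M
        | cons L π => exact stop_K hW hB hR hS M h
      obtain ⟨L, hc, hn⟩ := stop_W hW hB hR hS M h hi
      exact stop_done hW hB hR hS M h hc hn (stop_open hW hB hR hS M h hc hn)
    | succ j ih =>
      intro π h
      have hi : ∃ i, ¬ Kref e (j + 1) π i := by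
        cases π with
        | nil => obtain rfl : j + 1 = e := h; exact stop_top hS M
        | cons L π => exact stop_K hW hB hR hS M h
      obtain ⟨L, hc, hn⟩ := stop_W hW hB hR hS M h hi
      exact ih (L :: π) ⟨h, hc, hn⟩
  exact key e [] rfl

end Pool.Agent.P.MP_9f8894_lc
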