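import Mathlib
import Pool.Agent.P.MP_9f8894_lc.VFin
import Pool.Agent.P.MP_9f8894_lc.SwEx
import Pool.Agent.P.MP_9f8894_lc.BotEx
import Pool.Agent.P.MP_9f8894_lc.SkelB
import Pool.Agent.P.MP_9f8894_lc.PresT
import Pool.Agent.P.MP_9f8894_lc.TComp

/-! The main theorem: a tree algebra computable in an oracle with small jump, without computable copy. -/

set_option autoImplicit false
open Encodable Denumerable Filter TopologicalSpace
open scoped Classical

namespace Pool.Agent.P.MP_9f8894_lc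

theorem main_tree : ∃ (T : Tree) (Y : Orc) (e : ℕ ≃ Clopens (XT T)),
    ComputableIn {chi (J^[20] fun _ => false)} (J^[20] Y) ∧
    (ComputableIn₂ {chi Y} fun a b : ℕ => e.symm (e a ⊔ e b)) ∧
    (ComputableIn₂ {chi Y} fun a b : ℕ => e.symm (e a ⊓ e b)) ∧
    (ComputableIn {chi Y} fun a : ℕ => e.symm (e a)ᶜ) ∧
    ∀ f : ℕ ≃ Clopens (XT T), ¬ Computable₂ fun a b : ℕ => f.symm (f a ⊓ f b) := by
  obtain ⟨W, hW, hWc⟩ := exists_wit
  obtain ⟨B, G, hB, hBc, hG, hlow⟩ := exists_bot hW hWc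
  obtain ⟨Y, hY1, hY2⟩ := inversion 19 (ci_join_left (Jn zero 19) G)
  obtain ⟨R, hR, hRc⟩ := exists_rl hWc hBc hG (ci_trans (ci_join_right (Jn zero 19) G) hY1)
  obtain ⟨Sw, hS, hSc⟩ := exists_sw hWc hBc hRc
  obtain ⟨S, hS1, hS2⟩ := exists_swTree hSc
  obtain ⟨e, he⟩ := exists_pres (pc_bigT hS2) (infinite_bigT _) (ci_bigT hS1)
  have h20 : CI (Jn zero 20) (Jn Y 20) := ci_trans (J_mono hY2) hlow
  rw [Jn_eq, Jn_eq] at h20
  refine ⟨_, Y, e, h20, he.1, he.2.1, he.2.2, fun f hf => ?_⟩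
  obtain ⟨i, hi⟩ := exists_goodIdx f hf
  obtain ⟨M⟩ := exists_model hS2 f hi
  exact no_model hW hB hR hS M

end Pool.Agent.P.MP_9f8894_lc
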